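import Pool.Agent.Lib.MP_bc94b4_co.Ch.Ga
import Pool.Agent.Lib.MP_bc94b4_co.Ch.Gb
import Pool.Agent.Lib.MP_bc94b4_co.Ch.Gc
import Pool.Agent.Lib.MP_bc94b4_co.Ch.Gd
import Pool.Agent.Lib.MP_bc94b4_co.Ch.Ge
import Pool.Agent.Lib.MP_bc94b4_co.Ch.Gf
import Pool.Agent.Lib.MP_bc94b4_co.Ch.TabD

/-! Selection of a block and of an entry. -/

set_option autoImplicit false

namespace AcuteCh

/-- block number b of three-term relations -/
noncomputable def G1s (b : ℕ) : ℕ := (cond (Nat.blt b 33) (cond (Nat.blt b 16) (cond (Nat.blt b 8) (cond (Nat.blt b 4) (cond (Nat.blt b 2) (cond (Nat.blt b 1) G1_0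
            G1_1)
          (cond (Nat.blt b 3) G1_2
            G1_3))
        (cond (Nat.blt b 6) (cond (Nat.blt b 5) G1_4
            G1_5)
          (cond (Nat.blt b 7) G1_6
            G1_7)))
      (cond (Nat.blt b 12) (cond (Nat.blt b 10) (cond (Nat.blt b 9) G1_8
            G1_9)
          (cond (Nat.blt b 11) G1_10
            G1_11))
        (cond (Nat.blt b 14) (cond (Nat.blt b 13) G1_12
            G1_13)
          (cond (Nat.blt b 15) G1_14
            G1_15))))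
    (cond (Nat.blt b 24) (cond (Nat.blt b 20) (cond (Nat.blt b 18) (cond (Nat.blt b 17) G1_16
            G1_17)
          (cond (Nat.blt b 19) G1_18
            G1_19))
        (cond (Nat.blt b 22) (cond (Nat.blt b 21) G1_20
            G1_21)
          (cond (Nat.blt b 23) G1_22
            G1_23)))
      (cond (Nat.blt b 28) (cond (Nat.blt b 26) (cond (Nat.blt b 25) G1_24
            G1_25)
          (cond (Nat.blt b 27) G1_26
            G1_27))
        (cond (Nat.blt b 30) (cond (Nat.blt b 29) G1_28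
            G1_29)
          (cond (Nat.blt b 31) G1_30
            (cond (Nat.blt b 32) G1_31
              G1_32))))))
  (cond (Nat.blt b 50) (cond (Nat.blt b 41) (cond (Nat.blt b 37) (cond (Nat.blt b 35) (cond (Nat.blt b 34) G1_33
            G1_34)
          (cond (Nat.blt b 36) G1_35
            G1_36))
        (cond (Nat.blt b 39) (cond (Nat.blt b 38) G1_37
            G1_38)
          (cond (Nat.blt b 40) G1_39
            G1_40)))
      (cond (Nat.blt b 45) (cond (Nat.blt b 43) (cond (Nat.blt b 42) G1_41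
            G1_42)
          (cond (Nat.blt b 44) G1_43
            G1_44))
        (cond (Nat.blt b 47) (cond (Nat.blt b 46) G1_45
            G1_46)
          (cond (Nat.blt b 48) G1_47
            (cond (Nat.blt b 49) G1_48
              G1_49)))))
    (cond (Nat.blt b 58) (cond (Nat.blt b 54) (cond (Nat.blt b 52) (cond (Nat.blt b 51) G1_50
            G1_51)
          (cond (Nat.blt b 53) G1_52
            G1_53))
        (cond (Nat.blt b 56) (cond (Nat.blt b 55) G1_54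
            G1_55)
          (cond (Nat.blt b 57) G1_56
            G1_57)))
      (cond (Nat.blt b 62) (cond (Nat.blt b 60) (cond (Nat.blt b 59) G1_58
            G1_59)
          (cond (Nat.blt b 61) G1_60
            G1_61))
        (cond (Nat.blt b 64) (cond (Nat.blt b 63) G1_62
            G1_63)
          (cond (Nat.blt b 65) G1_64
            (cond (Nat.blt b 66) G1_65
              G1_66)))))))

/-- block number b of sign rules -/
noncomputable def G2s (b : ℕ) : ℕ := (cond (Nat.blt b 15) (cond (Nat.blt b 7) (cond (Nat.blt b 3) (cond (Nat.blt b 1) G2_0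
        (cond (Nat.blt b 2) G2_1
          G2_2))
      (cond (Nat.blt b 5) (cond (Nat.blt b 4) G2_3
          G2_4)
        (cond (Nat.blt b 6) G2_5
          G2_6)))
    (cond (Nat.blt b 11) (cond (Nat.blt b 9) (cond (Nat.blt b 8) G2_7
          G2_8)
        (cond (Nat.blt b 10) G2_9
          G2_10))
      (cond (Nat.blt b 13) (cond (Nat.blt b 12) G2_11
          G2_12)
        (cond (Nat.blt b 14) G2_13
          G2_14))))
  (cond (Nat.blt b 22) (cond (Nat.blt b 18) (cond (Nat.blt b 16) G2_15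
        (cond (Nat.blt b 17) G2_16
          G2_17))
      (cond (Nat.blt b 20) (cond (Nat.blt b 19) G2_18
          G2_19)
        (cond (Nat.blt b 21) G2_20
          G2_21)))
    (cond (Nat.blt b 26) (cond (Nat.blt b 24) (cond (Nat.blt b 23) G2_22
          G2_23)
        (cond (Nat.blt b 25) G2_24
          G2_25))
      (cond (Nat.blt b 28) (cond (Nat.blt b 27) G2_26
          G2_27)
        (cond (Nat.blt b 29) G2_28
          G2_29)))))

noncomputable def H1t (b c : ℕ) : ℕ := (@Bool.rec (fun _ => ℕ) (@Bool.rec (fun _ => ℕ) (@Bool.rec (fun _ => ℕ) (@Bool.rec (fun _ => ℕ) (@Bool.rec (fun _ => ℕ) (@Bool.rec (fun _ => ℕ) (@Bool.rec (fun _ => ℕ) (H1b_66 c)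
        (H1b_65 c) (Nat.blt b 66))
       (H1b_64 c) (Nat.blt b 65))
      (@Bool.rec (fun _ => ℕ) (H1b_63 c)
       (H1b_62 c) (Nat.blt b 63)) (Nat.blt b 64))
     (@Bool.rec (fun _ => ℕ) (@Bool.rec (fun _ => ℕ) (H1b_61 c)
       (H1b_60 c) (Nat.blt b 61))
      (@Bool.rec (fun _ => ℕ) (H1b_59 c)
       (H1b_58 c) (Nat.blt b 59)) (Nat.blt b 60)) (Nat.blt b 62))
    (@Bool.rec (fun _ => ℕ) (@Bool.rec (fun _ => ℕ) (@Bool.rec (fun _ => ℕ) (H1b_57 c)
       (H1b_56 c) (Nat.blt b 57))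
      (@Bool.rec (fun _ => ℕ) (H1b_55 c)
       (H1b_54 c) (Nat.blt b 55)) (Nat.blt b 56))
     (@Bool.rec (fun _ => ℕ) (@Bool.rec (fun _ => ℕ) (H1b_53 c)
       (H1b_52 c) (Nat.blt b 53))
      (@Bool.rec (fun _ => ℕ) (H1b_51 c)
       (H1b_50 c) (Nat.blt b 51)) (Nat.blt b 52)) (Nat.blt b 54)) (Nat.blt b 58))
   (@Bool.rec (fun _ => ℕ) (@Bool.rec (fun _ => ℕ) (@Bool.rec (fun _ => ℕ) (@Bool.rec (fun _ => ℕ) (@Bool.rec (fun _ => ℕ) (H1b_49 c)
        (H1b_48 c) (Nat.blt b 49))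
       (H1b_47 c) (Nat.blt b 48))
      (@Bool.rec (fun _ => ℕ) (H1b_46 c)
       (H1b_45 c) (Nat.blt b 46)) (Nat.blt b 47))
     (@Bool.rec (fun _ => ℕ) (@Bool.rec (fun _ => ℕ) (H1b_44 c)
       (H1b_43 c) (Nat.blt b 44))
      (@Bool.rec (fun _ => ℕ) (H1b_42 c)
       (H1b_41 c) (Nat.blt b 42)) (Nat.blt b 43)) (Nat.blt b 45))
    (@Bool.rec (fun _ => ℕ) (@Bool.rec (fun _ => ℕ) (@Bool.rec (fun _ => ℕ) (H1b_40 c)
       (H1b_39 c) (Nat.blt b 40))
      (@Bool.rec (fun _ => ℕ) (H1b_38 c)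
       (H1b_37 c) (Nat.blt b 38)) (Nat.blt b 39))
     (@Bool.rec (fun _ => ℕ) (@Bool.rec (fun _ => ℕ) (H1b_36 c)
       (H1b_35 c) (Nat.blt b 36))
      (@Bool.rec (fun _ => ℕ) (H1b_34 c)
       (H1b_33 c) (Nat.blt b 34)) (Nat.blt b 35)) (Nat.blt b 37)) (Nat.blt b 41)) (Nat.blt b 50))
  (@Bool.rec (fun _ => ℕ) (@Bool.rec (fun _ => ℕ) (@Bool.rec (fun _ => ℕ) (@Bool.rec (fun _ => ℕ) (@Bool.rec (fun _ => ℕ) (@Bool.rec (fun _ => ℕ) (H1b_32 c)
        (H1b_31 c) (Nat.blt b 32))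
       (H1b_30 c) (Nat.blt b 31))
      (@Bool.rec (fun _ => ℕ) (H1b_29 c)
       (H1b_28 c) (Nat.blt b 29)) (Nat.blt b 30))
     (@Bool.rec (fun _ => ℕ) (@Bool.rec (fun _ => ℕ) (H1b_27 c)
       (H1b_26 c) (Nat.blt b 27))
      (@Bool.rec (fun _ => ℕ) (H1b_25 c)
       (H1b_24 c) (Nat.blt b 25)) (Nat.blt b 26)) (Nat.blt b 28))
    (@Bool.rec (fun _ => ℕ) (@Bool.rec (fun _ => ℕ) (@Bool.rec (fun _ => ℕ) (H1b_23 c)
       (H1b_22 c) (Nat.blt b 23))
      (@Bool.rec (fun _ => ℕ) (H1b_21 c)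
       (H1b_20 c) (Nat.blt b 21)) (Nat.blt b 22))
     (@Bool.rec (fun _ => ℕ) (@Bool.rec (fun _ => ℕ) (H1b_19 c)
       (H1b_18 c) (Nat.blt b 19))
      (@Bool.rec (fun _ => ℕ) (H1b_17 c)
       (H1b_16 c) (Nat.blt b 17)) (Nat.blt b 18)) (Nat.blt b 20)) (Nat.blt b 24))
   (@Bool.rec (fun _ => ℕ) (@Bool.rec (fun _ => ℕ) (@Bool.rec (fun _ => ℕ) (@Bool.rec (fun _ => ℕ) (H1b_15 c)
       (H1b_14 c) (Nat.blt b 15))
      (@Bool.rec (fun _ => ℕ) (H1b_13 c)
       (H1b_12 c) (Nat.blt b 13)) (Nat.blt b 14))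
     (@Bool.rec (fun _ => ℕ) (@Bool.rec (fun _ => ℕ) (H1b_11 c)
       (H1b_10 c) (Nat.blt b 11))
      (@Bool.rec (fun _ => ℕ) (H1b_9 c)
       (H1b_8 c) (Nat.blt b 9)) (Nat.blt b 10)) (Nat.blt b 12))
    (@Bool.rec (fun _ => ℕ) (@Bool.rec (fun _ => ℕ) (@Bool.rec (fun _ => ℕ) (H1b_7 c)
       (H1b_6 c) (Nat.blt b 7))
      (@Bool.rec (fun _ => ℕ) (H1b_5 c)
       (H1b_4 c) (Nat.blt b 5)) (Nat.blt b 6))
     (@Bool.rec (fun _ => ℕ) (@Bool.rec (fun _ => ℕ) (H1b_3 c)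
       (H1b_2 c) (Nat.blt b 3))
      (@Bool.rec (fun _ => ℕ) (H1b_1 c)
       (H1b_0 c) (Nat.blt b 1)) (Nat.blt b 2)) (Nat.blt b 4)) (Nat.blt b 8)) (Nat.blt b 16)) (Nat.blt b 33))

noncomputable def H2t (b c : ℕ) : ℕ := (@Bool.rec (fun _ => ℕ) (@Bool.rec (fun _ => ℕ) (@Bool.rec (fun _ => ℕ) (@Bool.rec (fun _ => ℕ) (@Bool.rec (fun _ => ℕ) (H2b_29 c)
      (H2b_28 c) (Nat.blt b 29))
     (@Bool.rec (fun _ => ℕ) (H2b_27 c)
      (H2b_26 c) (Nat.blt b 27)) (Nat.blt b 28))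
    (@Bool.rec (fun _ => ℕ) (@Bool.rec (fun _ => ℕ) (H2b_25 c)
      (H2b_24 c) (Nat.blt b 25))
     (@Bool.rec (fun _ => ℕ) (H2b_23 c)
      (H2b_22 c) (Nat.blt b 23)) (Nat.blt b 24)) (Nat.blt b 26))
   (@Bool.rec (fun _ => ℕ) (@Bool.rec (fun _ => ℕ) (@Bool.rec (fun _ => ℕ) (H2b_21 c)
      (H2b_20 c) (Nat.blt b 21))
     (@Bool.rec (fun _ => ℕ) (H2b_19 c)
      (H2b_18 c) (Nat.blt b 19)) (Nat.blt b 20))
    (@Bool.rec (fun _ => ℕ) (@Bool.rec (fun _ => ℕ) (H2b_17 c)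
      (H2b_16 c) (Nat.blt b 17))
     (H2b_15 c) (Nat.blt b 16)) (Nat.blt b 18)) (Nat.blt b 22))
  (@Bool.rec (fun _ => ℕ) (@Bool.rec (fun _ => ℕ) (@Bool.rec (fun _ => ℕ) (@Bool.rec (fun _ => ℕ) (H2b_14 c)
      (H2b_13 c) (Nat.blt b 14))
     (@Bool.rec (fun _ => ℕ) (H2b_12 c)
      (H2b_11 c) (Nat.blt b 12)) (Nat.blt b 13))
    (@Bool.rec (fun _ => ℕ) (@Bool.rec (fun _ => ℕ) (H2b_10 c)
      (H2b_9 c) (Nat.blt b 10))
     (@Bool.rec (fun _ => ℕ) (H2b_8 c)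
      (H2b_7 c) (Nat.blt b 8)) (Nat.blt b 9)) (Nat.blt b 11))
   (@Bool.rec (fun _ => ℕ) (@Bool.rec (fun _ => ℕ) (@Bool.rec (fun _ => ℕ) (H2b_6 c)
      (H2b_5 c) (Nat.blt b 6))
     (@Bool.rec (fun _ => ℕ) (H2b_4 c)
      (H2b_3 c) (Nat.blt b 4)) (Nat.blt b 5))
    (@Bool.rec (fun _ => ℕ) (@Bool.rec (fun _ => ℕ) (H2b_2 c)
      (H2b_1 c) (Nat.blt b 2))
     (H2b_0 c) (Nat.blt b 1)) (Nat.blt b 3)) (Nat.blt b 7)) (Nat.blt b 15))

/-- 256 three-term relations -/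
noncomputable def H1s (k : ℕ) : ℕ :=
  frc (Nat.shiftRight k 4) fun b => frc (Nat.land k 15) fun c => H1t b c

/-- 256 sign rules -/
noncomputable def H2s (k : ℕ) : ℕ :=
  frc (Nat.shiftRight k 4) fun b => frc (Nat.land k 15) fun c => H2t b c

/-- number of entries of the blocks of three-term relations -/
def G1N : ℕ := 0xec40ec40ec40ec40ec40f960f960f960f960f960f960f960f960f960f960f960f960f960f960f960f960f960f960f960f960f960f960f960f960f960f960f960f960f960f960f960f960f960f960f960f960f960f960f960f960f960f960f960f960f960f960f960f960f960f960f960f960f960f960f960f960f960f960f960f9608340834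

noncomputable def g1c2 (b k : ℕ) : ℕ := chunk (G1s b) (f16 G1N b) 0x260024002300280020002a k
noncomputable def g1c (k : ℕ) : ℕ :=
  frc (Nat.mod (Nat.shiftRight k 4) 67) fun b => g1c2 b (Nat.land k 15)

/-- entry with code i + 4096 b -/
noncomputable def g1e (c : ℕ) : ℕ :=
  frc (Nat.shiftRight c 8) fun k => f96 (H1s k) (Nat.land c 255)

noncomputable def g2c (k : ℕ) : ℕ :=
  frc (Nat.mod (Nat.shiftRight k 4) 30) fun b => chunk (G2s b) 3360 0x200020005000600090201 (Nat.land k 15)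

/-- entry with code i + 4096 b -/
noncomputable def g2e (c : ℕ) : ℕ :=
  frc (Nat.shiftRight c 8) fun k => f96 (H2s k) (Nat.land c 255)

end AcuteCh
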