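import Pool.Agent.Lib.MP_bc94b4_co.Ch.GenD
import Pool.Agent.Lib.MP_bc94b4_co.Ch.Gb

/-! The blocks agree with the generators. -/

namespace AcuteCh

theorem G1_17_chk : bChk G1_17 15 = true := by decide +kernel
theorem G1_18_chk : bChk G1_18 16 = true := by decide +kernel
theorem G1_19_chk : bChk G1_19 17 = true := by decide +kernel
theorem G1_20_chk : bChk G1_20 18 = true := by decide +kernel
theorem G1_21_chk : bChk G1_21 19 = true := by decide +kernel
theorem G1_22_chk : bChk G1_22 20 = true := by decide +kernel
theorem G1_23_chk : bChk G1_23 21 = true := by decide +kernel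
theorem G1_24_chk : bChk G1_24 22 = true := by decide +kernel
theorem G1_25_chk : bChk G1_25 23 = true := by decide +kernel
theorem G1_26_chk : bChk G1_26 24 = true := by decide +kernel
theorem G1_27_chk : bChk G1_27 25 = true := by decide +kernel
theorem G1_28_chk : bChk G1_28 26 = true := by decide +kernel
theorem G1_29_chk : bChk G1_29 27 = true := by decide +kernel
theorem G1_30_chk : bChk G1_30 28 = true := by decide +kernel
theorem G1_31_chk : bChk G1_31 29 = true := by decide +kernel
theorem G1_32_chk : bChk G1_32 30 = true := by decide +kernel
theorem G1_33_chk : bChk G1_33 31 = true := by decide +kernel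

end AcuteCh
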