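import Pool.Agent.Lib.MP_bc94b4_co.Ch.GenD
import Pool.Agent.Lib.MP_bc94b4_co.Ch.Gc

/-! The blocks agree with the generators. -/

namespace AcuteCh

theorem G1_34_chk : bChk G1_34 32 = true := by decide +kernel
theorem G1_35_chk : bChk G1_35 33 = true := by decide +kernel
theorem G1_36_chk : bChk G1_36 34 = true := by decide +kernel
theorem G1_37_chk : bChk G1_37 35 = true := by decide +kernel
theorem G1_38_chk : bChk G1_38 36 = true := by decide +kernel
theorem G1_39_chk : bChk G1_39 37 = true := by decide +kernel
theorem G1_40_chk : bChk G1_40 38 = true := by decide +kernel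
theorem G1_41_chk : bChk G1_41 39 = true := by decide +kernel
theorem G1_42_chk : bChk G1_42 40 = true := by decide +kernel
theorem G1_43_chk : bChk G1_43 41 = true := by decide +kernel
theorem G1_44_chk : bChk G1_44 42 = true := by decide +kernel
theorem G1_45_chk : bChk G1_45 43 = true := by decide +kernel
theorem G1_46_chk : bChk G1_46 44 = true := by decide +kernel
theorem G1_47_chk : bChk G1_47 45 = true := by decide +kernel
theorem G1_48_chk : bChk G1_48 46 = true := by decide +kernel
theorem G1_49_chk : bChk G1_49 47 = true := by decide +kernel
theorem G1_50_chk : bChk G1_50 48 = true := by decide +kernel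

end AcuteCh
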