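import Pool.Agent.Lib.MP_bc94b4_co.Ch.GenD
import Pool.Agent.Lib.MP_bc94b4_co.Ch.Gd

/-! The blocks agree with the generators. -/

namespace AcuteCh

theorem G1_51_chk : bChk G1_51 49 = true := by decide +kernel
theorem G1_52_chk : bChk G1_52 50 = true := by decide +kernel
theorem G1_53_chk : bChk G1_53 51 = true := by decide +kernel
theorem G1_54_chk : bChk G1_54 52 = true := by decide +kernel
theorem G1_55_chk : bChk G1_55 53 = true := by decide +kernel
theorem G1_56_chk : bChk G1_56 54 = true := by decide +kernel
theorem G1_57_chk : bChk G1_57 55 = true := by decide +kernel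
theorem G1_58_chk : bChk G1_58 56 = true := by decide +kernel
theorem G1_59_chk : bChk G1_59 57 = true := by decide +kernel
theorem G1_60_chk : bChk G1_60 58 = true := by decide +kernel
theorem G1_61_chk : bChk G1_61 59 = true := by decide +kernel
theorem G1_62_chk : aChk G1_62 0 = true := by decide +kernel
theorem G1_63_chk : aChk G1_63 1 = true := by decide +kernel
theorem G1_64_chk : aChk G1_64 2 = true := by decide +kernel
theorem G1_65_chk : aChk G1_65 3 = true := by decide +kernel
theorem G1_66_chk : aChk G1_66 4 = true := by decide +kernel

end AcuteCh
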