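import Pool.Agent.Lib.MP_bc94b4_co.Ch.GenD
import Pool.Agent.Lib.MP_bc94b4_co.Ch.Ge

/-! The blocks agree with the generators. -/

namespace AcuteCh

theorem G2_0_chk : nChk G2_0 0 = true := by decide +kernel
theorem G2_1_chk : nChk G2_1 1 = true := by decide +kernel
theorem G2_2_chk : nChk G2_2 2 = true := by decide +kernel
theorem G2_3_chk : nChk G2_3 3 = true := by decide +kernel
theorem G2_4_chk : nChk G2_4 4 = true := by decide +kernel
theorem G2_5_chk : nChk G2_5 5 = true := by decide +kernel
theorem G2_6_chk : nChk G2_6 6 = true := by decide +kernel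
theorem G2_7_chk : nChk G2_7 7 = true := by decide +kernel
theorem G2_8_chk : nChk G2_8 8 = true := by decide +kernel
theorem G2_9_chk : nChk G2_9 9 = true := by decide +kernel
theorem G2_10_chk : nChk G2_10 10 = true := by decide +kernel
theorem G2_11_chk : nChk G2_11 11 = true := by decide +kernel
theorem G2_12_chk : nChk G2_12 12 = true := by decide +kernel
theorem G2_13_chk : nChk G2_13 13 = true := by decide +kernel
theorem G2_14_chk : nChk G2_14 14 = true := by decide +kernel

end AcuteCh
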