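import Pool.Agent.Lib.MP_bc94b4_co.Ch.Gen

/-! Meaning of the generators that are used on demand. -/

set_option autoImplicit false

namespace AcuteCh

/-- rotated word of six positions -/
def odW (o rot : ℕ) : ℕ :=
  Nat.shiftRight (Nat.mul (Nat.land (Nat.shiftRight OT (Nat.mul 18 o)) 262143) 262145) (Nat.mul 6 rot)

def OtOK (o rot W : ℕ) : Prop :=
  f6 W 0 = f3 W 0 + 8 * f3 W 1 ∧ f6 W 1 = f3 W 2 + 8 * f3 W 3 ∧
  (f3 W 0 = ot o (2 * rot % 6) ∧ f3 W 1 = ot o ((2 * rot + 1) % 6) ∧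
    f3 W 2 = ot o ((2 * rot + 2) % 6) ∧ f3 W 3 = ot o ((2 * rot + 3) % 6) ∧
    f3 W 4 = ot o ((2 * rot + 4) % 6) ∧ f3 W 5 = ot o ((2 * rot + 5) % 6)) ∧
  g3c (f3 W 0) (f3 W 1) (f3 W 4) ≠ 0 ∧ g3c (f3 W 2) (f3 W 3) (f3 W 5) ≠ 0 ∧
  g3c (f3 W 0) (f3 W 1) (f3 W 5) ≠ 0 ∧ g3c (f3 W 2) (f3 W 3) (f3 W 4) ≠ 0 ∧
  ot o 0 ≠ ot o 1 ∧ ot o 2 ≠ ot o 3 ∧ ot o 4 ≠ ot o 5

instance (o rot W : ℕ) : Decidable (OtOK o rot W) := by unfold OtOK; infer_instance

theorem tab_ot : allB 21 (fun a => allB 20 fun b => allB 3 fun rot =>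
    decide (OtOK (20 * a + b) rot (odW (20 * a + b) rot))) = true := by decide +kernel

theorem ot_lt (o i : ℕ) : ot o i < 8 := lit_fld_lt 3 _ _

theorem ovC_o (X : Fin 10 → Pt) {r o : ℕ} (hr : r < 45) (ho : o < 420) :
    cval X (14848 + 2 * (420 * r + o))
      = ov (ext X) (kk r) (ot o 0) (ot o 1) (ot o 2) (ot o 3) (ot o 4) (ot o 5) := by
  rw [cval, ren, if_neg (by omega), ← ovL_val _ hr ho, ovL]
  congr 1
  omega

theorem odef1_tri {X : Fin 10 → Pt} (hX : Good X) {r o rot : ℕ} (hr : r < 45) (ho : o < 420)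
    (hrot : rot < 3) : Tri (cval X) (odef1 r o rot) := by
  have h := allB_spec (allB_spec (allB_spec tab_ot (o / 20) (by omega)) (o % 20) (by omega)) rot hrot
  rw [show 20 * (o / 20) + o % 20 = o by omega, decide_eq_true_eq] at h
  change Tri _ (odef2 (dbR r) (odW o rot) (14849 + 2 * (420 * r + o)))
  generalize odW o rot = W at h
  obtain ⟨e1, e2, ⟨p0, p1, p2, p3, p4, p5⟩, n1, n2, n3, n4, d1, d2, d3⟩ := h
  have hk := good_gen8 hX hr
  have hov : ov (ext X) (kk r) (ot o 0) (ot o 1) (ot o 2) (ot o 3) (ot o 4) (ot o 5)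
      = ov (ext X) (kk r) (f3 W 0) (f3 W 1) (f3 W 2) (f3 W 3) (f3 W 4) (f3 W 5) := by
    rw [p0, p1, p2, p3, p4, p5]
    have r1 := ov_rot _ _ hk _ _ _ _ _ _ (ot_lt o 0) (ot_lt o 1) (ot_lt o 2) (ot_lt o 3)
      (ot_lt o 4) (ot_lt o 5) d1 d2 d3
    have r2 := ov_rot _ _ hk _ _ _ _ _ _ (ot_lt o 2) (ot_lt o 3) (ot_lt o 4) (ot_lt o 5)
      (ot_lt o 0) (ot_lt o 1) d2 d3 d1
    interval_cases rot
    · rfl
    · exact r1
    · exact r1.trans r2
  have l0 : cval X (14849 + 2 * (420 * r + o)) = - cval X (14848 + 2 * (420 * r + o)) := by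
    rw [← cval_xor, Nat.xor_one_of_even (by rw [Nat.even_iff]; omega)]
    congr 1
    omega
  refine tri_pk6 _ (by omega) (by norm_num) (f16_lt _ _) (f16_lt _ _) (gen_x1 (f16_lt _ _))
    (f16_lt _ _) ?_
  have v1 := (dbC_spec X hr (f3_lt W 0) (f3_lt W 1) (f3_lt W 4)).2 n1
  have v2 := (dbC_spec X hr (f3_lt W 2) (f3_lt W 3) (f3_lt W 5)).2 n2
  have v3 := (dbC_spec X hr (f3_lt W 0) (f3_lt W 1) (f3_lt W 5)).2 n3
  have v4 := (dbC_spec X hr (f3_lt W 2) (f3_lt W 3) (f3_lt W 4)).2 n4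
  rw [← e1] at v1 v3
  rw [← e2] at v2 v4
  change cval X _ * cval X 0 + cval X (f16 (dbR r) (f6 W 0 + 64 * f3 W 4))
    * cval X (f16 (dbR r) (f6 W 1 + 64 * f3 W 5)) + cval X (f16 (dbR r) (f6 W 0 + 64 * f3 W 5) ^^^ 1)
    * cval X (f16 (dbR r) (f6 W 1 + 64 * f3 W 4)) = 0
  rw [l0, ovC_o X hr ho, hov, cval_zero, cval_xor, v1, v2, v3, v4, ov]
  ring

theorem frc_eq (x : ℕ) (k : ℕ → ℕ) : frc x k = k x := rfl

theorem odefE_tri {X : Fin 10 → Pt} (hX : Good X) (c : ℕ) : Tri (cval X) (odefE c) := by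
  rw [odefE, frc_eq]
  exact odef1_tri hX (Nat.mod_lt _ (by norm_num)) (Nat.mod_lt _ (by norm_num))
    (Nat.mod_lt _ (by norm_num))

/-- the shape d says that one of the two products vanishes and names the other one -/
def OdP (a b c d e f x : ℕ) : Prop :=
  (x / 262144 % 2 = 0 ∧ (g3c a b f = 0 ∨ g3c c d e = 0) ∧ g3c a b e ≠ 0 ∧ g3c c d f ≠ 0 ∧
    x % 512 = a + 8 * b + 64 * e ∧ x / 512 % 512 = c + 8 * d + 64 * f) ∨
  (x / 262144 % 2 = 1 ∧ (g3c a b e = 0 ∨ g3c c d f = 0) ∧ g3c a b f ≠ 0 ∧ g3c c d e ≠ 0 ∧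
    x % 512 = a + 8 * b + 64 * f ∧ x / 512 % 512 = c + 8 * d + 64 * e)

instance (a b c d e f x : ℕ) : Decidable (OdP a b c d e f x) := by unfold OdP; infer_instance

def OdOK (a b c d e f x : ℕ) : Prop :=
  if x < 512 then x ≤ 420 ∧ ot (x - 1) 0 = a ∧ ot (x - 1) 1 = b ∧ ot (x - 1) 2 = c ∧
    ot (x - 1) 3 = d ∧ ot (x - 1) 4 = e ∧ ot (x - 1) 5 = f
  else OdP a b c d e f x ∨ OdP c d e f a b x ∨ OdP e f a b c d x

instance (a b c d e f x : ℕ) : Decidable (OdOK a b c d e f x) := by unfold OdOK; infer_instance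

theorem tab_od : allB 28 (fun t => allB 28 fun q => allB 28 fun p => Nat.beq (odX p q t) 0 ||
    decide (OdOK (f8 PR p % 8) (f8 PR p / 8) (f8 PR q % 8) (f8 PR q / 8) (f8 PR t % 8) (f8 PR t / 8)
      (odX p q t))) = true := by decide +kernel

theorem tab_pr : ∀ p < 28, f8 PR p % 8 < f8 PR p / 8 ∧ f8 PR p / 8 < 8 := by decide +kernel

theorem odP_val (X : Fin 10 → Pt) {r a b c d e f x : ℕ} (hr : r < 45) (ha : a < 8) (hb : b < 8)
    (hc : c < 8) (hd : d < 8) (he : e < 8) (hf : f < 8) (h : OdP a b c d e f x) :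
    cval X (f16 (dbR r) (x % 512) ^^^ (x / 262144 % 2)) * cval X (f16 (dbR r) (x / 512 % 512))
      = ov (ext X) (kk r) a b c d e f := by
  rcases h with ⟨s, z, n1, n2, i1, i2⟩ | ⟨s, z, n1, n2, i1, i2⟩
  · rw [s, i1, i2, Nat.xor_zero, (dbC_spec X hr ha hb he).2 n1, (dbC_spec X hr hc hd hf).2 n2, ov]
    rcases z with z | z <;> rw [db_zero _ _ z] <;> ring
  · rw [s, i1, i2, cval_xor, (dbC_spec X hr ha hb hf).2 n1, (dbC_spec X hr hc hd he).2 n2, ov]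
    rcases z with z | z <;> rw [db_zero _ _ z] <;> ring

theorem ovC_val {X : Fin 10 → Pt} (hX : Good X) {r p q t : ℕ} (hr : r < 45) (hp : p < 28)
    (hq : q < 28) (ht : t < 28) (h : odX p q t ≠ 0) :
    ∃ l1 l2, l1 < 65536 ∧ l2 < 65536 ∧ ovC (dbR r) r (odX p q t) = l1 + 65536 * l2 ∧
      cval X l1 * cval X l2 = ov (ext X) (kk r) (f8 PR p % 8) (f8 PR p / 8) (f8 PR q % 8)
        (f8 PR q / 8) (f8 PR t % 8) (f8 PR t / 8) := by
  have h1 := allB_spec (allB_spec (allB_spec tab_od t ht) q hq) p hp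
  rw [Bool.or_eq_true, decide_eq_true_eq] at h1
  replace h1 := h1.resolve_left fun e => h (gen_beq e)
  obtain ⟨a1, a2⟩ := tab_pr p hp
  obtain ⟨b1, b2⟩ := tab_pr q hq
  obtain ⟨c1, c2⟩ := tab_pr t ht
  generalize odX p q t = x at h h1 ⊢
  generalize f8 PR p % 8 = a at *
  generalize f8 PR p / 8 = b at *
  generalize f8 PR q % 8 = c at *
  generalize f8 PR q / 8 = d at *
  generalize f8 PR t % 8 = e at *
  generalize f8 PR t / 8 = f at *
  rw [OdOK] at h1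
  by_cases hx : x < 512
  · rw [if_pos hx] at h1
    obtain ⟨h2, e0, e1, e2, e3, e4, e5⟩ := h1
    have eb : Nat.blt x 512 = true := by rw [Nat.blt_eq]; exact hx
    refine ⟨14848 + 2 * (420 * r + (x - 1)), 0, by omega, by norm_num, ?_, ?_⟩
    · rw [ovC, eb, Bool.cond_true]
      change 14846 + 2 * (420 * r + x) = _
      omega
    · rw [ovC_o X hr (by omega), e0, e1, e2, e3, e4, e5, cval_zero, mul_one]
  · rw [if_neg hx] at h1
    have eb : Nat.blt x 512 = false := by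
      cases hc : Nat.blt x 512
      · rfl
      · rw [Nat.blt_eq] at hc; exact absurd hc hx
    have hk := good_gen8 hX hr
    refine ⟨f16 (dbR r) (x % 512) ^^^ (x / 262144 % 2), f16 (dbR r) (x / 512 % 512),
      xor_lt16 (f16_lt _ _) (by omega), f16_lt _ _, ?_, ?_⟩
    · have m1 : Nat.land x 511 = x % 512 := Nat.and_two_pow_sub_one_eq_mod x 9
      have m2 : Nat.land (Nat.shiftRight x 18) 1 = x / 262144 % 2 := by
        rw [show Nat.shiftRight x 18 = x / 262144 from Nat.shiftRight_eq_div_pow x 18]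
        exact Nat.and_two_pow_sub_one_eq_mod _ 1
      have m3 : Nat.land (Nat.shiftRight x 9) 511 = x / 512 % 512 := by
        rw [show Nat.shiftRight x 9 = x / 512 from Nat.shiftRight_eq_div_pow x 9]
        exact Nat.and_two_pow_sub_one_eq_mod _ 9
      rw [ovC, eb, m1, m2, m3, Bool.cond_false]
      rfl
    · have r1 := ov_rot _ _ hk a b c d e f (by omega) a2 (by omega) b2 (by omega) c2 a1.ne b1.ne
        c1.ne
      have r2 := ov_rot _ _ hk c d e f a b (by omega) b2 (by omega) c2 (by omega) a2 b1.ne c1.ne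
        a1.ne
      rcases h1 with h1 | h1 | h1
      · exact odP_val X hr (by omega) a2 (by omega) b2 (by omega) c2 h1
      · rw [r1]; exact odP_val X hr (by omega) b2 (by omega) c2 (by omega) a2 h1
      · rw [r1, r2]; exact odP_val X hr (by omega) c2 (by omega) a2 (by omega) b2 h1

theorem quad_pk (s : ℕ → ℝ) {a0 a1 a2 a3 a4 a5 a6 a7 a8 a9 a10 a11 : ℕ} (h0 : a0 < 65536)
    (h1 : a1 < 65536) (h2 : a2 < 65536) (h3 : a3 < 65536) (h4 : a4 < 65536) (h5 : a5 < 65536)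
    (h6 : a6 < 65536) (h7 : a7 < 65536) (h8 : a8 < 65536) (h9 : a9 < 65536) (h10 : a10 < 65536)
    (h11 : a11 < 65536)
    (h : s a0 * s a1 * s a2 + s a3 * s a4 * s a5 + s a6 * s a7 * s a8 + s a9 * s a10 * s a11 = 0) :
    Quad s (a0 + 65536 * (a1 + 65536 * (a2 + 65536 * (a3 + 65536 * (a4 + 65536 * (a5 + 65536 *
      (a6 + 65536 * (a7 + 65536 * (a8 + 65536 * (a9 + 65536 * (a10 + 65536 * a11))))))))))) := by
  have S : ∀ a r i, a < 65536 → fld 16 (a + 65536 * r) (i + 1) = fld 16 r i :=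
    fun a r i ha => lit_fldS a r i ha
  have Z : ∀ a r, a < 65536 → fld 16 (a + 65536 * r) 0 = a := fun a r ha => lit_fld0 a r ha
  unfold Quad
  rw [Z _ _ h0, S _ _ 0 h0, S _ _ 1 h0, S _ _ 2 h0, S _ _ 3 h0, S _ _ 4 h0, S _ _ 5 h0, S _ _ 6 h0,
    S _ _ 7 h0, S _ _ 8 h0, S _ _ 9 h0, S _ _ 10 h0,
    Z _ _ h1, S _ _ 0 h1, S _ _ 1 h1, S _ _ 2 h1, S _ _ 3 h1, S _ _ 4 h1, S _ _ 5 h1, S _ _ 6 h1,
    S _ _ 7 h1, S _ _ 8 h1, S _ _ 9 h1,
    Z _ _ h2, S _ _ 0 h2, S _ _ 1 h2, S _ _ 2 h2, S _ _ 3 h2, S _ _ 4 h2, S _ _ 5 h2, S _ _ 6 h2,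
    S _ _ 7 h2, S _ _ 8 h2,
    Z _ _ h3, S _ _ 0 h3, S _ _ 1 h3, S _ _ 2 h3, S _ _ 3 h3, S _ _ 4 h3, S _ _ 5 h3, S _ _ 6 h3,
    S _ _ 7 h3,
    Z _ _ h4, S _ _ 0 h4, S _ _ 1 h4, S _ _ 2 h4, S _ _ 3 h4, S _ _ 4 h4, S _ _ 5 h4, S _ _ 6 h4,
    Z _ _ h5, S _ _ 0 h5, S _ _ 1 h5, S _ _ 2 h5, S _ _ 3 h5, S _ _ 4 h5, S _ _ 5 h5,
    Z _ _ h6, S _ _ 0 h6, S _ _ 1 h6, S _ _ 2 h6, S _ _ 3 h6, S _ _ 4 h6,
    Z _ _ h7, S _ _ 0 h7, S _ _ 1 h7, S _ _ 2 h7, S _ _ 3 h7,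
    Z _ _ h8, S _ _ 0 h8, S _ _ 1 h8, S _ _ 2 h8,
    Z _ _ h9, S _ _ 0 h9, S _ _ 1 h9, Z _ _ h10, S _ _ 0 h10, lit_fldL _ h11]
  exact h

theorem qT_val {X : Fin 10 → Pt} (hX : Good X) {r h i p q t : ℕ} (hr : r < 45) (hh : h < 256)
    (hi : i < 28) (hp : p < 28) (hq : q < 28) (ht : t < 28)
    (hx : f16 (fR 4096 RS (f8 PR i)) h ≠ 0) (hd : odX p q t ≠ 0) :
    ∃ l0 l1 l2, l0 < 65536 ∧ l1 < 65536 ∧ l2 < 65536 ∧
      qT (dbR r) r (f8 PR i) (f16 (fR 4096 RS (f8 PR i)) h) (odX p q t)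
        = l0 + 65536 * (l1 + 65536 * l2) ∧
      cval X l0 * cval X l1 * cval X l2
        = dl (ext X) (gh (ext X) r h) (kk r) (f8 PR i % 8) (f8 PR i / 8) *
          ov (ext X) (kk r) (f8 PR p % 8) (f8 PR p / 8) (f8 PR q % 8) (f8 PR q / 8) (f8 PR t % 8)
            (f8 PR t / 8) := by
  obtain ⟨l1, l2, b1, b2, e, v⟩ := ovC_val hX hr hp hq ht hd
  obtain ⟨a1, a2⟩ := tab_pr i hi
  have e0 : f8 PR i % 8 + 8 * (f8 PR i / 8) = f8 PR i := Nat.mod_add_div _ _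
  have h1 := dlC_val X (a := f8 PR i % 8) (b := f8 PR i / 8) hr (by omega) a2 hh (by rwa [e0])
  rw [e0] at h1
  refine ⟨_, l1, l2, h1.2.1, b1, b2, ?_, ?_⟩
  · rw [qT, e]; rfl
  · rw [h1.2.2, mul_assoc, v]

theorem gen_xor_low (a r : ℕ) : Nat.xor (a + 65536 * r) 1 = (a ^^^ 1) + 65536 * r := by
  have := gen_add_xor (32768 * r) a 1 (by norm_num)
  rw [show 2 * (32768 * r) = 65536 * r by ring, Nat.add_comm, Nat.add_comm _ a] at this
  exact this.symm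

theorem gen_q4 (k A B C D : ℕ) :
    Nat.add A (Nat.mul k (Nat.add B (Nat.mul k (Nat.add C (Nat.mul k D)))))
      = A + k * (B + k * (C + k * D)) := rfl

theorem quad1_quad {X : Fin 10 → Pt} (hX : Good X) {r h i0 i1 i2 i3 : ℕ} (hr : r < 45)
    (hh : h < 256) (h0 : i0 < 28) (h1 : i1 < 28) (h2 : i2 < 28) (h3 : i3 < 28) :
    Quad (cval X) (quad1 r h i0 i1 i2 i3) := by
  rw [quad1, quad2, quad3]
  cases hz : Nat.beq _ 0
  · have hz' := Nat.ne_of_beq_eq_false hz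
    change _ * _ * (_ * _) * (_ * _ * (_ * _)) ≠ 0 at hz'
    simp only [ne_eq, Nat.mul_eq_zero, not_or] at hz'
    obtain ⟨⟨⟨x0, x1⟩, x2, x3⟩, ⟨d0, d1⟩, d2, d3⟩ := hz'
    obtain ⟨a0, a1, a2, b0, b1, b2, e0, v0⟩ := qT_val hX hr hh h0 h1 h2 h3 x0 d0
    obtain ⟨a3, a4, a5, b3, b4, b5, e1, v1⟩ := qT_val hX hr hh h1 h0 h2 h3 x1 d1
    obtain ⟨a6, a7, a8, b6, b7, b8, e2, v2⟩ := qT_val hX hr hh h2 h0 h1 h3 x2 d2
    obtain ⟨a9, a10, a11, b9, b10, b11, e3, v3⟩ := qT_val hX hr hh h3 h0 h1 h2 x3 d3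
    rw [e0, e1, e2, e3, gen_xor_low, gen_xor_low]
    have key := quad_pk (cval X) b0 b1 b2 (gen_x1 b3) b4 b5 b6 b7 b8 (gen_x1 b9) b10 b11 (by
      obtain ⟨p1, p2⟩ := tab_pr i0 h0
      obtain ⟨q1, q2⟩ := tab_pr i1 h1
      obtain ⟨t1, t2⟩ := tab_pr i2 h2
      obtain ⟨u1, u2⟩ := tab_pr i3 h3
      have := four (ext X) (gh (ext X) r h) (kk r) (good_gen8 hX hr) _ _ _ _ _ _ _ _
        (p1.trans p2) p2 (q1.trans q2) q2 (t1.trans t2) t2 (u1.trans u2) u2 p1.ne q1.ne t1.ne u1.ne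
      rw [cval_xor, cval_xor]
      linear_combination this + v0 - v1 + v2 - v3)
    rw [Bool.cond_false, gen_q4]
    convert key using 1
    ring
  · have key := quad_pk (cval X) (a0 := 0) (a1 := 0) (a2 := 0) (a3 := 1) (a4 := 0) (a5 := 0)
      (a6 := 0) (a7 := 0) (a8 := 0) (a9 := 1) (a10 := 0) (a11 := 0) (by norm_num) (by norm_num)
      (by norm_num) (by norm_num) (by norm_num) (by norm_num) (by norm_num) (by norm_num)
      (by norm_num) (by norm_num) (by norm_num) (by norm_num) (by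
        have := cval_xor X 0
        rw [Nat.zero_xor] at this
        rw [this, cval_zero]; ring)
    rw [Bool.cond_true]
    exact key

theorem quadE_quad {X : Fin 10 → Pt} (hX : Good X) (c : ℕ) : Quad (cval X) (quadE c) := by
  rw [quadE, frc_eq, frc_eq, frc_eq, frc_eq, frc_eq]
  exact quad1_quad hX (Nat.mod_lt _ (by norm_num))
    (lt_of_le_of_lt (Nat.and_le_right (n := c) (m := 255)) (by norm_num))
    (Nat.mod_lt _ (by norm_num)) (Nat.mod_lt _ (by norm_num)) (Nat.mod_lt _ (by norm_num))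
    (Nat.mod_lt _ (by norm_num))

theorem tab_qpol : ∀ u < 16, ∀ v < 16, ∀ q < 2, ∀ t < 4,
    fld 16 (qpol1 (spr4 u) (spr4 v) (Nat.mul q 0x1000000000001000000000001000000000001)) (3 * t) < 2 ∧
    fld 16 (qpol1 (spr4 u) (spr4 v) (Nat.mul q 0x1000000000001000000000001000000000001)) (3 * t + 1) < 2 ∧
    fld 16 (qpol1 (spr4 u) (spr4 v) (Nat.mul q 0x1000000000001000000000001000000000001)) (3 * t + 2) < 2 ∧
    (fld 16 (qpol1 (spr4 u) (spr4 v) (Nat.mul q 0x1000000000001000000000001000000000001)) (3 * t) +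
      fld 16 (qpol1 (spr4 u) (spr4 v) (Nat.mul q 0x1000000000001000000000001000000000001)) (3 * t + 1) +
      fld 16 (qpol1 (spr4 u) (spr4 v) (Nat.mul q 0x1000000000001000000000001000000000001)) (3 * t + 2))
        % 2 = q := by decide +kernel

theorem gen_pol3 {s : ℕ → ℝ} (hs : Valn s) (a b c x y z q : ℕ) (hx : x < 2) (hy : y < 2)
    (hz : z < 2) (h : (x + y + z) % 2 = q) :
    s (a ^^^ x) * s (b ^^^ y) * s (c ^^^ z) = (-1) ^ q * (s a * s b * s c) := by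
  subst h
  interval_cases x <;> interval_cases y <;> interval_cases z <;> simp [hs.2.1]

theorem quad_pol {s : ℕ → ℝ} (hs : Valn s) {e : ℕ} (h : Quad s e) (b : ℕ) :
    Quad s (Nat.xor e (qpol b)) := by
  have hu : Nat.land b 15 < 16 := lt_of_le_of_lt (Nat.and_le_right (n := b) (m := 15)) (by norm_num)
  have hv : Nat.land (Nat.shiftRight b 4) 15 < 16 :=
    lt_of_le_of_lt (Nat.and_le_right (n := Nat.shiftRight b 4) (m := 15)) (by norm_num)
  have hq : Nat.land (Nat.shiftRight b 8) 1 < 2 :=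
    lt_of_le_of_lt (Nat.and_le_right (n := Nat.shiftRight b 8) (m := 1)) (by norm_num)
  have t := tab_qpol _ hu _ hv _ hq
  change ∀ t < 4, fld 16 (qpol b) (3 * t) < 2 ∧ fld 16 (qpol b) (3 * t + 1) < 2 ∧
    fld 16 (qpol b) (3 * t + 2) < 2 ∧ (fld 16 (qpol b) (3 * t) + fld 16 (qpol b) (3 * t + 1)
      + fld 16 (qpol b) (3 * t + 2)) % 2 = _ at t
  obtain ⟨a0, a1, a2, a3⟩ := t 0 (by norm_num)
  obtain ⟨b0, b1, b2, b3⟩ := t 1 (by norm_num)
  obtain ⟨c0, c1, c2, c3⟩ := t 2 (by norm_num)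
  obtain ⟨d0, d1, d2, d3⟩ := t 3 (by norm_num)
  change Quad s (e ^^^ qpol b)
  unfold Quad at h ⊢
  simp only [lp_fld_xor]
  rw [gen_pol3 hs _ _ _ _ _ _ _ a0 a1 a2 a3, gen_pol3 hs _ _ _ _ _ _ _ b0 b1 b2 b3,
    gen_pol3 hs _ _ _ _ _ _ _ c0 c1 c2 c3, gen_pol3 hs _ _ _ _ _ _ _ d0 d1 d2 d3]
  linear_combination (-1) ^ (Nat.land (Nat.shiftRight b 8) 1) * h

theorem gen_fld_shift (w T a j : ℕ) : fld w (T >>> (w * a)) j = fld w T (a + j) := by
  simp only [fld]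
  rw [← Nat.shiftRight_add, Nat.mul_add]

theorem chk1_fld (A e m j : ℕ) (hj : j < 256) (he : ∀ t < 256, fld 96 (e * REP) t = e) :
    fld 96 (chk1 A e m) j = if j < m then fld 96 A j else e := by
  have h0 : fld 96 (chk1 A e m) j = fld 96 (A % 2 ^ (96 * m) + (e * REP) <<< (96 * m)) j := by
    have := fld_fld 96 256 (A % 2 ^ (96 * m) + (e * REP) <<< (96 * m)) 0 j hj
    rw [Nat.mul_zero, Nat.zero_add] at this
    exact this
  rw [h0]
  generalize e * REP = B at he ⊢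
  split_ifs with h
  · have h1 := fld_fld 96 m (A % 2 ^ (96 * m) + B <<< (96 * m)) 0 j h
    have h2 := fld_fld 96 m A 0 j h
    rw [Nat.mul_zero, Nat.zero_add] at h1 h2
    rw [← h1, ← h2]
    congr 1
    simp only [fld, Nat.mul_zero, Nat.shiftRight_zero, Nat.shiftLeft_eq]
    rw [Nat.add_mul_mod_self_right, Nat.mod_mod]
  · obtain ⟨t, rfl⟩ : ∃ t, j = m + t := ⟨j - m, by omega⟩
    rw [← gen_fld_shift, Nat.shiftRight_eq_div_pow, Nat.shiftLeft_eq,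
      Nat.add_mul_div_right _ _ (by positivity), Nat.div_eq_of_lt (Nat.mod_lt _ (by positivity)),
      Nat.zero_add]
    exact he t (by omega)

theorem chunk_fld (T n e k j : ℕ) (hj : j < 256) (he : ∀ t < 256, fld 96 (e * REP) t = e) :
    fld 96 (chunk T n e k) j = e ∨
      (256 * k + j < n ∧ fld 96 (chunk T n e k) j = fld 96 T (256 * k + j)) := by
  rw [chunk, chk1_fld _ _ _ _ hj he]
  split_ifs with h
  · refine Or.inr ⟨?_, ?_⟩
    · revert h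
      change j < cond (Nat.blt (n - 256 * k) 256) (n - 256 * k) 256 → _
      cases hc : Nat.blt (n - 256 * k) 256
      · have : ¬ (n - 256 * k < 256) := by rw [← Nat.blt_eq, hc]; simp
        omega
      · rw [Bool.cond_true]; omega
    · rw [← gen_fld_shift]
      congr 1
      change T >>> (24576 * k) = _
      congr 1
      ring
  · exact Or.inl rfl

end AcuteCh
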