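import Pool.Agent.Lib.MP_bc94b4_co.Ch.GenD
import Pool.Agent.Lib.MP_bc94b4_co.Ch.Gf

/-! The blocks agree with the generators. -/

namespace AcuteCh

theorem G2_15_chk : nChk G2_15 15 = true := by decide +kernel
theorem G2_16_chk : nChk G2_16 16 = true := by decide +kernel
theorem G2_17_chk : nChk G2_17 17 = true := by decide +kernel
theorem G2_18_chk : nChk G2_18 18 = true := by decide +kernel
theorem G2_19_chk : nChk G2_19 19 = true := by decide +kernel
theorem G2_20_chk : nChk G2_20 20 = true := by decide +kernel
theorem G2_21_chk : nChk G2_21 21 = true := by decide +kernel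
theorem G2_22_chk : nChk G2_22 22 = true := by decide +kernel
theorem G2_23_chk : nChk G2_23 23 = true := by decide +kernel
theorem G2_24_chk : nChk G2_24 24 = true := by decide +kernel
theorem G2_25_chk : nChk G2_25 25 = true := by decide +kernel
theorem G2_26_chk : nChk G2_26 26 = true := by decide +kernel
theorem G2_27_chk : nChk G2_27 27 = true := by decide +kernel
theorem G2_28_chk : nChk G2_28 28 = true := by decide +kernel
theorem G2_29_chk : nChk G2_29 29 = true := by decide +kernel

end AcuteCh
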