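import Pool.Agent.Lib.MP_bc94b4_co.Ch.GaC
import Pool.Agent.Lib.MP_bc94b4_co.Ch.GbC
import Pool.Agent.Lib.MP_bc94b4_co.Ch.GcC
import Pool.Agent.Lib.MP_bc94b4_co.Ch.GdC
import Pool.Agent.Lib.MP_bc94b4_co.Ch.GeC
import Pool.Agent.Lib.MP_bc94b4_co.Ch.GfC
import Pool.Agent.Lib.MP_bc94b4_co.Ch.GSel
import Pool.Agent.Lib.MP_bc94b4_co.Ch.GenQ

/-! The tabulated relations hold for a good tuple. -/

set_option autoImplicit false

namespace AcuteCh

variable {X : Fin 10 → Pt}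

theorem G1_0_ok (hX : Good X) : TriT (cval X) G1_0 2100 := gpChk_ok hX (by norm_num) G1_0_chk
theorem G1_1_ok (hX : Good X) : TriT (cval X) G1_1 2100 := gpChk_ok hX (by norm_num) G1_1_chk
theorem G1_2_ok (hX : Good X) : TriT (cval X) G1_2 3990 := bChk_ok hX (by norm_num) G1_2_chk
theorem G1_3_ok (hX : Good X) : TriT (cval X) G1_3 3990 := bChk_ok hX (by norm_num) G1_3_chk
theorem G1_4_ok (hX : Good X) : TriT (cval X) G1_4 3990 := bChk_ok hX (by norm_num) G1_4_chk
theorem G1_5_ok (hX : Good X) : TriT (cval X) G1_5 3990 := bChk_ok hX (by norm_num) G1_5_chk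
theorem G1_6_ok (hX : Good X) : TriT (cval X) G1_6 3990 := bChk_ok hX (by norm_num) G1_6_chk
theorem G1_7_ok (hX : Good X) : TriT (cval X) G1_7 3990 := bChk_ok hX (by norm_num) G1_7_chk
theorem G1_8_ok (hX : Good X) : TriT (cval X) G1_8 3990 := bChk_ok hX (by norm_num) G1_8_chk
theorem G1_9_ok (hX : Good X) : TriT (cval X) G1_9 3990 := bChk_ok hX (by norm_num) G1_9_chk
theorem G1_10_ok (hX : Good X) : TriT (cval X) G1_10 3990 := bChk_ok hX (by norm_num) G1_10_chk
theorem G1_11_ok (hX : Good X) : TriT (cval X) G1_11 3990 := bChk_ok hX (by norm_num) G1_11_chk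
theorem G1_12_ok (hX : Good X) : TriT (cval X) G1_12 3990 := bChk_ok hX (by norm_num) G1_12_chk
theorem G1_13_ok (hX : Good X) : TriT (cval X) G1_13 3990 := bChk_ok hX (by norm_num) G1_13_chk
theorem G1_14_ok (hX : Good X) : TriT (cval X) G1_14 3990 := bChk_ok hX (by norm_num) G1_14_chk
theorem G1_15_ok (hX : Good X) : TriT (cval X) G1_15 3990 := bChk_ok hX (by norm_num) G1_15_chk
theorem G1_16_ok (hX : Good X) : TriT (cval X) G1_16 3990 := bChk_ok hX (by norm_num) G1_16_chk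
theorem G1_17_ok (hX : Good X) : TriT (cval X) G1_17 3990 := bChk_ok hX (by norm_num) G1_17_chk
theorem G1_18_ok (hX : Good X) : TriT (cval X) G1_18 3990 := bChk_ok hX (by norm_num) G1_18_chk
theorem G1_19_ok (hX : Good X) : TriT (cval X) G1_19 3990 := bChk_ok hX (by norm_num) G1_19_chk
theorem G1_20_ok (hX : Good X) : TriT (cval X) G1_20 3990 := bChk_ok hX (by norm_num) G1_20_chk
theorem G1_21_ok (hX : Good X) : TriT (cval X) G1_21 3990 := bChk_ok hX (by norm_num) G1_21_chk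
theorem G1_22_ok (hX : Good X) : TriT (cval X) G1_22 3990 := bChk_ok hX (by norm_num) G1_22_chk
theorem G1_23_ok (hX : Good X) : TriT (cval X) G1_23 3990 := bChk_ok hX (by norm_num) G1_23_chk
theorem G1_24_ok (hX : Good X) : TriT (cval X) G1_24 3990 := bChk_ok hX (by norm_num) G1_24_chk
theorem G1_25_ok (hX : Good X) : TriT (cval X) G1_25 3990 := bChk_ok hX (by norm_num) G1_25_chk
theorem G1_26_ok (hX : Good X) : TriT (cval X) G1_26 3990 := bChk_ok hX (by norm_num) G1_26_chk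
theorem G1_27_ok (hX : Good X) : TriT (cval X) G1_27 3990 := bChk_ok hX (by norm_num) G1_27_chk
theorem G1_28_ok (hX : Good X) : TriT (cval X) G1_28 3990 := bChk_ok hX (by norm_num) G1_28_chk
theorem G1_29_ok (hX : Good X) : TriT (cval X) G1_29 3990 := bChk_ok hX (by norm_num) G1_29_chk
theorem G1_30_ok (hX : Good X) : TriT (cval X) G1_30 3990 := bChk_ok hX (by norm_num) G1_30_chk
theorem G1_31_ok (hX : Good X) : TriT (cval X) G1_31 3990 := bChk_ok hX (by norm_num) G1_31_chk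
theorem G1_32_ok (hX : Good X) : TriT (cval X) G1_32 3990 := bChk_ok hX (by norm_num) G1_32_chk
theorem G1_33_ok (hX : Good X) : TriT (cval X) G1_33 3990 := bChk_ok hX (by norm_num) G1_33_chk
theorem G1_34_ok (hX : Good X) : TriT (cval X) G1_34 3990 := bChk_ok hX (by norm_num) G1_34_chk
theorem G1_35_ok (hX : Good X) : TriT (cval X) G1_35 3990 := bChk_ok hX (by norm_num) G1_35_chk
theorem G1_36_ok (hX : Good X) : TriT (cval X) G1_36 3990 := bChk_ok hX (by norm_num) G1_36_chk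
theorem G1_37_ok (hX : Good X) : TriT (cval X) G1_37 3990 := bChk_ok hX (by norm_num) G1_37_chk
theorem G1_38_ok (hX : Good X) : TriT (cval X) G1_38 3990 := bChk_ok hX (by norm_num) G1_38_chk
theorem G1_39_ok (hX : Good X) : TriT (cval X) G1_39 3990 := bChk_ok hX (by norm_num) G1_39_chk
theorem G1_40_ok (hX : Good X) : TriT (cval X) G1_40 3990 := bChk_ok hX (by norm_num) G1_40_chk
theorem G1_41_ok (hX : Good X) : TriT (cval X) G1_41 3990 := bChk_ok hX (by norm_num) G1_41_chk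
theorem G1_42_ok (hX : Good X) : TriT (cval X) G1_42 3990 := bChk_ok hX (by norm_num) G1_42_chk
theorem G1_43_ok (hX : Good X) : TriT (cval X) G1_43 3990 := bChk_ok hX (by norm_num) G1_43_chk
theorem G1_44_ok (hX : Good X) : TriT (cval X) G1_44 3990 := bChk_ok hX (by norm_num) G1_44_chk
theorem G1_45_ok (hX : Good X) : TriT (cval X) G1_45 3990 := bChk_ok hX (by norm_num) G1_45_chk
theorem G1_46_ok (hX : Good X) : TriT (cval X) G1_46 3990 := bChk_ok hX (by norm_num) G1_46_chk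
theorem G1_47_ok (hX : Good X) : TriT (cval X) G1_47 3990 := bChk_ok hX (by norm_num) G1_47_chk
theorem G1_48_ok (hX : Good X) : TriT (cval X) G1_48 3990 := bChk_ok hX (by norm_num) G1_48_chk
theorem G1_49_ok (hX : Good X) : TriT (cval X) G1_49 3990 := bChk_ok hX (by norm_num) G1_49_chk
theorem G1_50_ok (hX : Good X) : TriT (cval X) G1_50 3990 := bChk_ok hX (by norm_num) G1_50_chk
theorem G1_51_ok (hX : Good X) : TriT (cval X) G1_51 3990 := bChk_ok hX (by norm_num) G1_51_chk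
theorem G1_52_ok (hX : Good X) : TriT (cval X) G1_52 3990 := bChk_ok hX (by norm_num) G1_52_chk
theorem G1_53_ok (hX : Good X) : TriT (cval X) G1_53 3990 := bChk_ok hX (by norm_num) G1_53_chk
theorem G1_54_ok (hX : Good X) : TriT (cval X) G1_54 3990 := bChk_ok hX (by norm_num) G1_54_chk
theorem G1_55_ok (hX : Good X) : TriT (cval X) G1_55 3990 := bChk_ok hX (by norm_num) G1_55_chk
theorem G1_56_ok (hX : Good X) : TriT (cval X) G1_56 3990 := bChk_ok hX (by norm_num) G1_56_chk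
theorem G1_57_ok (hX : Good X) : TriT (cval X) G1_57 3990 := bChk_ok hX (by norm_num) G1_57_chk
theorem G1_58_ok (hX : Good X) : TriT (cval X) G1_58 3990 := bChk_ok hX (by norm_num) G1_58_chk
theorem G1_59_ok (hX : Good X) : TriT (cval X) G1_59 3990 := bChk_ok hX (by norm_num) G1_59_chk
theorem G1_60_ok (hX : Good X) : TriT (cval X) G1_60 3990 := bChk_ok hX (by norm_num) G1_60_chk
theorem G1_61_ok (hX : Good X) : TriT (cval X) G1_61 3990 := bChk_ok hX (by norm_num) G1_61_chk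
theorem G1_62_ok (_hX : Good X) : TriT (cval X) G1_62 3780 := aChk_ok X (by norm_num) G1_62_chk
theorem G1_63_ok (_hX : Good X) : TriT (cval X) G1_63 3780 := aChk_ok X (by norm_num) G1_63_chk
theorem G1_64_ok (_hX : Good X) : TriT (cval X) G1_64 3780 := aChk_ok X (by norm_num) G1_64_chk
theorem G1_65_ok (_hX : Good X) : TriT (cval X) G1_65 3780 := aChk_ok X (by norm_num) G1_65_chk
theorem G1_66_ok (_hX : Good X) : TriT (cval X) G1_66 3780 := aChk_ok X (by norm_num) G1_66_chk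
theorem G2_0_ok (hX : Good X) : NspT (cval X) G2_0 3360 := nChk_ok hX (by norm_num) G2_0_chk
theorem G2_1_ok (hX : Good X) : NspT (cval X) G2_1 3360 := nChk_ok hX (by norm_num) G2_1_chk
theorem G2_2_ok (hX : Good X) : NspT (cval X) G2_2 3360 := nChk_ok hX (by norm_num) G2_2_chk
theorem G2_3_ok (hX : Good X) : NspT (cval X) G2_3 3360 := nChk_ok hX (by norm_num) G2_3_chk
theorem G2_4_ok (hX : Good X) : NspT (cval X) G2_4 3360 := nChk_ok hX (by norm_num) G2_4_chk
theorem G2_5_ok (hX : Good X) : NspT (cval X) G2_5 3360 := nChk_ok hX (by norm_num) G2_5_chk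
theorem G2_6_ok (hX : Good X) : NspT (cval X) G2_6 3360 := nChk_ok hX (by norm_num) G2_6_chk
theorem G2_7_ok (hX : Good X) : NspT (cval X) G2_7 3360 := nChk_ok hX (by norm_num) G2_7_chk
theorem G2_8_ok (hX : Good X) : NspT (cval X) G2_8 3360 := nChk_ok hX (by norm_num) G2_8_chk
theorem G2_9_ok (hX : Good X) : NspT (cval X) G2_9 3360 := nChk_ok hX (by norm_num) G2_9_chk
theorem G2_10_ok (hX : Good X) : NspT (cval X) G2_10 3360 := nChk_ok hX (by norm_num) G2_10_chk
theorem G2_11_ok (hX : Good X) : NspT (cval X) G2_11 3360 := nChk_ok hX (by norm_num) G2_11_chk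
theorem G2_12_ok (hX : Good X) : NspT (cval X) G2_12 3360 := nChk_ok hX (by norm_num) G2_12_chk
theorem G2_13_ok (hX : Good X) : NspT (cval X) G2_13 3360 := nChk_ok hX (by norm_num) G2_13_chk
theorem G2_14_ok (hX : Good X) : NspT (cval X) G2_14 3360 := nChk_ok hX (by norm_num) G2_14_chk
theorem G2_15_ok (hX : Good X) : NspT (cval X) G2_15 3360 := nChk_ok hX (by norm_num) G2_15_chk
theorem G2_16_ok (hX : Good X) : NspT (cval X) G2_16 3360 := nChk_ok hX (by norm_num) G2_16_chk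
theorem G2_17_ok (hX : Good X) : NspT (cval X) G2_17 3360 := nChk_ok hX (by norm_num) G2_17_chk
theorem G2_18_ok (hX : Good X) : NspT (cval X) G2_18 3360 := nChk_ok hX (by norm_num) G2_18_chk
theorem G2_19_ok (hX : Good X) : NspT (cval X) G2_19 3360 := nChk_ok hX (by norm_num) G2_19_chk
theorem G2_20_ok (hX : Good X) : NspT (cval X) G2_20 3360 := nChk_ok hX (by norm_num) G2_20_chk
theorem G2_21_ok (hX : Good X) : NspT (cval X) G2_21 3360 := nChk_ok hX (by norm_num) G2_21_chk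
theorem G2_22_ok (hX : Good X) : NspT (cval X) G2_22 3360 := nChk_ok hX (by norm_num) G2_22_chk
theorem G2_23_ok (hX : Good X) : NspT (cval X) G2_23 3360 := nChk_ok hX (by norm_num) G2_23_chk
theorem G2_24_ok (hX : Good X) : NspT (cval X) G2_24 3360 := nChk_ok hX (by norm_num) G2_24_chk
theorem G2_25_ok (hX : Good X) : NspT (cval X) G2_25 3360 := nChk_ok hX (by norm_num) G2_25_chk
theorem G2_26_ok (hX : Good X) : NspT (cval X) G2_26 3360 := nChk_ok hX (by norm_num) G2_26_chk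
theorem G2_27_ok (hX : Good X) : NspT (cval X) G2_27 3360 := nChk_ok hX (by norm_num) G2_27_chk
theorem G2_28_ok (hX : Good X) : NspT (cval X) G2_28 3360 := nChk_ok hX (by norm_num) G2_28_chk
theorem G2_29_ok (hX : Good X) : NspT (cval X) G2_29 3360 := nChk_ok hX (by norm_num) G2_29_chk

theorem G1s_ok (hX : Good X) : ∀ b < 67, TriT (cval X) (G1s b) (f16 G1N b)
  | 0, _ => G1_0_ok hX
  | 1, _ => G1_1_ok hX
  | 2, _ => G1_2_ok hX
  | 3, _ => G1_3_ok hX
  | 4, _ => G1_4_ok hX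
  | 5, _ => G1_5_ok hX
  | 6, _ => G1_6_ok hX
  | 7, _ => G1_7_ok hX
  | 8, _ => G1_8_ok hX
  | 9, _ => G1_9_ok hX
  | 10, _ => G1_10_ok hX
  | 11, _ => G1_11_ok hX
  | 12, _ => G1_12_ok hX
  | 13, _ => G1_13_ok hX
  | 14, _ => G1_14_ok hX
  | 15, _ => G1_15_ok hX
  | 16, _ => G1_16_ok hX
  | 17, _ => G1_17_ok hX
  | 18, _ => G1_18_ok hX
  | 19, _ => G1_19_ok hX
  | 20, _ => G1_20_ok hX
  | 21, _ => G1_21_ok hX
  | 22, _ => G1_22_ok hX
  | 23, _ => G1_23_ok hX
  | 24, _ => G1_24_ok hX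
  | 25, _ => G1_25_ok hX
  | 26, _ => G1_26_ok hX
  | 27, _ => G1_27_ok hX
  | 28, _ => G1_28_ok hX
  | 29, _ => G1_29_ok hX
  | 30, _ => G1_30_ok hX
  | 31, _ => G1_31_ok hX
  | 32, _ => G1_32_ok hX
  | 33, _ => G1_33_ok hX
  | 34, _ => G1_34_ok hX
  | 35, _ => G1_35_ok hX
  | 36, _ => G1_36_ok hX
  | 37, _ => G1_37_ok hX
  | 38, _ => G1_38_ok hX
  | 39, _ => G1_39_ok hX
  | 40, _ => G1_40_ok hX
  | 41, _ => G1_41_ok hX
  | 42, _ => G1_42_ok hX
  | 43, _ => G1_43_ok hX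
  | 44, _ => G1_44_ok hX
  | 45, _ => G1_45_ok hX
  | 46, _ => G1_46_ok hX
  | 47, _ => G1_47_ok hX
  | 48, _ => G1_48_ok hX
  | 49, _ => G1_49_ok hX
  | 50, _ => G1_50_ok hX
  | 51, _ => G1_51_ok hX
  | 52, _ => G1_52_ok hX
  | 53, _ => G1_53_ok hX
  | 54, _ => G1_54_ok hX
  | 55, _ => G1_55_ok hX
  | 56, _ => G1_56_ok hX
  | 57, _ => G1_57_ok hX
  | 58, _ => G1_58_ok hX
  | 59, _ => G1_59_ok hX
  | 60, _ => G1_60_ok hX
  | 61, _ => G1_61_ok hX
  | 62, _ => G1_62_ok hX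
  | 63, _ => G1_63_ok hX
  | 64, _ => G1_64_ok hX
  | 65, _ => G1_65_ok hX
  | 66, _ => G1_66_ok hX
  | _ + 67, h => absurd h (by omega)

theorem G2s_ok (hX : Good X) : ∀ b < 30, NspT (cval X) (G2s b) 3360
  | 0, _ => G2_0_ok hX
  | 1, _ => G2_1_ok hX
  | 2, _ => G2_2_ok hX
  | 3, _ => G2_3_ok hX
  | 4, _ => G2_4_ok hX
  | 5, _ => G2_5_ok hX
  | 6, _ => G2_6_ok hX
  | 7, _ => G2_7_ok hX
  | 8, _ => G2_8_ok hX
  | 9, _ => G2_9_ok hX
  | 10, _ => G2_10_ok hX
  | 11, _ => G2_11_ok hX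
  | 12, _ => G2_12_ok hX
  | 13, _ => G2_13_ok hX
  | 14, _ => G2_14_ok hX
  | 15, _ => G2_15_ok hX
  | 16, _ => G2_16_ok hX
  | 17, _ => G2_17_ok hX
  | 18, _ => G2_18_ok hX
  | 19, _ => G2_19_ok hX
  | 20, _ => G2_20_ok hX
  | 21, _ => G2_21_ok hX
  | 22, _ => G2_22_ok hX
  | 23, _ => G2_23_ok hX
  | 24, _ => G2_24_ok hX
  | 25, _ => G2_25_ok hX
  | 26, _ => G2_26_ok hX
  | 27, _ => G2_27_ok hX
  | 28, _ => G2_28_ok hX
  | 29, _ => G2_29_ok hX
  | _ + 30, h => absurd h (by omega)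

theorem tab_e1 : fld 96 G1_0 0 = 0x260024002300280020002a ∧ ∀ t < 256, fld 96 (0x260024002300280020002a * REP) t = 0x260024002300280020002a := by
  decide +kernel

theorem tab_e2 : fld 96 G2_0 0 = 0x200020005000600090201 ∧ ∀ t < 256, fld 96 (0x200020005000600090201 * REP) t = 0x200020005000600090201 := by
  decide +kernel

theorem g1c_ok (hX : Good X) (k : ℕ) : TriT (cval X) (g1c k) 256 := by
  intro j hj
  have hb : Nat.mod (Nat.shiftRight k 4) 67 < 67 := Nat.mod_lt _ (by norm_num)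
  rw [g1c, frc_eq, g1c2]
  rcases chunk_fld _ _ _ _ j hj tab_e1.2 with h | ⟨h1, h⟩
  · rw [h, ← tab_e1.1]
    exact G1_0_ok hX 0 (by norm_num)
  · rw [h]
    exact G1s_ok hX _ hb _ h1

theorem g2c_ok (hX : Good X) (k : ℕ) : NspT (cval X) (g2c k) 256 := by
  intro j hj
  have hb : Nat.mod (Nat.shiftRight k 4) 30 < 30 := Nat.mod_lt _ (by norm_num)
  rw [g2c, frc_eq]
  rcases chunk_fld _ _ _ _ j hj tab_e2.2 with h | ⟨h1, h⟩
  · rw [h, ← tab_e2.1]
    exact G2_0_ok hX 0 (by norm_num)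
  · rw [h]
    exact G2s_ok hX _ hb _ h1

theorem tab_h1 : allB 67 (fun b => allB 16 fun c => Nat.beq (H1t b c) (g1c (16 * b + c)) ||
    Nat.beq (H1t b c) (g1c (16 * b + (f16 G1N b - 1) / 256))) = true := by decide +kernel

theorem tab_h2 : allB 30 (fun b => allB 16 fun c => Nat.beq (H2t b c) (g2c (16 * b + c)) ||
    Nat.beq (H2t b c) (g2c (16 * b + 13))) = true := by decide +kernel

theorem gen_blt {b m : ℕ} (h : m ≤ b) : Nat.blt b m = false := by
  cases hc : Nat.blt b m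
  · rfl
  · rw [Nat.blt_eq] at hc; omega

theorem gen_l15 (c : ℕ) : Nat.land c 15 < 16 :=
  lt_of_le_of_lt (Nat.and_le_right (n := c) (m := 15)) (by norm_num)

theorem H1t_ok (hX : Good X) (b c : ℕ) (hc : c < 16) : TriT (cval X) (H1t b c) 256 := by
  have key : ∀ b < 67, TriT (cval X) (H1t b c) 256 := fun b hb => by
    have h := allB_spec (allB_spec tab_h1 b hb) c hc
    rw [Bool.or_eq_true] at h
    rcases h with h | h <;> rw [gen_beq h] <;> exact g1c_ok hX _
  by_cases hb : b < 67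
  · exact key b hb
  · have e : H1t b c = H1t 66 c := by
      rw [H1t, gen_blt (show 33 ≤ b by omega), gen_blt (show 50 ≤ b by omega), gen_blt (show 58 ≤ b by omega), gen_blt (show 62 ≤ b by omega), gen_blt (show 64 ≤ b by omega), gen_blt (show 65 ≤ b by omega), gen_blt (show 66 ≤ b by omega)]
      rfl
    rw [e]
    exact key 66 (by norm_num)

theorem H2t_ok (hX : Good X) (b c : ℕ) (hc : c < 16) : NspT (cval X) (H2t b c) 256 := by
  have key : ∀ b < 30, NspT (cval X) (H2t b c) 256 := fun b hb => by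
    have h := allB_spec (allB_spec tab_h2 b hb) c hc
    rw [Bool.or_eq_true] at h
    rcases h with h | h <;> rw [gen_beq h] <;> exact g2c_ok hX _
  by_cases hb : b < 30
  · exact key b hb
  · have e : H2t b c = H2t 29 c := by
      rw [H2t, gen_blt (show 15 ≤ b by omega), gen_blt (show 22 ≤ b by omega), gen_blt (show 26 ≤ b by omega), gen_blt (show 28 ≤ b by omega), gen_blt (show 29 ≤ b by omega)]
      rfl
    rw [e]
    exact key 29 (by norm_num)

theorem H1s_ok (hX : Good X) (k : ℕ) : TriT (cval X) (H1s k) 256 := by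
  rw [H1s, frc_eq, frc_eq]
  exact H1t_ok hX _ _ (gen_l15 k)

theorem H2s_ok (hX : Good X) (k : ℕ) : NspT (cval X) (H2s k) 256 := by
  rw [H2s, frc_eq, frc_eq]
  exact H2t_ok hX _ _ (gen_l15 k)

theorem gen_l255 (c : ℕ) : Nat.land c 255 < 256 :=
  lt_of_le_of_lt (Nat.and_le_right (n := c) (m := 255)) (by norm_num)

theorem g1e_tri (hX : Good X) (c : ℕ) : Tri (cval X) (g1e c) := by
  rw [g1e, frc_eq, f96_eq]
  exact H1s_ok hX _ _ (gen_l255 c)

theorem g2e_cl (hX : Good X) (c : ℕ) :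
    Cl6 (cval X) (g2e c) ∧ Cl6 (cval X) (g2e c ^^^ all6) := by
  rw [g2e, frc_eq, f96_eq]
  exact H2s_ok hX _ _ (gen_l255 c)

end AcuteCh
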