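import Pool.Agent.Lib.MP_bc94b4_co.Ch.Defs

/-! Clauses from three-term and four-term relations, and from products of inequalities. -/

set_option autoImplicit false

namespace AcuteCh

/-- mask with the negation of literal l -/
def ngb (l : ℕ) : ℕ := Nat.shiftLeft 1 (Nat.xor l 1)

/-- mask of the negations of the fields lo, lo + 1, .., lo + n - 1 of e -/
def ngm (e lo n : ℕ) : ℕ := Nat.rec 0 (fun k acc => Nat.lor acc (ngb (fld 16 e (lo + k)))) n

/-- clause of a list of rows: one of the fields 2 .. 5 of one row fails -/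
def lpMask (rows : List ℕ) : ℕ := rows.foldr (fun e acc => Nat.lor (ngm e 2 4) acc) 0

/-- variables of the fields i, i + 1 of all rows, without the constant variable -/
def lpVars (i : ℕ) (rows : List ℕ) : List ℕ :=
  (rows.flatMap fun e => [fld 16 e i / 2, fld 16 e (i + 1) / 2]).filter (fun v => v ≠ 0)

/-- large sides and small sides use the same variables -/
def lpBal (rows : List ℕ) : Bool := (lpVars 0 rows).isPerm (lpVars 2 rows)

theorem lp_ngb (l p : ℕ) : (ngb l).testBit p = decide (p = l ^^^ 1) := by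
  show (1 <<< (l ^^^ 1)).testBit p = _
  rw [Nat.one_shiftLeft, Nat.testBit_two_pow]
  simp [eq_comm]

theorem lp_ngm (e lo n k : ℕ) (hk : k < n) : (ngm e lo n).testBit (fld 16 e (lo + k) ^^^ 1) = true := by
  induction n with
  | zero => omega
  | succ n ih =>
    show (ngm e lo n ||| ngb (fld 16 e (lo + n))).testBit _ = true
    rw [Nat.testBit_or, lp_ngb]
    by_cases h : k = n
    · simp [h]
    · simp [ih (by omega)]

theorem lp_pos {s : ℕ → ℝ} (hs : Valn s) {M l : ℕ} (hM : ¬ ClM s M)
    (hl : M.testBit (l ^^^ 1) = true) : 0 < s l := by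
  have h1 : ¬ 0 < s (l ^^^ 1) := fun h => hM ⟨_, hl, h⟩
  rw [hs.2.1] at h1
  rcases lt_or_gt_of_ne (hs.1 l) with h | h
  · exact absurd (neg_pos.2 h) h1
  · exact h

/-- not all six literals of a three-term relation hold -/
theorem tri_clM {s : ℕ → ℝ} (hs : Valn s) {e : ℕ} (h : Tri s e) : ClM s (ngm e 0 6) := by
  by_contra hM
  have p : ∀ k < 6, 0 < s (fld 16 e k) := fun k hk => by
    have := lp_pos hs hM (lp_ngm e 0 6 k hk)
    rwa [Nat.zero_add] at this
  have h1 := mul_pos (p 0 (by norm_num)) (p 1 (by norm_num))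
  have h2 := mul_pos (p 2 (by norm_num)) (p 3 (by norm_num))
  have h3 := mul_pos (p 4 (by norm_num)) (p 5 (by norm_num))
  unfold Tri at h
  linarith

/-- not all twelve literals of a four-term relation hold -/
theorem quad_clM {s : ℕ → ℝ} (hs : Valn s) {e : ℕ} (h : Quad s e) : ClM s (ngm e 0 12) := by
  by_contra hM
  have p : ∀ k < 12, 0 < s (fld 16 e k) := fun k hk => by
    have := lp_pos hs hM (lp_ngm e 0 12 k hk)
    rwa [Nat.zero_add] at this
  have h1 := mul_pos (mul_pos (p 0 (by norm_num)) (p 1 (by norm_num))) (p 2 (by norm_num))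
  have h2 := mul_pos (mul_pos (p 3 (by norm_num)) (p 4 (by norm_num))) (p 5 (by norm_num))
  have h3 := mul_pos (mul_pos (p 6 (by norm_num)) (p 7 (by norm_num))) (p 8 (by norm_num))
  have h4 := mul_pos (mul_pos (p 9 (by norm_num)) (p 10 (by norm_num))) (p 11 (by norm_num))
  unfold Quad at h
  linarith

theorem lp_fld_xor (w a b i : ℕ) : fld w (a ^^^ b) i = fld w a i ^^^ fld w b i := by
  unfold fld
  rw [Nat.shiftRight_xor_distrib, Nat.xor_mod_two_pow]

/-- the six negated literals as a clause word -/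
theorem tri_cl6 {s : ℕ → ℝ} (hs : Valn s) {e : ℕ} (h : Tri s e) :
    Cl6 s (e ^^^ 0x000100010001000100010001) := by
  by_contra hM
  have p : ∀ k < 6, 0 < s (fld 16 e k) := fun k hk => by
    have h1 : fld 16 0x000100010001000100010001 k = 1 := by
      interval_cases k <;> decide
    have h2 : ¬ 0 < s (fld 16 e k ^^^ 1) := fun h => hM ⟨k, hk, by rwa [lp_fld_xor, h1]⟩
    rw [hs.2.1] at h2
    rcases lt_or_gt_of_ne (hs.1 (fld 16 e k)) with h | h
    · exact absurd (neg_pos.2 h) h2
    · exact h
  have h1 := mul_pos (p 0 (by norm_num)) (p 1 (by norm_num))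
  have h2 := mul_pos (p 2 (by norm_num)) (p 3 (by norm_num))
  have h3 := mul_pos (p 4 (by norm_num)) (p 5 (by norm_num))
  unfold Tri at h
  linarith

/-- the 16 polarity words: bit 0 of the fields 0, 2, 4 is free, the fields 1, 3, 5 follow with the
common parity q -/
def polW (x y z q : Bool) : ℕ :=
  x.toNat + 2 ^ 16 * (x ^^ q).toNat + 2 ^ 32 * y.toNat + 2 ^ 48 * (y ^^ q).toNat
    + 2 ^ 64 * z.toNat + 2 ^ 80 * (z ^^ q).toNat

theorem tri_pol {s : ℕ → ℝ} (hs : Valn s) {e : ℕ} (h : Tri s e) (x y z q : Bool) :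
    Tri s (e ^^^ polW x y z q) := by
  have e0 : fld 16 (polW x y z q) 0 = x.toNat ∧ fld 16 (polW x y z q) 1 = (x ^^ q).toNat ∧
      fld 16 (polW x y z q) 2 = y.toNat ∧ fld 16 (polW x y z q) 3 = (y ^^ q).toNat ∧
      fld 16 (polW x y z q) 4 = z.toNat ∧ fld 16 (polW x y z q) 5 = (z ^^ q).toNat := by
    revert x y z q
    decide
  obtain ⟨e0, e1, e2, e3, e4, e5⟩ := e0
  unfold Tri at h ⊢
  simp only [lp_fld_xor, e0, e1, e2, e3, e4, e5]
  cases x <;> cases y <;> cases z <;> cases q <;> simp [hs.2.1] <;> linarith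

theorem lp_abs {s : ℕ → ℝ} (hs : Valn s) (l : ℕ) : |s l| = |s (2 * (l / 2))| := by
  rcases Nat.mod_two_eq_zero_or_one l with h | h
  · rw [show 2 * (l / 2) = l by omega]
  · have e : l = 2 * (l / 2) ^^^ 1 := by
      rw [Nat.xor_one_of_even (even_two_mul _)]
      omega
    conv_lhs => rw [e, hs.2.1, abs_neg]

theorem lp_prod {s : ℕ → ℝ} (hs : Valn s) (i : ℕ) (rows : List ℕ) :
    ((lpVars i rows).map fun v => |s (2 * v)|).prod
      = (rows.map fun e => |s (fld 16 e i)| * |s (fld 16 e (i + 1))|).prod := by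
  have h : ∀ L : List ℕ, ((L.filter fun v => v ≠ 0).map fun v => |s (2 * v)|).prod
      = (L.map fun v => |s (2 * v)|).prod := by
    intro L
    induction L with
    | nil => rfl
    | cons a L ih =>
      by_cases ha : a = 0
      · rw [List.filter_cons_of_neg (by simpa using ha), ih, List.map_cons, List.prod_cons, ha]
        simp [hs.2.2]
      · rw [List.filter_cons_of_pos (by simpa using ha), List.map_cons, List.prod_cons, ih,
          List.map_cons, List.prod_cons]
  rw [lpVars, h]
  induction rows with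
  | nil => rfl
  | cons e rows ih =>
    rw [List.flatMap_cons, List.map_append, List.prod_append, ih, List.map_cons (l := rows),
      List.prod_cons, lp_abs hs (fld 16 e i), lp_abs hs (fld 16 e (i + 1))]
    simp

theorem lp_mask (rows : List ℕ) (e : ℕ) (he : e ∈ rows) (p : ℕ) (hp : (ngm e 2 4).testBit p = true) :
    (lpMask rows).testBit p = true := by
  induction rows with
  | nil => simp at he
  | cons a rows ih =>
    show (ngm a 2 4 ||| lpMask rows).testBit p = true
    rw [Nat.testBit_or]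
    rcases List.mem_cons.1 he with rfl | h
    · simp [hp]
    · simp [ih h]

theorem lp_lt (f g : ℕ → ℝ) (rows : List ℕ) (hne : rows ≠ [])
    (h : ∀ e ∈ rows, 0 < g e ∧ g e < f e) :
    0 < (rows.map g).prod ∧ (rows.map g).prod < (rows.map f).prod := by
  induction rows with
  | nil => exact absurd rfl hne
  | cons a rows ih =>
    obtain ⟨h1, h2⟩ := h a List.mem_cons_self
    by_cases hr : rows = []
    · simp [hr, h1, h2]
    · obtain ⟨h3, h4⟩ := ih hr fun e he => h e (List.mem_cons_of_mem _ he)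
      rw [List.map_cons, List.map_cons, List.prod_cons, List.prod_cons]
      exact ⟨mul_pos h1 h3, mul_lt_mul'' h2 h4 h1.le h3.le⟩

/-- a balanced product of strict inequalities is impossible -/
theorem loglp {s : ℕ → ℝ} (hs : Valn s) (rows : List ℕ) (h : ∀ e ∈ rows, Tri s e) (hne : rows ≠ [])
    (hb : lpBal rows = true) : ClM s (lpMask rows) := by
  by_contra hM
  have hp := (List.isPerm_iff.1 hb).map fun v => |s (2 * v)|
  have h1 := hp.prod_eq
  rw [lp_prod hs, lp_prod hs] at h1
  refine absurd h1 (lp_lt _ _ rows hne fun e he => ?_).2.ne'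
  have p : ∀ k < 4, 0 < s (fld 16 e (2 + k)) := fun k hk =>
    lp_pos hs hM (lp_mask rows e he _ (lp_ngm e 2 4 k hk))
  have p2 : 0 < s (fld 16 e 2) := p 0 (by norm_num)
  have p3 : 0 < s (fld 16 e 3) := p 1 (by norm_num)
  have p4 : 0 < s (fld 16 e 4) := p 2 (by norm_num)
  have p5 : 0 < s (fld 16 e 5) := p 3 (by norm_num)
  have h2 := h e he
  unfold Tri at h2
  have h3 := mul_pos p2 p3
  have h4 := mul_pos p4 p5
  rw [← abs_mul, ← abs_mul, abs_of_pos h3]
  exact ⟨h3, by rw [abs_of_neg (by linarith)]; linarith⟩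

end AcuteCh
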