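import Pool.Agent.Lib.MP_bc94b4_co.Ch.Img
import Pool.Agent.Lib.MP_bc94b4_co.Ch.LogLP

/-! Weighted products of strict inequalities that come from three-term relations. -/

set_option autoImplicit false

namespace AcuteCh

/-- the 16 bits of e from position k -/
def g16 (e k : ℕ) : ℕ := Nat.land (Nat.shiftRight e k) 65535

/-- add w to the digits (W bits) of the variables of the two fields of e that start at bit k -/
def lpAdd (W L w e k : ℕ) : ℕ :=
  Nat.add (Nat.add L (Nat.shiftLeft w (Nat.mul W (Nat.shiftRight (g16 e k) 1))))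
    (Nat.shiftLeft w (Nat.mul W (Nat.shiftRight (g16 e (Nat.add k 16)) 1)))

/-- the fields 2 .. 5 of e lie in F -/
def lpRow (F e : ℕ) : Bool :=
  tb F (g16 e 32) && tb F (g16 e 48) && tb F (g16 e 64) && tb F (g16 e 80)

/-- exponent vector of the two fields at bit k over rows (weight, word) -/
def lpVec (W k : ℕ) (rows : List (ℕ × ℕ)) : ℕ := rows.foldr (fun r L => lpAdd W L r.1 r.2 k) 0
def lpTot (rows : List (ℕ × ℕ)) : ℕ := rows.foldr (fun r t => Nat.add t r.1) 0

/-- the two exponent vectors agree outside the constant variable -/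
def lpEnd (W L S t : ℕ) : Bool :=
  Nat.beq (Nat.shiftRight L W) (Nat.shiftRight S W) && Nat.blt 0 t && Nat.blt (Nat.mul 2 t) (Nat.pow 2 W)

def wlp (W F : ℕ) (rows : List (ℕ × ℕ)) : Bool :=
  (rows.all fun r => lpRow F r.2) && lpEnd W (lpVec W 0 rows) (lpVec W 32 rows) (lpTot rows)

/-- logarithm of the monomial with exponent vector L -/
noncomputable def lpD (s : ℕ → ℝ) (W L : ℕ) : ℝ :=
  ∑ v ∈ Finset.range 32768, (fld W L v : ℝ) * Real.log |s (2 * v)|

/-- state of a running product: digits stay small, the first monomial is the larger one -/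
def LPI (s : ℕ → ℝ) (W L S t : ℕ) : Prop :=
  2 * t < 2 ^ W → (∀ v, fld W L v ≤ 2 * t ∧ fld W S v ≤ 2 * t) ∧ lpD s W S ≤ lpD s W L ∧
    (0 < t → lpD s W S < lpD s W L)

theorem g16_eq (e i : ℕ) : g16 e (16 * i) = fld 16 e i :=
  Nat.and_two_pow_sub_one_eq_mod (e >>> (16 * i)) 16

theorem wl_small (e i : ℕ) : fld 16 e i < 65536 := Nat.mod_lt _ (by norm_num)

theorem wl_fld (W N w v u : ℕ) (h : fld W N v + w < 2 ^ W) :
    fld W (N + w <<< (W * v)) u = fld W N u + if u = v then w else 0 := by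
  have hp := fun k => Nat.two_pow_pos k
  unfold fld at h ⊢
  simp only [Nat.shiftRight_eq_div_pow, Nat.shiftLeft_eq] at h ⊢
  rcases lt_trichotomy u v with huv | rfl | huv
  · obtain ⟨d, rfl⟩ := Nat.exists_eq_add_of_lt huv
    rw [if_neg (by omega), show w * 2 ^ (W * (u + d + 1)) = 2 ^ (W * u) * (2 ^ W * (w * 2 ^ (W * d))) by ring,
      Nat.add_mul_div_left _ _ (hp _), Nat.add_mul_mod_self_left, Nat.add_zero]
  · rw [if_pos rfl, Nat.add_mul_div_right _ _ (hp _), Nat.add_mod, Nat.mod_eq_of_lt (a := w) (by omega),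
      Nat.mod_eq_of_lt h]
  · obtain ⟨d, rfl⟩ := Nat.exists_eq_add_of_lt huv
    have e : ∀ M : ℕ, M / 2 ^ (W * (v + d + 1)) = M / 2 ^ (W * v) / 2 ^ W / 2 ^ (W * d) := fun M => by
      rw [Nat.div_div_eq_div_mul, Nat.div_div_eq_div_mul, ← pow_add, ← pow_add]
      congr 2
      ring
    rw [if_neg (by omega), e, e, Nat.add_mul_div_right _ _ (hp _), Nat.add_div (hp _),
      Nat.div_eq_of_lt (a := w) (by omega), Nat.mod_eq_of_lt (a := w) (by omega), if_neg (by omega)]
    rfl

theorem wl_add {s : ℕ → ℝ} (hs : Valn s) (W N w l b : ℕ) (hl : l < 65536) (hN : ∀ v, fld W N v ≤ b)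
    (hb : b + w < 2 ^ W) : (∀ v, fld W (N + w <<< (W * (l / 2))) v ≤ b + w) ∧
      lpD s W (N + w <<< (W * (l / 2))) = lpD s W N + w * Real.log |s l| := by
  have h := fun u => wl_fld W N w (l / 2) u (by have := hN (l / 2); omega)
  refine ⟨fun v => ?_, ?_⟩
  · rw [h]
    have := hN v
    split_ifs <;> omega
  · unfold lpD
    simp only [h, Nat.cast_add, add_mul, Finset.sum_add_distrib, Nat.cast_ite, Nat.cast_zero, ite_mul,
      zero_mul, Finset.sum_ite_eq', Finset.mem_range]
    rw [if_pos (by omega), lp_abs hs l]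

theorem lpi_zero (s : ℕ → ℝ) (W : ℕ) : LPI s W 0 0 0 := fun _ =>
  ⟨fun v => by simp [fld], le_rfl, fun h => absurd h (lt_irrefl 0)⟩

theorem lpi_step {s : ℕ → ℝ} (hs : Valn s) {W F L S t w e : ℕ} (hF : Inv s F) (he : Tri s e)
    (hr : lpRow F e = true) (h : LPI s W L S t) :
    LPI s W (lpAdd W L w e 0) (lpAdd W S w e 32) (t + w) := by
  intro hb
  obtain ⟨h1, h2, h3⟩ := h (by omega)
  simp only [lpRow, Bool.and_eq_true, tb_eq] at hr
  obtain ⟨⟨⟨a2, a3⟩, a4⟩, a5⟩ := hr
  rw [g16_eq e 2] at a2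
  rw [g16_eq e 3] at a3
  rw [g16_eq e 4] at a4
  rw [g16_eq e 5] at a5
  have b0 := wl_small e 0
  have b1 := wl_small e 1
  have b2 := wl_small e 2
  have b3 := wl_small e 3
  obtain ⟨c1, c2⟩ := wl_add hs W L w _ _ b0 (fun v => (h1 v).1) (by omega)
  obtain ⟨c3, c4⟩ := wl_add hs W _ w _ _ b1 c1 (by omega)
  obtain ⟨d1, d2⟩ := wl_add hs W S w _ _ b2 (fun v => (h1 v).2) (by omega)
  obtain ⟨d3, d4⟩ := wl_add hs W _ w _ _ b3 d1 (by omega)
  have e1 : lpAdd W L w e 0 = L + w <<< (W * (fld 16 e 0 / 2)) + w <<< (W * (fld 16 e 1 / 2)) := by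
    rw [← g16_eq, ← g16_eq]
    rfl
  have e2 : lpAdd W S w e 32 = S + w <<< (W * (fld 16 e 2 / 2)) + w <<< (W * (fld 16 e 3 / 2)) := by
    rw [← g16_eq, ← g16_eq]
    rfl
  have p1 := mul_pos_of_neg_of_neg (hF _ a2) (hF _ a3)
  have p2 := mul_pos_of_neg_of_neg (hF _ a4) (hF _ a5)
  have key : Real.log |s (fld 16 e 2)| + Real.log |s (fld 16 e 3)|
      < Real.log |s (fld 16 e 0)| + Real.log |s (fld 16 e 1)| := by
    have n := fun l => abs_ne_zero.2 (hs.1 l)
    rw [← Real.log_mul (n _) (n _), ← Real.log_mul (n _) (n _), ← abs_mul, ← abs_mul, abs_of_pos p1]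
    unfold Tri at he
    exact Real.log_lt_log p1 (by rw [abs_of_neg (by linarith)]; linarith)
  rw [e1, e2, c4, c2, d4, d2]
  have w0 : (0 : ℝ) ≤ w := Nat.cast_nonneg w
  have k1 := mul_le_mul_of_nonneg_left key.le w0
  refine ⟨fun v => ⟨by have := c3 v; omega, by have := d3 v; omega⟩, by linarith, fun ht => ?_⟩
  rcases Nat.eq_zero_or_pos w with hw | hw
  · have := h3 (by omega)
    linarith
  · have := mul_lt_mul_of_pos_left key (Nat.cast_pos.2 hw)
    linarith

theorem lpi_end {s : ℕ → ℝ} (hs : Valn s) {W L S t : ℕ} (h : LPI s W L S t)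
    (hk : lpEnd W L S t = true) : False := by
  simp only [lpEnd, Bool.and_eq_true, Nat.blt_eq, Nat.beq_eq] at hk
  obtain ⟨⟨k1, k2⟩, k3⟩ := hk
  refine absurd ?_ ((h k3).2.2 k2).ne'
  refine Finset.sum_congr rfl fun v _ => ?_
  rcases v with _ | v
  · simp [hs.2.2]
  · have e : ∀ N, fld W N (v + 1) = fld W (N >>> W) v := fun N => by
      unfold fld
      rw [← Nat.shiftRight_add, mul_add, mul_one, add_comm]
    have k1' : L >>> W = S >>> W := k1
    rw [e, e, k1']

theorem wlp_sound {s : ℕ → ℝ} (hs : Valn s) {W F : ℕ} {rows : List (ℕ × ℕ)} (hF : Inv s F)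
    (hT : ∀ r ∈ rows, Tri s r.2) (h : wlp W F rows = true) : False := by
  rw [wlp, Bool.and_eq_true, List.all_eq_true] at h
  refine lpi_end hs ?_ h.2
  have h1 := h.1
  clear h
  induction rows with
  | nil => exact lpi_zero s W
  | cons r rows ih =>
    exact lpi_step hs hF (hT r List.mem_cons_self) (h1 r List.mem_cons_self)
      (ih (fun q hq => hT q (List.mem_cons_of_mem _ hq)) fun q hq => h1 q (List.mem_cons_of_mem _ hq))

/-- rotation of a three-term word -/
theorem tri_rot {s : ℕ → ℝ} {e : ℕ} (h : Tri s e) :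
    Tri s ((e % 2 ^ 96) >>> 32 ||| (e % 2 ^ 32) <<< 64) := by
  have a : ∀ i < 6, fld 16 ((e % 2 ^ 96) >>> 32 ||| (e % 2 ^ 32) <<< 64) i = fld 16 e ((i + 2) % 6) :=
    fun i hi => Nat.eq_of_testBit_eq fun q => by
      unfold fld
      simp only [Nat.testBit_mod_two_pow, Nat.testBit_shiftRight, Nat.testBit_or, Nat.testBit_shiftLeft]
      by_cases hq : q < 16
      · by_cases h4 : i < 4
        · rw [Nat.mod_eq_of_lt (by omega : i + 2 < 6), decide_eq_true (by omega : 32 + (16 * i + q) < 96),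
            decide_eq_false (by omega : ¬ 16 * i + q ≥ 64),
            show 32 + (16 * i + q) = 16 * (i + 2) + q by ring]
          simp
        · rw [show (i + 2) % 6 = i - 4 by omega, decide_eq_false (by omega : ¬ 32 + (16 * i + q) < 96),
            decide_eq_true (by omega : 16 * i + q ≥ 64), decide_eq_true (by omega : 16 * i + q - 64 < 32),
            show 16 * i + q - 64 = 16 * (i - 4) + q by omega]
          simp
      · simp [hq]
  unfold Tri at h ⊢
  rw [a 0 (by norm_num), a 1 (by norm_num), a 2 (by norm_num), a 3 (by norm_num), a 4 (by norm_num),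
    a 5 (by norm_num)]
  norm_num
  linarith

end AcuteCh
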