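import Pool.Agent.Lib.MP_bc94b4_co.Ch.SH
import Pool.Agent.Lib.MP_bc94b4_co.Ch.WLP
import Pool.Agent.Lib.MP_bc94b4_co.Ch.GOk

/-! Certificates for the machine: products of inequalities, and checked records. -/

set_option autoImplicit false

namespace AcuteCh

/-- the 16 polarity words, p = x + 2 y + 4 z + 8 q -/
def PL16 : ℕ := 0x10000000100000001000000010000000100010000000000010001000000000001000000010001000000010000000100000000000100000001000100000000000100010000000100000001000000000001000100000001000000010000000100010001000100010001000100010001000100000000000100010000000000010001000100010000000000000000000000000001000100010001000000000001000100000000000000000000000000010001000000000000000000000000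

def rot3 (e : ℕ) : ℕ :=
  Nat.lor (Nat.shiftRight (Nat.mod e (Nat.pow 2 96)) 32) (Nat.shiftLeft (Nat.mod e (Nat.pow 2 32)) 64)

/-- exchange of the second and the third product -/
def swp3 (e : ℕ) : ℕ :=
  Nat.lor (Nat.lor (Nat.mod e (Nat.pow 2 32)) (Nat.shiftLeft (fdf 32 e 2) 32)) (Nat.shiftLeft (fdf 32 e 1) 64)

def rotN (e r : ℕ) : ℕ := Nat.rec e (fun r _ => Nat.rec (rot3 e) (fun _ _ => rot3 (rot3 e)) r) r
def swpN (e r : ℕ) : ℕ := Nat.rec e (fun _ _ => swp3 e) r
noncomputable def triK (c r : ℕ) : ℕ := Nat.rec (g1e c) (fun _ _ => odefE c) r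

/-- three-term word of a code: bits 0..3 polarity, 4..5 number of rotations, 6 exchange,
7 kind (0 table, 1 orientation), from bit 8 the index -/
noncomputable def triC (c : ℕ) : ℕ :=
  swpN (rotN (Nat.xor (triK (Nat.shiftRight c 8) (Nat.land (Nat.shiftRight c 7) 1))
    (Nat.shiftRight PL16 (Nat.mul 96 (Nat.land c 15)))) (Nat.land (Nat.shiftRight c 4) 3))
    (Nat.land (Nat.shiftRight c 6) 1)

/-- the first n rows of width w of T: code in the low 32 bits, weight above -/
noncomputable def lpRows (w T n : ℕ) : List (ℕ × ℕ) :=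
  Nat.rec [] (fun k acc =>
    (Nat.shiftRight (fdf w T k) 32, triC (Nat.land (fdf w T k) 0xffffffff)) :: acc) n

/-- certificate u: digit width W in the bits 0..7, number of rows in the bits 8..23, then the rows
(W + 32 bits each) -/
noncomputable def lpCert (u F : ℕ) : Bool :=
  wlp (Nat.land u 255) F (lpRows (Nat.add (Nat.land u 255) 32) (Nat.shiftRight u 24)
    (Nat.land (Nat.shiftRight u 8) 65535))

/-- certificate number i of the family LT -/
noncomputable def clLP (LT : ℕ → ℕ) (i F : ℕ) : Bool := lpCert (LT i) F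

/-- no certificates -/
def cl0 (_i _F : ℕ) : Bool := false

/-- records without exchange of 8 and 9 -/
def axA (T8 Q8 x BT : ℕ) (PP TT QQ : ℕ → ℕ) (_R F M d : ℕ) : Bool := axCl T8 Q8 x BT PP TT QQ F M d

def axK (b : Bool) (R F M : ℕ) (c : Bool) : Bool :=
  Bool.rec b (Bool.rec false (wCl R F M) (Nat.beq (Nat.shiftRight R 512) 0)) c

/-- kind 7: exchange of 8 and 9 in the record R -/
def axW (T8 Q8 x BT : ℕ) (PP TT QQ : ℕ → ℕ) (R F M d : ℕ) : Bool :=
  axK (axCl T8 Q8 x BT PP TT QQ F M d) R F M (Nat.beq (Nat.land d 7) 7)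

theorem ce_pl : ∀ p < 16, ∀ i < 6, fld 16 (PL16 >>> (96 * p)) i =
    fld 16 (polW (p.testBit 0) (p.testBit 1) (p.testBit 2) (p.testBit 3)) i := by
  decide +kernel

theorem ce_pol {s : ℕ → ℝ} (hs : Valn s) {e p : ℕ} (hp : p < 16) (h : Tri s e) :
    Tri s (e ^^^ (PL16 >>> (96 * p))) := by
  have h1 := tri_pol hs h (p.testBit 0) (p.testBit 1) (p.testBit 2) (p.testBit 3)
  unfold Tri at h1 ⊢
  simp only [lp_fld_xor] at h1 ⊢
  rw [ce_pl p hp 0 (by norm_num), ce_pl p hp 1 (by norm_num), ce_pl p hp 2 (by norm_num),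
    ce_pl p hp 3 (by norm_num), ce_pl p hp 4 (by norm_num), ce_pl p hp 5 (by norm_num)]
  exact h1

theorem ce_swp {s : ℕ → ℝ} {e : ℕ} (h : Tri s e) : Tri s (swp3 e) := by
  have a : ∀ i j, i < 6 → (i < 2 ∧ j = i ∨ 2 ≤ i ∧ i < 4 ∧ j = i + 2 ∨ 4 ≤ i ∧ j + 2 = i) →
      fld 16 (swp3 e) i = fld 16 e j := fun i j hi hj => Nat.eq_of_testBit_eq fun q => by
    show (fld 16 ((e % 2 ^ 32 ||| fld 32 e 2 <<< 32) ||| fld 32 e 1 <<< 64) i).testBit q = _
    simp only [rw_fld_bit, Nat.testBit_or, Nat.testBit_shiftLeft, Nat.testBit_mod_two_pow]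
    by_cases hq : q < 16
    · rcases hj with ⟨h1, rfl⟩ | ⟨h1, h2, rfl⟩ | ⟨h1, rfl⟩
      · rw [decide_eq_true (by omega : 16 * j + q < 32), decide_eq_false (by omega : ¬ 16 * j + q ≥ 32),
          decide_eq_false (by omega : ¬ 16 * j + q ≥ 64)]
        simp
      · rw [decide_eq_false (by omega : ¬ 16 * i + q < 32), decide_eq_true (by omega : 16 * i + q ≥ 32),
          decide_eq_false (by omega : ¬ 16 * i + q ≥ 64),
          decide_eq_true (by omega : 16 * i + q - 32 < 32),
          show 32 * 2 + (16 * i + q - 32) = 16 * (i + 2) + q by omega]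
        simp
      · rw [decide_eq_false (by omega : ¬ 16 * (j + 2) + q < 32),
          decide_eq_true (by omega : 16 * (j + 2) + q ≥ 64),
          decide_eq_false (by omega : ¬ 16 * (j + 2) + q - 32 < 32),
          decide_eq_true (by omega : 16 * (j + 2) + q - 64 < 32),
          show 32 * 1 + (16 * (j + 2) + q - 64) = 16 * j + q by omega]
        simp
    · simp [hq]
  unfold Tri at h ⊢
  rw [a 0 0 (by norm_num) (by omega), a 1 1 (by norm_num) (by omega), a 2 4 (by norm_num) (by omega),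
    a 3 5 (by norm_num) (by omega), a 4 2 (by norm_num) (by omega), a 5 3 (by norm_num) (by omega)]
  linarith

theorem triC_tri {X : Fin 10 → Pt} (hX : Good X) (c : ℕ) : Tri (cval X) (triC c) := by
  have h1 : ∀ c r, Tri (cval X) (triK c r) := fun c r => by
    cases r
    · exact g1e_tri hX c
    · exact odefE_tri hX c
  have h2 : ∀ e r, Tri (cval X) e → Tri (cval X) (rotN e r) := fun e r h => by
    rcases r with _ | _ | r
    · exact h
    · exact tri_rot h
    · exact tri_rot (tri_rot h)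
  have h3 : ∀ e r, Tri (cval X) e → Tri (cval X) (swpN e r) := fun e r h => by
    cases r
    · exact h
    · exact ce_swp h
  exact h3 _ _ (h2 _ _ (ce_pol (good_vc X hX) (gen_l15 c) (h1 _ _)))

theorem lpCert_sound {X : Fin 10 → Pt} (hX : Good X) {u F : ℕ} (h : lpCert u F = true) :
    ¬ Inv (cval X) F := fun hF => by
  refine wlp_sound (good_vc X hX) hF ?_ h
  generalize Nat.land (Nat.shiftRight u 8) 65535 = n
  induction n with
  | zero => intro r hr; exact absurd hr List.not_mem_nil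
  | succ n ih =>
    intro r hr
    rcases List.mem_cons.1 hr with rfl | h1
    · exact triC_tri hX _
    · exact ih r h1

theorem clLP_ok {H : (Fin 10 → Pt) → Prop} (hH : ∀ X, H X → Good X) (LT : ℕ → ℕ) :
    ClOk (SH H) (clLP LT) := by
  rintro i F h s ⟨X, hX, rfl⟩
  exact lpCert_sound (hH X hX) h

theorem cl0_ok (S : (ℕ → ℝ) → Prop) : ClOk S cl0 := fun _ _ h => absurd h (by simp [cl0])

theorem axA_ok {H : (Fin 10 → Pt) → Prop} {T8 Q8 x BT : ℕ} {PP TT QQ : ℕ → ℕ}
    (hH : ∀ X, H X → Good X ∧ AxC X T8 Q8 x BT PP TT QQ) : AxOk (SH H) (axA T8 Q8 x BT PP TT QQ) :=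
  fun _ _ _ _ h _ hF => vc_sh.2 fun X hX => axCl_sound X (hH X hX).1 (hH X hX).2 (vi_sh.1 hF X hX) h

theorem axW_ok {H : (Fin 10 → Pt) → Prop} {T8 Q8 x BT : ℕ} {PP TT QQ : ℕ → ℕ}
    (hH : ∀ X, H X → Good X ∧ AxC X T8 Q8 x BT PP TT QQ) (hS : ∀ X, H X → H (X ∘ Equiv.swap 8 9)) :
    AxOk (SH H) (axW T8 Q8 x BT PP TT QQ) := by
  intro R F M d h hR hF
  refine vc_sh.2 fun X hX => ?_
  unfold axW at h
  generalize Nat.beq (Nat.land d 7) 7 = c at h
  cases c
  · exact axCl_sound X (hH X hX).1 (hH X hX).2 (vi_sh.1 hF X hX) h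
  · have h1 : (Bool.rec false (wCl R F M) (Nat.beq (R >>> 512) 0) : Bool) = true := h
    generalize h2 : R >>> 512 = u at h1
    cases u with
    | succ u => exact absurd h1 (by simp [Nat.beq])
    | zero =>
      rw [Nat.shiftRight_eq_div_pow, Nat.div_eq_zero_iff_lt (Nat.two_pow_pos _)] at h2
      exact wCl_sound h2 h1 X (hH X hX).1 (vi_sh.1 hF X hX) (vc_sh.1 hR _ (hS X hX))

end AcuteCh
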