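import Pool.Agent.Lib.MP_bc94b4_co.Ch.Col
import Pool.Agent.Lib.MP_bc94b4_co.Ch.GlobD

/-! The contexts of the machine proofs and the way their conclusions combine. -/

set_option autoImplicit false

namespace AcuteCh

/-- the first x masks of the table B are excluded -/
def Upto (B x : ℕ) : Prop := ∀ y < x, NG (fld 128 B y)

/-- the rows of R list the extensions of the pattern P -/
def Ext (P R w off n : ℕ) : Prop := ∀ X, Good X → Inv (cval X) P → Lane (cval X) R w off 0 n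

def TTall : Prop := Ext P0 RT0 72 44 1431 ∧ Ext P1 RT1 72 44 3672 ∧ Ext P2 RT2 72 44 5376 ∧
  Ext P3 RT3 72 44 2645

def LXall : Prop := LX 72 44 BT P0 RT0 DT0 1431 ∧ LX 72 44 BT P1 RT1 DT1 3672 ∧
  LX 72 44 BT P2 RT2 DT2 5376 ∧ LX 72 44 BT P3 RT3 DT3 2645

/-- what a module for base x may assume -/
def Ctx (x : ℕ) : Prop := Upto BT x ∧ TTall ∧ LXall

def PP : ℕ → ℕ := sel4 P0 P1 P2 P3
noncomputable def TT (a b c d : ℕ) : ℕ → ℕ :=
  sel4 (prep RT0 72 a 1431) (prep RT1 72 b 3672) (prep RT2 72 c 5376) (prep RT3 72 d 2645)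
def QQ (a b c d : ℕ) : ℕ → ℕ :=
  sel4 (rep 72 (1431 - a)) (rep 72 (3672 - b)) (rep 72 (5376 - c)) (rep 72 (2645 - d))

/-- the rows before lo belong to masks below x -/
def lo1 (D n x lo : ℕ) : Bool :=
  Nat.ble lo n && (Nat.beq lo 0 || Nat.blt (Nat.shiftRight (fdf 96 D (Nat.sub lo 1)) 72) x)
noncomputable def loOk (x a b c d : ℕ) : Bool :=
  lo1 DT0 1431 x a && lo1 DT1 3672 x b && lo1 DT2 5376 x c && lo1 DT3 2645 x d

theorem upto_zero (B : ℕ) : Upto B 0 := fun _ h => absurd h (Nat.not_lt_zero _)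

theorem upto_succ {B x : ℕ} (h : Upto B x) (h' : NG (fld 128 B x)) : Upto B (x + 1) := fun y hy => by
  rcases Nat.lt_succ_iff_lt_or_eq.1 hy with h1 | rfl
  · exact h y h1
  · exact h'

theorem ctx_succ {x : ℕ} (h : Ctx x) (h' : Ctx x → NG (fld 128 BT x)) : Ctx (x + 1) :=
  ⟨upto_succ h.1 (h' h), h.2⟩

theorem lo1_spec {D n x lo : ℕ} (h : lo1 D n x lo = true) :
    lo ≤ n ∧ (lo = 0 ∨ fld 96 D (lo - 1) >>> 72 < x) := by
  simp only [lo1, Bool.and_eq_true, Bool.or_eq_true, Nat.ble_eq, Nat.beq_eq, Nat.blt_eq] at h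
  exact h

theorem ctx_tt {x a b c d : ℕ} (h : Ctx x) (hl : loOk x a b c d = true) (k : ℕ) (Y : Fin 10 → Pt)
    (hY : Good Y) (hP : Inv (cval Y) (PP k)) : PTb (cval Y) 72 44 (TT a b c d k) (QQ a b c d k) := by
  simp only [loOk, Bool.and_eq_true] at hl
  obtain ⟨⟨⟨l0, l1⟩, l2⟩, l3⟩ := hl
  obtain ⟨hx, ⟨t0, t1, t2, t3⟩, x0, x1, x2, x3⟩ := h
  exact sel4_all (p := fun P T Q => Inv (cval Y) P → PTb (cval Y) 72 44 T Q)
    (ttx_pt x0 t0 hx (lo1_spec l0).1 (lo1_spec l0).2 Y hY)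
    (ttx_pt x1 t1 hx (lo1_spec l1).1 (lo1_spec l1).2 Y hY)
    (ttx_pt x2 t2 hx (lo1_spec l2).1 (lo1_spec l2).2 Y hY)
    (ttx_pt x3 t3 hx (lo1_spec l3).1 (lo1_spec l3).2 Y hY) k hP

/-- axioms of base x without row tables for the points 8 and 9 (phase 1, or columns) -/
theorem ctx_ax {x a b c d : ℕ} (h : Ctx x) (hl : loOk x a b c d = true) (X : Fin 10 → Pt) :
    AxC X 0 1 x BT PP (TT a b c d) (QQ a b c d) := axC_col (ctx_tt h hl) h.1

/-- axioms when only the masks of a list are excluded (no tables) -/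
theorem upto_ax {B x : ℕ} (h : Upto B x) (X : Fin 10 → Pt) :
    AxC X 0 1 x B (fun _ => 0) (fun _ => 0) (fun _ => 1) := by
  have e : rep 72 1 = 1 := by decide +kernel
  exact axC_col (fun _ Y _ _ => e ▸ pt_zero (cval Y) 72 44 (by norm_num)) h

/-- the class of phase 2 -/
def H2 (B : ℕ) (X : Fin 10 → Pt) : Prop := Good X ∧ Inv (cval X) B

/-- the class of phase 1 and of the extension tables -/
def H1 (B R w off n : ℕ) (X : Fin 10 → Pt) : Prop :=
  Good X ∧ Inv (cval X) B ∧ ¬ Lane (cval X) R w off 0 n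

theorem h1_ext {B R w off n : ℕ} (h : ∀ X, ¬ H1 B R w off n X) : Ext B R w off n :=
  fun X hX hB => by_contra fun hc => h X ⟨hX, hB, hc⟩

theorem h2_ng {B : ℕ} (h : ∀ X, ¬ H2 B X) : NG B := fun X hX hB => h X ⟨hX, hB⟩

theorem h2_swap {B : ℕ} (hB : B < 2 ^ 114) (X : Fin 10 → Pt) (h : H2 B X) :
    H2 B (X ∘ Equiv.swap 8 9) := ⟨good_perm X h.1 _, inv_swap hB X h.2⟩

theorem bt_small114 : ∀ x, fld 128 BT x < 2 ^ 114 := by
  have h1 : all2 128 0 (fun r _ => Nat.blt r (Nat.pow 2 114)) BT 0 560 = true := by decide +kernel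
  have h2 : BT < 2 ^ (128 * 560) := by decide +kernel
  intro x
  by_cases hx : x < 560
  · simpa only [Nat.blt_eq, Nat.pow_eq] using all2_sound h1 x hx
  · unfold fld
    rw [Nat.shiftRight_eq_div_pow, Nat.div_eq_of_lt
      (h2.trans_le (Nat.pow_le_pow_right (by norm_num) (by omega))), Nat.zero_mod]
    exact Nat.two_pow_pos _

/-- both windows have a row, table given by columns -/
theorem ext_lanes {B N CS m n : ℕ} (hB : B < 2 ^ 114) (hn : n ≤ 128 * m)
    (h : Ext B (rowsOf N CS m) 144 114 n) (X : Fin 10 → Pt) (hX : H2 B X) :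
    Lane (cval X) (rowsOf N CS m) 144 114 0 n ∧ Lane (cval X) (rowsOf N CS m) 144 254 0 n :=
  ⟨h X hX.1 hX.2, lane89C hn X (h _ (h2_swap hB X hX).1 (h2_swap hB X hX).2)⟩

theorem ext_pc {B N CS m n : ℕ} (hB : B < 2 ^ 114) (hn : n ≤ 128 * m)
    (h : Ext B (rowsOf N CS m) 144 114 n) (X : Fin 10 → Pt) (hX : H2 B X) :
    PC (cval X) (colF N CS 114) (2 ^ n - 1) ∧ PC (cval X) (colF N CS 254) (2 ^ n - 1) :=
  ⟨lane_pc (good_vc X hX.1) hn rfl (ext_lanes hB hn h X hX).1,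
    lane_pc (good_vc X hX.1) hn rfl (ext_lanes hB hn h X hX).2⟩

/-- both windows have a row, table given by rows -/
theorem ext_lanesR {B R n : ℕ} (hB : B < 2 ^ 114)
    (hR : all2 144 1 (fun r _ => Nat.blt r (Nat.pow 2 140)) R 0 n = true)
    (h : Ext B R 144 114 n) (X : Fin 10 → Pt) (hX : H2 B X) :
    Lane (cval X) R 144 114 0 n ∧ Lane (cval X) R 144 254 0 n :=
  ⟨h X hX.1 hX.2, lane89 hR X (h _ (h2_swap hB X hX).1 (h2_swap hB X hX).2)⟩

/-- axioms of base x with row tables -/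
theorem ctx_axR {x a b c d R n : ℕ} (h : Ctx x) (hl : loOk x a b c d = true) (X : Fin 10 → Pt)
    (hX : Good X) (hL : Lane (cval X) R 144 114 0 n ∧ Lane (cval X) R 144 254 0 n) :
    AxC X (prep R 144 0 n) (rep 144 (n - 0)) x BT PP (TT a b c d) (QQ a b c d) :=
  ⟨lane_pt (good_vc X hX) (by norm_num) rfl rfl hL.1, lane_pt (good_vc X hX) (by norm_num) rfl rfl hL.2,
    ctx_tt h hl, h.1⟩

/-- an empty table of extensions excludes the pattern -/
theorem ext_zero {B R w off : ℕ} (h : Ext B R w off 0) : NG B := fun X hX hB => by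
  obtain ⟨j, -, h1, -⟩ := h X hX hB
  omega

end AcuteCh
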