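import Pool.Agent.Lib.MP_bc94b4_co.Ch.Msk
import Pool.Agent.Lib.MP_bc94b4_co.Ch.Cert
import Pool.Agent.Lib.MP_bc94b4_co.Ch.Glue

/-! The parameters of the machine for each kind of proof, first and last state. -/

set_option autoImplicit false

namespace AcuteCh

/-- sign pattern number x and the first false mask -/
noncomputable def bx (x : ℕ) : ℕ := fdf 128 BT x
def f2 (B : ℕ) : ℕ := Nat.lor B 2

def rowF (w R off j : ℕ) : ℕ := Nat.shiftLeft (fdf w R j) off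
def row0 (_j : ℕ) : ℕ := 0
def ax0 (_R _F _M _d : ℕ) : Bool := false

/-- records checked against the tables and the excluded patterns -/
noncomputable def ax1 (x a b c d : ℕ) : ℕ → ℕ → ℕ → ℕ → Bool :=
  axA 0 1 x BT PP (TT a b c d) (QQ a b c d)

/-- as ax1, and images of records under the exchange of the points 8 and 9 -/
noncomputable def ax2 (x a b c d : ℕ) : ℕ → ℕ → ℕ → ℕ → Bool :=
  axW 0 1 x BT PP (TT a b c d) (QQ a b c d)

/-- records that are images of the two patterns of six points -/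
def ax6 : ℕ → ℕ → ℕ → ℕ → Bool := axA 0 1 2 QT2 (fun _ => 0) (fun _ => 0) (fun _ => 1)

/-- the listed clauses of base x -/
noncomputable def elx (x a b c d : ℕ) (t : Tre) : Bool :=
  loOk x a b c d && allT (elQ 0 1 x BT PP (TT a b c d) (QQ a b c d) (f2 (bx x))) t

/-- the rows stay inside the window and there are at most 2 ^ K of them -/
def rowsOk (R n K : ℕ) : Bool :=
  all2 144 1 (fun r _ => Nat.blt r (Nat.pow 2 140)) R 0 n && Nat.ble n (Nat.pow 2 K)

theorem ax0_ok (S : (ℕ → ℝ) → Prop) : AxOk S ax0 := fun _ _ _ _ h => absurd h (by simp [ax0])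

section
variable {H : (Fin 10 → Pt) → Prop}

theorem elx_lo {x a b c d : ℕ} {t : Tre} (h : elx x a b c d t = true) : loOk x a b c d = true := by
  rw [elx, Bool.and_eq_true] at h
  exact h.1

theorem elx_ok {x a b c d : ℕ} {t : Tre} (hH : ∀ X, H X → Good X ∧ Inv (cval X) (bx x)) (hc : Ctx x)
    (h : elx x a b c d t = true) : ElOk H (look t) := by
  rw [elx, Bool.and_eq_true] at h
  exact el_ok (fun X hX => ⟨(hH X hX).1, ctx_ax hc h.1 X,
    inv_two (good_vc X (hH X hX).1) (hH X hX).2⟩) h.2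

theorem as_st {B : ℕ} (hH : ∀ X, H X → Good X ∧ Inv (cval X) B) {ET QT RT row : ℕ → ℕ}
    {a b c w v off : ℕ} (hE : ElOk H ET) (hR : ∀ X, H X → ∀ j, b + j < c → ClM (cval X) (row j)) :
    Vs (SH H) (msk ET QT RT row a b c w v off) (c + 1) (f2 B) :=
  ⟨msk_ok (fun X hX => (hH X hX).1) hE hR,
    vi_sh.2 fun X hX => inv_two (good_vc X (hH X hX).1) (hH X hX).2⟩

theorem as_stG {B : ℕ} (hH : ∀ X, H X → Good X ∧ Inv (cval X) B) {ET QT row rc : ℕ → ℕ}
    {a b c : ℕ} (hE : ElOk H ET) (hR : ∀ X, H X → ∀ j, b + j < c → ClM (cval X) (row j)) :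
    Vs (SH H) (mskG ET QT row rc a b c) (c + 1) (f2 B) :=
  ⟨mskG_ok (fun X hX => (hH X hX).1) hE hR,
    vi_sh.2 fun X hX => inv_two (good_vc X (hH X hX).1) (hH X hX).2⟩

end

/-! ### tables of extensions: phase 1 of base x, and the tables for seven and six points -/

theorem h1_gi {B R w off n : ℕ} (X : Fin 10 → Pt) (h : H1 B R w off n X) : Good X ∧ Inv (cval X) B :=
  ⟨h.1, h.2.1⟩

theorem st1 {B R w off n : ℕ} {ET QT RT : ℕ → ℕ} {a b c rw v ro : ℕ} (hE : ElOk (H1 B R w off n) ET)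
    (hc : Nat.ble c (Nat.add b n) = true) :
    Vs (SH (H1 B R w off n)) (msk ET QT RT (rowF w R off) a b c rw v ro) (c + 1) (f2 B) :=
  as_st h1_gi hE fun X hX j hj => row_cl (good_vc X hX.1) hX.2.2 (by
    have : c ≤ b + n := Nat.le_of_ble_eq_true hc
    omega)

theorem st1G {B R w off n : ℕ} {ET QT rc : ℕ → ℕ} {a b c : ℕ} (hE : ElOk (H1 B R w off n) ET)
    (hc : Nat.ble c (Nat.add b n) = true) :
    Vs (SH (H1 B R w off n)) (mskG ET QT (rowF w R off) rc a b c) (c + 1) (f2 B) :=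
  as_stG h1_gi hE fun X hX j hj => row_cl (good_vc X hX.1) hX.2.2 (by
    have : c ≤ b + n := Nat.le_of_ble_eq_true hc
    omega)

theorem el1 {x a b c d R n : ℕ} {t : Tre} (hc : Ctx x) (h : elx x a b c d t = true) :
    ElOk (H1 (bx x) R 144 114 n) (look t) := elx_ok h1_gi hc h

theorem el1z {B R w off n : ℕ} : ElOk (H1 B R w off n) (look (Tre.lf 0)) := el_zero fun _ h => h.1

theorem env1 {x a b c d R n : ℕ} {t : Tre} {LT : ℕ → ℕ} (hc : Ctx x) (h : elx x a b c d t = true) :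
    Env (SH (H1 (bx x) R 144 114 n)) tp0 (ax1 x a b c d) (clLP LT) :=
  ⟨sh_valn fun _ h => h.1, tp0_ok _, axA_ok fun X hX => ⟨hX.1, ctx_ax hc (elx_lo h) X⟩,
    clLP_ok (fun _ h => h.1) _⟩

theorem envT {B R w off n : ℕ} {LT : ℕ → ℕ} : Env (SH (H1 B R w off n)) tp0 ax0 (clLP LT) :=
  ⟨sh_valn fun _ h => h.1, tp0_ok _, ax0_ok _, clLP_ok (fun _ h => h.1) _⟩

theorem end1 {B R w off n Bo : ℕ} {ms : ℕ → ℕ} (h : Vs (SH (H1 B R w off n)) ms Bo 1) :
    Ext B R w off n := h1_ext (cls_empty (fun _ h => h.1) h.2)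

/-! ### phase 2 of base x -/

theorem st2 {B : ℕ} {ET QT RT : ℕ → ℕ} {a b rw v ro : ℕ} (hE : ElOk (H2 B) ET) :
    Vs (SH (H2 B)) (msk ET QT RT row0 a b b rw v ro) (b + 1) (f2 B) :=
  as_st (fun _ h => h) hE fun _ _ j hj => by omega

theorem st2G {B : ℕ} {ET QT rc : ℕ → ℕ} {a b : ℕ} (hE : ElOk (H2 B) ET) :
    Vs (SH (H2 B)) (mskG ET QT row0 rc a b b) (b + 1) (f2 B) :=
  as_stG (fun _ h => h) hE fun _ _ j hj => by omega

theorem el2z {B : ℕ} : ElOk (H2 B) (look (Tre.lf 0)) := el_zero fun _ h => h.1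

theorem el2 {x a b c d : ℕ} {t : Tre} (hc : Ctx x) (h : elx x a b c d t = true) :
    ElOk (H2 (bx x)) (look t) := elx_ok (fun _ h => h) hc h

theorem as_env2 {x a b c d : ℕ} {t : Tre} {tp : ℕ → ℕ → ℕ} {LT : ℕ → ℕ} (hc : Ctx x)
    (h : elx x a b c d t = true) (ht : TpOk (SH (H2 (bx x))) tp) :
    Env (SH (H2 (bx x))) tp (ax2 x a b c d) (clLP LT) :=
  ⟨sh_valn fun _ h => h.1, ht, axW_ok (fun X hX => ⟨hX.1, ctx_ax hc (elx_lo h) X⟩)
    (h2_swap (bt_small114 x)), clLP_ok (fun _ h => h.1) _⟩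

/-- without table steps -/
theorem env2z {x a b c d : ℕ} {t : Tre} {LT : ℕ → ℕ} (hc : Ctx x) (h : elx x a b c d t = true) :
    Env (SH (H2 (bx x))) tp0 (ax2 x a b c d) (clLP LT) := as_env2 hc h (tp0_ok _)

/-- with table steps; hf is one of fo0_ok .. fo15_ok -/
theorem env2 {x a b c d R n K : ℕ} {t : Tre} {fo : ℕ → ℕ → ℕ → ℕ} {LT : ℕ → ℕ} (hc : Ctx x)
    (h : elx x a b c d t = true) (hf : ∀ w n, n ≤ 2 ^ K → FoldOK w n (fo w n))
    (hr : rowsOk R n K = true) (hE : Ext (bx x) R 144 114 n) :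
    Env (SH (H2 (bx x))) (tpR R n (fo 144 n)) (ax2 x a b c d) (clLP LT) := by
  rw [rowsOk, Bool.and_eq_true] at hr
  exact as_env2 hc h (tpR_ok (hf _ _ (Nat.le_of_ble_eq_true hr.2)) fun X hX =>
    ⟨hX.1, ext_lanesR (bt_small114 x) hr.1 hE X hX⟩)

theorem end2 {x Bo : ℕ} {ms : ℕ → ℕ} (h : Vs (SH (H2 (bx x))) ms Bo 1) : NG (fld 128 BT x) :=
  h2_ng (cls_empty (fun _ h => h.1) h.2)

/-- no extension at all -/
theorem end0 {x R : ℕ} (h : Ext (bx x) R 144 114 0) : NG (fld 128 BT x) := ext_zero h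

/-- A with the literals in the first k fields of w (16 bits each); the field 0 ends the list -/
noncomputable def xm (k w A : ℕ) : ℕ :=
  Nat.rec (motive := fun _ => ℕ → ℕ → ℕ) (fun _ A => A)
    (fun _ ih w A => Nat.rec (motive := fun _ => ℕ) A
      (fun v _ => ih (Nat.shiftRight w 16) (Nat.lor A (Nat.shiftLeft 2 v))) (Nat.land w 65535)) k w A

def xr1 (v0 off u : ℕ) : ℕ := Nat.shiftLeft (Nat.land u v0) off

/-- records of width w: w0 bits (mask v0) moved up by off, then up to 32 listed literals -/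
noncomputable def rcX (RT : ℕ → ℕ) (w v w0 v0 off i : ℕ) : ℕ :=
  xm 32 (Nat.shiftRight (tf RT w v 4 15 i) w0) (xr1 v0 off (tf RT w v 4 15 i))

/-! ### six points -/

theorem st6 {QT RT : ℕ → ℕ} {a b rw v ro : ℕ} :
    Vs (SH Good) (msk (look (Tre.lf 0)) QT RT row0 a b b rw v ro) (b + 1) (f2 0) :=
  as_st (fun _ h => ⟨h, fun _ hl => absurd hl (by simp)⟩) (el_zero fun _ h => h) fun _ _ j hj => by omega

theorem env6 {LT : ℕ → ℕ} (h : Upto QT2 2) : Env (SH Good) tp0 ax6 (clLP LT) :=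
  ⟨sh_valn fun _ h => h, tp0_ok _, axA_ok fun X hX => ⟨hX, upto_ax h X⟩, clLP_ok (fun _ h => h) _⟩

theorem end6 {Bo : ℕ} {ms : ℕ → ℕ} (h : Vs (SH Good) ms Bo 1) (X : Fin 10 → Pt) : ¬ Good X :=
  cls_empty (fun _ h => h) h.2 X

end AcuteCh
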