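import Pool.Agent.Lib.MP_bc94b4_co.Ch.Rows

/-! Up to 32 masks pulled back along one relabelling at once, in lanes of 2048 bits. -/

set_option autoImplicit false

namespace AcuteCh

def RP : ℕ := rep 2048 33
def XR0 : ℕ := Nat.mul XU0 RP
def XR1 : ℕ := Nat.mul XU1 RP
def XR2 : ℕ := Nat.mul XU2 RP
def XR3 : ℕ := Nat.mul XU3 RP
def XR4 : ℕ := Nat.mul XU4 RP
def XR5 : ℕ := Nat.mul XU5 RP
def XR6 : ℕ := Nat.mul XU6 RP
def XR7 : ℕ := Nat.mul XU7 RP
def XR8 : ℕ := Nat.mul XU8 RP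
def XR9 : ℕ := Nat.mul XU9 RP
def CR0 : ℕ := Nat.mul CU0 RP
def CR1 : ℕ := Nat.mul CU1 RP
def CR2 : ℕ := Nat.mul CU2 RP
def CR3 : ℕ := Nat.mul CU3 RP
def CR4 : ℕ := Nat.mul CU4 RP
def CR5 : ℕ := Nat.mul CU5 RP
def CR6 : ℕ := Nat.mul CU6 RP
def CR7 : ℕ := Nat.mul CU7 RP
def VR : ℕ := Nat.shiftLeft (Nat.mul V506 (rep 2048 32)) 2048
def V8R : ℕ := Nat.mul V8 RP
def EVR : ℕ := Nat.mul EV RP

def expandB (M : ℕ) : ℕ :=
  mvu 2 XR9 (mvu 4 XR8 (mvu 8 XR7 (mvu 16 XR6 (mvu 32 XR5 (mvu 64 XR4 (mvu 128 XR3 (mvu 256 XR2 (mvu 512 XR1 (mvu 1024 XR0 (Nat.land M VR))))))))))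
def compressB (M : ℕ) : ℕ :=
  mvd 256 CR7 (mvd 128 CR6 (mvd 64 CR5 (mvd 32 CR4 (mvd 16 CR3 (mvd 8 CR2 (mvd 4 CR1 (mvd 2 CR0 M)))))))
def trUB (n : ℕ) : ℕ := Nat.mul (fdf 2048 (trU n) 0) RP
def trEB (n : ℕ) : ℕ := fdf 2048 (trE n) 1

/-- lane 0 holds the pending sign changes -/
def trsB (c N : ℕ) : ℕ := Nat.rec N (fun n _ => Nat.xor (dsw (trS n) (trUB n) N) (trEB n)) c

def fin8B (N : ℕ) : ℕ :=
  (fun M => (fun t => Nat.lor (Nat.xor M t)
      (Nat.lor (Nat.shiftLeft (Nat.land t EVR) 1) (Nat.land (Nat.shiftRight t 1) EVR)))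
    (Nat.land (Nat.mul (Nat.land N V8) RP) M)) (Nat.land N V8R)

def pullB (w A : ℕ) : ℕ :=
  compressB (fin8B
    (trsB (Nat.land (Nat.shiftRight w 56) 255) (trsB (Nat.land (Nat.shiftRight w 48) 255)
    (trsB (Nat.land (Nat.shiftRight w 40) 255) (trsB (Nat.land (Nat.shiftRight w 32) 255)
    (trsB (Nat.land (Nat.shiftRight w 24) 255) (trsB (Nat.land (Nat.shiftRight w 16) 255)
    (trsB (Nat.land (Nat.shiftRight w 8) 255) (trsB (Nat.land w 255)
      (Bool.rec (expandB A) (Nat.lor (expandB A) VAL) (Nat.ble 0x10000000000000000 w)))))))))))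

/-- entry i of E in lane k - 1 - i -/
def lanes (E k : ℕ) : ℕ :=
  Nat.rec 0 (fun i acc => Nat.lor (Nat.shiftLeft acc 2048) (Nat.land (fm (fdf 96 E i)) V506)) k

/-- the first k entries of E are T clauses for one word -/
def tGrp (P T Q F v E k : ℕ) : Bool :=
  (fun Y => Bool.rec false (Bool.rec false
      (Nat.rec true (fun j acc => Bool.rec false acc (eChk 72 T Q
        (Nat.land (Nat.shiftRight Y (Nat.add (Nat.mul 2048 j) 2092)) 0x7fffffffffffffffff))) k)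
      (sub (Nat.shiftLeft (Nat.mul P (rep 2048 k)) 2048) Y)) (Nat.blt P (Nat.pow 2 2048)))
    (pullB v (Nat.shiftLeft (Nat.lor (Nat.mul (Nat.land F V506) (rep 2048 k)) (lanes E k)) 2048))

/-- the first k entries of E are justified by the same word d -/
def elGrp (T8 Q8 x BT : ℕ) (PP TT QQ : ℕ → ℕ) (F E k d : ℕ) : Bool :=
  Bool.rec false
    (Bool.rec (allI 96 0 (fun e _ => axCl T8 Q8 x BT PP TT QQ F (fm e) d) E 0 k)
      ((fun c => tGrp (PP c) (TT c) (QQ c) F (Nat.shiftRight d 3) E k) (Nat.sub (Nat.land d 7) 2))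
      (Nat.ble 2 (Nat.land d 7) && Nat.ble (Nat.land d 7) 5))
    (Nat.ble k 32)

/-- number of entries of T covered by the first m groups; a group is a word of 96 bits in G:
the justification in the low 88 bits, the number of entries (at most 32) above -/
def elCov (T8 Q8 x BT : ℕ) (PP TT QQ : ℕ → ℕ) (F T G m : ℕ) : ℕ :=
  Nat.rec 0 (fun g a => (fun u => Bool.rec 0 (Nat.add a (Nat.shiftRight u 88))
    (elGrp T8 Q8 x BT PP TT QQ F (Nat.mod (Nat.shiftRight T (Nat.mul 96 a)) (Nat.pow 2 3072))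
      (Nat.shiftRight u 88) (Nat.land u 0xffffffffffffffffffffff))) (fdf 96 G g)) m

theorem bt_rep (W C k i : ℕ) (hW : 0 < W) (hC : C < 2 ^ W) :
    fld W (C * rep W k) i = if i < k then C else 0 := by
  induction k generalizing i with
  | zero => rw [(rw_rep_succ W 0 hW).1]; simp [fld]
  | succ k ih =>
    rw [(rw_rep_succ W k hW).2, show C * (1 + 2 ^ W * rep W k) = C + 2 ^ W * (C * rep W k) by ring]
    rcases i with _ | i
    · show ((_ : ℕ) >>> (W * 0)) % 2 ^ W = _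
      rw [mul_zero, Nat.shiftRight_zero, Nat.add_mul_mod_self_left, Nat.mod_eq_of_lt hC,
        if_pos (by omega)]
    · rw [rw_fld_succ, Nat.add_mul_div_left _ _ (Nat.two_pow_pos W), Nat.div_eq_of_lt hC, Nat.zero_add, ih]
      simp

theorem bt_and (W A B i : ℕ) : fld W (A &&& B) i = fld W A i &&& fld W B i := by
  unfold fld
  rw [Nat.shiftRight_and_distrib, Nat.and_mod_two_pow]

theorem bt_or (W A B i : ℕ) : fld W (A ||| B) i = fld W A i ||| fld W B i := by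
  unfold fld
  rw [Nat.shiftRight_or_distrib, Nat.or_mod_two_pow]

theorem bt_xor (W A B i : ℕ) : fld W (A ^^^ B) i = fld W A i ^^^ fld W B i := by
  unfold fld
  rw [Nat.shiftRight_xor_distrib, Nat.xor_mod_two_pow]

theorem bt_hi {W s U q : ℕ} (hU : U <<< s < 2 ^ W) (h : U.testBit q = true) : q + s < W :=
  im_lt hU (by rw [Nat.testBit_shiftLeft, Nat.add_sub_cancel, h]; simp)

theorem bt_lt {W s U : ℕ} (hU : U <<< s < 2 ^ W) : U < 2 ^ W :=
  lt_of_le_of_lt (by rw [Nat.shiftLeft_eq]; exact Nat.le_mul_of_pos_right _ (Nat.two_pow_pos s)) hU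

theorem bt_bit {W U k : ℕ} (hW : 0 < W) (hU : U < 2 ^ W) (i q : ℕ) (hq : q < W) :
    (U * rep W k).testBit (W * i + q) = (decide (i < k) && U.testBit q) := by
  have h := congrArg (·.testBit q) (bt_rep W U k i hW hU)
  simp only [rw_fld_bit, hq, decide_true, Bool.true_and] at h
  rw [h]
  split_ifs with hi <;> simp [hi]

/-- moving up inside the lanes -/
theorem bt_shl {W s U k : ℕ} (hW : 0 < W) (hU : U <<< s < 2 ^ W) (A i : ℕ) :
    fld W ((A &&& (U * rep W k)) <<< s) i = fld W (A &&& (U * rep W k)) i <<< s := by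
  refine Nat.eq_of_testBit_eq fun q => ?_
  rw [rw_fld_bit, Nat.testBit_shiftLeft, Nat.testBit_shiftLeft, rw_fld_bit, Nat.testBit_and,
    Nat.testBit_and]
  by_cases h1 : s ≤ q
  · rw [show W * i + q - s = W * i + (q - s) by omega]
    by_cases h2 : q < W
    · simp [h1, h2, show q - s < W by omega, show s ≤ W * i + q by omega]
    · by_cases h3 : q - s < W
      · rw [bt_bit hW (bt_lt hU) _ _ h3]
        cases h4 : U.testBit (q - s) with
        | false => simp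
        | true => have := bt_hi hU h4; omega
      · simp [h2, h3]
  · rw [decide_eq_false (show ¬ q ≥ s by omega), Bool.false_and]
    by_cases h2 : q < W ∧ s ≤ W * i + q
    · obtain ⟨d, hd⟩ : ∃ d, W * i + q - s = W * ((W * i + q - s) / W) + d ∧ d < W :=
        ⟨_, (Nat.div_add_mod _ _).symm, Nat.mod_lt _ hW⟩
      generalize (W * i + q - s) / W = j at hd
      rw [hd.1, bt_bit hW (bt_lt hU) _ _ hd.2]
      cases h4 : U.testBit d with
      | false => simp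
      | true =>
        have h5 := bt_hi hU h4
        have h6 : j < i := lt_of_mul_lt_mul_left (a := W) (by omega) (Nat.zero_le _)
        have h7 : W * (j + 1) ≤ W * i := Nat.mul_le_mul_left W h6
        rw [mul_add, mul_one] at h7
        omega
    · rw [not_and_or] at h2
      rcases h2 with h2 | h2 <;> simp [h2]

/-- moving down and then selecting -/
theorem bt_shr1 {W s U : ℕ} (hU : U <<< s < 2 ^ W) (A i : ℕ) :
    fld W (A >>> s) i &&& U = fld W A i >>> s &&& U := by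
  refine Nat.eq_of_testBit_eq fun q => ?_
  simp only [Nat.testBit_and, rw_fld_bit, Nat.testBit_shiftRight]
  cases h4 : U.testBit q with
  | false => simp
  | true =>
    have := bt_hi hU h4
    simp [show q < W by omega, show s + q < W by omega, show s + (W * i + q) = W * i + (s + q) by ring]

/-- selecting and then moving down -/
theorem bt_shr2 {W s U k : ℕ} (hW : 0 < W) (hs : s ≤ W) (hU : U < 2 ^ W) (h0 : U % 2 ^ s = 0)
    (A i : ℕ) : fld W ((A &&& (U * rep W k)) >>> s) i = fld W (A &&& (U * rep W k)) i >>> s := by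
  refine Nat.eq_of_testBit_eq fun q => ?_
  rw [rw_fld_bit, Nat.testBit_shiftRight, Nat.testBit_shiftRight, rw_fld_bit]
  by_cases h1 : s + q < W
  · simp [h1, show q < W by omega, show s + (W * i + q) = W * i + (s + q) by ring]
  · by_cases h2 : q < W
    · have h3 : U.testBit (s + q - W) = false := by
        have := congrArg (·.testBit (s + q - W)) h0
        simpa [Nat.testBit_mod_two_pow, show s + q - W < s by omega] using this
      rw [show s + (W * i + q) = W * (i + 1) + (s + q - W) by rw [mul_add]; omega, Nat.testBit_and,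
        bt_bit hW hU _ _ (by omega), h3]
      simp [h1]
    · simp [h1, h2]

theorem bt_dsw {W s U k : ℕ} (hW : 0 < W) (hU : U <<< s < 2 ^ W) (A i : ℕ) (hi : i < k) :
    fld W (dsw s (U * rep W k) A) i = dsw s U (fld W A i) := by
  show fld W ((A ^^^ (((A >>> s) ^^^ A) &&& (U * rep W k))) ^^^
      ((((A >>> s) ^^^ A) &&& (U * rep W k)) <<< s)) i
    = (fld W A i ^^^ (((fld W A i >>> s) ^^^ fld W A i) &&& U)) ^^^
      ((((fld W A i >>> s) ^^^ fld W A i) &&& U) <<< s)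
  rw [bt_xor, bt_xor, bt_shl hW hU, bt_and, bt_xor, bt_rep _ _ _ _ hW (bt_lt hU), if_pos hi,
    Nat.and_xor_distrib_right, bt_shr1 hU, ← Nat.and_xor_distrib_right]

theorem bt_mvu {W s U k : ℕ} (hW : 0 < W) (hU : U <<< s < 2 ^ W) (A i : ℕ) (hi : i < k) :
    fld W (mvu s (U * rep W k) A) i = mvu s U (fld W A i) := by
  show fld W ((A ^^^ (A &&& (U * rep W k))) ||| ((A &&& (U * rep W k)) <<< s)) i
    = (fld W A i ^^^ (fld W A i &&& U)) ||| ((fld W A i &&& U) <<< s)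
  rw [bt_or, bt_xor, bt_shl hW hU, bt_and, bt_rep _ _ _ _ hW (bt_lt hU), if_pos hi]

theorem bt_mvd {W s U k : ℕ} (hW : 0 < W) (hs : s ≤ W) (hU : U < 2 ^ W ∧ U % 2 ^ s = 0) (A i : ℕ)
    (hi : i < k) : fld W (mvd s (U * rep W k) A) i = mvd s U (fld W A i) := by
  show fld W ((A ^^^ (A &&& (U * rep W k))) ||| ((A &&& (U * rep W k)) >>> s)) i
    = (fld W A i ^^^ (fld W A i &&& U)) ||| ((fld W A i &&& U) >>> s)
  rw [bt_or, bt_xor, bt_shr2 hW hs hU.1 hU.2, bt_and, bt_rep _ _ _ _ hW hU.1, if_pos hi]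

theorem bt_chk1 : (XU0 <<< 1024 < 2 ^ 2048 ∧ XU1 <<< 512 < 2 ^ 2048 ∧ XU2 <<< 256 < 2 ^ 2048 ∧ XU3 <<< 128 < 2 ^ 2048 ∧ XU4 <<< 64 < 2 ^ 2048 ∧ XU5 <<< 32 < 2 ^ 2048 ∧ XU6 <<< 16 < 2 ^ 2048 ∧ XU7 <<< 8 < 2 ^ 2048 ∧ XU8 <<< 4 < 2 ^ 2048 ∧ XU9 <<< 2 < 2 ^ 2048) ∧
    ((CU0 < 2 ^ 2048 ∧ CU0 % 2 ^ 2 = 0) ∧ (CU1 < 2 ^ 2048 ∧ CU1 % 2 ^ 4 = 0) ∧ (CU2 < 2 ^ 2048 ∧ CU2 % 2 ^ 8 = 0) ∧ (CU3 < 2 ^ 2048 ∧ CU3 % 2 ^ 16 = 0) ∧ (CU4 < 2 ^ 2048 ∧ CU4 % 2 ^ 32 = 0) ∧ (CU5 < 2 ^ 2048 ∧ CU5 % 2 ^ 64 = 0) ∧ (CU6 < 2 ^ 2048 ∧ CU6 % 2 ^ 128 = 0) ∧ (CU7 < 2 ^ 2048 ∧ CU7 % 2 ^ 256 = 0)) ∧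
    V506 < 2 ^ 2048 ∧ V8 < 2 ^ 2048 ∧ EV <<< 1 < 2 ^ 2048 := by
  decide +kernel

def expand0 (M : ℕ) : ℕ :=
  mvu 2 XU9 (mvu 4 XU8 (mvu 8 XU7 (mvu 16 XU6 (mvu 32 XU5 (mvu 64 XU4 (mvu 128 XU3 (mvu 256 XU2 (mvu 512 XU1 (mvu 1024 XU0 M)))))))))

theorem bt_up (W A i : ℕ) : fld W (A <<< W) 0 = 0 ∧ fld W (A <<< W) (i + 1) = fld W A i := by
  refine ⟨?_, ?_⟩
  · show ((A <<< W) >>> (W * 0)) % 2 ^ W = 0
    rw [mul_zero, Nat.shiftRight_zero, Nat.shiftLeft_eq, Nat.mul_mod_left]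
  · rw [rw_fld_succ, Nat.shiftLeft_eq, Nat.mul_div_cancel _ (Nat.two_pow_pos W)]

theorem bt_small {W A : ℕ} (h : A < 2 ^ W) (i : ℕ) : fld W A 0 = A ∧ fld W A (i + 1) = 0 := by
  refine ⟨?_, ?_⟩
  · show (A >>> (W * 0)) % 2 ^ W = A
    rw [mul_zero, Nat.shiftRight_zero, Nat.mod_eq_of_lt h]
  · rw [rw_fld_succ, Nat.div_eq_of_lt h]
    simp [fld]

theorem bt_mul (U : ℕ) : Nat.mul U RP = U * rep 2048 33 := by
  unfold RP
  exact Nat.mul_eq

theorem bt_vr : VR = (V506 * rep 2048 32) <<< 2048 := by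
  unfold VR
  rw [Nat.mul_eq, Nat.shiftLeft_eq']

theorem bt_expand (A i : ℕ) (hi : i < 33) :
    fld 2048 (expandB A) i = expand0 (fld 2048 (A &&& VR) i) := by
  obtain ⟨⟨h0, h1, h2, h3, h4, h5, h6, h7, h8, h9⟩, -⟩ := bt_chk1
  have w : 0 < 2048 := by norm_num
  unfold expandB expand0 XR0 XR1 XR2 XR3 XR4 XR5 XR6 XR7 XR8 XR9
  simp only [bt_mul]
  rw [bt_mvu w h9 _ i hi, bt_mvu w h8 _ i hi, bt_mvu w h7 _ i hi, bt_mvu w h6 _ i hi,
    bt_mvu w h5 _ i hi, bt_mvu w h4 _ i hi, bt_mvu w h3 _ i hi, bt_mvu w h2 _ i hi,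
    bt_mvu w h1 _ i hi, bt_mvu w h0 _ i hi, Nat.land_eq]

theorem bt_compress (A i : ℕ) (hi : i < 33) :
    fld 2048 (compressB A) i = compress (fld 2048 A i) := by
  obtain ⟨-, ⟨h0, h1, h2, h3, h4, h5, h6, h7⟩, -⟩ := bt_chk1
  have w : 0 < 2048 := by norm_num
  unfold compressB compress CR0 CR1 CR2 CR3 CR4 CR5 CR6 CR7
  simp only [bt_mul]
  rw [bt_mvd w (by norm_num) h7 _ i hi, bt_mvd w (by norm_num) h6 _ i hi,
    bt_mvd w (by norm_num) h5 _ i hi, bt_mvd w (by norm_num) h4 _ i hi,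
    bt_mvd w (by norm_num) h3 _ i hi, bt_mvd w (by norm_num) h2 _ i hi,
    bt_mvd w (by norm_num) h1 _ i hi, bt_mvd w (by norm_num) h0 _ i hi]

theorem bt_chk2 : ((List.range 160).all fun n => decide (trU n = fld 2048 (trU n) 0 * rep 2048 2 ∧
    fld 2048 (trU n) 0 <<< trS n < 2 ^ 2048 ∧ fld 2048 (trE n) 0 = 0)) = true := by
  decide +kernel

/-- lane i + 1 and lane 0 of N are the two halves of Z -/
def Same (i N Z : ℕ) : Prop := fld 2048 N (i + 1) = fld 2048 Z 0 ∧ fld 2048 N 0 = fld 2048 Z 1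

theorem bt_trs (c i N Z : ℕ) (hi : i < 32) (h : Same i N Z) : Same i (trsB c N) (trs c Z) := by
  rcases c with _ | n
  · exact h
  have hn : trU n = fld 2048 (trU n) 0 * rep 2048 2 ∧ fld 2048 (trU n) 0 <<< trS n < 2 ^ 2048 ∧
      fld 2048 (trE n) 0 = 0 := by
    by_cases h1 : n < 160
    · simpa using List.all_eq_true.1 bt_chk2 n (List.mem_range.2 h1)
    · have h2 : trOk n = false := by
        by_contra h3
        simp only [trOk, trI, trJ, Bool.not_eq_false, Bool.and_eq_true, Nat.blt_eq] at h3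
        omega
      rw [trU, trE, h2, cond_false, cond_false]
      simp [fld]
  have w : 0 < 2048 := by norm_num
  have e1 : trsB (n + 1) N = dsw (trS n) (fld 2048 (trU n) 0 * rep 2048 33) N ^^^ fld 2048 (trE n) 1 := by
    rw [← bt_mul]
    rfl
  have e2 : trs (n + 1) Z = dsw (trS n) (fld 2048 (trU n) 0 * rep 2048 2) Z ^^^ trE n := by
    rw [← hn.1]
    rfl
  have e3 := bt_small (show fld 2048 (trE n) 1 < 2 ^ 2048 from Nat.mod_lt _ (Nat.two_pow_pos _)) i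
  unfold Same
  rw [e1, e2, bt_xor, bt_xor, bt_xor, bt_xor, bt_dsw w hn.2.1 _ _ (by omega),
    bt_dsw w hn.2.1 _ _ (by omega), bt_dsw w hn.2.1 _ _ (by omega), bt_dsw w hn.2.1 _ _ (by omega),
    e3.1, e3.2, hn.2.2, h.1, h.2]
  exact ⟨rfl, rfl⟩

theorem bt_start (b : Bool) (A i : ℕ) (hi : i < 32) :
    Same i (Bool.rec (expandB A) (Nat.lor (expandB A) VAL) b)
      (Bool.rec (expand (fld 2048 A (i + 1))) (Nat.lor (expand (fld 2048 A (i + 1))) VH) b) := by
  have w : 0 < 2048 := by norm_num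
  have h0 : expand (fld 2048 A (i + 1)) < 2 ^ 2048 := Nat.lt_pow_two_of_testBit _ fun k hk => by
    by_contra hc
    obtain ⟨l, h2, h3⟩ := im_expand _ k (by simpa using hc)
    rw [Nat.testBit_and, Bool.and_eq_true] at h2
    have := (im_lit l (im_lt im_consts.1 h2.2)).1 h2.2
    omega
  have h1 : fld 2048 (expandB A) (i + 1) = expand (fld 2048 A (i + 1)) := by
    rw [bt_expand _ _ (by omega), bt_and, bt_vr,
      (bt_up _ _ i).2, bt_rep _ _ _ _ w bt_chk1.2.2.1, if_pos hi]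
    rfl
  have h2 : fld 2048 (expandB A) 0 = 0 := by
    rw [bt_expand _ _ (by omega), bt_and, bt_vr,
      (bt_up _ _ i).1, Nat.and_zero]
    decide +kernel
  have h3 := bt_small im_consts.2.2.1 i
  cases b
  · exact ⟨h1.trans (bt_small h0 0).1.symm, h2.trans (bt_small h0 0).2.symm⟩
  · show fld 2048 (expandB A ||| VAL) (i + 1) = fld 2048 (expand _ ||| VH) 0 ∧
      fld 2048 (expandB A ||| VAL) 0 = fld 2048 (expand _ ||| VH) (0 + 1)
    rw [bt_or, bt_or, bt_or, bt_or, h1, h2, im_consts.2.2.2, (bt_up _ _ 0).1, (bt_up _ _ 0).2,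
      (bt_small h0 0).1, (bt_small h0 0).2, h3.2]
    exact ⟨rfl, rfl⟩

theorem bt_fin8 (i N Z : ℕ) (hi : i < 32) (h : Same i N Z) : fld 2048 (fin8B N) (i + 1) = fin8 Z := by
  have w : 0 < 2048 := by norm_num
  obtain ⟨-, -, -, v, e⟩ := bt_chk1
  have a : ∀ A : ℕ, fld 2048 A 0 &&& V8 = A &&& V8 := fun A => by
    rw [← (bt_small v 0).1, ← bt_and, (bt_small v 0).1,
      (bt_small (lt_of_le_of_lt Nat.and_le_right v) 0).1]
  have m : fld 2048 (N &&& (V8 * rep 2048 33)) (i + 1) = Z &&& V8 := by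
    rw [bt_and, bt_rep _ _ _ _ w v, if_pos (by omega), h.1, a]
  have t : fld 2048 (((N &&& V8) * rep 2048 33) &&& (N &&& (V8 * rep 2048 33))) (i + 1)
      = (Z >>> 2048) &&& (Z &&& V8) := by
    rw [bt_and, m, bt_rep _ _ _ _ w (lt_of_le_of_lt Nat.and_le_right v), if_pos (by omega), ← a N, h.2,
      rw_fld_succ, a, ← Nat.shiftRight_eq_div_pow, Nat.and_comm Z, Nat.and_assoc, ← Nat.and_assoc V8,
      Nat.and_self]
  unfold fin8B V8R EVR
  simp only [bt_mul]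
  show fld 2048 (((N &&& (V8 * rep 2048 33)) ^^^
      (((N &&& V8) * rep 2048 33) &&& (N &&& (V8 * rep 2048 33)))) |||
      ((((((N &&& V8) * rep 2048 33) &&& (N &&& (V8 * rep 2048 33))) &&& (EV * rep 2048 33)) <<< 1) |||
      (((((N &&& V8) * rep 2048 33) &&& (N &&& (V8 * rep 2048 33))) >>> 1) &&& (EV * rep 2048 33)))) (i + 1)
    = ((Z &&& V8) ^^^ ((Z >>> 2048) &&& (Z &&& V8))) |||
      (((((Z >>> 2048) &&& (Z &&& V8)) &&& EV) <<< 1) ||| ((((Z >>> 2048) &&& (Z &&& V8)) >>> 1) &&& EV))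
  rw [bt_or, bt_or, bt_xor, bt_shl w e, bt_and _ _ (EV * _), bt_and _ _ (EV * _),
    bt_rep _ _ _ _ w (bt_lt e), if_pos (by omega), bt_shr1 e, t, m]

theorem bt_pull (v A i : ℕ) (hi : i < 32) :
    fld 2048 (pullB v A) (i + 1) = pull v (fld 2048 A (i + 1)) := by
  unfold pullB pull
  rw [bt_compress _ _ (by omega)]
  exact congrArg _ (bt_fin8 i _ _ hi (bt_trs _ _ _ _ hi (bt_trs _ _ _ _ hi (bt_trs _ _ _ _ hi
    (bt_trs _ _ _ _ hi (bt_trs _ _ _ _ hi (bt_trs _ _ _ _ hi (bt_trs _ _ _ _ hi (bt_trs _ _ _ _ hi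
    (bt_start _ A i hi))))))))))

theorem bt_lanes (E k i : ℕ) (hi : i < k) :
    fld 2048 (lanes E k) (k - 1 - i) = fm (fld 96 E i) &&& V506 := by
  induction k with
  | zero => omega
  | succ k ih =>
    have e : lanes E (k + 1) = lanes E k <<< 2048 ||| (fm (fld 96 E k) &&& V506) := rfl
    have h := bt_small (lt_of_le_of_lt (Nat.and_le_right (n := fm (fld 96 E k))) bt_chk1.2.2.1)
    rw [e, bt_or]
    by_cases h1 : i = k
    · rw [h1, show k + 1 - 1 - k = 0 by omega, (bt_up _ _ 0).1, (h 0).1, Nat.zero_or]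
    · rw [show k + 1 - 1 - i = (k - 1 - i) + 1 by omega, (bt_up _ _ _).2, (h _).2, Nat.or_zero,
        ih (by omega)]

theorem bt_all {p : ℕ → Bool} {k : ℕ}
    (h : (Nat.rec true (fun j acc => Bool.rec false acc (p j)) k : Bool) = true) : ∀ j < k, p j = true := by
  induction k with
  | zero => intro j hj; omega
  | succ k ih =>
    cases h1 : p k with
    | false => simp [h1] at h
    | true =>
      simp only [h1] at h
      intro i hi
      rcases Nat.lt_succ_iff_lt_or_eq.1 hi with h2 | rfl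
      · exact ih h i h2
      · exact h1

theorem bt_rec {a b : Bool} (h : (Bool.rec false a b : Bool) = true) : a = true ∧ b = true := by
  cases b
  · exact absurd h (by simp)
  · exact ⟨h, rfl⟩

theorem tGrp_sound {P T Q F v E k : ℕ} (hk : k ≤ 32)
    (hT : ∀ Y, Good Y → Inv (cval Y) P → PTb (cval Y) 72 44 T Q) (h : tGrp P T Q F v E k = true)
    (X : Fin 10 → Pt) (hX : Good X) (hF : Inv (cval X) F) : ClT (cval X) E k := by
  intro i hi
  refine fm_cl6 ?_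
  by_contra hM
  have w : 0 < 2048 := by norm_num
  unfold tGrp at h
  beta_reduce at h
  generalize h2 : Nat.blt P (Nat.pow 2 2048) = b2 at h
  generalize h4 : sub _ _ = b4 at h
  obtain ⟨h1, rfl⟩ := bt_rec h
  obtain ⟨h3, rfl⟩ := bt_rec h1
  have h5 := bt_all h3 (k - 1 - i) (by omega)
  have h6 := bt_pull v ((((F &&& V506) * rep 2048 k) ||| lanes E k) <<< 2048) (k - 1 - i) (by omega)
  rw [(bt_up _ _ _).2, bt_or, bt_lanes _ _ _ hi,
    bt_rep _ _ _ _ w (lt_of_le_of_lt Nat.and_le_right bt_chk1.2.2.1), if_pos (by omega)] at h6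
  have i0 : ∀ A, Inv (cval X) A → Inv (cval X) (A &&& V506) := fun A hA l hl => by
    rw [Nat.testBit_and, Bool.and_eq_true] at hl
    exact hA l hl.1
  obtain ⟨Y, g1, g2, -⟩ := pull_sound v _ X hX
    (inv_or (i0 _ hF) (i0 _ (inv_of_not (good_vc X hX) hM)))
  rw [← h6] at g2
  have hj : k - 1 - i < k := by omega
  generalize k - 1 - i = j at h5 g2 hj
  clear h6 h1 h3 h
  simp only [Nat.lor_eq, Nat.mul_eq, Nat.land_eq, Nat.shiftLeft_eq', Nat.shiftRight_eq,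
    Nat.add_eq] at h4 h5
  generalize pullB v ((((F &&& V506) * rep 2048 k) ||| lanes E k) <<< 2048) = Z at h4 h5 g2
  have hP : P < 2 ^ 2048 := by simpa only [Nat.blt_eq, Nat.pow_eq] using h2
  have g3 : Inv (cval Y) P := fun l hl => g2 l (by
    have a : (fld 2048 ((P * rep 2048 k) <<< 2048) (j + 1)).testBit l = true := by
      rwa [(bt_up _ _ _).2, bt_rep _ _ _ _ w hP, if_pos hj]
    rw [rw_fld_bit, Bool.and_eq_true] at a ⊢
    exact ⟨a.1, sub_bit h4 a.2⟩)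
  rw [show (0x7fffffffffffffffff : ℕ) = 2 ^ 71 - 1 by norm_num, Nat.and_two_pow_sub_one_eq_mod] at h5
  obtain ⟨q, a, b⟩ := hT Y g1 g3 _ (Nat.mod_lt _ (Nat.two_pow_pos _)) h5
  rw [Nat.testBit_mod_two_pow, Nat.testBit_shiftRight, Bool.and_eq_true, decide_eq_true_eq] at a
  refine absurd b (g2 _ ?_).not_gt
  rw [rw_fld_bit, decide_eq_true (by omega), show 2048 * (j + 1) + (q + 44) = 2048 * j + 2092 + q by ring,
    a.2]
  rfl

theorem elGrp_sound {T8 Q8 x BT : ℕ} {PP TT QQ : ℕ → ℕ} {F E k d : ℕ}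
    (h : elGrp T8 Q8 x BT PP TT QQ F E k d = true) (X : Fin 10 → Pt) (hX : Good X)
    (hA : AxC X T8 Q8 x BT PP TT QQ) (hF : Inv (cval X) F) : k ≤ 32 ∧ ClT (cval X) E k := by
  obtain ⟨h1, h2⟩ := bt_rec h
  have hk := Nat.le_of_ble_eq_true h2
  refine ⟨hk, ?_⟩
  generalize (Nat.ble 2 (Nat.land d 7) && Nat.ble (Nat.land d 7) 5) = b at h1
  cases b
  · exact fun i hi => fm_cl6 (axCl_sound X hX hA hF (allI_sound h1 i hi))
  · exact tGrp_sound hk (hA.2.2.1 _) h1 X hX hF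

/-- the entries covered by the groups are clauses -/
theorem elCov_sound (T8 Q8 x BT : ℕ) (PP TT QQ : ℕ → ℕ) (F T G m : ℕ) (X : Fin 10 → Pt) (hX : Good X)
    (hA : AxC X T8 Q8 x BT PP TT QQ) (hF : Inv (cval X) F) :
    ClT (cval X) T (elCov T8 Q8 x BT PP TT QQ F T G m) := by
  induction m with
  | zero => intro i hi; exact absurd hi (Nat.not_lt_zero i)
  | succ m ih =>
    have e : elCov T8 Q8 x BT PP TT QQ F T G (m + 1) = Bool.rec 0
        (elCov T8 Q8 x BT PP TT QQ F T G m + Nat.shiftRight (fdf 96 G m) 88)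
        (elGrp T8 Q8 x BT PP TT QQ F
          (Nat.mod (Nat.shiftRight T (Nat.mul 96 (elCov T8 Q8 x BT PP TT QQ F T G m))) (Nat.pow 2 3072))
          (Nat.shiftRight (fdf 96 G m) 88) (Nat.land (fdf 96 G m) 0xffffffffffffffffffffff)) := rfl
    rw [e]
    generalize elCov T8 Q8 x BT PP TT QQ F T G m = a at ih ⊢
    generalize Nat.shiftRight (fdf 96 G m) 88 = k
    generalize hb : elGrp T8 Q8 x BT PP TT QQ F _ k _ = b
    cases b
    · intro i hi
      exact absurd hi (Nat.not_lt_zero i)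
    · obtain ⟨h1, h2⟩ := elGrp_sound hb X hX hA hF
      intro i hi
      have hi' : i < a + k := hi
      by_cases h3 : i < a
      · exact ih i h3
      · have h4 := h2 (i - a) (by omega)
        have h5 : fld 96 (Nat.mod (Nat.shiftRight T (Nat.mul 96 a)) (Nat.pow 2 3072)) (i - a)
            = fld 96 T i := Nat.eq_of_testBit_eq fun q => by
          rw [show ∀ u v : ℕ, Nat.mod u v = u % v from fun _ _ => rfl, Nat.pow_eq, Nat.shiftRight_eq,
            Nat.mul_eq, rw_fld_bit, rw_fld_bit, Nat.testBit_mod_two_pow, Nat.testBit_shiftRight]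
          by_cases hq : q < 96
          · rw [decide_eq_true (show 96 * (i - a) + q < 3072 by omega),
              show 96 * a + (96 * (i - a) + q) = 96 * i + q by omega]
            rfl
          · simp [hq]
        rwa [h5] at h4

theorem elCov_le {T8 Q8 x BT : ℕ} {PP TT QQ : ℕ → ℕ} {F T G m n : ℕ}
    (h : Nat.ble n (elCov T8 Q8 x BT PP TT QQ F T G m) = true) (X : Fin 10 → Pt) (hX : Good X)
    (hA : AxC X T8 Q8 x BT PP TT QQ) (hF : Inv (cval X) F) : ClT (cval X) T n := fun i hi =>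
  elCov_sound T8 Q8 x BT PP TT QQ F T G m X hX hA hF i (hi.trans_le (Nat.le_of_ble_eq_true h))

end AcuteCh
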