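import Pool.Agent.Lib.MP_bc94b4_co.Ch.Bat

/-! Tables of extensions stored as 140 columns: rows are computed from them, clauses are
checked on the columns. -/

set_option autoImplicit false

namespace AcuteCh

/-- column g has N bits; bit j is set when row j contains g -/
def colS (N CS g : ℕ) : ℕ := fdf N CS g
def R143 : ℕ := rep 143 128
def R144 : ℕ := rep 144 128

def rowS (N CS c k : ℕ) : ℕ :=
  Nat.rec 0 (fun g acc => Nat.lor acc (Nat.shiftLeft
    (Nat.land (Nat.mul (fdf 128 (colS N CS g) c) R143) R144) g)) k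

/-- the rows 128 c .. 128 c + 127, 144 bits each -/
def rowC (N CS c : ℕ) : ℕ := rowS N CS c 140

/-- the first 128 m rows -/
def rowsOf (N CS m : ℕ) : ℕ :=
  Nat.rec 0 (fun c acc => Nat.lor acc (Nat.shiftLeft (rowC N CS c) (Nat.mul 18432 c))) m

def rowK (N CS i k : ℕ) : ℕ :=
  Nat.rec (fdf 144 (rowC N CS 0) i) (fun c _ => fdf 144 (rowC N CS (Nat.succ c)) i) k

/-- row j, without evaluating the whole table -/
def rowAt (N CS j : ℕ) : ℕ := rowK N CS (Nat.land j 127) (Nat.shiftRight j 7)

def colK (N CS k : ℕ) : ℕ := Nat.rec (colS N CS 0) (fun g _ => colS N CS (Nat.succ g)) k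

/-- the rows in which the literal f of the window at off is true -/
def colF (N CS off f : ℕ) : ℕ :=
  Bool.rec 0 (colK N CS (Nat.xor (Nat.sub f off) 1)) (Nat.ble off f && Nat.blt f (Nat.add off 140))

/-- in some lane of O all literals whose column has the lane are true -/
def PC (s : ℕ → ℝ) (cf : ℕ → ℕ) (O : ℕ) : Prop :=
  ∃ j, O.testBit j = true ∧ ∀ f, (cf f).testBit j = true → 0 < s f

def orC (cf : ℕ → ℕ) (A f : ℕ) : ℕ := Nat.rec A (fun g _ => Nat.lor A (cf (Nat.succ g))) f

/-- union of the columns of the literals of M in the window at off -/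
def colM (cf : ℕ → ℕ) (off M k : ℕ) : ℕ :=
  Nat.rec 0 (fun l acc => Bool.rec acc (orC cf acc (Nat.add off l)) (tb M (Nat.add off l))) k

/-- the columns of the six fields of e together with A cover O -/
def eCol (cf : ℕ → ℕ) (O A e : ℕ) : Bool :=
  Nat.beq (orC cf (orC cf (orC cf (orC cf (orC cf (orC cf A (Nat.land e 65535))
    (Nat.land (Nat.shiftRight e 16) 65535)) (Nat.land (Nat.shiftRight e 32) 65535))
    (Nat.land (Nat.shiftRight e 48) 65535)) (Nat.land (Nat.shiftRight e 64) 65535))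
    (Nat.land (Nat.shiftRight e 80) 65535)) O

/-- as axCl, the kinds 0 and 1 checked on columns -/
def axClC (c8 c9 : ℕ → ℕ) (O x BT : ℕ) (PP TT QQ : ℕ → ℕ) (F M d : ℕ) : Bool :=
  Nat.rec (Nat.beq (colM c8 114 (Nat.lor F M) 140) O) (fun k _ =>
    Nat.rec (Nat.beq (colM c9 254 (Nat.lor F M) 140) O)
      (fun _ _ => axCl 0 1 x BT PP TT QQ F M d) k) (Nat.land d 7)

/-- as elGrp, the kinds 0 and 1 checked on columns -/
def elGrpC (c8 c9 : ℕ → ℕ) (O x BT : ℕ) (PP TT QQ : ℕ → ℕ) (F E k d : ℕ) : Bool :=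
  Nat.rec (Bool.rec false (allI 96 0 (fun e _ => eCol c8 O (colM c8 114 F 140) e) E 0 k) (Nat.ble k 32))
    (fun u _ => Nat.rec
      (Bool.rec false (allI 96 0 (fun e _ => eCol c9 O (colM c9 254 F 140) e) E 0 k) (Nat.ble k 32))
      (fun _ _ => elGrp 0 1 x BT PP TT QQ F E k d) u) (Nat.land d 7)

/-- number of entries of T covered by the first m groups of G -/
def cov (p : ℕ → ℕ → ℕ → Bool) (T G m : ℕ) : ℕ :=
  Nat.rec 0 (fun g a => (fun u => Bool.rec 0 (Nat.add a (Nat.shiftRight u 88))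
    (p (Nat.mod (Nat.shiftRight T (Nat.mul 96 a)) (Nat.pow 2 3072))
      (Nat.shiftRight u 88) (Nat.land u 0xffffffffffffffffffffff))) (fdf 96 G g)) m

theorem fdf_eq (w T i : ℕ) : fdf w T i = fld w T i := rfl

theorem cl_frc (f : ℕ → ℕ) (k : ℕ) : (Nat.rec (f 0) (fun c _ => f (Nat.succ c)) k : ℕ) = f k := by
  cases k <;> rfl

theorem cl_r144 (q : ℕ) : R144.testBit q = decide (q % 144 = 0 ∧ q / 144 < 128) := by
  have h := bt_bit (W := 144) (U := 1) (k := 128) (by norm_num) (by norm_num) (q / 144) (q % 144)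
    (Nat.mod_lt _ (by norm_num))
  rw [Nat.div_add_mod, Nat.one_mul] at h
  unfold R144
  rw [h, show (1 : ℕ) = 2 ^ 0 from rfl, Nat.testBit_two_pow, ← Bool.decide_and]
  exact decide_eq_decide.2 (by omega)

theorem cl_rowS (N CS c k i p : ℕ) (hk : k ≤ 140) (hp : p < 144) : (rowS N CS c k).testBit (144 * i + p)
    = (decide (i < 128 ∧ p < k) && (colS N CS p).testBit (128 * c + i)) := by
  induction k with
  | zero => rw [decide_eq_false (by omega)]; exact Nat.zero_testBit _
  | succ k ih =>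
    have e : rowS N CS c (k + 1) = rowS N CS c k |||
        ((Nat.mul (fld 128 (colS N CS k) c) R143 &&& R144) <<< k) := rfl
    rw [e, Nat.testBit_or, ih (by omega), Nat.testBit_shiftLeft, Nat.testBit_and, cl_r144]
    by_cases h : p = k ∧ i < 128
    · obtain ⟨rfl, hi⟩ := h
      have h1 : fld 128 (colS N CS p) c < 2 ^ 143 :=
        (Nat.mod_lt _ (Nat.two_pow_pos _)).trans (Nat.pow_lt_pow_right (by norm_num) (by norm_num))
      unfold R143
      rw [Nat.add_sub_cancel, Nat.mul_eq, show 144 * i = 143 * i + i by ring,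
        bt_bit (by norm_num) h1 _ _ (by omega), rw_fld_bit,
        decide_eq_false (p := i < 128 ∧ p < p) (by omega),
        decide_eq_true (p := i < 128 ∧ p < p + 1) (by omega),
        decide_eq_true (p := (143 * i + i) % 144 = 0 ∧ (143 * i + i) / 144 < 128) (by omega)]
      simp [hi]
    · have h1 : (decide (144 * i + p ≥ k) && ((Nat.mul (fld 128 (colS N CS k) c) R143).testBit
          (144 * i + p - k) && decide ((144 * i + p - k) % 144 = 0 ∧
            (144 * i + p - k) / 144 < 128))) = false := by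
        by_cases h2 : 144 * i + p ≥ k
        · rw [decide_eq_false (p := _ ∧ _) (by omega)]
          simp
        · simp [h2]
      rw [h1, Bool.or_false]
      congr 1
      exact decide_eq_decide.2 (by omega)

theorem cl_rowC (N CS c i p : ℕ) (hp : p < 144) : (rowC N CS c).testBit (144 * i + p)
    = (decide (i < 128 ∧ p < 140) && (colS N CS p).testBit (128 * c + i)) := by
  rw [rowC, cl_rowS _ _ _ _ _ _ le_rfl hp]

theorem cl_rowC_lt (N CS c : ℕ) : rowC N CS c < 2 ^ 18432 :=
  Nat.lt_pow_two_of_testBit _ fun q hq => by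
    rw [← Nat.div_add_mod q 144, cl_rowC _ _ _ _ _ (Nat.mod_lt _ (by norm_num)),
      decide_eq_false (by omega)]
    rfl

theorem cl_rowsOf (N CS m q : ℕ) : (rowsOf N CS m).testBit q
    = (decide (q / 18432 < m) && (rowC N CS (q / 18432)).testBit (q % 18432)) := by
  induction m with
  | zero => exact Nat.zero_testBit _
  | succ m ih =>
    have e : rowsOf N CS (m + 1) = rowsOf N CS m ||| (rowC N CS m <<< (18432 * m)) := rfl
    rw [e, Nat.testBit_or, ih, Nat.testBit_shiftLeft]
    rcases lt_trichotomy (q / 18432) m with h | h | h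
    · rw [decide_eq_true h, decide_eq_false (p := q ≥ _) (by omega), decide_eq_true (by omega)]
      simp
    · rw [decide_eq_false (by omega), decide_eq_true (p := q ≥ _) (by omega), decide_eq_true (by omega),
        h, show q - 18432 * m = q % 18432 by omega]
      simp
    · have h1 : (rowC N CS m).testBit (q - 18432 * m) = false := by
        by_contra h2
        have := im_lt (cl_rowC_lt N CS m) (by simpa using h2)
        omega
      rw [h1, decide_eq_false (by omega), decide_eq_false (p := _ < m + 1) (by omega)]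
      simp

/-- the bits of row j -/
theorem rowsOf_bit (N CS m j p : ℕ) (hj : j < 128 * m) : (fld 144 (rowsOf N CS m) j).testBit p
    = (decide (p < 140) && (colS N CS p).testBit j) := by
  rw [rw_fld_bit]
  by_cases hp : p < 144
  · rw [cl_rowsOf, show (144 * j + p) / 18432 = j / 128 by omega,
      show (144 * j + p) % 18432 = 144 * (j % 128) + p by omega, cl_rowC _ _ _ _ _ hp, Nat.div_add_mod,
      decide_eq_true hp, decide_eq_true (p := j / 128 < m) (by omega),
      show decide (j % 128 < 128 ∧ p < 140) = decide (p < 140) from decide_eq_decide.2 (by omega)]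
    rfl
  · rw [decide_eq_false hp, decide_eq_false (p := p < 140) (by omega), Bool.false_and, Bool.false_and]

theorem rowAt_eq (N CS m j : ℕ) (hj : j < 128 * m) : rowAt N CS j = fld 144 (rowsOf N CS m) j := by
  have e : ∀ i k, rowK N CS i k = fdf 144 (rowC N CS k) i := fun i k =>
    cl_frc (fun c => fdf 144 (rowC N CS c) i) k
  rw [rowAt, e, fdf_eq, Nat.land_eq, show 127 = 2 ^ 7 - 1 from rfl, Nat.and_two_pow_sub_one_eq_mod,
    Nat.shiftRight_eq, Nat.shiftRight_eq_div_pow]
  refine Nat.eq_of_testBit_eq fun p => ?_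
  rw [rowsOf_bit _ _ _ _ _ hj, rw_fld_bit]
  by_cases hp : p < 144
  · rw [cl_rowC _ _ _ _ _ hp, show 128 * (j / 2 ^ 7) + j % 2 ^ 7 = j by omega, decide_eq_true hp,
      show decide (j % 2 ^ 7 < 128 ∧ p < 140) = decide (p < 140) from decide_eq_decide.2 (by omega)]
    rfl
  · rw [decide_eq_false hp, decide_eq_false (p := p < 140) (by omega), Bool.false_and, Bool.false_and]

theorem lane89C {N CS m lo n : ℕ} (hn : n ≤ 128 * m) (X : Fin 10 → Pt)
    (h : Lane (cval (X ∘ Equiv.swap 8 9)) (rowsOf N CS m) 144 114 lo n) :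
    Lane (cval X) (rowsOf N CS m) 144 254 lo n := by
  obtain ⟨j, h1, h2, h3⟩ := h
  refine ⟨j, h1, h2, fun l hl => ?_⟩
  rw [Nat.testBit_shiftLeft, Bool.and_eq_true, decide_eq_true_eq] at hl
  have h5 : l - 254 < 140 := by
    have := hl.2
    rw [rowsOf_bit _ _ _ _ _ (by omega), Bool.and_eq_true, decide_eq_true_eq] at this
    exact this.1
  have h6 := h3 (l - 140) (by
    rw [Nat.testBit_shiftLeft, show l - 140 - 114 = l - 254 by omega, hl.2, decide_eq_true (by omega)]
    rfl)
  obtain ⟨h7, -, h8⟩ := p89_val X (l - 140) (by omega)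
  rwa [h7, h8 (by omega) (by omega), show l - 140 + 140 = l by omega] at h6

theorem lane_pc {s : ℕ → ℝ} (hs : Valn s) {N CS m off lo n : ℕ} (hn : n ≤ 128 * m) (hoff : off % 2 = 0)
    (h : Lane s (rowsOf N CS m) 144 off lo n) : PC s (colF N CS off) (2 ^ n - 1) := by
  obtain ⟨j, -, h2, h3⟩ := h
  refine ⟨j, by simp [h2], fun f hf => ?_⟩
  unfold colF at hf
  generalize hb : (Nat.ble off f && Nat.blt f (Nat.add off 140)) = b at hf
  cases b
  · exact absurd hf (by simp)
  simp only [Bool.and_eq_true, Nat.ble_eq, Nat.blt_eq, Nat.add_eq] at hb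
  have e : ∀ k, colK N CS k = colS N CS k := cl_frc (colS N CS)
  have hf' : (colK N CS ((f - off) ^^^ 1)).testBit j = true := hf
  have e2 : (f ^^^ 1) - off = (f - off) ^^^ 1 ∧ off ≤ f ^^^ 1 ∧ (f - off) ^^^ 1 < 140 := by
    rw [im_x1, im_x1]
    split_ifs <;> omega
  rw [e] at hf'
  have h4 := h3 (f ^^^ 1) (by
    rw [Nat.testBit_shiftLeft, rowsOf_bit _ _ _ _ _ (by omega), e2.1, hf', decide_eq_true e2.2.1,
      decide_eq_true e2.2.2]
    rfl)
  rw [hs.2.1] at h4
  linarith

theorem cl_orC {cf : ℕ → ℕ} {A f j : ℕ} (h : (orC cf A f).testBit j = true) :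
    A.testBit j = true ∨ (cf f).testBit j = true := by
  rcases f with _ | g
  · exact Or.inl h
  · have h' : (A ||| cf (g + 1)).testBit j = true := h
    rwa [Nat.testBit_or, Bool.or_eq_true] at h'

theorem cl_colM {cf : ℕ → ℕ} {off M k j : ℕ} (h : (colM cf off M k).testBit j = true) :
    ∃ f, M.testBit f = true ∧ (cf f).testBit j = true := by
  induction k with
  | zero => exact absurd h (by simp [colM])
  | succ k ih =>
    have e : colM cf off M (k + 1) = Bool.rec (colM cf off M k) (orC cf (colM cf off M k) (off + k))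
      (tb M (off + k)) := rfl
    rw [e, tb_eq] at h
    cases h1 : M.testBit (off + k) with
    | false => rw [h1] at h; exact ih h
    | true =>
      rw [h1] at h
      exact (cl_orC h).elim ih fun h2 => ⟨_, h1, h2⟩

theorem colM_sound {s : ℕ → ℝ} (hs : Valn s) {cf : ℕ → ℕ} {O off F M k : ℕ} (hP : PC s cf O)
    (hF : Inv s F) (h : Nat.beq (colM cf off (Nat.lor F M) k) O = true) : ClM s M := by
  by_contra hM
  obtain ⟨j, h1, h2⟩ := hP
  rw [← Nat.eq_of_beq_eq_true h] at h1
  obtain ⟨f, h3, h4⟩ := cl_colM h1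
  exact absurd (h2 f h4) (inv_or hF (inv_of_not hs hM) f h3).not_gt

theorem eCol_sound {s : ℕ → ℝ} {cf : ℕ → ℕ} {O off F k e : ℕ} (hP : PC s cf O) (hF : Inv s F)
    (h : eCol cf O (colM cf off F k) e = true) : Cl6 s e := by
  obtain ⟨j, h1, h2⟩ := hP
  rw [← Nat.eq_of_beq_eq_true h] at h1
  have a : ∀ i, i < 6 → (cf (Nat.land (Nat.shiftRight e (16 * i)) 65535)).testBit j = true → Cl6 s e :=
    fun i hi hc => ⟨i, hi, by
      have := h2 _ hc
      rwa [show Nat.land (Nat.shiftRight e (16 * i)) 65535 = fld 16 e i from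
        Nat.and_two_pow_sub_one_eq_mod (e >>> (16 * i)) 16] at this⟩
  refine (cl_orC h1).elim (fun h1 => ?_) (a 5 (by norm_num))
  refine (cl_orC h1).elim (fun h1 => ?_) (a 4 (by norm_num))
  refine (cl_orC h1).elim (fun h1 => ?_) (a 3 (by norm_num))
  refine (cl_orC h1).elim (fun h1 => ?_) (a 2 (by norm_num))
  refine (cl_orC h1).elim (fun h1 => ?_) (a 1 (by norm_num))
  refine (cl_orC h1).elim (fun h1 => ?_) (a 0 (by norm_num))
  obtain ⟨f, h3, h4⟩ := cl_colM h1
  exact absurd (h2 f h4) (hF f h3).not_gt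

/-- no row tables for the points 8 and 9 -/
theorem axC_col {X : Fin 10 → Pt} {x BT : ℕ} {PP TT QQ : ℕ → ℕ}
    (h1 : ∀ c Y, Good Y → Inv (cval Y) (PP c) → PTb (cval Y) 72 44 (TT c) (QQ c))
    (h2 : ∀ y < x, NG (fld 128 BT y)) : AxC X 0 1 x BT PP TT QQ := by
  have e : rep 144 1 = 1 := by decide +kernel
  exact ⟨e ▸ pt_zero _ 144 114 (by norm_num), e ▸ pt_zero _ 144 254 (by norm_num), h1, h2⟩

theorem axClC_sound {c8 c9 : ℕ → ℕ} {O x BT : ℕ} {PP TT QQ : ℕ → ℕ} {F M d : ℕ} (X : Fin 10 → Pt)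
    (hX : Good X) (h8 : PC (cval X) c8 O) (h9 : PC (cval X) c9 O) (hA : AxC X 0 1 x BT PP TT QQ)
    (hF : Inv (cval X) F) (h : axClC c8 c9 O x BT PP TT QQ F M d = true) : ClM (cval X) M := by
  unfold axClC at h
  generalize Nat.land d 7 = k at h
  rcases k with _ | _ | c
  · exact colM_sound (good_vc X hX) h8 hF h
  · exact colM_sound (good_vc X hX) h9 hF h
  · exact axCl_sound X hX hA hF h

theorem elGrpC_sound {c8 c9 : ℕ → ℕ} {O x BT : ℕ} {PP TT QQ : ℕ → ℕ} {F E k d : ℕ} (X : Fin 10 → Pt)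
    (hX : Good X) (h8 : PC (cval X) c8 O) (h9 : PC (cval X) c9 O) (hA : AxC X 0 1 x BT PP TT QQ)
    (hF : Inv (cval X) F) (h : elGrpC c8 c9 O x BT PP TT QQ F E k d = true) :
    k ≤ 32 ∧ ClT (cval X) E k := by
  unfold elGrpC at h
  generalize Nat.land d 7 = u at h
  rcases u with _ | _ | c
  · obtain ⟨h1, h2⟩ := bt_rec h
    exact ⟨Nat.le_of_ble_eq_true h2, fun i hi => eCol_sound h8 hF (allI_sound h1 i hi)⟩
  · obtain ⟨h1, h2⟩ := bt_rec h
    exact ⟨Nat.le_of_ble_eq_true h2, fun i hi => eCol_sound h9 hF (allI_sound h1 i hi)⟩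
  · exact elGrp_sound h X hX hA hF

theorem cov_sound {s : ℕ → ℝ} {p : ℕ → ℕ → ℕ → Bool}
    (hp : ∀ E k d, p E k d = true → k ≤ 32 ∧ ClT s E k) (T G m : ℕ) : ClT s T (cov p T G m) := by
  induction m with
  | zero => intro i hi; exact absurd hi (Nat.not_lt_zero i)
  | succ m ih =>
    have e : cov p T G (m + 1) = Bool.rec 0 (cov p T G m + Nat.shiftRight (fdf 96 G m) 88)
        (p (Nat.mod (Nat.shiftRight T (Nat.mul 96 (cov p T G m))) (Nat.pow 2 3072))
          (Nat.shiftRight (fdf 96 G m) 88) (Nat.land (fdf 96 G m) 0xffffffffffffffffffffff)) := rfl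
    rw [e]
    generalize cov p T G m = a at ih ⊢
    generalize Nat.shiftRight (fdf 96 G m) 88 = k
    generalize hb : p _ k _ = b
    cases b
    · intro i hi
      exact absurd hi (Nat.not_lt_zero i)
    · obtain ⟨h1, h2⟩ := hp _ _ _ hb
      intro i hi
      have hi' : i < a + k := hi
      by_cases h3 : i < a
      · exact ih i h3
      · have h4 := h2 (i - a) (by omega)
        have h5 : fld 96 (Nat.mod (Nat.shiftRight T (Nat.mul 96 a)) (Nat.pow 2 3072)) (i - a)
            = fld 96 T i := Nat.eq_of_testBit_eq fun q => by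
          rw [show ∀ u v : ℕ, Nat.mod u v = u % v from fun _ _ => rfl, Nat.pow_eq, Nat.shiftRight_eq,
            Nat.mul_eq, rw_fld_bit, rw_fld_bit, Nat.testBit_mod_two_pow, Nat.testBit_shiftRight]
          by_cases hq : q < 96
          · rw [decide_eq_true (show 96 * (i - a) + q < 3072 by omega),
              show 96 * a + (96 * (i - a) + q) = 96 * i + q by omega]
            rfl
          · simp [hq]
        rwa [h5] at h4

/-- a grouped table of clauses, the kinds 0 and 1 checked on columns -/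
theorem covC_le {c8 c9 : ℕ → ℕ} {O x BT : ℕ} {PP TT QQ : ℕ → ℕ} {F T G m n : ℕ}
    (h : Nat.ble n (cov (elGrpC c8 c9 O x BT PP TT QQ F) T G m) = true) (X : Fin 10 → Pt)
    (hX : Good X) (h8 : PC (cval X) c8 O) (h9 : PC (cval X) c9 O) (hA : AxC X 0 1 x BT PP TT QQ)
    (hF : Inv (cval X) F) : ClT (cval X) T n := fun i hi =>
  cov_sound (fun _ _ _ h => elGrpC_sound X hX h8 h9 hA hF h) T G m i
    (hi.trans_le (Nat.le_of_ble_eq_true h))

end AcuteCh
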