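import Pool.Agent.Lib.MP_bc94b4_co.Ch.GoodLem

/-! Compact literal numbering and the predicates shared by the parts of the checker. -/

set_option autoImplicit false

namespace AcuteCh

/-- entry r + 1 is the mask of the 5-set of rank r (masks in increasing order), 10 bits each;
entries 0, 253, 254, 255 are 0 -/
def M5 : ℕ := 0x3e0f43c8f13c2f07b0ea3a4e8ba1e6394e4b91e338ae2786e1783dc368d9362d8758d5352d474cd2b49d1b45d0f38cd332cc72ccab29c9b25c8f1cc6b19c5b15c4f0ec370bc1ef0ba2e4b8ae1b62d4b4ad1b32cab26c6b16c3ae2b4acab1ab2aaaa6a6a96a3a729aa6696a5693a3a8da2e879e2749ca719b26a9a666996639725a966569565393a4d92e478f23a8e6368d6338ba2d8ae2787a1d86e1783df07a1e4789e1761d4749d1731ca725c6715c36e1b46c9b16b1aa6a5a6695a36719a66596655936398d62d875e1745c9715b16a5a566595635715a56556555535394d52d474f13a4e5364d5334b92d4ad274791d46d1743cf83d0f23c4ec3a8e9398e538cdc368d9358d534cce334cb31cbc2e8b92d8b52ccae2b4ab29c9e2749b25c8f1f07a1e4761d4731b86d1ac671785d16c5713c3e0f43b0dc2f07c00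

/-- compact literal to the numbering of sval: literal 0 is the constant one, brackets sit at
2 (rank + 1) + sign below 506, subset sums at 512 + 64 j + 2 m + sign, orientations at
14848 + 2 i + sign -/
def ren (l : ℕ) : ℕ := if l < 512 then 2 * fld 10 M5 (l / 2) + l % 2 else l + 1536

noncomputable def cval (X : Fin 10 → Pt) (l : ℕ) : ℝ := sval (ext X) (ren l)

/-- every literal in the mask F is false -/
def Inv (s : ℕ → ℝ) (F : ℕ) : Prop := ∀ l, F.testBit l = true → s l < 0

/-- fields 1 .. 5 false force field 0 false -/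
def Imp (s : ℕ → ℝ) (e : ℕ) : Prop :=
  (∀ i, 1 ≤ i → i < 6 → s (fld 16 e i) < 0) → s (fld 16 e 0) < 0

def AllImp (s : ℕ → ℝ) (T : ℕ) : Prop := ∀ i, Imp s (fld 96 T i)

/-- the first n entries of a packed table are three-term identities -/
def TriT (s : ℕ → ℝ) (T n : ℕ) : Prop := ∀ i < n, Tri s (fld 96 T i)

/-- flips all six fields -/
def all6 : ℕ := 0x000100010001000100010001

/-- the first n entries are clauses, also with all signs flipped -/
def NspT (s : ℕ → ℝ) (T n : ℕ) : Prop := ∀ i < n, Cl6 s (fld 96 T i) ∧ Cl6 s (fld 96 T i ^^^ all6)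

/-- the first n entries are clauses -/
def ClT (s : ℕ → ℝ) (T n : ℕ) : Prop := ∀ i < n, Cl6 s (fld 96 T i)

/-- records 1 .. n - 1 of a table of 512-bit masks are clauses (record 0 is not used) -/
def RecT (s : ℕ → ℝ) (G n : ℕ) : Prop := ∀ i, 0 < i → i < n → ClM s (fld 512 G i)

/-- some row j with lo ≤ j < n of the table R (rows of w bits, the top bit of a row is spare), moved
up by off, consists of false literals -/
def Lane (s : ℕ → ℝ) (R w off lo n : ℕ) : Prop := ∃ j, lo ≤ j ∧ j < n ∧ Inv s (fld w R j <<< off)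

/-- no good tuple makes all literals of the mask false -/
def NG (B : ℕ) : Prop := ∀ X, Good X → ¬ Inv (cval X) B

theorem ren_xor (l : ℕ) : ren (l ^^^ 1) = ren l ^^^ 1 := by
  have h2 : ∀ a : ℕ, a ^^^ 1 = if a % 2 = 0 then a + 1 else a - 1 := by
    intro a
    rcases Nat.even_or_odd a with h | h
    · rw [Nat.xor_one_of_even h, if_pos (Nat.even_iff.mp h)]
    · rw [Nat.xor_one_of_odd h, if_neg (by have := Nat.odd_iff.mp h; omega)]
  unfold ren
  rw [h2 l]
  by_cases hl : l % 2 = 0
  · rw [if_pos hl]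
    have e1 : (l + 1) / 2 = l / 2 := by omega
    rw [e1, h2]
    split_ifs <;> omega
  · rw [if_neg hl]
    have e1 : (l - 1) / 2 = l / 2 := by omega
    rw [e1, h2]
    split_ifs <;> omega

theorem good_vc (X : Fin 10 → Pt) (hX : Good X) : Valn (cval X) := by
  obtain ⟨h1, h2, h3⟩ := good_valn X hX
  refine ⟨fun l => h1 _, fun l => ?_, ?_⟩
  · unfold cval; rw [ren_xor, h2]
  · unfold cval; exact h3

end AcuteCh
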