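import Pool.Agent.Lib.MP_bc94b4_co.Ch.GlobX
import Pool.Agent.Lib.MP_bc94b4_co.Ch.Z00
import Pool.Agent.Lib.MP_bc94b4_co.Ch.Z01
import Pool.Agent.Lib.MP_bc94b4_co.Ch.Z02
import Pool.Agent.Lib.MP_bc94b4_co.Ch.Z03
import Pool.Agent.Lib.MP_bc94b4_co.Ch.Z04
import Pool.Agent.Lib.MP_bc94b4_co.Ch.Z05
import Pool.Agent.Lib.MP_bc94b4_co.Ch.Z06
import Pool.Agent.Lib.MP_bc94b4_co.Ch.Z07
import Pool.Agent.Lib.MP_bc94b4_co.Ch.Z08
import Pool.Agent.Lib.MP_bc94b4_co.Ch.Z09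
import Pool.Agent.Lib.MP_bc94b4_co.Ch.Z10
import Pool.Agent.Lib.MP_bc94b4_co.Ch.Z11
import Pool.Agent.Lib.MP_bc94b4_co.Ch.Z12
import Pool.Agent.Lib.MP_bc94b4_co.Ch.Z13
import Pool.Agent.Lib.MP_bc94b4_co.Ch.Z14
import Pool.Agent.Lib.MP_bc94b4_co.Ch.Z15
import Pool.Agent.Lib.MP_bc94b4_co.Ch.Z16
import Pool.Agent.Lib.MP_bc94b4_co.Ch.Z17
import Pool.Agent.Lib.MP_bc94b4_co.Ch.Z18
import Pool.Agent.Lib.MP_bc94b4_co.Ch.Z19
import Pool.Agent.Lib.MP_bc94b4_co.Ch.Z20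
import Pool.Agent.Lib.MP_bc94b4_co.Ch.Z21
import Pool.Agent.Lib.MP_bc94b4_co.Ch.Z22
import Pool.Agent.Lib.MP_bc94b4_co.Ch.Z23
import Pool.Agent.Lib.MP_bc94b4_co.Ch.Z24
import Pool.Agent.Lib.MP_bc94b4_co.Ch.Z25
import Pool.Agent.Lib.MP_bc94b4_co.Ch.Z26
import Pool.Agent.Lib.MP_bc94b4_co.Ch.Z27
import Pool.Agent.Lib.MP_bc94b4_co.Ch.Z28
import Pool.Agent.Lib.MP_bc94b4_co.Ch.Z29
import Pool.Agent.Lib.MP_bc94b4_co.Ch.Z30
import Pool.Agent.Lib.MP_bc94b4_co.Ch.Z31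

/-! All sign patterns are excluded, one after the other. -/

set_option autoImplicit false

namespace AcuteCh

theorem ch_0 : Ctx 0 := ctx_zero ⟨tt_0, tt_1, tt_2, tt_3⟩
theorem ch_1 : Ctx 1 := ctx_succ ch_0 b_0
theorem ch_2 : Ctx 2 := ctx_succ ch_1 b_1
theorem ch_3 : Ctx 3 := ctx_succ ch_2 b_2
theorem ch_4 : Ctx 4 := ctx_succ ch_3 b_3
theorem ch_5 : Ctx 5 := ctx_succ ch_4 b_4
theorem ch_6 : Ctx 6 := ctx_succ ch_5 b_5
theorem ch_7 : Ctx 7 := ctx_succ ch_6 b_6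
theorem ch_8 : Ctx 8 := ctx_succ ch_7 b_7
theorem ch_9 : Ctx 9 := ctx_succ ch_8 b_8
theorem ch_10 : Ctx 10 := ctx_succ ch_9 b_9
theorem ch_11 : Ctx 11 := ctx_succ ch_10 b_10
theorem ch_12 : Ctx 12 := ctx_succ ch_11 b_11
theorem ch_13 : Ctx 13 := ctx_succ ch_12 b_12
theorem ch_14 : Ctx 14 := ctx_succ ch_13 b_13
theorem ch_15 : Ctx 15 := ctx_succ ch_14 b_14
theorem ch_16 : Ctx 16 := ctx_succ ch_15 b_15
theorem ch_17 : Ctx 17 := ctx_succ ch_16 b_16
theorem ch_18 : Ctx 18 := ctx_succ ch_17 b_17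
theorem ch_19 : Ctx 19 := ctx_succ ch_18 b_18
theorem ch_20 : Ctx 20 := ctx_succ ch_19 b_19
theorem ch_21 : Ctx 21 := ctx_succ ch_20 b_20
theorem ch_22 : Ctx 22 := ctx_succ ch_21 b_21
theorem ch_23 : Ctx 23 := ctx_succ ch_22 b_22
theorem ch_24 : Ctx 24 := ctx_succ ch_23 b_23
theorem ch_25 : Ctx 25 := ctx_succ ch_24 b_24
theorem ch_26 : Ctx 26 := ctx_succ ch_25 b_25
theorem ch_27 : Ctx 27 := ctx_succ ch_26 b_26
theorem ch_28 : Ctx 28 := ctx_succ ch_27 b_27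
theorem ch_29 : Ctx 29 := ctx_succ ch_28 b_28
theorem ch_30 : Ctx 30 := ctx_succ ch_29 b_29
theorem ch_31 : Ctx 31 := ctx_succ ch_30 b_30
theorem ch_32 : Ctx 32 := ctx_succ ch_31 b_31
theorem ch_33 : Ctx 33 := ctx_succ ch_32 b_32
theorem ch_34 : Ctx 34 := ctx_succ ch_33 b_33
theorem ch_35 : Ctx 35 := ctx_succ ch_34 b_34
theorem ch_36 : Ctx 36 := ctx_succ ch_35 b_35
theorem ch_37 : Ctx 37 := ctx_succ ch_36 b_36
theorem ch_38 : Ctx 38 := ctx_succ ch_37 b_37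
theorem ch_39 : Ctx 39 := ctx_succ ch_38 b_38
theorem ch_40 : Ctx 40 := ctx_succ ch_39 b_39
theorem ch_41 : Ctx 41 := ctx_succ ch_40 b_40
theorem ch_42 : Ctx 42 := ctx_succ ch_41 b_41
theorem ch_43 : Ctx 43 := ctx_succ ch_42 b_42
theorem ch_44 : Ctx 44 := ctx_succ ch_43 b_43
theorem ch_45 : Ctx 45 := ctx_succ ch_44 b_44
theorem ch_46 : Ctx 46 := ctx_succ ch_45 b_45
theorem ch_47 : Ctx 47 := ctx_succ ch_46 b_46
theorem ch_48 : Ctx 48 := ctx_succ ch_47 b_47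
theorem ch_49 : Ctx 49 := ctx_succ ch_48 b_48
theorem ch_50 : Ctx 50 := ctx_succ ch_49 b_49
theorem ch_51 : Ctx 51 := ctx_succ ch_50 b_50
theorem ch_52 : Ctx 52 := ctx_succ ch_51 b_51
theorem ch_53 : Ctx 53 := ctx_succ ch_52 b_52
theorem ch_54 : Ctx 54 := ctx_succ ch_53 b_53
theorem ch_55 : Ctx 55 := ctx_succ ch_54 b_54
theorem ch_56 : Ctx 56 := ctx_succ ch_55 b_55
theorem ch_57 : Ctx 57 := ctx_succ ch_56 b_56
theorem ch_58 : Ctx 58 := ctx_succ ch_57 b_57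
theorem ch_59 : Ctx 59 := ctx_succ ch_58 b_58
theorem ch_60 : Ctx 60 := ctx_succ ch_59 b_59
theorem ch_61 : Ctx 61 := ctx_succ ch_60 b_60
theorem ch_62 : Ctx 62 := ctx_succ ch_61 b_61
theorem ch_63 : Ctx 63 := ctx_succ ch_62 b_62
theorem ch_64 : Ctx 64 := ctx_succ ch_63 b_63
theorem ch_65 : Ctx 65 := ctx_succ ch_64 b_64
theorem ch_66 : Ctx 66 := ctx_succ ch_65 b_65
theorem ch_67 : Ctx 67 := ctx_succ ch_66 b_66
theorem ch_68 : Ctx 68 := ctx_succ ch_67 b_67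
theorem ch_69 : Ctx 69 := ctx_succ ch_68 b_68
theorem ch_70 : Ctx 70 := ctx_succ ch_69 b_69
theorem ch_71 : Ctx 71 := ctx_succ ch_70 b_70
theorem ch_72 : Ctx 72 := ctx_succ ch_71 b_71
theorem ch_73 : Ctx 73 := ctx_succ ch_72 b_72
theorem ch_74 : Ctx 74 := ctx_succ ch_73 b_73
theorem ch_75 : Ctx 75 := ctx_succ ch_74 b_74
theorem ch_76 : Ctx 76 := ctx_succ ch_75 b_75
theorem ch_77 : Ctx 77 := ctx_succ ch_76 b_76
theorem ch_78 : Ctx 78 := ctx_succ ch_77 b_77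
theorem ch_79 : Ctx 79 := ctx_succ ch_78 b_78
theorem ch_80 : Ctx 80 := ctx_succ ch_79 b_79
theorem ch_81 : Ctx 81 := ctx_succ ch_80 b_80
theorem ch_82 : Ctx 82 := ctx_succ ch_81 b_81
theorem ch_83 : Ctx 83 := ctx_succ ch_82 b_82
theorem ch_84 : Ctx 84 := ctx_succ ch_83 b_83
theorem ch_85 : Ctx 85 := ctx_succ ch_84 b_84
theorem ch_86 : Ctx 86 := ctx_succ ch_85 b_85
theorem ch_87 : Ctx 87 := ctx_succ ch_86 b_86
theorem ch_88 : Ctx 88 := ctx_succ ch_87 b_87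
theorem ch_89 : Ctx 89 := ctx_succ ch_88 b_88
theorem ch_90 : Ctx 90 := ctx_succ ch_89 b_89
theorem ch_91 : Ctx 91 := ctx_succ ch_90 b_90
theorem ch_92 : Ctx 92 := ctx_succ ch_91 b_91
theorem ch_93 : Ctx 93 := ctx_succ ch_92 b_92
theorem ch_94 : Ctx 94 := ctx_succ ch_93 b_93
theorem ch_95 : Ctx 95 := ctx_succ ch_94 b_94
theorem ch_96 : Ctx 96 := ctx_succ ch_95 b_95
theorem ch_97 : Ctx 97 := ctx_succ ch_96 b_96
theorem ch_98 : Ctx 98 := ctx_succ ch_97 b_97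
theorem ch_99 : Ctx 99 := ctx_succ ch_98 b_98
theorem ch_100 : Ctx 100 := ctx_succ ch_99 b_99
theorem ch_101 : Ctx 101 := ctx_succ ch_100 b_100
theorem ch_102 : Ctx 102 := ctx_succ ch_101 b_101
theorem ch_103 : Ctx 103 := ctx_succ ch_102 b_102
theorem ch_104 : Ctx 104 := ctx_succ ch_103 b_103
theorem ch_105 : Ctx 105 := ctx_succ ch_104 b_104
theorem ch_106 : Ctx 106 := ctx_succ ch_105 b_105
theorem ch_107 : Ctx 107 := ctx_succ ch_106 b_106
theorem ch_108 : Ctx 108 := ctx_succ ch_107 b_107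
theorem ch_109 : Ctx 109 := ctx_succ ch_108 b_108
theorem ch_110 : Ctx 110 := ctx_succ ch_109 b_109
theorem ch_111 : Ctx 111 := ctx_succ ch_110 b_110
theorem ch_112 : Ctx 112 := ctx_succ ch_111 b_111
theorem ch_113 : Ctx 113 := ctx_succ ch_112 b_112
theorem ch_114 : Ctx 114 := ctx_succ ch_113 b_113
theorem ch_115 : Ctx 115 := ctx_succ ch_114 b_114
theorem ch_116 : Ctx 116 := ctx_succ ch_115 b_115
theorem ch_117 : Ctx 117 := ctx_succ ch_116 b_116
theorem ch_118 : Ctx 118 := ctx_succ ch_117 b_117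
theorem ch_119 : Ctx 119 := ctx_succ ch_118 b_118
theorem ch_120 : Ctx 120 := ctx_succ ch_119 b_119
theorem ch_121 : Ctx 121 := ctx_succ ch_120 b_120
theorem ch_122 : Ctx 122 := ctx_succ ch_121 b_121
theorem ch_123 : Ctx 123 := ctx_succ ch_122 b_122
theorem ch_124 : Ctx 124 := ctx_succ ch_123 b_123
theorem ch_125 : Ctx 125 := ctx_succ ch_124 b_124
theorem ch_126 : Ctx 126 := ctx_succ ch_125 b_125
theorem ch_127 : Ctx 127 := ctx_succ ch_126 b_126
theorem ch_128 : Ctx 128 := ctx_succ ch_127 b_127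
theorem ch_129 : Ctx 129 := ctx_succ ch_128 b_128
theorem ch_130 : Ctx 130 := ctx_succ ch_129 b_129
theorem ch_131 : Ctx 131 := ctx_succ ch_130 b_130
theorem ch_132 : Ctx 132 := ctx_succ ch_131 b_131
theorem ch_133 : Ctx 133 := ctx_succ ch_132 b_132
theorem ch_134 : Ctx 134 := ctx_succ ch_133 b_133
theorem ch_135 : Ctx 135 := ctx_succ ch_134 b_134
theorem ch_136 : Ctx 136 := ctx_succ ch_135 b_135
theorem ch_137 : Ctx 137 := ctx_succ ch_136 b_136
theorem ch_138 : Ctx 138 := ctx_succ ch_137 b_137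
theorem ch_139 : Ctx 139 := ctx_succ ch_138 b_138
theorem ch_140 : Ctx 140 := ctx_succ ch_139 b_139
theorem ch_141 : Ctx 141 := ctx_succ ch_140 b_140
theorem ch_142 : Ctx 142 := ctx_succ ch_141 b_141
theorem ch_143 : Ctx 143 := ctx_succ ch_142 b_142
theorem ch_144 : Ctx 144 := ctx_succ ch_143 b_143
theorem ch_145 : Ctx 145 := ctx_succ ch_144 b_144
theorem ch_146 : Ctx 146 := ctx_succ ch_145 b_145
theorem ch_147 : Ctx 147 := ctx_succ ch_146 b_146
theorem ch_148 : Ctx 148 := ctx_succ ch_147 b_147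
theorem ch_149 : Ctx 149 := ctx_succ ch_148 b_148
theorem ch_150 : Ctx 150 := ctx_succ ch_149 b_149
theorem ch_151 : Ctx 151 := ctx_succ ch_150 b_150
theorem ch_152 : Ctx 152 := ctx_succ ch_151 b_151
theorem ch_153 : Ctx 153 := ctx_succ ch_152 b_152
theorem ch_154 : Ctx 154 := ctx_succ ch_153 b_153
theorem ch_155 : Ctx 155 := ctx_succ ch_154 b_154
theorem ch_156 : Ctx 156 := ctx_succ ch_155 b_155
theorem ch_157 : Ctx 157 := ctx_succ ch_156 b_156
theorem ch_158 : Ctx 158 := ctx_succ ch_157 b_157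
theorem ch_159 : Ctx 159 := ctx_succ ch_158 b_158
theorem ch_160 : Ctx 160 := ctx_succ ch_159 b_159
theorem ch_161 : Ctx 161 := ctx_succ ch_160 b_160
theorem ch_162 : Ctx 162 := ctx_succ ch_161 b_161
theorem ch_163 : Ctx 163 := ctx_succ ch_162 b_162
theorem ch_164 : Ctx 164 := ctx_succ ch_163 b_163
theorem ch_165 : Ctx 165 := ctx_succ ch_164 b_164
theorem ch_166 : Ctx 166 := ctx_succ ch_165 b_165
theorem ch_167 : Ctx 167 := ctx_succ ch_166 b_166
theorem ch_168 : Ctx 168 := ctx_succ ch_167 b_167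
theorem ch_169 : Ctx 169 := ctx_succ ch_168 b_168
theorem ch_170 : Ctx 170 := ctx_succ ch_169 b_169
theorem ch_171 : Ctx 171 := ctx_succ ch_170 b_170
theorem ch_172 : Ctx 172 := ctx_succ ch_171 b_171
theorem ch_173 : Ctx 173 := ctx_succ ch_172 b_172
theorem ch_174 : Ctx 174 := ctx_succ ch_173 b_173
theorem ch_175 : Ctx 175 := ctx_succ ch_174 b_174
theorem ch_176 : Ctx 176 := ctx_succ ch_175 b_175
theorem ch_177 : Ctx 177 := ctx_succ ch_176 b_176
theorem ch_178 : Ctx 178 := ctx_succ ch_177 b_177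
theorem ch_179 : Ctx 179 := ctx_succ ch_178 b_178
theorem ch_180 : Ctx 180 := ctx_succ ch_179 b_179
theorem ch_181 : Ctx 181 := ctx_succ ch_180 b_180
theorem ch_182 : Ctx 182 := ctx_succ ch_181 b_181
theorem ch_183 : Ctx 183 := ctx_succ ch_182 b_182
theorem ch_184 : Ctx 184 := ctx_succ ch_183 b_183
theorem ch_185 : Ctx 185 := ctx_succ ch_184 b_184
theorem ch_186 : Ctx 186 := ctx_succ ch_185 b_185
theorem ch_187 : Ctx 187 := ctx_succ ch_186 b_186
theorem ch_188 : Ctx 188 := ctx_succ ch_187 b_187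
theorem ch_189 : Ctx 189 := ctx_succ ch_188 b_188
theorem ch_190 : Ctx 190 := ctx_succ ch_189 b_189
theorem ch_191 : Ctx 191 := ctx_succ ch_190 b_190
theorem ch_192 : Ctx 192 := ctx_succ ch_191 b_191
theorem ch_193 : Ctx 193 := ctx_succ ch_192 b_192
theorem ch_194 : Ctx 194 := ctx_succ ch_193 b_193
theorem ch_195 : Ctx 195 := ctx_succ ch_194 b_194
theorem ch_196 : Ctx 196 := ctx_succ ch_195 b_195
theorem ch_197 : Ctx 197 := ctx_succ ch_196 b_196
theorem ch_198 : Ctx 198 := ctx_succ ch_197 b_197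
theorem ch_199 : Ctx 199 := ctx_succ ch_198 b_198
theorem ch_200 : Ctx 200 := ctx_succ ch_199 b_199
theorem ch_201 : Ctx 201 := ctx_succ ch_200 b_200
theorem ch_202 : Ctx 202 := ctx_succ ch_201 b_201
theorem ch_203 : Ctx 203 := ctx_succ ch_202 b_202
theorem ch_204 : Ctx 204 := ctx_succ ch_203 b_203
theorem ch_205 : Ctx 205 := ctx_succ ch_204 b_204
theorem ch_206 : Ctx 206 := ctx_succ ch_205 b_205
theorem ch_207 : Ctx 207 := ctx_succ ch_206 b_206
theorem ch_208 : Ctx 208 := ctx_succ ch_207 b_207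
theorem ch_209 : Ctx 209 := ctx_succ ch_208 b_208
theorem ch_210 : Ctx 210 := ctx_succ ch_209 b_209
theorem ch_211 : Ctx 211 := ctx_succ ch_210 b_210
theorem ch_212 : Ctx 212 := ctx_succ ch_211 b_211
theorem ch_213 : Ctx 213 := ctx_succ ch_212 b_212
theorem ch_214 : Ctx 214 := ctx_succ ch_213 b_213
theorem ch_215 : Ctx 215 := ctx_succ ch_214 b_214
theorem ch_216 : Ctx 216 := ctx_succ ch_215 b_215
theorem ch_217 : Ctx 217 := ctx_succ ch_216 b_216
theorem ch_218 : Ctx 218 := ctx_succ ch_217 b_217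
theorem ch_219 : Ctx 219 := ctx_succ ch_218 b_218
theorem ch_220 : Ctx 220 := ctx_succ ch_219 b_219
theorem ch_221 : Ctx 221 := ctx_succ ch_220 b_220
theorem ch_222 : Ctx 222 := ctx_succ ch_221 b_221
theorem ch_223 : Ctx 223 := ctx_succ ch_222 b_222
theorem ch_224 : Ctx 224 := ctx_succ ch_223 b_223
theorem ch_225 : Ctx 225 := ctx_succ ch_224 b_224
theorem ch_226 : Ctx 226 := ctx_succ ch_225 b_225
theorem ch_227 : Ctx 227 := ctx_succ ch_226 b_226
theorem ch_228 : Ctx 228 := ctx_succ ch_227 b_227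
theorem ch_229 : Ctx 229 := ctx_succ ch_228 b_228
theorem ch_230 : Ctx 230 := ctx_succ ch_229 b_229
theorem ch_231 : Ctx 231 := ctx_succ ch_230 b_230
theorem ch_232 : Ctx 232 := ctx_succ ch_231 b_231
theorem ch_233 : Ctx 233 := ctx_succ ch_232 b_232
theorem ch_234 : Ctx 234 := ctx_succ ch_233 b_233
theorem ch_235 : Ctx 235 := ctx_succ ch_234 b_234
theorem ch_236 : Ctx 236 := ctx_succ ch_235 b_235
theorem ch_237 : Ctx 237 := ctx_succ ch_236 b_236
theorem ch_238 : Ctx 238 := ctx_succ ch_237 b_237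
theorem ch_239 : Ctx 239 := ctx_succ ch_238 b_238
theorem ch_240 : Ctx 240 := ctx_succ ch_239 b_239
theorem ch_241 : Ctx 241 := ctx_succ ch_240 b_240
theorem ch_242 : Ctx 242 := ctx_succ ch_241 b_241
theorem ch_243 : Ctx 243 := ctx_succ ch_242 b_242
theorem ch_244 : Ctx 244 := ctx_succ ch_243 b_243
theorem ch_245 : Ctx 245 := ctx_succ ch_244 b_244
theorem ch_246 : Ctx 246 := ctx_succ ch_245 b_245
theorem ch_247 : Ctx 247 := ctx_succ ch_246 b_246
theorem ch_248 : Ctx 248 := ctx_succ ch_247 b_247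
theorem ch_249 : Ctx 249 := ctx_succ ch_248 b_248
theorem ch_250 : Ctx 250 := ctx_succ ch_249 b_249
theorem ch_251 : Ctx 251 := ctx_succ ch_250 b_250
theorem ch_252 : Ctx 252 := ctx_succ ch_251 b_251
theorem ch_253 : Ctx 253 := ctx_succ ch_252 b_252
theorem ch_254 : Ctx 254 := ctx_succ ch_253 b_253
theorem ch_255 : Ctx 255 := ctx_succ ch_254 b_254
theorem ch_256 : Ctx 256 := ctx_succ ch_255 b_255
theorem ch_257 : Ctx 257 := ctx_succ ch_256 b_256
theorem ch_258 : Ctx 258 := ctx_succ ch_257 b_257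
theorem ch_259 : Ctx 259 := ctx_succ ch_258 b_258
theorem ch_260 : Ctx 260 := ctx_succ ch_259 b_259
theorem ch_261 : Ctx 261 := ctx_succ ch_260 b_260
theorem ch_262 : Ctx 262 := ctx_succ ch_261 b_261
theorem ch_263 : Ctx 263 := ctx_succ ch_262 b_262
theorem ch_264 : Ctx 264 := ctx_succ ch_263 b_263
theorem ch_265 : Ctx 265 := ctx_succ ch_264 b_264
theorem ch_266 : Ctx 266 := ctx_succ ch_265 b_265
theorem ch_267 : Ctx 267 := ctx_succ ch_266 b_266
theorem ch_268 : Ctx 268 := ctx_succ ch_267 b_267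
theorem ch_269 : Ctx 269 := ctx_succ ch_268 b_268
theorem ch_270 : Ctx 270 := ctx_succ ch_269 b_269
theorem ch_271 : Ctx 271 := ctx_succ ch_270 b_270
theorem ch_272 : Ctx 272 := ctx_succ ch_271 b_271
theorem ch_273 : Ctx 273 := ctx_succ ch_272 b_272
theorem ch_274 : Ctx 274 := ctx_succ ch_273 b_273
theorem ch_275 : Ctx 275 := ctx_succ ch_274 b_274
theorem ch_276 : Ctx 276 := ctx_succ ch_275 b_275
theorem ch_277 : Ctx 277 := ctx_succ ch_276 b_276
theorem ch_278 : Ctx 278 := ctx_succ ch_277 b_277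
theorem ch_279 : Ctx 279 := ctx_succ ch_278 b_278
theorem ch_280 : Ctx 280 := ctx_succ ch_279 b_279
theorem ch_281 : Ctx 281 := ctx_succ ch_280 b_280
theorem ch_282 : Ctx 282 := ctx_succ ch_281 b_281
theorem ch_283 : Ctx 283 := ctx_succ ch_282 b_282
theorem ch_284 : Ctx 284 := ctx_succ ch_283 b_283
theorem ch_285 : Ctx 285 := ctx_succ ch_284 b_284
theorem ch_286 : Ctx 286 := ctx_succ ch_285 b_285
theorem ch_287 : Ctx 287 := ctx_succ ch_286 b_286
theorem ch_288 : Ctx 288 := ctx_succ ch_287 b_287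
theorem ch_289 : Ctx 289 := ctx_succ ch_288 b_288
theorem ch_290 : Ctx 290 := ctx_succ ch_289 b_289
theorem ch_291 : Ctx 291 := ctx_succ ch_290 b_290
theorem ch_292 : Ctx 292 := ctx_succ ch_291 b_291
theorem ch_293 : Ctx 293 := ctx_succ ch_292 b_292
theorem ch_294 : Ctx 294 := ctx_succ ch_293 b_293
theorem ch_295 : Ctx 295 := ctx_succ ch_294 b_294
theorem ch_296 : Ctx 296 := ctx_succ ch_295 b_295
theorem ch_297 : Ctx 297 := ctx_succ ch_296 b_296
theorem ch_298 : Ctx 298 := ctx_succ ch_297 b_297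
theorem ch_299 : Ctx 299 := ctx_succ ch_298 b_298
theorem ch_300 : Ctx 300 := ctx_succ ch_299 b_299
theorem ch_301 : Ctx 301 := ctx_succ ch_300 b_300
theorem ch_302 : Ctx 302 := ctx_succ ch_301 b_301
theorem ch_303 : Ctx 303 := ctx_succ ch_302 b_302
theorem ch_304 : Ctx 304 := ctx_succ ch_303 b_303
theorem ch_305 : Ctx 305 := ctx_succ ch_304 b_304
theorem ch_306 : Ctx 306 := ctx_succ ch_305 b_305
theorem ch_307 : Ctx 307 := ctx_succ ch_306 b_306
theorem ch_308 : Ctx 308 := ctx_succ ch_307 b_307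
theorem ch_309 : Ctx 309 := ctx_succ ch_308 b_308
theorem ch_310 : Ctx 310 := ctx_succ ch_309 b_309
theorem ch_311 : Ctx 311 := ctx_succ ch_310 b_310
theorem ch_312 : Ctx 312 := ctx_succ ch_311 b_311
theorem ch_313 : Ctx 313 := ctx_succ ch_312 b_312
theorem ch_314 : Ctx 314 := ctx_succ ch_313 b_313
theorem ch_315 : Ctx 315 := ctx_succ ch_314 b_314
theorem ch_316 : Ctx 316 := ctx_succ ch_315 b_315
theorem ch_317 : Ctx 317 := ctx_succ ch_316 b_316
theorem ch_318 : Ctx 318 := ctx_succ ch_317 b_317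
theorem ch_319 : Ctx 319 := ctx_succ ch_318 b_318
theorem ch_320 : Ctx 320 := ctx_succ ch_319 b_319
theorem ch_321 : Ctx 321 := ctx_succ ch_320 b_320
theorem ch_322 : Ctx 322 := ctx_succ ch_321 b_321
theorem ch_323 : Ctx 323 := ctx_succ ch_322 b_322
theorem ch_324 : Ctx 324 := ctx_succ ch_323 b_323
theorem ch_325 : Ctx 325 := ctx_succ ch_324 b_324
theorem ch_326 : Ctx 326 := ctx_succ ch_325 b_325
theorem ch_327 : Ctx 327 := ctx_succ ch_326 b_326
theorem ch_328 : Ctx 328 := ctx_succ ch_327 b_327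
theorem ch_329 : Ctx 329 := ctx_succ ch_328 b_328
theorem ch_330 : Ctx 330 := ctx_succ ch_329 b_329
theorem ch_331 : Ctx 331 := ctx_succ ch_330 b_330
theorem ch_332 : Ctx 332 := ctx_succ ch_331 b_331
theorem ch_333 : Ctx 333 := ctx_succ ch_332 b_332
theorem ch_334 : Ctx 334 := ctx_succ ch_333 b_333
theorem ch_335 : Ctx 335 := ctx_succ ch_334 b_334
theorem ch_336 : Ctx 336 := ctx_succ ch_335 b_335
theorem ch_337 : Ctx 337 := ctx_succ ch_336 b_336
theorem ch_338 : Ctx 338 := ctx_succ ch_337 b_337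
theorem ch_339 : Ctx 339 := ctx_succ ch_338 b_338
theorem ch_340 : Ctx 340 := ctx_succ ch_339 b_339
theorem ch_341 : Ctx 341 := ctx_succ ch_340 b_340
theorem ch_342 : Ctx 342 := ctx_succ ch_341 b_341
theorem ch_343 : Ctx 343 := ctx_succ ch_342 b_342
theorem ch_344 : Ctx 344 := ctx_succ ch_343 b_343
theorem ch_345 : Ctx 345 := ctx_succ ch_344 b_344
theorem ch_346 : Ctx 346 := ctx_succ ch_345 b_345
theorem ch_347 : Ctx 347 := ctx_succ ch_346 b_346
theorem ch_348 : Ctx 348 := ctx_succ ch_347 b_347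
theorem ch_349 : Ctx 349 := ctx_succ ch_348 b_348
theorem ch_350 : Ctx 350 := ctx_succ ch_349 b_349
theorem ch_351 : Ctx 351 := ctx_succ ch_350 b_350
theorem ch_352 : Ctx 352 := ctx_succ ch_351 b_351
theorem ch_353 : Ctx 353 := ctx_succ ch_352 b_352
theorem ch_354 : Ctx 354 := ctx_succ ch_353 b_353
theorem ch_355 : Ctx 355 := ctx_succ ch_354 b_354
theorem ch_356 : Ctx 356 := ctx_succ ch_355 b_355
theorem ch_357 : Ctx 357 := ctx_succ ch_356 b_356
theorem ch_358 : Ctx 358 := ctx_succ ch_357 b_357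
theorem ch_359 : Ctx 359 := ctx_succ ch_358 b_358
theorem ch_360 : Ctx 360 := ctx_succ ch_359 b_359
theorem ch_361 : Ctx 361 := ctx_succ ch_360 b_360
theorem ch_362 : Ctx 362 := ctx_succ ch_361 b_361
theorem ch_363 : Ctx 363 := ctx_succ ch_362 b_362
theorem ch_364 : Ctx 364 := ctx_succ ch_363 b_363
theorem ch_365 : Ctx 365 := ctx_succ ch_364 b_364
theorem ch_366 : Ctx 366 := ctx_succ ch_365 b_365
theorem ch_367 : Ctx 367 := ctx_succ ch_366 b_366
theorem ch_368 : Ctx 368 := ctx_succ ch_367 b_367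
theorem ch_369 : Ctx 369 := ctx_succ ch_368 b_368
theorem ch_370 : Ctx 370 := ctx_succ ch_369 b_369
theorem ch_371 : Ctx 371 := ctx_succ ch_370 b_370
theorem ch_372 : Ctx 372 := ctx_succ ch_371 b_371
theorem ch_373 : Ctx 373 := ctx_succ ch_372 b_372
theorem ch_374 : Ctx 374 := ctx_succ ch_373 b_373
theorem ch_375 : Ctx 375 := ctx_succ ch_374 b_374
theorem ch_376 : Ctx 376 := ctx_succ ch_375 b_375
theorem ch_377 : Ctx 377 := ctx_succ ch_376 b_376
theorem ch_378 : Ctx 378 := ctx_succ ch_377 b_377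
theorem ch_379 : Ctx 379 := ctx_succ ch_378 b_378
theorem ch_380 : Ctx 380 := ctx_succ ch_379 b_379
theorem ch_381 : Ctx 381 := ctx_succ ch_380 b_380
theorem ch_382 : Ctx 382 := ctx_succ ch_381 b_381
theorem ch_383 : Ctx 383 := ctx_succ ch_382 b_382
theorem ch_384 : Ctx 384 := ctx_succ ch_383 b_383
theorem ch_385 : Ctx 385 := ctx_succ ch_384 b_384
theorem ch_386 : Ctx 386 := ctx_succ ch_385 b_385
theorem ch_387 : Ctx 387 := ctx_succ ch_386 b_386
theorem ch_388 : Ctx 388 := ctx_succ ch_387 b_387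
theorem ch_389 : Ctx 389 := ctx_succ ch_388 b_388
theorem ch_390 : Ctx 390 := ctx_succ ch_389 b_389
theorem ch_391 : Ctx 391 := ctx_succ ch_390 b_390
theorem ch_392 : Ctx 392 := ctx_succ ch_391 b_391
theorem ch_393 : Ctx 393 := ctx_succ ch_392 b_392
theorem ch_394 : Ctx 394 := ctx_succ ch_393 b_393
theorem ch_395 : Ctx 395 := ctx_succ ch_394 b_394
theorem ch_396 : Ctx 396 := ctx_succ ch_395 b_395
theorem ch_397 : Ctx 397 := ctx_succ ch_396 b_396
theorem ch_398 : Ctx 398 := ctx_succ ch_397 b_397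
theorem ch_399 : Ctx 399 := ctx_succ ch_398 b_398
theorem ch_400 : Ctx 400 := ctx_succ ch_399 b_399
theorem ch_401 : Ctx 401 := ctx_succ ch_400 b_400
theorem ch_402 : Ctx 402 := ctx_succ ch_401 b_401
theorem ch_403 : Ctx 403 := ctx_succ ch_402 b_402
theorem ch_404 : Ctx 404 := ctx_succ ch_403 b_403
theorem ch_405 : Ctx 405 := ctx_succ ch_404 b_404
theorem ch_406 : Ctx 406 := ctx_succ ch_405 b_405
theorem ch_407 : Ctx 407 := ctx_succ ch_406 b_406
theorem ch_408 : Ctx 408 := ctx_succ ch_407 b_407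
theorem ch_409 : Ctx 409 := ctx_succ ch_408 b_408
theorem ch_410 : Ctx 410 := ctx_succ ch_409 b_409
theorem ch_411 : Ctx 411 := ctx_succ ch_410 b_410
theorem ch_412 : Ctx 412 := ctx_succ ch_411 b_411
theorem ch_413 : Ctx 413 := ctx_succ ch_412 b_412
theorem ch_414 : Ctx 414 := ctx_succ ch_413 b_413
theorem ch_415 : Ctx 415 := ctx_succ ch_414 b_414
theorem ch_416 : Ctx 416 := ctx_succ ch_415 b_415
theorem ch_417 : Ctx 417 := ctx_succ ch_416 b_416
theorem ch_418 : Ctx 418 := ctx_succ ch_417 b_417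
theorem ch_419 : Ctx 419 := ctx_succ ch_418 b_418
theorem ch_420 : Ctx 420 := ctx_succ ch_419 b_419
theorem ch_421 : Ctx 421 := ctx_succ ch_420 b_420
theorem ch_422 : Ctx 422 := ctx_succ ch_421 b_421
theorem ch_423 : Ctx 423 := ctx_succ ch_422 b_422
theorem ch_424 : Ctx 424 := ctx_succ ch_423 b_423
theorem ch_425 : Ctx 425 := ctx_succ ch_424 b_424
theorem ch_426 : Ctx 426 := ctx_succ ch_425 b_425
theorem ch_427 : Ctx 427 := ctx_succ ch_426 b_426
theorem ch_428 : Ctx 428 := ctx_succ ch_427 b_427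
theorem ch_429 : Ctx 429 := ctx_succ ch_428 b_428
theorem ch_430 : Ctx 430 := ctx_succ ch_429 b_429
theorem ch_431 : Ctx 431 := ctx_succ ch_430 b_430
theorem ch_432 : Ctx 432 := ctx_succ ch_431 b_431
theorem ch_433 : Ctx 433 := ctx_succ ch_432 b_432
theorem ch_434 : Ctx 434 := ctx_succ ch_433 b_433
theorem ch_435 : Ctx 435 := ctx_succ ch_434 b_434
theorem ch_436 : Ctx 436 := ctx_succ ch_435 b_435
theorem ch_437 : Ctx 437 := ctx_succ ch_436 b_436
theorem ch_438 : Ctx 438 := ctx_succ ch_437 b_437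
theorem ch_439 : Ctx 439 := ctx_succ ch_438 b_438
theorem ch_440 : Ctx 440 := ctx_succ ch_439 b_439
theorem ch_441 : Ctx 441 := ctx_succ ch_440 b_440
theorem ch_442 : Ctx 442 := ctx_succ ch_441 b_441
theorem ch_443 : Ctx 443 := ctx_succ ch_442 b_442
theorem ch_444 : Ctx 444 := ctx_succ ch_443 b_443
theorem ch_445 : Ctx 445 := ctx_succ ch_444 b_444
theorem ch_446 : Ctx 446 := ctx_succ ch_445 b_445
theorem ch_447 : Ctx 447 := ctx_succ ch_446 b_446
theorem ch_448 : Ctx 448 := ctx_succ ch_447 b_447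
theorem ch_449 : Ctx 449 := ctx_succ ch_448 b_448
theorem ch_450 : Ctx 450 := ctx_succ ch_449 b_449
theorem ch_451 : Ctx 451 := ctx_succ ch_450 b_450
theorem ch_452 : Ctx 452 := ctx_succ ch_451 b_451
theorem ch_453 : Ctx 453 := ctx_succ ch_452 b_452
theorem ch_454 : Ctx 454 := ctx_succ ch_453 b_453
theorem ch_455 : Ctx 455 := ctx_succ ch_454 b_454
theorem ch_456 : Ctx 456 := ctx_succ ch_455 b_455
theorem ch_457 : Ctx 457 := ctx_succ ch_456 b_456
theorem ch_458 : Ctx 458 := ctx_succ ch_457 b_457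
theorem ch_459 : Ctx 459 := ctx_succ ch_458 b_458
theorem ch_460 : Ctx 460 := ctx_succ ch_459 b_459
theorem ch_461 : Ctx 461 := ctx_succ ch_460 b_460
theorem ch_462 : Ctx 462 := ctx_succ ch_461 b_461
theorem ch_463 : Ctx 463 := ctx_succ ch_462 b_462
theorem ch_464 : Ctx 464 := ctx_succ ch_463 b_463
theorem ch_465 : Ctx 465 := ctx_succ ch_464 b_464
theorem ch_466 : Ctx 466 := ctx_succ ch_465 b_465
theorem ch_467 : Ctx 467 := ctx_succ ch_466 b_466
theorem ch_468 : Ctx 468 := ctx_succ ch_467 b_467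
theorem ch_469 : Ctx 469 := ctx_succ ch_468 b_468
theorem ch_470 : Ctx 470 := ctx_succ ch_469 b_469
theorem ch_471 : Ctx 471 := ctx_succ ch_470 b_470
theorem ch_472 : Ctx 472 := ctx_succ ch_471 b_471
theorem ch_473 : Ctx 473 := ctx_succ ch_472 b_472
theorem ch_474 : Ctx 474 := ctx_succ ch_473 b_473
theorem ch_475 : Ctx 475 := ctx_succ ch_474 b_474
theorem ch_476 : Ctx 476 := ctx_succ ch_475 b_475
theorem ch_477 : Ctx 477 := ctx_succ ch_476 b_476
theorem ch_478 : Ctx 478 := ctx_succ ch_477 b_477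
theorem ch_479 : Ctx 479 := ctx_succ ch_478 b_478
theorem ch_480 : Ctx 480 := ctx_succ ch_479 b_479
theorem ch_481 : Ctx 481 := ctx_succ ch_480 b_480
theorem ch_482 : Ctx 482 := ctx_succ ch_481 b_481
theorem ch_483 : Ctx 483 := ctx_succ ch_482 b_482
theorem ch_484 : Ctx 484 := ctx_succ ch_483 b_483
theorem ch_485 : Ctx 485 := ctx_succ ch_484 b_484
theorem ch_486 : Ctx 486 := ctx_succ ch_485 b_485
theorem ch_487 : Ctx 487 := ctx_succ ch_486 b_486
theorem ch_488 : Ctx 488 := ctx_succ ch_487 b_487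
theorem ch_489 : Ctx 489 := ctx_succ ch_488 b_488
theorem ch_490 : Ctx 490 := ctx_succ ch_489 b_489
theorem ch_491 : Ctx 491 := ctx_succ ch_490 b_490
theorem ch_492 : Ctx 492 := ctx_succ ch_491 b_491
theorem ch_493 : Ctx 493 := ctx_succ ch_492 b_492
theorem ch_494 : Ctx 494 := ctx_succ ch_493 b_493
theorem ch_495 : Ctx 495 := ctx_succ ch_494 b_494
theorem ch_496 : Ctx 496 := ctx_succ ch_495 b_495
theorem ch_497 : Ctx 497 := ctx_succ ch_496 b_496
theorem ch_498 : Ctx 498 := ctx_succ ch_497 b_497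
theorem ch_499 : Ctx 499 := ctx_succ ch_498 b_498
theorem ch_500 : Ctx 500 := ctx_succ ch_499 b_499
theorem ch_501 : Ctx 501 := ctx_succ ch_500 b_500
theorem ch_502 : Ctx 502 := ctx_succ ch_501 b_501
theorem ch_503 : Ctx 503 := ctx_succ ch_502 b_502
theorem ch_504 : Ctx 504 := ctx_succ ch_503 b_503
theorem ch_505 : Ctx 505 := ctx_succ ch_504 b_504
theorem ch_506 : Ctx 506 := ctx_succ ch_505 b_505
theorem ch_507 : Ctx 507 := ctx_succ ch_506 b_506
theorem ch_508 : Ctx 508 := ctx_succ ch_507 b_507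
theorem ch_509 : Ctx 509 := ctx_succ ch_508 b_508
theorem ch_510 : Ctx 510 := ctx_succ ch_509 b_509
theorem ch_511 : Ctx 511 := ctx_succ ch_510 b_510
theorem ch_512 : Ctx 512 := ctx_succ ch_511 b_511
theorem ch_513 : Ctx 513 := ctx_succ ch_512 b_512
theorem ch_514 : Ctx 514 := ctx_succ ch_513 b_513
theorem ch_515 : Ctx 515 := ctx_succ ch_514 b_514
theorem ch_516 : Ctx 516 := ctx_succ ch_515 b_515
theorem ch_517 : Ctx 517 := ctx_succ ch_516 b_516
theorem ch_518 : Ctx 518 := ctx_succ ch_517 b_517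
theorem ch_519 : Ctx 519 := ctx_succ ch_518 b_518
theorem ch_520 : Ctx 520 := ctx_succ ch_519 b_519
theorem ch_521 : Ctx 521 := ctx_succ ch_520 b_520
theorem ch_522 : Ctx 522 := ctx_succ ch_521 b_521
theorem ch_523 : Ctx 523 := ctx_succ ch_522 b_522
theorem ch_524 : Ctx 524 := ctx_succ ch_523 b_523
theorem ch_525 : Ctx 525 := ctx_succ ch_524 b_524
theorem ch_526 : Ctx 526 := ctx_succ ch_525 b_525
theorem ch_527 : Ctx 527 := ctx_succ ch_526 b_526
theorem ch_528 : Ctx 528 := ctx_succ ch_527 b_527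
theorem ch_529 : Ctx 529 := ctx_succ ch_528 b_528
theorem ch_530 : Ctx 530 := ctx_succ ch_529 b_529
theorem ch_531 : Ctx 531 := ctx_succ ch_530 b_530
theorem ch_532 : Ctx 532 := ctx_succ ch_531 b_531
theorem ch_533 : Ctx 533 := ctx_succ ch_532 b_532
theorem ch_534 : Ctx 534 := ctx_succ ch_533 b_533
theorem ch_535 : Ctx 535 := ctx_succ ch_534 b_534
theorem ch_536 : Ctx 536 := ctx_succ ch_535 b_535
theorem ch_537 : Ctx 537 := ctx_succ ch_536 b_536
theorem ch_538 : Ctx 538 := ctx_succ ch_537 b_537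
theorem ch_539 : Ctx 539 := ctx_succ ch_538 b_538
theorem ch_540 : Ctx 540 := ctx_succ ch_539 b_539
theorem ch_541 : Ctx 541 := ctx_succ ch_540 b_540
theorem ch_542 : Ctx 542 := ctx_succ ch_541 b_541
theorem ch_543 : Ctx 543 := ctx_succ ch_542 b_542
theorem ch_544 : Ctx 544 := ctx_succ ch_543 b_543
theorem ch_545 : Ctx 545 := ctx_succ ch_544 b_544
theorem ch_546 : Ctx 546 := ctx_succ ch_545 b_545
theorem ch_547 : Ctx 547 := ctx_succ ch_546 b_546
theorem ch_548 : Ctx 548 := ctx_succ ch_547 b_547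
theorem ch_549 : Ctx 549 := ctx_succ ch_548 b_548
theorem ch_550 : Ctx 550 := ctx_succ ch_549 b_549
theorem ch_551 : Ctx 551 := ctx_succ ch_550 b_550
theorem ch_552 : Ctx 552 := ctx_succ ch_551 b_551
theorem ch_553 : Ctx 553 := ctx_succ ch_552 b_552
theorem ch_554 : Ctx 554 := ctx_succ ch_553 b_553
theorem ch_555 : Ctx 555 := ctx_succ ch_554 b_554
theorem ch_556 : Ctx 556 := ctx_succ ch_555 b_555
theorem ch_557 : Ctx 557 := ctx_succ ch_556 b_556
theorem ch_558 : Ctx 558 := ctx_succ ch_557 b_557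
theorem ch_559 : Ctx 559 := ctx_succ ch_558 b_558
theorem ch_560 : Ctx 560 := ctx_succ ch_559 b_559

/-- ten points of 4-space determine an angle that is not acute -/
theorem no_ten (X : Fin 10 → Pt) : ¬ Acute (ext X) := no_acute ch_560 t6_0 t6_1 l6 X

end AcuteCh
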