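import Pool.Agent.Lib.MP_bc94b4_co.Ch.Ident

/-! The four-line relation in an 8-tuple of points. -/

set_option autoImplicit false

namespace AcuteCh

/-- all dual brackets of distinct positions are nonzero -/
def Gen8 (P : ℕ → Pt) (k : ℕ → ℕ) : Prop :=
  ∀ x < 8, ∀ y < 8, ∀ z < 8, x ≠ y → x ≠ z → y ≠ z → db P k x y z ≠ 0

/-- positions other than x, y in increasing order -/
def rest2 (x y i : ℕ) : ℕ := ((List.range 8).filter (fun z => z ≠ x ∧ z ≠ y)).getD i 0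

/-- table entry of three positions -/
def g3c (x y z : ℕ) : ℕ := fld 16 C3 (x + 8 * y + 64 * z)

/-- two table entries with opposite sign and the same five positions -/
def g3opp (c c' : ℕ) : Prop :=
  (c = 0 ∧ c' = 0) ∨ (c ≠ 0 ∧ c' ≠ 0 ∧ fld 3 c 0 = fld 3 c' 0 ∧ fld 3 c 1 = fld 3 c' 1 ∧
    fld 3 c 2 = fld 3 c' 2 ∧ fld 3 c 3 = fld 3 c' 3 ∧ fld 3 c 4 = fld 3 c' 4 ∧
    (c / 32768 = 0 ↔ ¬ c' / 32768 = 0))

instance g3oppDec (c c' : ℕ) : Decidable (g3opp c c') := by unfold g3opp; infer_instance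

theorem g3_tab01 : ∀ x < 8, ∀ y < 8, ∀ z < 8, g3opp (g3c y x z) (g3c x y z) := by decide +kernel
theorem g3_tab12 : ∀ x < 8, ∀ y < 8, ∀ z < 8, g3opp (g3c x z y) (g3c x y z) := by decide +kernel

/-- a table entry with given sign and positions -/
def g3ent (c s a0 a1 a2 a3 a4 : ℕ) : Prop :=
  c ≠ 0 ∧ (c / 32768 = 0 ↔ s % 2 = 0) ∧ fld 3 c 0 = a0 ∧ fld 3 c 1 = a1 ∧ fld 3 c 2 = a2 ∧
    fld 3 c 3 = a3 ∧ fld 3 c 4 = a4

instance g3entDec (c s a0 a1 a2 a3 a4 : ℕ) : Decidable (g3ent c s a0 a1 a2 a3 a4) := by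
  unfold g3ent; infer_instance

theorem g3_tab : ∀ y < 8, ∀ x < y,
    List.Perm (List.range 8)
      [x, y, rest2 x y 0, rest2 x y 1, rest2 x y 2, rest2 x y 3, rest2 x y 4, rest2 x y 5] ∧
    g3ent (g3c x y (rest2 x y 0)) (x + y) (rest2 x y 1) (rest2 x y 2) (rest2 x y 3) (rest2 x y 4)
      (rest2 x y 5) ∧
    g3ent (g3c x y (rest2 x y 1)) (x + y + 1) (rest2 x y 0) (rest2 x y 2) (rest2 x y 3) (rest2 x y 4)
      (rest2 x y 5) ∧
    g3ent (g3c x y (rest2 x y 2)) (x + y) (rest2 x y 0) (rest2 x y 1) (rest2 x y 3) (rest2 x y 4)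
      (rest2 x y 5) ∧
    g3ent (g3c x y (rest2 x y 3)) (x + y + 1) (rest2 x y 0) (rest2 x y 1) (rest2 x y 2) (rest2 x y 4)
      (rest2 x y 5) ∧
    g3ent (g3c x y (rest2 x y 4)) (x + y) (rest2 x y 0) (rest2 x y 1) (rest2 x y 2) (rest2 x y 3)
      (rest2 x y 5) ∧
    g3ent (g3c x y (rest2 x y 5)) (x + y + 1) (rest2 x y 0) (rest2 x y 1) (rest2 x y 2) (rest2 x y 3)
      (rest2 x y 4) := by decide +kernel

theorem g3_db (P : ℕ → Pt) (k : ℕ → ℕ) (x y z : ℕ) : db P k x y z =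
    if g3c x y z = 0 then 0 else (if g3c x y z / 32768 = 0 then 1 else -1) *
      br P (k (fld 3 (g3c x y z) 0)) (k (fld 3 (g3c x y z) 1)) (k (fld 3 (g3c x y z) 2))
        (k (fld 3 (g3c x y z) 3)) (k (fld 3 (g3c x y z) 4)) := rfl

theorem g3_opp (P : ℕ → Pt) (k : ℕ → ℕ) (x y z x' y' z' : ℕ)
    (h : g3opp (g3c x y z) (g3c x' y' z')) : db P k x y z = - db P k x' y' z' := by
  rw [g3_db, g3_db]
  rcases h with ⟨h1, h2⟩ | ⟨h1, h2, e0, e1, e2, e3, e4, hs⟩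
  · rw [if_pos h1, if_pos h2, neg_zero]
  · rw [if_neg h1, if_neg h2, e0, e1, e2, e3, e4]
    by_cases hc : g3c x' y' z' / 32768 = 0
    · rw [if_pos hc, if_neg (fun h => hs.1 h hc)]
      ring
    · rw [if_neg hc, if_pos (hs.2 hc)]
      ring

theorem g3_sw01 (P : ℕ → Pt) (k : ℕ → ℕ) {x y z : ℕ} (hx : x < 8) (hy : y < 8) (hz : z < 8) :
    db P k y x z = - db P k x y z := g3_opp P k _ _ _ _ _ _ (g3_tab01 x hx y hy z hz)

theorem g3_sw12 (P : ℕ → Pt) (k : ℕ → ℕ) {x y z : ℕ} (hx : x < 8) (hy : y < 8) (hz : z < 8) :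
    db P k x z y = - db P k x y z := g3_opp P k _ _ _ _ _ _ (g3_tab12 x hx y hy z hz)

theorem g3_z01 (P : ℕ → Pt) (k : ℕ → ℕ) {x z : ℕ} (hx : x < 8) (hz : z < 8) :
    db P k x x z = 0 := by
  have h := g3_sw01 P k hx hx hz
  linarith

theorem g3_z12 (P : ℕ → Pt) (k : ℕ → ℕ) {x z : ℕ} (hx : x < 8) (hz : z < 8) :
    db P k x z z = 0 := by
  have h := g3_sw12 P k hx hz hz
  linarith

theorem g3_z02 (P : ℕ → Pt) (k : ℕ → ℕ) {x z : ℕ} (hx : x < 8) (hz : z < 8) :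
    db P k x z x = 0 := by
  rw [g3_sw12 P k hx hx hz, g3_z01 P k hx hz, neg_zero]

theorem g3_rot (P : ℕ → Pt) (k : ℕ → ℕ) {x y z : ℕ} (hx : x < 8) (hy : y < 8) (hz : z < 8) :
    db P k y z x = db P k x y z := by
  rw [g3_sw12 P k hy hx hz, g3_sw01 P k hx hy hz, neg_neg]

theorem g3_ent (P : ℕ → Pt) (k : ℕ → ℕ) (x y z s a0 a1 a2 a3 a4 : ℕ)
    (h : g3ent (g3c x y z) s a0 a1 a2 a3 a4) :
    db P k x y z = (-1) ^ s * br P (k a0) (k a1) (k a2) (k a3) (k a4) := by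
  obtain ⟨h0, hs, e0, e1, e2, e3, e4⟩ := h
  rw [g3_db, if_neg h0, e0, e1, e2, e3, e4]
  by_cases hc : s % 2 = 0
  · rw [if_pos (hs.2 hc), (Nat.even_iff.2 hc).neg_one_pow]
  · rw [if_neg (fun h => hc (hs.1 h)), (Nat.odd_iff.2 (by omega)).neg_one_pow]

theorem dl_eq (P : ℕ → Pt) (g : ℕ → ℝ) (k : ℕ → ℕ) (x y : ℕ) (hxy : x < y) (hy : y < 8) :
    dl P g k x y = (-1) ^ (x + y + 1) * lb P g (k (rest2 x y 0)) (k (rest2 x y 1)) (k (rest2 x y 2))
      (k (rest2 x y 3)) (k (rest2 x y 4)) (k (rest2 x y 5)) := by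
  obtain ⟨hp, t0, t1, t2, t3, t4, t5⟩ := g3_tab y hy x hxy
  have hx : x < 8 := lt_trans hxy hy
  have hs : dl P g k x y = ((List.range 8).map fun z => g (k z) * db P k x y z).sum := by
    rw [dl, Finset.sum_range_succ, Finset.sum_range_succ, Finset.sum_range_succ,
      Finset.sum_range_succ, Finset.sum_range_succ, Finset.sum_range_succ, Finset.sum_range_succ,
      Finset.sum_range_one]
    simp only [List.range_succ, List.range_zero, List.map_append, List.map_cons, List.map_nil,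
      List.sum_append, List.sum_cons, List.sum_nil, add_zero, zero_add]
  rw [hs, (hp.map _).sum_eq]
  simp only [List.map_cons, List.map_nil, List.sum_cons, List.sum_nil]
  rw [g3_z02 P k hx hy, g3_z12 P k hx hy, g3_ent P k _ _ _ _ _ _ _ _ _ t0,
    g3_ent P k _ _ _ _ _ _ _ _ _ t1, g3_ent P k _ _ _ _ _ _ _ _ _ t2,
    g3_ent P k _ _ _ _ _ _ _ _ _ t3, g3_ent P k _ _ _ _ _ _ _ _ _ t4,
    g3_ent P k _ _ _ _ _ _ _ _ _ t5]
  simp only [lb, lbv, pow_succ]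
  ring

/-- w is an affine dependency of the eight points -/
def g3dep (P : ℕ → Pt) (k : ℕ → ℕ) (w : ℕ → ℝ) : Prop :=
  ∀ j : Fin 5, ∑ z ∈ Finset.range 8, (Fin.cons 1 (P (k z)) : Fin 5 → ℝ) j * w z = 0

theorem g3_dep (P : ℕ → Pt) (k : ℕ → ℕ) {x y : ℕ} (hx : x < 8) (hy : y < 8) :
    g3dep P k (db P k x y) := by
  have key : ∀ a b, a < b → b < 8 → g3dep P k (db P k a b) := fun a b hab hb j => by
    have h := dl_eq P (fun u => (Fin.cons 1 (P u) : Fin 5 → ℝ) j) k a b hab hb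
    rw [g1_col, mul_zero] at h
    exact h
  rcases lt_trichotomy x y with h | h | h
  · exact key x y h hy
  · intro j
    subst h
    exact Finset.sum_eq_zero fun z hz => by
      rw [g3_z01 P k hx (Finset.mem_range.1 hz), mul_zero]
  · intro j
    have h1 := key y x h hx j
    rw [← neg_eq_zero, ← Finset.sum_neg_distrib] at h1
    rw [← h1]
    exact Finset.sum_congr rfl fun z hz => by
      rw [g3_sw01 P k hy hx (Finset.mem_range.1 hz)]
      ring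

/-- a dependency that vanishes at the first three positions vanishes -/
theorem g3_zero (P : ℕ → Pt) (k : ℕ → ℕ) (h0 : db P k 0 1 2 ≠ 0) (w : ℕ → ℝ) (hw : g3dep P k w)
    (w0 : w 0 = 0) (w1 : w 1 = 0) (w2 : w 2 = 0) : ∀ u < 8, w u = 0 := by
  have e : g3ent (g3c 0 1 2) 1 3 4 5 6 7 := by decide +kernel
  rw [g3_ent P k _ _ _ _ _ _ _ _ _ e] at h0
  have hb : (g1M P (k 3) (k 4) (k 5) (k 6) (k 7)).det ≠ 0 := right_ne_zero_of_mul h0
  have hv : Matrix.vecMul ![w 3, w 4, w 5, w 6, w 7] (g1M P (k 3) (k 4) (k 5) (k 6) (k 7)) = 0 := by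
    funext j
    have h := hw j
    rw [Finset.sum_range_succ, Finset.sum_range_succ, Finset.sum_range_succ,
      Finset.sum_range_succ, Finset.sum_range_succ, Finset.sum_range_succ, Finset.sum_range_succ,
      Finset.sum_range_one, w0, w1, w2] at h
    change ∑ i : Fin 5, ![w 3, w 4, w 5, w 6, w 7] i * g1M P (k 3) (k 4) (k 5) (k 6) (k 7) i j = 0
    rw [Fin.sum_univ_five]
    change w 3 * (Fin.cons 1 (P (k 3)) : Fin 5 → ℝ) j + w 4 * (Fin.cons 1 (P (k 4)) : Fin 5 → ℝ) j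
      + w 5 * (Fin.cons 1 (P (k 5)) : Fin 5 → ℝ) j + w 6 * (Fin.cons 1 (P (k 6)) : Fin 5 → ℝ) j
      + w 7 * (Fin.cons 1 (P (k 7)) : Fin 5 → ℝ) j = 0
    linear_combination h
  have hz := Matrix.eq_zero_of_vecMul_eq_zero hb hv
  have z3 : w 3 = 0 := congrFun hz 0
  have z4 : w 4 = 0 := congrFun hz 1
  have z5 : w 5 = 0 := congrFun hz 2
  have z6 : w 6 = 0 := congrFun hz 3
  have z7 : w 7 = 0 := congrFun hz 4
  intro u hu
  interval_cases u <;> assumption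

/-- Cramer rule for a dependency at the first three positions -/
theorem g3_cramer (P : ℕ → Pt) (k : ℕ → ℕ) (h0 : db P k 0 1 2 ≠ 0) (w : ℕ → ℝ) (hw : g3dep P k w)
    (u : ℕ) (hu : u < 8) :
    w u * db P k 0 1 2 = w 0 * db P k 1 2 u + w 1 * db P k 2 0 u + w 2 * db P k 0 1 u := by
  have n0 : (0 : ℕ) < 8 := by norm_num
  have n1 : (1 : ℕ) < 8 := by norm_num
  have n2 : (2 : ℕ) < 8 := by norm_num
  have r1 : db P k 1 2 0 = db P k 0 1 2 := g3_rot P k n0 n1 n2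
  have r2 : db P k 2 0 1 = db P k 0 1 2 := (g3_rot P k n1 n2 n0).trans r1
  have h := g3_zero P k h0 (fun u => w u * db P k 0 1 2 -
      (w 0 * db P k 1 2 u + w 1 * db P k 2 0 u + w 2 * db P k 0 1 u)) (fun j => by
      have a := hw j
      have a0 := g3_dep P k n1 n2 j
      have a1 := g3_dep P k n2 n0 j
      have a2 := g3_dep P k n0 n1 j
      simp only [Finset.sum_range_succ, Finset.sum_range_zero] at a a0 a1 a2 ⊢
      linear_combination db P k 0 1 2 * a - w 0 * a0 - w 1 * a1 - w 2 * a2)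
    (by rw [r1, g3_z12 P k n2 n0, g3_z02 P k n0 n1]; ring)
    (by rw [r2, g3_z02 P k n1 n2, g3_z12 P k n0 n1]; ring)
    (by rw [g3_z12 P k n1 n2, g3_z02 P k n2 n0]; ring) u hu
  exact sub_eq_zero.1 h

/-- the dual bracket is a determinant of three vectors -/
theorem g3_det (P : ℕ → Pt) (k : ℕ → ℕ) (hk : Gen8 P k) : ∃ (t : ℝ) (p q r : ℕ → ℝ),
    ∀ x < 8, ∀ y < 8, ∀ z < 8, db P k x y z =
      t * ((q x * r y - r x * q y) * p z + (r x * p y - p x * r y) * q z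
        + (p x * q y - q x * p y) * r z) := by
  have n0 : (0 : ℕ) < 8 := by norm_num
  have n1 : (1 : ℕ) < 8 := by norm_num
  have n2 : (2 : ℕ) < 8 := by norm_num
  have h0 : db P k 0 1 2 ≠ 0 := hk 0 n0 1 n1 2 n2 (by norm_num) (by norm_num) (by norm_num)
  refine ⟨(db P k 0 1 2 ^ 2)⁻¹, db P k 1 2, db P k 2 0, db P k 0 1, fun x hx y hy z hz => ?_⟩
  have c := g3_cramer P k h0 _ (g3_dep P k hx hy) z hz
  have c0 := g3_cramer P k h0 _ (g3_dep P k n0 hx) y hy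
  have c1 := g3_cramer P k h0 _ (g3_dep P k n1 hx) y hy
  have c2 := g3_cramer P k h0 _ (g3_dep P k n2 hx) y hy
  rw [g3_z02 P k n0 hx, g3_sw12 P k n0 n1 hx, g3_rot P k n2 n0 hx, ← g3_rot P k n0 hx hy] at c0
  rw [g3_z02 P k n1 hx, g3_sw12 P k n1 n2 hx, g3_rot P k n0 n1 hx, ← g3_rot P k n1 hx hy] at c1
  rw [g3_z02 P k n2 hx, g3_sw12 P k n2 n0 hx, g3_rot P k n1 n2 hx, ← g3_rot P k n2 hx hy] at c2
  rw [eq_inv_mul_iff_mul_eq₀ (pow_ne_zero 2 h0)]
  linear_combination db P k 0 1 2 * c + db P k 1 2 z * c0 + db P k 2 0 z * c1 + db P k 0 1 z * c2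

theorem ov_rot (P : ℕ → Pt) (k : ℕ → ℕ) (hk : Gen8 P k) (a b c d e f : ℕ) (ha : a < 8) (hb : b < 8)
    (hc : c < 8) (hd : d < 8) (he : e < 8) (hf : f < 8) (hab : a ≠ b) (hcd : c ≠ d) (hef : e ≠ f) :
    ov P k a b c d e f = ov P k c d e f a b := by
  obtain ⟨t, p, q, r, h⟩ := g3_det P k hk
  have _ := And.intro hab (And.intro hcd hef)
  simp only [ov]
  rw [h a ha b hb e he, h c hc d hd f hf, h a ha b hb f hf, h c hc d hd e he,
    h c hc d hd a ha, h e he f hf b hb, h c hc d hd b hb, h e he f hf a ha]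
  ring

/-- the orientation is the determinant of the three cross products -/
theorem g3_ov (P : ℕ → Pt) (k : ℕ → ℕ) (t : ℝ) (p q r : ℕ → ℝ) (A B C : ℕ → ℕ → ℝ)
    (hA : ∀ x y, A x y = q x * r y - r x * q y) (hB : ∀ x y, B x y = r x * p y - p x * r y)
    (hC : ∀ x y, C x y = p x * q y - q x * p y)
    (h : ∀ x < 8, ∀ y < 8, ∀ z < 8, db P k x y z = t * (A x y * p z + B x y * q z + C x y * r z))
    {a b c d e f : ℕ} (ha : a < 8) (hb : b < 8) (hc : c < 8) (hd : d < 8) (he : e < 8) (hf : f < 8) :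
    ov P k a b c d e f = t ^ 2 * ((B a b * C c d - C a b * B c d) * A e f
      + (C a b * A c d - A a b * C c d) * B e f + (A a b * B c d - B a b * A c d) * C e f) := by
  simp only [ov]
  rw [h a ha b hb e he, h c hc d hd f hf, h a ha b hb f hf, h c hc d hd e he, hA e f, hB e f, hC e f]
  ring

theorem four (P : ℕ → Pt) (g : ℕ → ℝ) (k : ℕ → ℕ) (hk : Gen8 P k) (a b c d e f x y : ℕ)
    (ha : a < 8) (hb : b < 8) (hc : c < 8) (hd : d < 8) (he : e < 8) (hf : f < 8) (hx : x < 8)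
    (hy : y < 8) (hab : a ≠ b) (hcd : c ≠ d) (hef : e ≠ f) (hxy : x ≠ y) :
    dl P g k a b * ov P k c d e f x y - dl P g k c d * ov P k a b e f x y
      + dl P g k e f * ov P k a b c d x y - dl P g k x y * ov P k a b c d e f = 0 := by
  obtain ⟨t, p, q, r, h⟩ := g3_det P k hk
  have _ := And.intro (And.intro hab hcd) (And.intro hef hxy)
  obtain ⟨A, hA⟩ : ∃ A : ℕ → ℕ → ℝ, ∀ x y, A x y = q x * r y - r x * q y := ⟨_, fun _ _ => rfl⟩
  obtain ⟨B, hB⟩ : ∃ B : ℕ → ℕ → ℝ, ∀ x y, B x y = r x * p y - p x * r y := ⟨_, fun _ _ => rfl⟩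
  obtain ⟨C, hC⟩ : ∃ C : ℕ → ℕ → ℝ, ∀ x y, C x y = p x * q y - q x * p y := ⟨_, fun _ _ => rfl⟩
  have h' : ∀ x < 8, ∀ y < 8, ∀ z < 8,
      db P k x y z = t * (A x y * p z + B x y * q z + C x y * r z) := fun x hx y hy z hz => by
    rw [h x hx y hy z hz, hA, hB, hC]
  have hd' : ∀ x < 8, ∀ y < 8, dl P g k x y =
      t * (A x y * ∑ z ∈ Finset.range 8, g (k z) * p z + B x y * ∑ z ∈ Finset.range 8, g (k z) * q z
        + C x y * ∑ z ∈ Finset.range 8, g (k z) * r z) := fun x hx y hy => by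
    rw [dl, Finset.mul_sum, Finset.mul_sum, Finset.mul_sum, ← Finset.sum_add_distrib,
      ← Finset.sum_add_distrib, Finset.mul_sum]
    exact Finset.sum_congr rfl fun z hz => by
      rw [h' x hx y hy z (Finset.mem_range.1 hz)]
      ring
  rw [hd' a ha b hb, hd' c hc d hd, hd' e he f hf, hd' x hx y hy,
    g3_ov P k t p q r A B C hA hB hC h' hc hd he hf hx hy,
    g3_ov P k t p q r A B C hA hB hC h' ha hb he hf hx hy,
    g3_ov P k t p q r A B C hA hB hC h' ha hb hc hd hx hy,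
    g3_ov P k t p q r A B C hA hB hC h' ha hb hc hd he hf]
  ring

end AcuteCh
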