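import Pool.Agent.Lib.MP_bc94b4_co.Ch.GenD
import Pool.Agent.Lib.MP_bc94b4_co.Ch.Ga

/-! The blocks agree with the generators. -/

namespace AcuteCh

theorem G1_0_chk : gpChk G1_0 0 = true := by decide +kernel
theorem G1_1_chk : gpChk G1_1 1 = true := by decide +kernel
theorem G1_2_chk : bChk G1_2 0 = true := by decide +kernel
theorem G1_3_chk : bChk G1_3 1 = true := by decide +kernel
theorem G1_4_chk : bChk G1_4 2 = true := by decide +kernel
theorem G1_5_chk : bChk G1_5 3 = true := by decide +kernel
theorem G1_6_chk : bChk G1_6 4 = true := by decide +kernel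
theorem G1_7_chk : bChk G1_7 5 = true := by decide +kernel
theorem G1_8_chk : bChk G1_8 6 = true := by decide +kernel
theorem G1_9_chk : bChk G1_9 7 = true := by decide +kernel
theorem G1_10_chk : bChk G1_10 8 = true := by decide +kernel
theorem G1_11_chk : bChk G1_11 9 = true := by decide +kernel
theorem G1_12_chk : bChk G1_12 10 = true := by decide +kernel
theorem G1_13_chk : bChk G1_13 11 = true := by decide +kernel
theorem G1_14_chk : bChk G1_14 12 = true := by decide +kernel
theorem G1_15_chk : bChk G1_15 13 = true := by decide +kernel
theorem G1_16_chk : bChk G1_16 14 = true := by decide +kernel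

end AcuteCh
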