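import Pool.Agent.Lib.MP_bc94b4_co.Ch.TabD

/-! Generators of the tabulated relations and the checks of a block. -/

set_option autoImplicit false

namespace AcuteCh

noncomputable section

/-- the 57 masks of a 7-set -/
def NM : ℕ := 0x7c7a78767472706e6c6a68666462605e5c5a58565452504e4c4a484644423e3c3a38363432302e2c2a282624221e1c1a181614120e0c0a0600
/-- 7-set number K is the 8-set r without the position w: r + 64 w -/
def KW : ℕ := 0x2a0028002700670025002400640023006300a3002100200060001f005f009f001e005e009e00de001c001b005b001a005a009a00190059009900d900180058009800d8011800160015005500140054009400130053009300d300120052009200d2011200110051009100d101110151000f000e004e000d004d008d000c004c008c00cc000b004b008b00cb010b000a004a008a00ca010a014a00090049008900c901090149018900070006004600050045008500040044008400c400030043008300c3010300020042008200c20102014200010041008100c101010141018100000040008000c001000140018001c0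
def T3 : ℕ := 0x1ac01ab01a3016301aa01a20162019a015a011a01a901a1016101990159011901910151011100d101a801a0016001980158011801900150011000d001880148010800c80088
def Q4 : ℕ := 0xd630d620d5a0d1a0b1a0d610d590d190b190d510d110b110cd10ad108d10d600d580d180b180d500d100b100cd00ad008d00d480d080b080cc80ac808c80c880a8808880688
/-- partitions of six positions in three masks -/
def PT : ℕ := 0x21390022350042330023310042b100623100242d00442b0025290044a90064290084270026250084a500a42500462300852300c4230027210046a10066210085a100a52100c4a100e42100281d00481b002919004899006819008817002a1500889500a815004a1300891300c813002b11004a91006a1100899100a91100c89100e81101080f002c0d01088d01280d004c0b01090b01480b002d09004c89006c09010989012909014889016809008c07010a07018807002e05008c8500ac05010a85012a0501888501a805004e03008d0300cc03010b03014a0301890301c803002f01004e81006e01008d8100ad0100cc8100ec01010b81012b01014a81016a0101898101a90101c88101e801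
/-- four positions and the two omitted ones -/
def PQ : ℕ := 0x2c68802b888023a8802a8c8022ac801ab080298d0021ad0019b10011b180288d1020ad1018b11010b19008b1a

def om (w i : ℕ) : ℕ := cond (Nat.blt i w) i (Nat.add i 1)
def ins (w h : ℕ) : ℕ :=
  Nat.add (Nat.mod h (Nat.pow 2 w)) (Nat.shiftLeft (Nat.shiftRight h w) (Nat.add w 1))
def ix (x y z : ℕ) : ℕ := Nat.add (Nat.add x (Nat.mul 8 y)) (Nat.mul 64 z)

def gp2 (row w p q t u : ℕ) : ℕ :=
  pk (f16 row (ix w p q)) (f16 row (ix w t u)) (Nat.xor (f16 row (ix w p t)) 1) (f16 row (ix w q u))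
    (f16 row (ix w p u)) (f16 row (ix w q t))
def gp1 (row w Q : ℕ) : ℕ := gp2 row w (om w (f3 Q 0)) (om w (f3 Q 1)) (om w (f3 Q 2)) (om w (f3 Q 3))
def gpRow (R row w : ℕ) : Bool := allB 35 fun a => Nat.beq (f96 R a) (gp1 row w (f16 Q4 a))
def gpChk (T b : ℕ) : Bool := allB 60 fun c => gpRow (fR 3360 T c)
  (dbR (Nat.mod (f16 KW (Nat.add (Nat.mul 60 b) c)) 64)) (Nat.div (f16 KW (Nat.add (Nat.mul 60 b) c)) 64)

def b4 (row jp jq jt rp rq rt l1 l3 l5 h : ℕ) : ℕ :=
  pk (dlC row jp (f16 rp h)) l1 (Nat.xor (dlC row jq (f16 rq h)) 1) l3 (dlC row jt (f16 rt h)) l5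
def b3 (R row w jp jq jt rp rq rt l1 l3 l5 : ℕ) : Bool :=
  allB 57 fun n => Nat.beq (f96 R n) (b4 row jp jq jt rp rq rt l1 l3 l5 (ins w (f8 NM n)))
def jx (r a b : ℕ) : ℕ := f8 J8 (Nat.add (Nat.mul 64 r) (Nat.add a (Nat.mul 8 b)))
def rx (a b : ℕ) : ℕ := fR 4096 RS (Nat.add a (Nat.mul 8 b))
def b2 (R row r w p q t : ℕ) : Bool :=
  b3 R row w (jx r w p) (jx r w q) (jx r w t) (rx w p) (rx w q) (rx w t)
    (f16 row (ix w q t)) (f16 row (ix w p t)) (f16 row (ix w p q))
def b1 (R r w Q : ℕ) : Bool := b2 R (dbR r) r w (om w (f3 Q 0)) (om w (f3 Q 1)) (om w (f3 Q 2))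
def b0 (R k a : ℕ) : Bool := b1 R (Nat.mod k 64) (Nat.div k 64) (f16 T3 a)
def bChk (T b : ℕ) : Bool := allB 70 fun c =>
  b0 (fR 5472 T c) (f16 KW (Nat.add (Nat.mul 2 b) (Nat.div c 35))) (Nat.mod c 35)

def cs1 (j m d : ℕ) : ℕ :=
  cond (Nat.beq d 0)
    (Nat.add (Nat.add 512 (Nat.mul 64 j)) (cond (Nat.beq (Nat.mod m 2) 0) m (Nat.sub 64 m)))
    (Nat.xor (f16 (f96 LR j) (Nat.sub (Nat.div d 2) 1)) (Nat.mod d 2))
def csC (j m : ℕ) : ℕ := cs1 j m (f4 SG m)

def a1 (j Q : ℕ) : ℕ := pk (csC j (f6 Q 0)) 0 (csC j (f6 Q 1)) 0 (csC j (f6 Q 2)) 0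
def aRow (R j : ℕ) : Bool := allB 90 fun a => Nat.beq (f96 R a) (a1 j (f24 PT a))
def aChk (T b : ℕ) : Bool := allB 42 fun c => aRow (fR 8640 T c) (Nat.add (Nat.mul 42 b) c)

def nl (row m i : ℕ) : ℕ := Nat.xor (f16 row i) (Nat.land (Nat.shiftRight m i) 1)
def n2 (l row m Q : ℕ) : ℕ :=
  pk l (nl row m (f3 Q 0)) (nl row m (f3 Q 1)) (nl row m (f3 Q 2)) (nl row m (f3 Q 3))
    (nl row m (f3 Q 3))
def n1 (R l row m : ℕ) : Bool := allB 15 fun a => Nat.beq (f96 R a) (n2 l row m (f24 PQ a))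
def n0 (R j row : ℕ) : Bool := allB 32 fun u => n1 (fR 1440 R u)
  (Nat.xor (csC j (Nat.mul 2 u)) (cond (Nat.beq u 0) 1 0)) row (Nat.mul 2 u)
def nChk (T b : ℕ) : Bool := allB 7 fun c =>
  n0 (fR 46080 T c) (Nat.add (Nat.mul 7 b) c) (f96 LR (Nat.add (Nat.mul 7 b) c))

end

end AcuteCh
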