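import Pool.Agent.Lib.MP_bc94b4_co.Ch.Tab
import Pool.Agent.Lib.MP_bc94b4_co.Ch.GenD
import Pool.Agent.Lib.MP_bc94b4_co.Ch.LogLP

/-! Meaning of the checks of the tabulated relations. -/

set_option autoImplicit false

namespace AcuteCh

theorem pk_eq (a b c d e f : ℕ) : pk a b c d e f = pk6 a b c d e f := rfl

theorem gen_beq {a b : ℕ} (h : Nat.beq a b = true) : a = b := Nat.eq_of_beq_eq_true h

theorem gen_x1 {a : ℕ} (ha : a < 65536) : a ^^^ 1 < 65536 := xor_lt16 ha (by norm_num)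

theorem cval_x1 (X : Fin 10 → Pt) (l : ℕ) : cval X (Nat.xor l 1) = - cval X l := cval_xor X l

theorem good_gen8 {X : Fin 10 → Pt} (hX : Good X) {r : ℕ} (hr : r < 45) : Gen8 (ext X) (kk r) :=
  gen8_of_valn _ (good_valn X hX) hr

theorem ix_val (X : Fin 10 → Pt) {r x y z : ℕ} (hr : r < 45) (hx : x < 8) (hy : y < 8)
    (hz : z < 8) (h1 : x ≠ y) (h2 : x ≠ z) (h3 : y ≠ z) :
    cval X (f16 (dbR r) (ix x y z)) = db (ext X) (kk r) x y z := dbC_val X hr hx hy hz h1 h2 h3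

theorem tab_kw : ∀ K < 120, f16 KW K % 64 < 45 ∧ f16 KW K / 64 < 8 := by decide +kernel

/-- four different positions other than w -/
def Dif4 (w p q t u : ℕ) : Prop :=
  p < 8 ∧ q < 8 ∧ t < 8 ∧ u < 8 ∧ w ≠ p ∧ w ≠ q ∧ w ≠ t ∧ w ≠ u ∧ p ≠ q ∧ p ≠ t ∧ p ≠ u ∧
    q ≠ t ∧ q ≠ u ∧ t ≠ u

instance (w p q t u : ℕ) : Decidable (Dif4 w p q t u) := by unfold Dif4; infer_instance

theorem tab_q4 : ∀ w < 8, ∀ a < 35, Dif4 w (om w (f3 (f16 Q4 a) 0)) (om w (f3 (f16 Q4 a) 1))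
    (om w (f3 (f16 Q4 a) 2)) (om w (f3 (f16 Q4 a) 3)) := by decide +kernel

theorem gp2_tri {X : Fin 10 → Pt} (hX : Good X) {r w p q t u : ℕ} (hr : r < 45) (hw : w < 8)
    (h : Dif4 w p q t u) : Tri (cval X) (gp2 (dbR r) w p q t u) := by
  obtain ⟨hp, hq, ht, hu, a1, a2, a3, a4, a5, a6, a7, a8, a9, a10⟩ := h
  refine tri_pk6 _ (f16_lt _ _) (f16_lt _ _) (gen_x1 (f16_lt _ _)) (f16_lt _ _) (f16_lt _ _)
    (f16_lt _ _) ?_
  rw [cval_x1, ix_val X hr hw hp hq a1 a2 a5, ix_val X hr hw ht hu a3 a4 a10,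
    ix_val X hr hw hp ht a1 a3 a6, ix_val X hr hw hq hu a2 a4 a9, ix_val X hr hw hp hu a1 a4 a7,
    ix_val X hr hw hq ht a2 a3 a8]
  linear_combination rel_gp _ _ (good_gen8 hX hr) hw hp hq ht hu

theorem gpChk_ok {X : Fin 10 → Pt} (hX : Good X) {T b : ℕ} (hb : b < 2) (h : gpChk T b = true) :
    TriT (cval X) T 2100 := by
  intro i hi
  have h1 := gen_beq (allB_spec (allB_spec h (i / 35) (by omega)) (i % 35) (by omega))
  rw [f96_eq, fR_eq, fld_fld 96 35 T _ _ (by omega), show 35 * (i / 35) + i % 35 = i by omega] at h1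
  obtain ⟨k1, k2⟩ := tab_kw (60 * b + i / 35) (by omega)
  rw [h1]
  exact gp2_tri hX k1 k2 (tab_q4 _ k2 _ (by omega))

theorem tab_t3 : ∀ w < 8, ∀ a < 35, om w (f3 (f16 T3 a) 0) < 8 ∧ om w (f3 (f16 T3 a) 1) < 8 ∧
    om w (f3 (f16 T3 a) 2) < 8 ∧ w ≠ om w (f3 (f16 T3 a) 0) ∧ w ≠ om w (f3 (f16 T3 a) 1) ∧
    w ≠ om w (f3 (f16 T3 a) 2) ∧ om w (f3 (f16 T3 a) 0) ≠ om w (f3 (f16 T3 a) 1) ∧
    om w (f3 (f16 T3 a) 0) ≠ om w (f3 (f16 T3 a) 2) ∧
    om w (f3 (f16 T3 a) 1) ≠ om w (f3 (f16 T3 a) 2) := by decide +kernel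

theorem tab_nm : ∀ w < 8, ∀ n < 57, ins w (f8 NM n) < 256 ∧
    ∀ c < 8, w ≠ c → f16 (rx w c) (ins w (f8 NM n)) ≠ 0 := by decide +kernel

theorem b4_tri {X : Fin 10 → Pt} (hX : Good X) {r w p q t n : ℕ} (hr : r < 45) (hw : w < 8)
    (hp : p < 8) (hq : q < 8) (ht : t < 8) (a1 : w ≠ p) (a2 : w ≠ q) (a3 : w ≠ t) (a4 : p ≠ q)
    (a5 : p ≠ t) (a6 : q ≠ t) (hn : n < 57) :
    Tri (cval X) (b4 (dbR r) (jx r w p) (jx r w q) (jx r w t) (rx w p) (rx w q) (rx w t)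
      (f16 (dbR r) (ix w q t)) (f16 (dbR r) (ix w p t)) (f16 (dbR r) (ix w p q))
      (ins w (f8 NM n))) := by
  obtain ⟨h1, h2⟩ := tab_nm w hw n hn
  obtain ⟨-, p1, p2⟩ := dlC_val X hr hw hp h1 (h2 p hp a1)
  obtain ⟨-, q1, q2⟩ := dlC_val X hr hw hq h1 (h2 q hq a2)
  obtain ⟨-, t1, t2⟩ := dlC_val X hr hw ht h1 (h2 t ht a3)
  refine tri_pk6 _ p1 (f16_lt _ _) (gen_x1 q1) (f16_lt _ _) t1 (f16_lt _ _) ?_
  change cval X (dlC (dbR r) (jx r w p) (f16 (rx w p) (ins w (f8 NM n)))) = _ at p2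
  change cval X (dlC (dbR r) (jx r w q) (f16 (rx w q) (ins w (f8 NM n)))) = _ at q2
  change cval X (dlC (dbR r) (jx r w t) (f16 (rx w t) (ins w (f8 NM n)))) = _ at t2
  rw [cval_x1, p2, q2, t2, ix_val X hr hw hq ht a2 a3 a6, ix_val X hr hw hp ht a1 a3 a5,
    ix_val X hr hw hp hq a1 a2 a4]
  linear_combination rel_b _ (gh (ext X) r (ins w (f8 NM n))) _ (good_gen8 hX hr) hw hp hq ht

theorem bChk_ok {X : Fin 10 → Pt} (hX : Good X) {T b : ℕ} (hb : b < 60) (h : bChk T b = true) :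
    TriT (cval X) T 3990 := by
  intro i hi
  have h0 := allB_spec h (i / 57) (by omega)
  rw [b0, b1, b2, b3] at h0
  have h1 := gen_beq (allB_spec h0 (i % 57) (by omega))
  rw [f96_eq, fR_eq, fld_fld 96 57 T _ _ (by omega), show 57 * (i / 57) + i % 57 = i by omega] at h1
  obtain ⟨k1, k2⟩ := tab_kw (2 * b + i / 57 / 35) (by omega)
  obtain ⟨t1, t2, t3, t4, t5, t6, t7, t8, t9⟩ := tab_t3 _ k2 (i / 57 % 35) (by omega)
  rw [h1]
  exact b4_tri hX k1 k2 t1 t2 t3 t4 t5 t6 t7 t8 t9 (by omega)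

theorem csC_eq (j m : ℕ) : csC j m = csL j m := by
  have e : ∀ a : ℕ, ∀ x y : ℕ, cond (Nat.beq a 0) x y = if a = 0 then x else y := fun a x y => by
    cases a <;> rfl
  rw [csC, cs1, e, e, csL, loc]
  rfl

theorem tab_pt : ∀ a < 90, Part3 (f6 (f24 PT a) 0) (f6 (f24 PT a) 1) (f6 (f24 PT a) 2) := by
  decide +kernel

theorem aChk_ok (X : Fin 10 → Pt) {T b : ℕ} (hb : b < 5) (h : aChk T b = true) :
    TriT (cval X) T 3780 := by
  intro i hi
  have h1 := gen_beq (allB_spec (allB_spec h (i / 90) (by omega)) (i % 90) (by omega))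
  rw [f96_eq, fR_eq, fld_fld 96 90 T _ _ (by omega), show 90 * (i / 90) + i % 90 = i by omega] at h1
  have hj : Nat.add (Nat.mul 42 b) (i / 90) < 210 := by
    change 42 * b + i / 90 < 210
    omega
  rw [h1, a1, pk_eq, csC_eq, csC_eq, csC_eq]
  refine tri_pk6 _ (csL_lt hj (f6_lt _ _)) (by norm_num) (csL_lt hj (f6_lt _ _)) (by norm_num)
    (csL_lt hj (f6_lt _ _)) (by norm_num) ?_
  rw [cval_zero, csL_val X hj (f6_lt _ _), csL_val X hj (f6_lt _ _), csL_val X hj (f6_lt _ _)]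
  linear_combination rel_add (ext X) hj (tab_pt (i % 90) (by omega))

theorem tab_pq : ∀ a < 15, f3 (f24 PQ a) 4 < 6 ∧ f3 (f24 PQ a) 5 < 6 ∧
    (∀ k < 4, f3 (f24 PQ a) k < 6) ∧ ∀ i < 6, i ≠ f3 (f24 PQ a) 4 → i ≠ f3 (f24 PQ a) 5 →
      ∃ k < 4, i = f3 (f24 PQ a) k := by decide +kernel

theorem gen_bit : ∀ m < 64, ∀ i < 6, Nat.land (Nat.shiftRight m i) 1 = (m.testBit i).toNat ∧
    ((63 - m).testBit i).toNat = (m.testBit i).toNat ^^^ 1 := by decide +kernel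

theorem nl_val (X : Fin 10 → Pt) {j m i : ℕ} (hj : j < 210) (hm : m < 64) (hi : i < 6) :
    cval X (nl (f96 LR j) m i) = sval (ext X) (lamL j i ^^^ (m.testBit i).toNat) := by
  rw [nl, (gen_bit m hm i hi).1]
  change cval X (f16 (f96 LR j) i ^^^ _) = _
  cases m.testBit i
  · rw [Bool.toNat_false, Nat.xor_zero, Nat.xor_zero, cval, tab_lr j hj i hi]
  · rw [Bool.toNat_true, cval_xor, sval_xor, cval, tab_lr j hj i hi]

theorem nl_lt (row m i : ℕ) : nl row m i < 65536 :=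
  xor_lt16 (f16_lt _ _) (lt_of_le_of_lt (Nat.and_le_right (n := Nat.shiftRight m i) (m := 1))
    (by norm_num))

/-- both sign rules of one subset sum -/
theorem nsp_two {X : Fin 10 → Pt} (hX : Good X) {j u p q : ℕ} (hj : j < 210) (hu : u < 32)
    (hp : p < 6) (hq : q < 6) :
    ((∀ i < 6, i ≠ p → i ≠ q → cval X (nl (f96 LR j) (2 * u) i) < 0) →
      0 < cval X (csL j (2 * u) ^^^ cond (Nat.beq u 0) 1 0)) ∧
    ((∀ i < 6, i ≠ p → i ≠ q → 0 < cval X (nl (f96 LR j) (2 * u) i)) →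
      cval X (csL j (2 * u) ^^^ cond (Nat.beq u 0) 1 0) < 0) := by
  have hs := good_valn X hX
  have hm : 2 * u < 64 := by omega
  rcases u with _ | u
  · change (_ → 0 < cval X (csL j 0 ^^^ 1)) ∧ (_ → cval X (csL j 0 ^^^ 1) < 0)
    rw [cval_xor, csL_val X hj (by norm_num)]
    constructor
    · intro h
      rw [← sval_xor]
      refine rel_hgt _ hX.1 hs hj p q 1 (by norm_num) (fun i hi a b => ?_) hp hq
      have := h i hi a b
      rw [nl_val X hj hm hi] at this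
      simpa using this
    · intro h
      have := rel_hgt _ hX.1 hs hj p q 0 (by norm_num) (fun i hi a b => by
        have := h i hi a b
        rw [nl_val X hj hm hi] at this
        rw [Nat.sub_zero, sval_xor]
        simpa using this) hp hq
      rw [Nat.xor_zero] at this
      linarith
  · change (_ → 0 < cval X (csL j (2 * (u + 1)) ^^^ 0)) ∧ (_ → cval X (csL j (2 * (u + 1)) ^^^ 0) < 0)
    rw [Nat.xor_zero, csL_val X hj hm]
    constructor
    · intro h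
      refine rel_nsp _ hX.1 hs hj (by omega) (by omega) p q (fun i hi a b => ?_) hp hq
      rw [← nl_val X hj hm hi]
      exact h i hi a b
    · intro h
      have := rel_nsp _ hX.1 hs hj (m := 63 - 2 * (u + 1)) (by omega) (by omega) p q
        (fun i hi a b => by
          have := h i hi a b
          rw [nl_val X hj hm hi] at this
          rw [(gen_bit _ hm i hi).2, ← Nat.xor_assoc, sval_xor]
          linarith) hp hq
      rw [svL_val _ hj (by omega) (by omega), sv_compl _ hm,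
        ← svL_val _ hj (by omega) (by omega)] at this
      linarith

theorem gen_all6 : ∀ i < 6, fld 16 all6 i = 1 := by decide +kernel

theorem n2_cl {X : Fin 10 → Pt} (hX : Good X) {j u a : ℕ} (hj : j < 210) (hu : u < 32)
    (ha : a < 15) :
    Cl6 (cval X) (n2 (csL j (2 * u) ^^^ cond (Nat.beq u 0) 1 0) (f96 LR j) (2 * u) (f24 PQ a)) ∧
    Cl6 (cval X) (n2 (csL j (2 * u) ^^^ cond (Nat.beq u 0) 1 0) (f96 LR j) (2 * u) (f24 PQ a)
      ^^^ all6) := by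
  obtain ⟨hp, hq, -, h4⟩ := tab_pq a ha
  obtain ⟨t1, t2⟩ := nsp_two hX hj hu hp hq
  have hv := good_vc X hX
  have hl : csL j (2 * u) ^^^ cond (Nat.beq u 0) 1 0 < 65536 :=
    xor_lt16 (csL_lt hj (by omega)) (by cases Nat.beq u 0 <;> norm_num)
  obtain ⟨e0, e1, e2, e3, e4, -⟩ := pk6_fld hl (nl_lt (f96 LR j) (2 * u) (f3 (f24 PQ a) 0))
    (nl_lt (f96 LR j) (2 * u) (f3 (f24 PQ a) 1)) (nl_lt (f96 LR j) (2 * u) (f3 (f24 PQ a) 2))
    (nl_lt (f96 LR j) (2 * u) (f3 (f24 PQ a) 3)) (nl_lt (f96 LR j) (2 * u) (f3 (f24 PQ a) 3))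
  rw [n2, pk_eq]
  generalize pk6 _ _ _ _ _ _ = e at e0 e1 e2 e3 e4 ⊢
  have ek : ∀ k < 4, fld 16 e (k + 1) = nl (f96 LR j) (2 * u) (f3 (f24 PQ a) k) := fun k hk => by
    interval_cases k
    exacts [e1, e2, e3, e4]
  constructor
  · by_contra hc
    have hn : ∀ i < 6, cval X (fld 16 e i) < 0 := fun i hi =>
      lt_of_le_of_ne (not_lt.1 fun h => hc ⟨i, hi, h⟩) (hv.1 _)
    have := t1 fun i hi a b => by
      obtain ⟨k, hk, rfl⟩ := h4 i hi a b
      rw [← ek k hk]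
      exact hn _ (by omega)
    have h0 := hn 0 (by norm_num)
    rw [e0] at h0
    linarith
  · by_contra hc
    have hn : ∀ i < 6, 0 < cval X (fld 16 e i) := fun i hi => by
      have h1 : ¬ 0 < cval X (fld 16 (e ^^^ all6) i) := fun h => hc ⟨i, hi, h⟩
      rw [lp_fld_xor, gen_all6 i hi, cval_xor] at h1
      exact lt_of_le_of_ne (by linarith [not_lt.1 h1]) (hv.1 _).symm
    have := t2 fun i hi a b => by
      obtain ⟨k, hk, rfl⟩ := h4 i hi a b
      rw [← ek k hk]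
      exact hn _ (by omega)
    have h0 := hn 0 (by norm_num)
    rw [e0] at h0
    linarith

theorem nChk_ok {X : Fin 10 → Pt} (hX : Good X) {T b : ℕ} (hb : b < 30) (h : nChk T b = true) :
    NspT (cval X) T 3360 := by
  intro i hi
  have h1 := gen_beq (allB_spec (allB_spec (allB_spec h (i / 480) (by omega)) (i % 480 / 15)
    (by omega)) (i % 15) (by omega))
  rw [f96_eq, fR_eq, fR_eq, fld_fld 96 15 _ _ _ (by omega), fld_fld 96 480 T _ _ (by omega),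
    show 480 * (i / 480) + (15 * (i % 480 / 15) + i % 15) = i by omega, csC_eq] at h1
  rw [h1]
  exact n2_cl hX (j := 7 * b + i / 480) (by omega) (by omega) (by omega)

end AcuteCh
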