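import Pool.Agent.Lib.MP_bc94b4_co.Ch.Defs

/-! An acute ten-tuple can be moved to one that is generic in every labelling. -/

set_option autoImplicit false

namespace AcuteCh

open Filter Topology

section Ring
variable {R S : Type} [CommRing R] [CommRing S]

/-- lifted bracket over a ring -/
def genLbv (B : ℕ → ℕ → ℕ → ℕ → ℕ → R) (x0 x1 x2 x3 x4 x5 : R) (a b c d e f : ℕ) : R :=
  - x0 * B b c d e f + x1 * B a c d e f - x2 * B a b d e f
    + x3 * B a b c e f - x4 * B a b c d f + x5 * B a b c d e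

/-- a bit as a ring element -/
def genBt (m k : ℕ) : R := if m.testBit k then 1 else 0

/-- dual bracket over a ring -/
def genDb (B : ℕ → ℕ → ℕ → ℕ → ℕ → R) (k : ℕ → ℕ) (x y z : ℕ) : R :=
  let c := fld 16 C3 (x + 8 * y + 64 * z)
  if c = 0 then 0 else
    (if c / 32768 = 0 then 1 else -1) *
      B (k (fld 3 c 0)) (k (fld 3 c 1)) (k (fld 3 c 2)) (k (fld 3 c 3)) (k (fld 3 c 4))

/-- orientation over a ring -/
def genOv (B : ℕ → ℕ → ℕ → ℕ → ℕ → R) (k : ℕ → ℕ) (a b c d e f : ℕ) : R :=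
  genDb B k a b e * genDb B k c d f - genDb B k a b f * genDb B k c d e

/-- value of a variable over a ring, from brackets and heights -/
def genVal (B : ℕ → ℕ → ℕ → ℕ → ℕ → R) (H : ℕ → R) (v : ℕ) : R :=
  if v < 1024 then
    let t := fld 20 E5 v
    if t = 0 then 1 else B (fld 4 t 0) (fld 4 t 1) (fld 4 t 2) (fld 4 t 3) (fld 4 t 4)
  else if v < 7744 then
    let t := fld 24 E6 ((v - 1024) / 32)
    let m := 2 * ((v - 1024) % 32)
    if m = 0 then
      genLbv B (H (fld 4 t 0)) (H (fld 4 t 1)) (H (fld 4 t 2)) (H (fld 4 t 3)) (H (fld 4 t 4))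
        (H (fld 4 t 5)) (fld 4 t 0) (fld 4 t 1) (fld 4 t 2) (fld 4 t 3) (fld 4 t 4) (fld 4 t 5)
    else
      genLbv B (genBt m 0) (genBt m 1) (genBt m 2) (genBt m 3) (genBt m 4) (genBt m 5)
        (fld 4 t 0) (fld 4 t 1) (fld 4 t 2) (fld 4 t 3) (fld 4 t 4) (fld 4 t 5)
  else if v < 8192 then 1
  else if v < 27092 then
    let t := fld 32 E8 ((v - 8192) / 420)
    let o := fld 18 OT ((v - 8192) % 420)
    genOv B (fld 4 t) (fld 3 o 0) (fld 3 o 1) (fld 3 o 2) (fld 3 o 3) (fld 3 o 4) (fld 3 o 5)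
  else 1

theorem gen_val_eq (P : ℕ → Pt) (v : ℕ) : val P v = genVal (br P) (ht P) v := rfl

theorem gen_map (g : R →+* S) (B : ℕ → ℕ → ℕ → ℕ → ℕ → R) (H : ℕ → R) (v : ℕ) :
    g (genVal B H v) = genVal (fun a b c d e => g (B a b c d e)) (fun a => g (H a)) v := by
  simp only [genVal, genLbv, genBt, genOv, genDb, apply_ite g, map_add, map_sub, map_mul, map_neg,
    map_one, map_zero]

end Ring

/-- parameters of the witness on the moment curve -/
def genT (i : ℕ) : ℤ := (fld 8 0x5b534f4c4b3d33281606 i : ℕ)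

/-- Vandermonde product of five numbers -/
def genV (a b c d e : ℤ) : ℤ :=
  (b - a) * (c - a) * (d - a) * (e - a) * ((c - b) * (d - b) * (e - b)) * ((d - c) * (e - c))
    * (e - d)

def genB (τ : ℕ → ℤ) (a b c d e : ℕ) : ℤ := genV (τ a) (τ b) (τ c) (τ d) (τ e)

def genH (τ : ℕ → ℤ) (a : ℕ) : ℤ := τ a ^ 2 + τ a ^ 4 + τ a ^ 6 + τ a ^ 8

/-- the parameters moved to the points listed in the packed tuple `t` -/
def genTau (t j : ℕ) : ℕ → ℤ
  | 0 => 0
  | n + 1 => if fld 4 t n = j ∧ j < 10 then genT n else genTau t j n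

theorem gen_tau_zero (t n j : ℕ) (hj : 10 ≤ j) : genTau t j n = 0 := by
  induction n with
  | zero => rfl
  | succ n ih => rw [genTau, if_neg (by omega), ih]

theorem gen_T_zero (j : ℕ) (hj : 10 ≤ j) : genT j = 0 := by
  have h1 : 0x5b534f4c4b3d33281606 < 2 ^ (8 * j) :=
    lt_of_lt_of_le (by norm_num) (Nat.pow_le_pow_right two_pos (show 80 ≤ 8 * j by omega))
  rw [genT, fld, Nat.shiftRight_eq_div_pow, Nat.div_eq_of_lt h1]
  rfl

theorem gen_chk5 : ∀ a < 32, ∀ b < 32, genVal (genB genT) (genH genT) (32 * a + b) ≠ 0 := by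
  decide +kernel

theorem gen_tab6 : ∀ a < 21, ∀ b < 10, ∀ i < 6,
    genTau (fld 24 E6 (10 * a + b)) (fld 4 (fld 24 E6 (10 * a + b)) i) 6 = genT i := by
  decide +kernel

theorem gen_tab8 : ∀ r < 45, ∀ i < 8,
    genTau (fld 32 E8 r) (fld 4 (fld 32 E8 r) i) 8 = genT i := by decide +kernel

theorem gen_chk6a : genLbv (genB genT) (genH genT 0) (genH genT 1) (genH genT 2) (genH genT 3)
    (genH genT 4) (genH genT 5) 0 1 2 3 4 5 ≠ 0 := by decide +kernel

theorem gen_chk6b : ∀ m < 32, 2 * m ≠ 0 → genLbv (genB genT) (genBt (2 * m) 0) (genBt (2 * m) 1)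
    (genBt (2 * m) 2) (genBt (2 * m) 3) (genBt (2 * m) 4) (genBt (2 * m) 5) 0 1 2 3 4 5 ≠ 0 := by
  decide +kernel

theorem gen_chk8 : ∀ a < 21, ∀ b < 20, genOv (genB genT) id (fld 3 (fld 18 OT (20 * a + b)) 0)
    (fld 3 (fld 18 OT (20 * a + b)) 1) (fld 3 (fld 18 OT (20 * a + b)) 2)
    (fld 3 (fld 18 OT (20 * a + b)) 3) (fld 3 (fld 18 OT (20 * a + b)) 4)
    (fld 3 (fld 18 OT (20 * a + b)) 5) ≠ 0 := by decide +kernel

theorem gen_lbv_congr {τ : ℕ → ℤ} {k : ℕ → ℕ} (h : ∀ i < 6, τ (k i) = genT i)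
    (x0 x1 x2 x3 x4 x5 : ℤ) :
    genLbv (genB τ) x0 x1 x2 x3 x4 x5 (k 0) (k 1) (k 2) (k 3) (k 4) (k 5) =
      genLbv (genB genT) x0 x1 x2 x3 x4 x5 0 1 2 3 4 5 := by
  simp only [genLbv, genB]
  rw [h 0 (by omega), h 1 (by omega), h 2 (by omega), h 3 (by omega), h 4 (by omega),
    h 5 (by omega)]

theorem gen_H_congr {τ : ℕ → ℤ} {k : ℕ → ℕ} (h : ∀ i < 6, τ (k i) = genT i) (i : ℕ) (hi : i < 6) :
    genH τ (k i) = genH genT i := by
  rw [genH, genH, h i hi]

theorem gen_ov_congr {τ : ℕ → ℤ} {k : ℕ → ℕ} (h : ∀ i < 8, τ (k i) = genT i) (a b c d e f : ℕ) :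
    genOv (genB τ) k a b c d e f = genOv (genB genT) id a b c d e f := by
  have h4 : ∀ c i, τ (k (fld 3 c i)) = genT (fld 3 c i) :=
    fun c i => h _ (Nat.mod_lt _ (by norm_num))
  simp only [genOv, genDb, genB, id, h4]

theorem gen_ne (v : ℕ) :
    ∃ τ : ℕ → ℤ, (∀ j, 10 ≤ j → τ j = 0) ∧ genVal (genB τ) (genH τ) v ≠ 0 := by
  by_cases h0 : v < 1024
  · have h := gen_chk5 (v / 32) (by omega) (v % 32) (by omega)
    rw [Nat.div_add_mod] at h
    exact ⟨genT, gen_T_zero, h⟩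
  by_cases h1 : v < 7744
  · simp only [genVal, if_neg h0, if_pos h1]
    have hr : (v - 1024) / 32 < 210 := by omega
    have hm : (v - 1024) % 32 < 32 := by omega
    generalize (v - 1024) / 32 = r at hr
    generalize (v - 1024) % 32 = m at hm
    have h := gen_tab6 (r / 10) (by omega) (r % 10) (by omega)
    rw [Nat.div_add_mod] at h
    generalize fld 24 E6 r = t at h
    refine ⟨fun j => genTau t j 6, gen_tau_zero _ _, ?_⟩
    rw [gen_lbv_congr (k := fld 4 t) h, gen_lbv_congr (k := fld 4 t) h,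
      gen_H_congr (k := fld 4 t) h 0 (by omega), gen_H_congr (k := fld 4 t) h 1 (by omega),
      gen_H_congr (k := fld 4 t) h 2 (by omega), gen_H_congr (k := fld 4 t) h 3 (by omega),
      gen_H_congr (k := fld 4 t) h 4 (by omega), gen_H_congr (k := fld 4 t) h 5 (by omega)]
    split_ifs with h2
    · exact gen_chk6a
    · exact gen_chk6b m hm h2
  by_cases h2 : v < 8192
  · simp only [genVal, if_neg h0, if_neg h1, if_pos h2]
    exact ⟨genT, gen_T_zero, one_ne_zero⟩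
  by_cases h3 : v < 27092
  · simp only [genVal, if_neg h0, if_neg h1, if_neg h2, if_pos h3]
    have hr : (v - 8192) / 420 < 45 := by omega
    have hm : (v - 8192) % 420 < 420 := by omega
    generalize (v - 8192) / 420 = r at hr
    generalize (v - 8192) % 420 = m at hm
    have h := gen_tab8 r hr
    have ha := gen_chk8 (m / 20) (by omega) (m % 20) (by omega)
    rw [Nat.div_add_mod] at ha
    generalize fld 32 E8 r = t at h
    refine ⟨fun j => genTau t j 8, gen_tau_zero _ _, ?_⟩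
    rw [gen_ov_congr (k := fld 4 t) h]
    exact ha
  · simp only [genVal, if_neg h0, if_neg h1, if_neg h2, if_neg h3]
    exact ⟨genT, gen_T_zero, one_ne_zero⟩

/-- points on the moment curve -/
noncomputable def genP (τ : ℕ → ℤ) (i : ℕ) : Pt := fun j => (τ i : ℝ) ^ (j.1 + 1)

theorem gen_ext {τ : ℕ → ℤ} (hτ : ∀ j, 10 ≤ j → τ j = 0) :
    ext (fun i : Fin 10 => genP τ i) = genP τ := by
  funext i
  rw [ext]
  split_ifs with h
  · rfl
  · funext j
    simp [genP, hτ i (by omega)]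

theorem gen_br (τ : ℕ → ℤ) (a b c d e : ℕ) :
    br (genP τ) a b c d e = (genB τ a b c d e : ℝ) := by
  have h : (Matrix.of fun (i j : Fin 5) =>
      (Fin.cons 1 (genP τ (![a, b, c, d, e] i)) : Fin 5 → ℝ) j) =
      Matrix.vandermonde fun i => (τ (![a, b, c, d, e] i) : ℝ) := by
    ext i j
    refine Fin.cases ?_ (fun j => ?_) j <;> simp [genP]
  rw [br, h, Matrix.det_vandermonde]
  simp only [Fin.prod_univ_succ, Fin.prod_Ioi_zero, Fin.prod_Ioi_succ]
  simp [genB, genV]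
  ring

theorem gen_ht (τ : ℕ → ℤ) (a : ℕ) : ht (genP τ) a = (genH τ a : ℝ) := by
  simp [ht, dot, genP, genH, Fin.sum_univ_four]
  ring

theorem gen_wit (v : ℕ) : ∃ W : Fin 10 → Pt, val (ext W) v ≠ 0 := by
  obtain ⟨τ, hτ, hv⟩ := gen_ne v
  have h := gen_map (Int.castRingHom ℝ) (genB τ) (genH τ) v
  have h1 : br (genP τ) = fun a b c d e => Int.castRingHom ℝ (genB τ a b c d e) := by
    funext a b c d e
    exact gen_br τ a b c d e
  have h2 : ht (genP τ) = fun a => Int.castRingHom ℝ (genH τ a) := funext (gen_ht τ)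
  refine ⟨fun i => genP τ i, ?_⟩
  rw [gen_ext hτ, gen_val_eq, h1, h2, ← h]
  exact Int.cast_ne_zero.2 hv

/-- the ring of analytic functions of a ten-tuple -/
def genA : Subring ((Fin 10 → Pt) → ℝ) where
  carrier := {f | ∀ x, AnalyticAt ℝ f x}
  mul_mem' := fun ha hb x => (ha x).mul (hb x)
  one_mem' := fun _ => analyticAt_const
  add_mem' := fun ha hb x => (ha x).add (hb x)
  zero_mem' := fun _ => analyticAt_const
  neg_mem' := fun ha x => (ha x).neg

theorem gen_coord (σ : Equiv.Perm (Fin 10)) (i : ℕ) (j : Fin 4) (x : Fin 10 → Pt) :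
    AnalyticAt ℝ (fun X : Fin 10 → Pt => ext (X ∘ σ) i j) x := by
  unfold ext
  split_ifs with h
  · exact ((ContinuousLinearMap.proj (R := ℝ) (φ := fun _ : Fin 4 => ℝ) j).comp
      (ContinuousLinearMap.proj (R := ℝ) (φ := fun _ : Fin 10 => Pt) (σ ⟨i, h⟩))).analyticAt x
  · exact analyticAt_const

theorem gen_an_br (σ : Equiv.Perm (Fin 10)) (a b c d e : ℕ) (x : Fin 10 → Pt) :
    AnalyticAt ℝ (fun X : Fin 10 → Pt => br (ext (X ∘ σ)) a b c d e) x := by
  simp only [br, Matrix.det_apply', Matrix.of_apply]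
  refine Finset.analyticAt_fun_sum _ fun τ _ => analyticAt_const.mul ?_
  refine Finset.analyticAt_fun_prod _ fun j _ => ?_
  refine Fin.cases ?_ (fun j => ?_) j
  · exact analyticAt_const
  · exact gen_coord σ _ j x

theorem gen_an_ht (σ : Equiv.Perm (Fin 10)) (a : ℕ) (x : Fin 10 → Pt) :
    AnalyticAt ℝ (fun X : Fin 10 → Pt => ht (ext (X ∘ σ)) a) x := by
  simp only [ht, dot]
  exact Finset.analyticAt_fun_sum _ fun j _ => (gen_coord σ a j x).mul (gen_coord σ a j x)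

theorem gen_an (σ : Equiv.Perm (Fin 10)) (v : ℕ) (x : Fin 10 → Pt) :
    AnalyticAt ℝ (fun X : Fin 10 → Pt => val (ext (X ∘ σ)) v) x := by
  have h : (fun X : Fin 10 → Pt => val (ext (X ∘ σ)) v) =
      (genVal (R := genA) (fun a b c d e => ⟨_, gen_an_br σ a b c d e⟩)
        (fun a => ⟨_, gen_an_ht σ a⟩) v).1 := by
    funext X
    exact (gen_val_eq _ v).trans
      (gen_map ((Pi.evalRingHom (fun _ => ℝ) X).comp genA.subtype)
        (fun a b c d e => ⟨_, gen_an_br σ a b c d e⟩) (fun a => ⟨_, gen_an_ht σ a⟩) v).symm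
  rw [h]
  exact (genVal (R := genA) _ _ v).2 x

theorem gen_dense (σ : Equiv.Perm (Fin 10)) (v : ℕ) :
    Dense {X : Fin 10 → Pt | val (ext (X ∘ σ)) v ≠ 0} := by
  intro X
  rw [mem_closure_iff_frequently]
  intro h
  have h1 : (fun X : Fin 10 → Pt => val (ext (X ∘ σ)) v) =ᶠ[𝓝 X] 0 :=
    h.mono fun Y hY => not_not.1 hY
  obtain ⟨W, hW⟩ := gen_wit v
  have h2 := AnalyticOnNhd.eqOn_zero_of_preconnected_of_eventuallyEq_zero
    (fun Y _ => gen_an σ v Y) isPreconnected_univ (Set.mem_univ X) h1 (Set.mem_univ (W ∘ σ.symm))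
  have h3 : (W ∘ σ.symm) ∘ σ = W := by
    funext i
    simp
  simp only [h3] at h2
  exact hW h2

theorem exists_good (X : Fin 10 → Pt) (hX : Acute (ext X)) : ∃ Y : Fin 10 → Pt, Good Y := by
  have hd : Dense (⋂ p : Equiv.Perm (Fin 10) × ℕ,
      {X : Fin 10 → Pt | val (ext (X ∘ p.1)) p.2 ≠ 0}) :=
    dense_iInter_of_isOpen
      (fun p => isOpen_ne_fun
        (continuous_iff_continuousAt.2 fun x => (gen_an p.1 p.2 x).continuousAt) continuous_const)
      fun p => gen_dense p.1 p.2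
  have hc : ∀ (i : ℕ) (j : Fin 4), ContinuousAt (fun Y : Fin 10 → Pt => ext Y i j) X :=
    fun i j => (gen_coord 1 i j X).continuousAt
  have hn : ∀ᶠ Y in 𝓝 X, ∀ a b c : Fin 10, a.1 ≠ b.1 → a.1 ≠ c.1 →
      0 < dot (ext Y b - ext Y a) (ext Y c - ext Y a) := by
    simp only [eventually_all]
    intro a b c hab hac
    refine continuousAt_const.eventually_lt ?_ (hX a a.2 b b.2 c c.2 hab hac)
    exact tendsto_finsetSum _ fun j _ => ((hc b j).sub (hc a j)).mul ((hc c j).sub (hc a j))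
  obtain ⟨Y, h1, h2⟩ := hd.inter_nhds_nonempty hn
  exact ⟨Y, fun a ha b hb c hc => h2 ⟨a, ha⟩ ⟨b, hb⟩ ⟨c, hc⟩,
    fun σ v => Set.mem_iInter.1 h1 (σ, v)⟩

end AcuteCh
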