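import Pool.Agent.Lib.MP_bc94b4_co.Ch.Glue
import Pool.Agent.Lib.MP_bc94b4_co.Ch.Generic

/-! Every row of the extension tables is a relabelled pattern of the next list; the end of the proof. -/

set_option autoImplicit false

namespace AcuteCh

theorem lx_0 : lxChk 72 44 BT P0 RT0 DT0 1431 = true := by decide +kernel
theorem lx_1 : lxChk 72 44 BT P1 RT1 DT1 3672 = true := by decide +kernel
theorem lx_2 : lxChk 72 44 BT P2 RT2 DT2 5376 = true := by decide +kernel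
theorem lx_3 : lxChk 72 44 BT P3 RT3 DT3 2645 = true := by decide +kernel
theorem lx_4 : lxChk 32 14 PT4 Q0 RS0 DS0 240 = true := by decide +kernel
theorem lx_5 : lxChk 32 14 PT4 Q1 RS1 DS1 432 = true := by decide +kernel

theorem lx_all : LXall := ⟨lxChk_sound lx_0, lxChk_sound lx_1, lxChk_sound lx_2, lxChk_sound lx_3⟩

theorem ctx_zero (h : TTall) : Ctx 0 := ⟨upto_zero _, h, lx_all⟩

theorem upto_p (h : Ctx 560) : Upto PT4 4 := by
  have hl : loOk 560 1431 3672 5376 2645 = true := by decide +kernel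
  simp only [loOk, Bool.and_eq_true] at hl
  obtain ⟨⟨⟨l0, l1⟩, l2⟩, l3⟩ := hl
  obtain ⟨hx, ⟨t0, t1, t2, t3⟩, x0, x1, x2, x3⟩ := h
  have e : fld 128 PT4 0 = P0 ∧ fld 128 PT4 1 = P1 ∧ fld 128 PT4 2 = P2 ∧ fld 128 PT4 3 = P3 := by
    decide +kernel
  exact upto_succ (upto_succ (upto_succ (upto_succ (upto_zero _)
    (e.1 ▸ ttx_ng x0 t0 hx (lo1_spec l0).2)) (e.2.1 ▸ ttx_ng x1 t1 hx (lo1_spec l1).2))
    (e.2.2.1 ▸ ttx_ng x2 t2 hx (lo1_spec l2).2)) (e.2.2.2 ▸ ttx_ng x3 t3 hx (lo1_spec l3).2)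

theorem upto_q (h : Upto PT4 4) (t0 : Ext Q0 RS0 32 14 240) (t1 : Ext Q1 RS1 32 14 432) :
    Upto QT2 2 := by
  have l0 : lo1 DS0 240 4 240 = true := by decide +kernel
  have l1 : lo1 DS1 432 4 432 = true := by decide +kernel
  have e : fld 128 QT2 0 = Q0 ∧ fld 128 QT2 1 = Q1 := by decide +kernel
  exact upto_succ (upto_succ (upto_zero _) (e.1 ▸ ttx_ng (lxChk_sound lx_4) t0 h (lo1_spec l0).2))
    (e.2 ▸ ttx_ng (lxChk_sound lx_5) t1 h (lo1_spec l1).2)

/-- the conclusions of all machine proofs together -/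
theorem no_acute (h : Ctx 560) (t0 : Ext Q0 RS0 32 14 240) (t1 : Ext Q1 RS1 32 14 432)
    (l6 : Upto QT2 2 → ∀ X, ¬ Good X) (X : Fin 10 → Pt) : ¬ Acute (ext X) := fun hX => by
  obtain ⟨Y, hY⟩ := exists_good X hX
  exact l6 (upto_q (upto_p h) t0 t1) Y hY

end AcuteCh
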