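import Pool.Agent.Lib.MP_bc94b4_co.Ch.Ident

/-! A good ten-tuple gives a valuation and stays good under relabelling and reflection. -/

set_option autoImplicit false

namespace AcuteCh

theorem gen2_xor_div (l : ℕ) : (l ^^^ 1) / 2 = l / 2 := by
  rw [Nat.xor_div_two]
  simp

theorem gen2_xor_mod (l : ℕ) : (l ^^^ 1) % 2 = 0 ↔ ¬ l % 2 = 0 := by
  have h := @Nat.xor_mod_two_eq_one l 1
  omega

theorem gen2_fld0 : fld 20 E5 0 = 0 := by decide +kernel

theorem good_valn (X : Fin 10 → Pt) (hX : Good X) : Valn (sval (ext X)) := by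
  have h0 : ∀ v, val (ext X) v ≠ 0 := fun v => hX.2 1 v
  refine ⟨fun l => ?_, fun l => ?_, ?_⟩
  · unfold sval
    split_ifs
    · exact h0 _
    · exact neg_ne_zero.2 (h0 _)
  · unfold sval
    rw [gen2_xor_div]
    by_cases h : l % 2 = 0
    · rw [if_neg (fun h' => (gen2_xor_mod l).1 h' h), if_pos h]
    · rw [if_pos ((gen2_xor_mod l).2 h), if_neg h, neg_neg]
  · unfold sval val
    simp [gen2_fld0]

theorem gen2_ext (X : Fin 10 → Pt) (a : Fin 10) : ext X a = X a := by
  simp [ext, a.2]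

theorem gen2_acute (X : Fin 10 → Pt) : Acute (ext X) ↔
    ∀ a b c : Fin 10, a ≠ b → a ≠ c → 0 < dot (X b - X a) (X c - X a) := by
  constructor
  · intro h a b c hab hac
    have := h a a.2 b b.2 c c.2 (fun e => hab (Fin.ext e)) (fun e => hac (Fin.ext e))
    simpa only [gen2_ext] using this
  · intro h a ha b hb c hc hab hac
    have := h ⟨a, ha⟩ ⟨b, hb⟩ ⟨c, hc⟩ (fun e => hab (congrArg Fin.val e))
      (fun e => hac (congrArg Fin.val e))
    simpa only [← gen2_ext] using this

theorem good_perm (X : Fin 10 → Pt) (hX : Good X) (σ : Equiv.Perm (Fin 10)) : Good (X ∘ σ) := by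
  refine ⟨(gen2_acute _).2 fun a b c hab hac => ?_, fun τ v => hX.2 (σ * τ) v⟩
  exact (gen2_acute _).1 hX.1 (σ a) (σ b) (σ c) (σ.injective.ne hab) (σ.injective.ne hac)

theorem gen2_dot_refl (u v : Pt) : dot (refl u) (refl v) = dot u v := by
  simp [dot, refl, Fin.sum_univ_four]

theorem gen2_refl_sub (u v : Pt) : refl u - refl v = refl (u - v) := by
  funext i
  simp only [refl, Pi.sub_apply]
  split_ifs <;> ring

theorem gen2_ext_refl (X : Fin 10 → Pt) : ext (fun i => refl (X i)) = fun x => refl (ext X x) := by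
  funext x
  unfold ext
  split_ifs
  · rfl
  · funext i
    simp [refl]

theorem gen2_lbv_refl (P : ℕ → Pt) (x0 x1 x2 x3 x4 x5 : ℝ) (a b c d e f : ℕ) :
    lbv (fun x => refl (P x)) x0 x1 x2 x3 x4 x5 a b c d e f
      = - lbv P x0 x1 x2 x3 x4 x5 a b c d e f := by
  simp only [lbv, br_refl]
  ring

theorem gen2_db_refl (P : ℕ → Pt) (k : ℕ → ℕ) (x y z : ℕ) :
    db (fun x => refl (P x)) k x y z = - db P k x y z := by
  simp only [db, br_refl]
  split_ifs <;> ring

theorem gen2_val_refl (P : ℕ → Pt) (v : ℕ) :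
    val (fun x => refl (P x)) v = val P v ∨ val (fun x => refl (P x)) v = - val P v := by
  have hht : ht (fun x => refl (P x)) = ht P := funext fun a => gen2_dot_refl _ _
  unfold val
  simp only [hht, lb, sv, ov, gen2_lbv_refl, gen2_db_refl, br_refl, neg_mul_neg]
  split_ifs <;> first | exact Or.inl rfl | exact Or.inr rfl

theorem good_refl (X : Fin 10 → Pt) (hX : Good X) : Good (fun i => refl (X i)) := by
  refine ⟨(gen2_acute _).2 fun a b c hab hac => ?_, fun σ v => ?_⟩
  · rw [gen2_refl_sub, gen2_refl_sub, gen2_dot_refl]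
    exact (gen2_acute _).1 hX.1 a b c hab hac
  · have e : ext ((fun i => refl (X i)) ∘ σ) = fun x => refl (ext (X ∘ σ) x) :=
      gen2_ext_refl (X ∘ σ)
    rw [e]
    rcases gen2_val_refl (ext (X ∘ σ)) v with h | h <;> rw [h]
    · exact hX.2 σ v
    · exact neg_ne_zero.2 (hX.2 σ v)

end AcuteCh
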