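import Pool.Agent.Lib.MP_bc94b4_co.Ch.Defs

/-! Bracket identities, with no hypothesis on the points or on the indices. -/

set_option autoImplicit false

namespace AcuteCh

/-- the matrix of a bracket -/
def g1M (P : ℕ → Pt) (a b c d e : ℕ) : Matrix (Fin 5) (Fin 5) ℝ :=
  Matrix.of fun (i j : Fin 5) => (Fin.cons 1 (P (![a, b, c, d, e] i)) : Fin 5 → ℝ) j

theorem g1_br (P : ℕ → Pt) (a b c d e : ℕ) : br P a b c d e = (g1M P a b c d e).det := by
  rw [br, g1M]

theorem g1_swap (P : ℕ → Pt) (a b c d e a' b' c' d' e' : ℕ) (i j : Fin 5) (hij : i ≠ j)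
    (h : ∀ k, ![a', b', c', d', e'] k = ![a, b, c, d, e] (Equiv.swap i j k)) :
    br P a' b' c' d' e' = - br P a b c d e := by
  have e1 : g1M P a' b' c' d' e' = (g1M P a b c d e).submatrix (Equiv.swap i j) id := by
    ext k l
    simp only [g1M, Matrix.of_apply, Matrix.submatrix_apply, h, id]
  rw [g1_br, g1_br, e1, Matrix.det_permute, Equiv.Perm.sign_swap hij]
  simp

theorem br_swap01 (P : ℕ → Pt) (a b c d e : ℕ) : br P b a c d e = - br P a b c d e :=
  g1_swap P _ _ _ _ _ _ _ _ _ _ 0 1 (by decide) fun k => by fin_cases k <;> rfl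
theorem br_swap12 (P : ℕ → Pt) (a b c d e : ℕ) : br P a c b d e = - br P a b c d e :=
  g1_swap P _ _ _ _ _ _ _ _ _ _ 1 2 (by decide) fun k => by fin_cases k <;> rfl
theorem br_swap23 (P : ℕ → Pt) (a b c d e : ℕ) : br P a b d c e = - br P a b c d e :=
  g1_swap P _ _ _ _ _ _ _ _ _ _ 2 3 (by decide) fun k => by fin_cases k <;> rfl
theorem br_swap34 (P : ℕ → Pt) (a b c d e : ℕ) : br P a b c e d = - br P a b c d e :=
  g1_swap P _ _ _ _ _ _ _ _ _ _ 3 4 (by decide) fun k => by fin_cases k <;> rfl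

theorem lb_swap01 (P : ℕ → Pt) (g : ℕ → ℝ) (a b c d e f : ℕ) : lb P g b a c d e f = - lb P g a b c d e f := by
  simp only [lb, lbv, br_swap01 P a b]
  ring
theorem lb_swap12 (P : ℕ → Pt) (g : ℕ → ℝ) (a b c d e f : ℕ) : lb P g a c b d e f = - lb P g a b c d e f := by
  simp only [lb, lbv, br_swap01 P b c, br_swap12 P a b c]
  ring
theorem lb_swap23 (P : ℕ → Pt) (g : ℕ → ℝ) (a b c d e f : ℕ) : lb P g a b d c e f = - lb P g a b c d e f := by
  simp only [lb, lbv, br_swap12 P b c d, br_swap12 P a c d, br_swap23 P a b c d]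
  ring
theorem lb_swap34 (P : ℕ → Pt) (g : ℕ → ℝ) (a b c d e f : ℕ) : lb P g a b c e d f = - lb P g a b c d e f := by
  simp only [lb, lbv, br_swap23 P b c d e, br_swap23 P a c d e, br_swap23 P a b d e,
    br_swap34 P a b c d e]
  ring
theorem lb_swap45 (P : ℕ → Pt) (g : ℕ → ℝ) (a b c d e f : ℕ) : lb P g a b c d f e = - lb P g a b c d e f := by
  simp only [lb, lbv, br_swap34 P b c d e f, br_swap34 P a c d e f, br_swap34 P a b d e f,
    br_swap34 P a b c e f]
  ring

/-- a column of the bracket matrix as heights gives zero -/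
theorem g1_col (P : ℕ → Pt) (j : Fin 5) (a b c d e f : ℕ) :
    lb P (fun x => (Fin.cons 1 (P x) : Fin 5 → ℝ) j) a b c d e f = 0 := by
  let M : Matrix (Fin 6) (Fin 6) ℝ := Matrix.of fun i =>
    Fin.cons ((Fin.cons 1 (P (![a, b, c, d, e, f] i)) : Fin 5 → ℝ) j)
      (Fin.cons 1 (P (![a, b, c, d, e, f] i)) : Fin 5 → ℝ)
  have h0 : M.det = 0 :=
    Matrix.det_zero_of_column_eq (Fin.succ_ne_zero j).symm fun _ => rfl
  have s0 : M.submatrix (Fin.succAbove 0) Fin.succ = g1M P b c d e f := by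
    ext k l; fin_cases k <;> rfl
  have s1 : M.submatrix (Fin.succAbove 1) Fin.succ = g1M P a c d e f := by
    ext k l; fin_cases k <;> rfl
  have s2 : M.submatrix (Fin.succAbove 2) Fin.succ = g1M P a b d e f := by
    ext k l; fin_cases k <;> rfl
  have s3 : M.submatrix (Fin.succAbove 3) Fin.succ = g1M P a b c e f := by
    ext k l; fin_cases k <;> rfl
  have s4 : M.submatrix (Fin.succAbove 4) Fin.succ = g1M P a b c d f := by
    ext k l; fin_cases k <;> rfl
  have s5 : M.submatrix (Fin.succAbove 5) Fin.succ = g1M P a b c d e := by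
    ext k l; fin_cases k <;> rfl
  rw [Matrix.det_succ_column_zero, Fin.sum_univ_six, s0, s1, s2, s3, s4, s5] at h0
  have m0 : M 0 0 = (Fin.cons 1 (P a) : Fin 5 → ℝ) j := rfl
  have m1 : M 1 0 = (Fin.cons 1 (P b) : Fin 5 → ℝ) j := rfl
  have m2 : M 2 0 = (Fin.cons 1 (P c) : Fin 5 → ℝ) j := rfl
  have m3 : M 3 0 = (Fin.cons 1 (P d) : Fin 5 → ℝ) j := rfl
  have m4 : M 4 0 = (Fin.cons 1 (P e) : Fin 5 → ℝ) j := rfl
  have m5 : M 5 0 = (Fin.cons 1 (P f) : Fin 5 → ℝ) j := rfl
  rw [m0, m1, m2, m3, m4, m5] at h0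
  simp only [lb, lbv, g1_br]
  have v2 : ((2 : Fin 6) : ℕ) = 2 := rfl
  have v3 : ((3 : Fin 6) : ℕ) = 3 := rfl
  have v4 : ((4 : Fin 6) : ℕ) = 4 := rfl
  have v5 : ((5 : Fin 6) : ℕ) = 5 := rfl
  rw [Fin.val_zero, Fin.val_one, v2, v3, v4, v5] at h0
  linear_combination -h0

/-- constant heights and coordinate heights give zero (Cramer) -/
theorem lb_one (P : ℕ → Pt) (a b c d e f : ℕ) : lb P (fun _ => 1) a b c d e f = 0 :=
  g1_col P 0 a b c d e f
theorem lb_coord (P : ℕ → Pt) (i : Fin 4) (a b c d e f : ℕ) : lb P (fun x => P x i) a b c d e f = 0 :=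
  g1_col P i.succ a b c d e f

/-- a bracket is an affine function of its last point -/
theorem g1_aff (P : ℕ → Pt) (a b c d : ℕ) : ∃ w : Fin 5 → ℝ, ∀ x, br P a b c d x =
    w 0 + w 1 * P x 0 + w 2 * P x 1 + w 3 * P x 2 + w 4 * P x 3 := by
  obtain ⟨w, hw⟩ : ∃ w : Fin 5 → ℝ, ∀ j : Fin 5, w j = (-1) ^ (((4 : Fin 5) : ℕ) + (j : ℕ)) *
      ((g1M P a b c d 0).submatrix (Fin.succAbove 4) j.succAbove).det := ⟨_, fun _ => rfl⟩
  refine ⟨w, fun x => ?_⟩
  have s : ∀ j : Fin 5, (g1M P a b c d x).submatrix (Fin.succAbove 4) j.succAbove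
      = (g1M P a b c d 0).submatrix (Fin.succAbove 4) j.succAbove := fun j => by
    ext k l
    have h : ![a, b, c, d, x] (Fin.succAbove 4 k) = ![a, b, c, d, 0] (Fin.succAbove 4 k) := by
      fin_cases k <;> simp [Fin.succAbove]
    simp only [g1M, Matrix.submatrix_apply, Matrix.of_apply, h]
  have e1 : (g1M P a b c d x).det = ∑ j, w j * g1M P a b c d x 4 j := by
    rw [Matrix.det_succ_row _ 4]
    exact Finset.sum_congr rfl fun j _ => by rw [s, hw, mul_right_comm]
  rw [g1_br, e1, Fin.sum_univ_five]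
  have m0 : g1M P a b c d x 4 0 = 1 := rfl
  have m1 : g1M P a b c d x 4 1 = P x 0 := rfl
  have m2 : g1M P a b c d x 4 2 = P x 1 := rfl
  have m3 : g1M P a b c d x 4 3 = P x 2 := rfl
  have m4 : g1M P a b c d x 4 4 = P x 3 := rfl
  rw [m0, m1, m2, m3, m4]
  ring

/-- Cramer identity for the heights given by a bracket -/
theorem g1_cramer (P : ℕ → Pt) (p q r s a b c d e f : ℕ) :
    lb P (fun x => br P p q r s x) a b c d e f = 0 := by
  obtain ⟨w, hw⟩ := g1_aff P p q r s
  have h := lb_one P a b c d e f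
  have h0 := lb_coord P 0 a b c d e f
  have h1 := lb_coord P 1 a b c d e f
  have h2 := lb_coord P 2 a b c d e f
  have h3 := lb_coord P 3 a b c d e f
  have e1 : (fun x => br P p q r s x)
      = fun x => w 0 + w 1 * P x 0 + w 2 * P x 1 + w 3 * P x 2 + w 4 * P x 3 := funext hw
  rw [e1]
  simp only [lb, lbv] at h h0 h1 h2 h3 ⊢
  linear_combination w 0 * h + w 1 * h0 + w 2 * h1 + w 3 * h2 + w 4 * h3

theorem g1_rep (P : ℕ → Pt) (a b c d e : ℕ) (i j : Fin 5) (hij : i ≠ j)
    (h : ![a, b, c, d, e] i = ![a, b, c, d, e] j) : br P a b c d e = 0 :=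
  Matrix.det_zero_of_row_eq hij (funext fun l => by simp only [Matrix.of_apply, h])

/-- three-term Grassmann-Pluecker relation -/
theorem gp (P : ℕ → Pt) (a b c p q r s : ℕ) :
    br P a b c p q * br P a b c r s - br P a b c p r * br P a b c q s
      + br P a b c p s * br P a b c q r = 0 := by
  have h := g1_cramer P a b c p a b c q r s
  simp only [lb, lbv] at h
  rw [g1_rep P a b c p a 0 4 (by decide) rfl, g1_rep P a b c p b 1 4 (by decide) rfl,
    g1_rep P a b c p c 2 4 (by decide) rfl] at h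
  linear_combination h

/-- lifted three-term relation -/
theorem brel (P : ℕ → Pt) (g : ℕ → ℝ) (a b c d p q r : ℕ) :
    lb P g a b c d p q * br P a b c d r - lb P g a b c d p r * br P a b c d q
      + lb P g a b c d q r * br P a b c d p = 0 := by
  have hc : ∀ x, br P a b d c x = - br P a b c d x := fun x => br_swap23 P a b c d x
  have hb : ∀ x, br P a c d b x = br P a b c d x := fun x => by
    rw [br_swap23 P a c b d x, br_swap12 P a b c d x, neg_neg]
  have ha : ∀ x, br P b c d a x = - br P a b c d x := fun x => by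
    rw [br_swap23 P b c a d x, br_swap12 P b a c d x, br_swap01 P a b c d x, neg_neg]
  have kd := gp P a b c d p q r
  have kc := gp P a b d c p q r
  have kb := gp P a c d b p q r
  have ka := gp P b c d a p q r
  rw [hc, hc, hc] at kc
  rw [hb, hb, hb] at kb
  rw [ha, ha, ha] at ka
  simp only [lb, lbv]
  linear_combination g a * ka + g b * kb + g c * kc + g d * kd

/-- reflection of the first coordinate -/
def refl (u : Pt) : Pt := fun i => if i = 0 then - u i else u i
theorem br_refl (P : ℕ → Pt) (a b c d e : ℕ) : br (fun x => refl (P x)) a b c d e = - br P a b c d e := by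
  have e1 : g1M (fun x => refl (P x)) a b c d e
      = Matrix.of fun i j => (![1, -1, 1, 1, 1] : Fin 5 → ℝ) j * g1M P a b c d e i j := by
    ext i j
    fin_cases j <;> simp [g1M, refl, Fin.cons, Fin.cases, Fin.induction, Fin.induction.go]
  rw [g1_br, g1_br, e1, Matrix.det_mul_row, Fin.prod_univ_five]
  simp

end AcuteCh
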