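import Pool.Agent.Lib.MP_bc94b4_co.Ch.Defs2
import Pool.Agent.Lib.MP_bc94b4_co.Ch.Swp

/-! Pulling a mask of false bracket literals back along a relabelling, in the compact numbering. -/

set_option autoImplicit false

namespace AcuteCh

/-- move the bits of M that lie in U up by s -/
def mvu (s U M : ℕ) : ℕ := (fun t => Nat.lor (Nat.xor M t) (Nat.shiftLeft t s)) (Nat.land M U)
/-- move the bits of M that lie in U down by s -/
def mvd (s U M : ℕ) : ℕ := (fun t => Nat.lor (Nat.xor M t) (Nat.shiftRight t s)) (Nat.land M U)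
def pu (s U l : ℕ) : ℕ := if U.testBit l then l + s else l
def pd (s U l : ℕ) : ℕ := if U.testBit l then l - s else l

def XU0 : ℕ := 0x3ffffffffffffffffffffffffffffffffffff000000000000000000000000000000000000000000000000000000000000000000000000000000000000000000
def XU1 : ℕ := 0xfffffffffffffffffffffffffffffffffffffffffffffffffffffc000000000000000000000000000000000000
def XU2 : ℕ := 0x3fffffffffff000000000000000000000000000000000000000000000000000000000000000000000000000000000000000000000000000000000000000000000000000000000000000000000000000000000ffffffffffffffffffffffffffc00000000000000000000000000000000000000000000000000000000000000000000000000000000000000000000000000000000000000000000000000000000000000000000000000000000003ffffffffffffffffffffffffc00000000000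
def XU3 : ℕ := 0x3ffc000000000000000000000000000000000000000000000000000000000000000000000000ffffffffffffffffc000000000000000000000000000000000000000000000000000000000000000000000000fffffffffffffffff00000000000000000000000000000000000000000000000000000000000000000000000003ffffffffffc00000000000000000000000000000000000000000000000000000000000000000000000000000003ffffffff000000000000000000000000000000000000000000000000000000000000000000000000000000003fffffffc000
def XU4 : ℕ := 0x300000000000000000000000000000000003ffff000000000000000000000000000000000000fffffff000000000000000000000000000000000000000003ff00000000000000000000000000000000000000fffffffff0000000000000000000000000000000000000000fffffff00000000000000000000000000000000003ff00000000000000000000000000000000000000003ffffff000000000000000000000000000000000000000003ffffffc000000000000000000000000000000000fffffffffc000000000000000000000000000000000000003fff0000000000000000000000000000000000003ff0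
def XU5 : ℕ := 0xc000000000000000003f0000000000000000000fff00000000000000000fffc0000000000000000000ffffc000000000000000000000000000000000000000fffc000000000000000000fffffc0000000000000000000ff0000000000000000000000ff000000000000000000000ffc0000000000000003000000000000000000fffff00000000000000000003ffff000000000000000000fffff000000000000000000003fff00000000000000000003c0000000000000000ffffc000000000000000000003fffc00000000000000000030000000000000000000fffc00000000000000003fc0000000000000000c
def XU6 : ℕ := 0x3fc00000003000000000f0000000000fff00000000c00000000fc0000000003ffc00000000ff00000000003ffc0000000000000000030000000000c00000000003f000000000fffc0000000003ffc000000000000000000fff00000000000ff00000000fff0000000000fc0000000000000000000000000f000000000ff00000000000c00000000003f00000000000ff00000000ff00000000000ffc000000000300000000000ff000000000300000000000000000ff00000000003ffc0000000003000000000003c00000000030000000000000000000ff0000000003c00000003c00000000300000000c00000000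
def XU7 : ℕ := 0x300000000c00030000000000000000000f0000f00000ffc00000000000000000fc0003000003f0000000000fc0000ffc0003f000003f00000000000030000c0000000003f000003f000000000f0000003000003f00000300000000f00000ffc0000fc00000fc00000000ffc0000fc000000000300000000000000000000000000f0000f00000ffc000000003f000003f0000ffc0000fc00000000c00000fc0000000000030000030000fc00000fc00000000030000c000000000000fc0000ffc0003f000003f000000000ffc00003c0003c00000000000000000ffc0000fc000000000300000000000003c000300000000c000000000000
def XU8 : ℕ := 0x300fc000000030000c00f0000c00f00fc003000000000000300fc000300fc03000fc000000000000f000003000fc03c00c00000000000000003000000030000003c000000c00f00fc003000003c00000000000000c00f00fc003000003c000000000000fc00300fc030000fc0300000000000000000030000c00f0000c00f00fc00300000030000003c0000fc00300fc030000000030000003c0000fc00300fc0300000003c000000000000000000c000000000000000000f000003000fc03c00c000000f000000300000003000000000000000fc00300fc030000fc03000000000000030000000000000c00000000000000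
def XU9 : ℕ := 0xc00000c0000000000000c00f0000c00f00c0003000000000c00000c0000000c0000f0f00000000c0000f0f00000f0f0000300000000000000000c00f0000c00f00c000300000c00f00c0003000c000300f0030000000c00f00c0003000c000300f00300000c000300f0030000f00300000000000000000000000c00f0000c00f00c000300000c00f00c0003000c000300f0030000000c00f00c0003000c000300f00300000c000300f0030000f00300000000000000000c0000f0f00000f0f0000300000000f0f0000300000003000003000000000c000300f0030000f0030000000000000300000300000000000000000000000
def CU0 : ℕ := 0x300003c3c00003c3c0000c00000003c3c0000c0000000c00000c0000000030000c03c00c0003c00c0000000000000c00000c00000000000000000000000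
def CU1 : ℕ := 0xf000003000fc03c00c000000f000000300000003000000000000000fc00300fc030000fc03000000000000030000000000000c000000000000000
def CU2 : ℕ := 0xfc0000ffc0003f000003f000000000ffc00003c0003c00000000000000000ffc0000fc000000000300000000000003c000300000000c00000000000000
def CU3 : ℕ := 0xff00000000003ffc0000000003000000000003c00000000030000000000000000000ff0000000003c00000003c00000000300000000c000000000000
def CU4 : ℕ := 0xffffc000000000000000000003fffc00000000000000000030000000000000000000fffc00000000000000003fc0000000000000000c00000000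
def CU5 : ℕ := 0xfffffffffc000000000000000000000000000000000000003fff0000000000000000000000000000000000003ff00000000000000000
def CU6 : ℕ := 0x3000000000000000000000000000000000000000000000000000000000000000000000000000000003fffffffc00000000000000000000000000000000000
def CU7 : ℕ := 0x3ffffffffffffffffc000000000000000000000000000000000000000000000000000000000000000000000000000
/-- the positions 2 .. 505 -/
def V506 : ℕ := 0x3fffffffffffffffffffffffffffffffffffffffffffffffffffffffffffffffffffffffffffffffffffffffffffffffffffffffffffffffffffffffffffffc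
/-- literals of 5-sets in the numbering 2 * mask + sign -/
def VAL : ℕ := 0x3000000030003033c000000030003033c0003033c033c3cc0000000030003033c0003033c033c3cc00003033c033c3cc0033c3cc03cc0c000000000030003033c0003033c033c3cc00003033c033c3cc0033c3cc03cc0c0000003033c033c3cc0033c3cc03cc0c000033c3cc03cc0c0003cc0c000c0000000000000030003033c0003033c033c3cc00003033c033c3cc0033c3cc03cc0c0000003033c033c3cc0033c3cc03cc0c000033c3cc03cc0c0003cc0c000c00000000003033c033c3cc0033c3cc03cc0c000033c3cc03cc0c0003cc0c000c0000000033c3cc03cc0c0003cc0c000c00000003cc0c000c0000000c000000000000000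
/-- the same, moved up by 2048 -/
def VH : ℕ := 0x3000000030003033c000000030003033c0003033c033c3cc0000000030003033c0003033c033c3cc00003033c033c3cc0033c3cc03cc0c000000000030003033c0003033c033c3cc00003033c033c3cc0033c3cc03cc0c0000003033c033c3cc0033c3cc03cc0c000033c3cc03cc0c0003cc0c000c0000000000000030003033c0003033c033c3cc00003033c033c3cc0033c3cc03cc0c0000003033c033c3cc0033c3cc03cc0c000033c3cc03cc0c0003cc0c000c00000000003033c033c3cc0033c3cc03cc0c000033c3cc03cc0c0003cc0c000c0000000033c3cc03cc0c0003cc0c000c00000003cc0c000c0000000c00000000000000000000000000000000000000000000000000000000000000000000000000000000000000000000000000000000000000000000000000000000000000000000000000000000000000000000000000000000000000000000000000000000000000000000000000000000000000000000000000000000000000000000000000000000000000000000000000000000000000000000000000000000000000000000000000000000000000000000000000000000000000000000000000000000000000000000000000000000000000000000000000000000000000000000000000000000000000000000000000000000000000000000000000000000000000000000000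
/-- literals of 5-sets of the first eight points -/
def V8 : ℕ := 0x3033c033c3cc0033c3cc03cc0c000033c3cc03cc0c0003cc0c000c0000000033c3cc03cc0c0003cc0c000c00000003cc0c000c0000000c000000000000000
/-- even positions below 512 -/
def EV : ℕ := 0x55555555555555555555555555555555555555555555555555555555555555555555555555555555555555555555555555555555555555555555555555555555

/-- compact numbering to mask numbering -/
def expand (M : ℕ) : ℕ :=
  mvu 2 XU9 (mvu 4 XU8 (mvu 8 XU7 (mvu 16 XU6 (mvu 32 XU5 (mvu 64 XU4 (mvu 128 XU3 (mvu 256 XU2 (mvu 512 XU1 (mvu 1024 XU0 (Nat.land M V506))))))))))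
def expP (l : ℕ) : ℕ :=
  pu 2 XU9 (pu 4 XU8 (pu 8 XU7 (pu 16 XU6 (pu 32 XU5 (pu 64 XU4 (pu 128 XU3 (pu 256 XU2 (pu 512 XU1 (pu 1024 XU0 l)))))))))
/-- mask numbering to compact numbering, first eight points -/
def compress (M : ℕ) : ℕ :=
  mvd 256 CU7 (mvd 128 CU6 (mvd 64 CU5 (mvd 32 CU4 (mvd 16 CU3 (mvd 8 CU2 (mvd 4 CU1 (mvd 2 CU0 M)))))))
def cmpP (l : ℕ) : ℕ :=
  pd 256 CU7 (pd 128 CU6 (pd 64 CU5 (pd 32 CU4 (pd 16 CU3 (pd 8 CU2 (pd 4 CU1 (pd 2 CU0 l)))))))

/-- positions below 2048 whose bit i + 1 is set -/
def bm (i : ℕ) : ℕ :=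
  Nat.shiftLeft (Nat.div (Nat.pow 2 2048 - 1) (Nat.pow 2 (Nat.shiftLeft 2 i) + 1)) (Nat.shiftLeft 2 i)
/-- the code n + 1 = 16 i + j names the transposition of i < j < 10 -/
def trI (n : ℕ) : ℕ := (n + 1) / 16
def trJ (n : ℕ) : ℕ := (n + 1) % 16
def trOk (n : ℕ) : Bool := Nat.blt (trI n) (trJ n) && Nat.blt (trJ n) 10
def trS (n : ℕ) : ℕ := Nat.shiftLeft 2 (trJ n) - Nat.shiftLeft 2 (trI n)
def trU (n : ℕ) : ℕ :=
  cond (trOk n) (Nat.mul (Nat.xor (bm (trI n)) (Nat.land (bm (trI n)) (bm (trJ n)))) (Nat.pow 2 2048 + 1)) 0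
def trP (n : ℕ) : ℕ :=
  Nat.rec 0 (fun k acc => Nat.xor acc (bm (trI n + 1 + k))) (trJ n - trI n - 1)
def trE (n : ℕ) : ℕ :=
  cond (trOk n) (Nat.land VH (Nat.shiftLeft (Nat.lor (Nat.land (bm (trI n)) (bm (trJ n)))
    (Nat.land (Nat.xor (bm (trI n)) (bm (trJ n))) (trP n))) 2048)) 0
/-- the transposition as a word in adjacent ones -/
def trW (n : ℕ) : List ℕ :=
  List.range' (trI n) (trJ n - trI n) ++ (List.range' (trI n) (trJ n - trI n - 1)).reverse

/-- one transposition on literals (low half) and pending sign changes (high half); code 0 does nothing -/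
def trs (c N : ℕ) : ℕ := Nat.rec N (fun n _ => Nat.xor (dsw (trS n) (trU n) N) (trE n)) c

/-- apply the pending sign changes, keep the first eight points -/
def fin8 (N : ℕ) : ℕ :=
  (fun M => (fun t => Nat.lor (Nat.xor M t)
      (Nat.lor (Nat.shiftLeft (Nat.land t EV) 1) (Nat.land (Nat.shiftRight t 1) EV)))
    (Nat.land (Nat.shiftRight N 2048) M)) (Nat.land N V8)

/-- w holds eight codes of 8 bits (lowest applied first); w ≥ 2 ^ 64 adds a reflection -/
def pull (w A : ℕ) : ℕ :=
  compress (fin8
    (trs (Nat.land (Nat.shiftRight w 56) 255) (trs (Nat.land (Nat.shiftRight w 48) 255)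
    (trs (Nat.land (Nat.shiftRight w 40) 255) (trs (Nat.land (Nat.shiftRight w 32) 255)
    (trs (Nat.land (Nat.shiftRight w 24) 255) (trs (Nat.land (Nat.shiftRight w 16) 255)
    (trs (Nat.land (Nat.shiftRight w 8) 255) (trs (Nat.land w 255)
      (Bool.rec (expand A) (Nat.lor (expand A) VH) (Nat.ble 0x10000000000000000 w)))))))))))

def UC : ℕ := 0x3ffffffffffffffffffffffffffffffffffc0000000000000000000000000000
def EC : ℕ := 0x1555555555555555555555555555400000000000000000000000000000000000000000000000000000000000000000000000000000000000000000000000000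
/-- exchange of the points 8 and 9 in the compact numbering -/
def sw89 (M : ℕ) : ℕ := dsw 1 EC (dsw 140 UC M)

/-- every bit of f M comes from a bit of M through p -/
def Tr (f p : ℕ → ℕ) : Prop := ∀ M k, (f M).testBit k = true → ∃ l, M.testBit l = true ∧ p l = k

theorem im_comp {f p g q : ℕ → ℕ} (h1 : Tr f p) (h2 : Tr g q) :
    Tr (fun M => f (g M)) (fun l => p (q l)) := fun M k hk => by
  obtain ⟨l, a, b⟩ := h1 _ _ hk
  obtain ⟨m, c, d⟩ := h2 _ _ a
  exact ⟨m, c, by show p (q m) = k; rw [d, b]⟩

theorem im_mvu (s U : ℕ) : Tr (mvu s U) (pu s U) := fun M k hk => by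
  have hk' : ((M ^^^ (M &&& U)) ||| ((M &&& U) <<< s)).testBit k = true := hk
  simp only [Nat.testBit_or, Nat.testBit_xor, Nat.testBit_and, Nat.testBit_shiftLeft, ge_iff_le,
    Bool.or_eq_true, Bool.and_eq_true, decide_eq_true_eq] at hk'
  unfold pu
  rcases hk' with h | ⟨h1, h2, h3⟩
  · refine ⟨k, ?_, ?_⟩
    · revert h; cases M.testBit k <;> simp
    · rw [if_neg]; revert h; cases M.testBit k <;> simp
  · exact ⟨k - s, h2, by rw [if_pos h3]; omega⟩

theorem im_mvd (s U : ℕ) : Tr (mvd s U) (pd s U) := fun M k hk => by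
  have hk' : ((M ^^^ (M &&& U)) ||| ((M &&& U) >>> s)).testBit k = true := hk
  simp only [Nat.testBit_or, Nat.testBit_xor, Nat.testBit_and, Nat.testBit_shiftRight,
    Bool.or_eq_true, Bool.and_eq_true] at hk'
  unfold pd
  rcases hk' with h | ⟨h2, h3⟩
  · refine ⟨k, ?_, ?_⟩
    · revert h; cases M.testBit k <;> simp
    · rw [if_neg]; revert h; cases M.testBit k <;> simp
  · exact ⟨s + k, h2, by rw [if_pos h3]; omega⟩

theorem im_expand (M k : ℕ) (h : (expand M).testBit k = true) :
    ∃ l, (M &&& V506).testBit l = true ∧ expP l = k :=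
  (im_comp (im_mvu _ _) (im_comp (im_mvu _ _) (im_comp (im_mvu _ _) (im_comp (im_mvu _ _)
    (im_comp (im_mvu _ _) (im_comp (im_mvu _ _) (im_comp (im_mvu _ _) (im_comp (im_mvu _ _)
    (im_comp (im_mvu _ _) (im_mvu _ _)))))))))) _ k h

theorem im_compress : Tr compress cmpP := fun M k h =>
  (im_comp (im_mvd _ _) (im_comp (im_mvd _ _) (im_comp (im_mvd _ _) (im_comp (im_mvd _ _)
    (im_comp (im_mvd _ _) (im_comp (im_mvd _ _) (im_comp (im_mvd _ _) (im_mvd _ _)))))))) M k h

theorem im_lt {V n l : ℕ} (hV : V < 2 ^ n) (h : V.testBit l = true) : l < n := by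
  by_contra hl
  rw [Nat.testBit_lt_two_pow (hV.trans_le (Nat.pow_le_pow_right (by norm_num) (by omega)))] at h
  exact absurd h (by simp)

theorem im_chk1 : (decide (V506 < 2 ^ 512 ∧ V8 < 2 ^ 512 ∧ VAL < 2 ^ 2048 ∧ VH = VAL <<< 2048) &&
    (List.range 512).all fun l => (!V506.testBit l || decide (expP l = ren l ∧ ren l < 2048)) &&
      (!V8.testBit l || (VAL.testBit l && V8.testBit (l ^^^ 1) &&
        decide (ren (cmpP l) = l ∧ cmpP l < 114))) &&
      (EV.testBit l == decide (l % 2 = 0))) = true := by
  decide +kernel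

theorem im_chk2 : ((List.range 2048).all fun l =>
    !VAL.testBit l || decide (fld 20 E5 (l / 2) ≠ 0)) = true := by
  decide +kernel

def adj (i l : ℕ) : ℕ := dmv 1 (swE i) (dmv (2 <<< i) (swU i) l)

theorem im_adj (P : ℕ → Pt) (i l : ℕ) (hi : i < 9) (hl : l < 2048) :
    adj i l < 2048 ∧ sval (fun x => P (tau i x)) l = sval P (adj i l) := by
  have h := List.all_eq_true.1 sw_chk i (List.mem_range.2 hi)
  rw [Bool.and_eq_true] at h
  have h3 := List.all_eq_true.1 h.2 l (List.mem_range.2 hl)
  refine ⟨?_, sw_ok_val P _ l _ hl h3⟩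
  simp only [swOk, Bool.and_eq_true, decide_eq_true_eq] at h3
  exact h3.1

theorem im_adjL (w : List ℕ) (hw : ∀ i ∈ w, i < 9) (X : Fin 10 → Pt) (hX : Good X) :
    ∃ X', Good X' ∧ ∀ l < 2048, w.foldr adj l < 2048 ∧
      sval (ext X') l = sval (ext X) (w.foldr adj l) := by
  induction w generalizing X with
  | nil => exact ⟨X, hX, fun l hl => ⟨hl, rfl⟩⟩
  | cons i w ih =>
    have hi := hw i List.mem_cons_self
    obtain ⟨X', h1, h2⟩ := ih (fun k hk => hw k (List.mem_cons_of_mem _ hk)) _
      (good_perm X hX (Equiv.swap (⟨i, by omega⟩ : Fin 10) ⟨i + 1, by omega⟩))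
    refine ⟨X', h1, fun l hl => ?_⟩
    obtain ⟨h3, h4⟩ := h2 l hl
    obtain ⟨h5, h6⟩ := im_adj (ext X) i _ hi h3
    rw [sw_ext X i hi, h6] at h4
    exact ⟨h5, h4⟩

theorem im_dmv (s U l : ℕ) (hU : U &&& (U >>> s) = 0) : dmv s U (dmv s U l) = l := by
  have h : ∀ p, U.testBit p = true → U.testBit (s + p) = false := fun p hp => by
    have := congrArg (fun x => x.testBit p) hU
    simpa [Nat.testBit_and, Nat.testBit_shiftRight, hp] using this
  by_cases h1 : U.testBit l = true
  · have h3 := h l h1
    rw [Nat.add_comm s l] at h3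
    have e : dmv s U l = l + s := by unfold dmv; rw [if_pos h1]
    rw [e]
    unfold dmv
    rw [if_neg (by simp [h3]), if_pos (by simp [h1])]
    omega
  · by_cases h2 : s ≤ l ∧ U.testBit (l - s) = true
    · have e : dmv s U l = l - s := by unfold dmv; rw [if_neg h1, if_pos h2]
      rw [e]
      unfold dmv
      rw [if_pos h2.2]
      omega
    · have e : dmv s U l = l := by unfold dmv; rw [if_neg h1, if_neg h2]
      rw [e, e]

theorem im_dsw (s U M l : ℕ) (hU : U &&& (U >>> s) = 0) :
    (dsw s U M).testBit l = M.testBit (dmv s U l) := by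
  rw [← sw_dsw_mv s U M (dmv s U l) hU, im_dmv s U l hU]

def tb (U l : ℕ) : Bool := Nat.beq (Nat.land (Nat.shiftRight U l) 1) 1
def dmf (s U l : ℕ) : ℕ :=
  Bool.rec (Bool.rec l (Bool.rec l (Nat.sub l s) (tb U (Nat.sub l s))) (Nat.ble s l)) (Nat.add l s) (tb U l)
def adf (i l : ℕ) : ℕ := dmf 1 (swE i) (dmf (Nat.shiftLeft 2 i) (swU i) l)

theorem tb_eq (U l : ℕ) : tb U l = U.testBit l := by
  show Nat.beq ((U >>> l) &&& 1) 1 = _
  rw [Nat.testBit, Nat.and_one_is_mod, Nat.one_and_eq_mod_two]
  rcases Nat.mod_two_eq_zero_or_one (U >>> l) with h | h <;> rw [h] <;> rfl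

theorem im_dmf : dmf = dmv := by
  funext s U l
  unfold dmf dmv
  rw [tb_eq, tb_eq]
  by_cases h : s ≤ l
  · rw [Nat.ble_eq_true_of_le h]
    cases U.testBit l <;> cases U.testBit (l - s) <;> simp [h]
  · rw [Bool.eq_false_iff.2 fun h' => h (Nat.le_of_ble_eq_true h')]
    cases U.testBit l <;> simp [h]

theorem im_adf : adf = adj := by
  funext i l
  rw [adf, im_dmf]
  rfl

theorem im_chk3 : ((List.range 160).all fun n => !trOk n ||
    (decide (trU n &&& (trU n >>> trS n) = 0 ∧ trE n % 2 ^ 2048 = 0) &&
      ((trW n).all fun i => decide (i < 9)) &&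
      (List.range 2048).all fun l => !tb VAL l || (fun k =>
        tb VAL k && Nat.beq (dmf (trS n) (trU n) (2048 + l)) (2048 + k) &&
          Nat.beq ((trW n).foldr adf l) (k ^^^ (tb (trE n) (2048 + l)).toNat))
        (dmf (trS n) (trU n) l))) = true := by
  decide +kernel

theorem im_consts : V506 < 2 ^ 512 ∧ V8 < 2 ^ 512 ∧ VAL < 2 ^ 2048 ∧ VH = VAL <<< 2048 := by
  have h := im_chk1
  rw [Bool.and_eq_true, decide_eq_true_eq] at h
  exact h.1

theorem im_lit (l : ℕ) (hl : l < 512) : (V506.testBit l = true → expP l = ren l ∧ ren l < 2048) ∧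
    (V8.testBit l = true → VAL.testBit l = true ∧ V8.testBit (l ^^^ 1) = true ∧
      ren (cmpP l) = l ∧ cmpP l < 114) ∧ (EV.testBit l = true ↔ l % 2 = 0) := by
  have h := im_chk1
  rw [Bool.and_eq_true] at h
  have h1 := List.all_eq_true.1 h.2 l (List.mem_range.2 hl)
  simp only [Bool.and_eq_true, Bool.or_eq_true, Bool.not_eq_true', decide_eq_true_eq, beq_iff_eq] at h1
  obtain ⟨⟨h1, h2⟩, h3⟩ := h1
  refine ⟨fun h => h1.resolve_left (by simp [h]), fun h => ?_, by rw [h3]; simp⟩
  have := h2.resolve_left (by simp [h])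
  exact ⟨this.1.1, this.1.2, this.2⟩

/-- literals in the low half are false after the sign changes in the high half -/
def InvP (s : ℕ → ℝ) (N : ℕ) : Prop := ∀ l, VAL.testBit l = true → N.testBit l = true →
  (if N.testBit (2048 + l) = true then - s l else s l) < 0

theorem im_trs (c N : ℕ) (X : Fin 10 → Pt) (hX : Good X) (h : InvP (sval (ext X)) N) :
    ∃ X', Good X' ∧ InvP (sval (ext X')) (trs c N) := by
  rcases c with _ | n
  · exact ⟨X, hX, h⟩
  have e : trs (n + 1) N = dsw (trS n) (trU n) N ^^^ trE n := rfl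
  rw [e]
  by_cases hn : trOk n = true
  swap
  · have hn' : trOk n = false := by simpa using hn
    refine ⟨X, hX, ?_⟩
    rw [trU, trE, hn', cond_false, cond_false, sw_dsw_zero, Nat.xor_zero]
    exact h
  have hlt : n < 160 := by
    simp only [trOk, trI, trJ, Bool.and_eq_true, Nat.blt_eq] at hn
    omega
  have h1 := List.all_eq_true.1 im_chk3 n (List.mem_range.2 hlt)
  simp only [hn, Bool.not_true, Bool.false_or, Bool.and_eq_true, decide_eq_true_eq,
    List.all_eq_true, List.mem_range, Bool.or_eq_true, Bool.not_eq_true', tb_eq, im_dmf, im_adf,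
    Nat.beq_eq] at h1
  obtain ⟨⟨⟨h1, h2⟩, h3⟩, h4⟩ := h1
  obtain ⟨X', h5, h6⟩ := im_adjL _ h3 X hX
  refine ⟨X', h5, fun l hl hN => ?_⟩
  have hl' := im_lt im_consts.2.2.1 hl
  obtain ⟨⟨h7, h8⟩, h9⟩ := (h4 l hl').resolve_left (by simp [hl])
  have h10 : (trE n).testBit l = false := by
    have := congrArg (fun x => x.testBit l) h2
    simpa [Nat.testBit_mod_two_pow, hl'] using this
  rw [Nat.testBit_xor, im_dsw _ _ _ _ h1, h10, Bool.xor_false] at hN
  have h11 := h _ h7 hN
  rw [Nat.testBit_xor, im_dsw _ _ _ _ h1, h8, (h6 l hl').2, h9]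
  have hv := (good_valn X hX).2.1
  revert h11
  cases (trE n).testBit (2048 + l) <;> cases N.testBit (2048 + dmv (trS n) (trU n) l) <;>
    simp [hv]

theorem im_start (b : Bool) (A : ℕ) (X : Fin 10 → Pt) (hX : Good X) (h : Inv (cval X) A) :
    ∃ X', Good X' ∧ InvP (sval (ext X')) (Bool.rec (expand A) (Nat.lor (expand A) VH) b) := by
  have h1 : ∀ k, (expand A).testBit k = true → k < 2048 ∧ sval (ext X) k < 0 := fun k hk => by
    obtain ⟨l, h2, h3⟩ := im_expand A k hk
    rw [Nat.testBit_and, Bool.and_eq_true] at h2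
    obtain ⟨h4, h5⟩ := (im_lit l (im_lt im_consts.1 h2.2)).1 h2.2
    rw [← h3, h4]
    exact ⟨h5, h l h2.1⟩
  cases b
  · refine ⟨X, hX, fun l _ hN => ?_⟩
    rw [if_neg fun h => by have := (h1 _ h).1; omega]
    exact (h1 l hN).2
  · refine ⟨_, good_refl X hX, fun l hl hN => ?_⟩
    have hl' := im_lt im_consts.2.2.1 hl
    have e : ∀ k, (Bool.rec (expand A) (Nat.lor (expand A) VH) true : ℕ).testBit k
        = ((expand A).testBit k || (decide (2048 ≤ k) && VAL.testBit (k - 2048))) := fun k => by
      show (expand A ||| VH).testBit k = _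
      rw [Nat.testBit_or, im_consts.2.2.2, Nat.testBit_shiftLeft]
    rw [e, decide_eq_false (by omega), Bool.false_and, Bool.or_false] at hN
    rw [if_pos (by rw [e]; simp [hl]), gen2_ext_refl]
    have h2 := (h1 l hN).2
    have h3 := List.all_eq_true.1 im_chk2 l (List.mem_range.2 hl')
    simp only [hl, Bool.not_true, Bool.false_or, decide_eq_true_eq] at h3
    have h4 : l / 2 < 1024 := by omega
    unfold sval val at h2 ⊢
    simp only [if_pos h4, if_neg h3, br_refl] at h2 ⊢
    split_ifs at h2 ⊢ <;> linarith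

theorem im_x1 (a : ℕ) : a ^^^ 1 = if a % 2 = 0 then a + 1 else a - 1 := by
  rcases Nat.even_or_odd a with h | h
  · rw [Nat.xor_one_of_even h, if_pos (Nat.even_iff.mp h)]
  · rw [Nat.xor_one_of_odd h, if_neg (by have := Nat.odd_iff.mp h; omega)]

theorem im_fin8 {s : ℕ → ℝ} (hs : Valn s) (N k : ℕ) (h : InvP s N) (hk : (fin8 N).testBit k = true) :
    V8.testBit k = true ∧ s k < 0 := by
  have hk' : (((N &&& V8) ^^^ ((N >>> 2048) &&& (N &&& V8))) |||
      (((((N >>> 2048) &&& (N &&& V8)) &&& EV) <<< 1) |||
        ((((N >>> 2048) &&& (N &&& V8)) >>> 1) &&& EV))).testBit k = true := hk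
  simp only [Nat.testBit_or, Nat.testBit_xor, Nat.testBit_and, Nat.testBit_shiftLeft,
    Nat.testBit_shiftRight, ge_iff_le, Bool.or_eq_true, Bool.and_eq_true, decide_eq_true_eq] at hk'
  have key : ∀ l, N.testBit (2048 + l) = true → N.testBit l = true → V8.testBit l = true →
      V8.testBit (l ^^^ 1) = true ∧ s (l ^^^ 1) < 0 := fun l a b c => by
    obtain ⟨d, e, -⟩ := (im_lit l (im_lt im_consts.2.1 c)).2.1 c
    have := h l d b
    rw [if_pos a, ← hs.2.1] at this
    exact ⟨e, this⟩
  rcases hk' with h1 | ⟨h1, ⟨h2, h3, h4⟩, h5⟩ | ⟨⟨h2, h3, h4⟩, h5⟩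
  · have a : N.testBit k = true ∧ V8.testBit k = true ∧ ¬ N.testBit (2048 + k) = true := by
      revert h1
      cases N.testBit k <;> cases V8.testBit k <;> cases N.testBit (2048 + k) <;> simp
    have := h k ((im_lit k (im_lt im_consts.2.1 a.2.1)).2.1 a.2.1).1 a.1
    rw [if_neg a.2.2] at this
    exact ⟨a.2.1, this⟩
  · have a := (im_lit _ (im_lt im_consts.2.1 h4)).2.2.1 h5
    have := key _ h2 h3 h4
    rwa [im_x1, if_pos a, show k - 1 + 1 = k by omega] at this
  · have a := (im_lit k (by have := im_lt im_consts.2.1 h4; omega)).2.2.1 h5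
    have := key _ h2 h3 h4
    rwa [im_x1, if_neg (by omega), show 1 + k - 1 = k by omega] at this

theorem pull_sound (w A : ℕ) (X : Fin 10 → Pt) (hX : Good X) (h : Inv (cval X) A) :
    ∃ X', Good X' ∧ Inv (cval X') (pull w A) ∧ pull w A < 2 ^ 114 := by
  obtain ⟨X0, g0, h0⟩ := im_start (Nat.ble 0x10000000000000000 w) A X hX h
  obtain ⟨X1, g1, h1⟩ := im_trs (Nat.land w 255) _ _ g0 h0
  obtain ⟨X2, g2, h2⟩ := im_trs (Nat.land (Nat.shiftRight w 8) 255) _ _ g1 h1
  obtain ⟨X3, g3, h3⟩ := im_trs (Nat.land (Nat.shiftRight w 16) 255) _ _ g2 h2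
  obtain ⟨X4, g4, h4⟩ := im_trs (Nat.land (Nat.shiftRight w 24) 255) _ _ g3 h3
  obtain ⟨X5, g5, h5⟩ := im_trs (Nat.land (Nat.shiftRight w 32) 255) _ _ g4 h4
  obtain ⟨X6, g6, h6⟩ := im_trs (Nat.land (Nat.shiftRight w 40) 255) _ _ g5 h5
  obtain ⟨X7, g7, h7⟩ := im_trs (Nat.land (Nat.shiftRight w 48) 255) _ _ g6 h6
  obtain ⟨X8, g8, h8⟩ := im_trs (Nat.land (Nat.shiftRight w 56) 255) _ _ g7 h7
  have key : ∀ k, (pull w A).testBit k = true → k < 114 ∧ cval X8 k < 0 := fun k hk => by
    obtain ⟨l, a, b⟩ := im_compress _ k hk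
    obtain ⟨c, d⟩ := im_fin8 (good_valn X8 g8) _ l h8 a
    obtain ⟨-, -, e, f⟩ := (im_lit l (im_lt im_consts.2.1 c)).2.1 c
    rw [← b]
    exact ⟨f, by rwa [cval, e]⟩
  refine ⟨X8, g8, fun k hk => (key k hk).2, Nat.lt_pow_two_of_testBit _ fun k hk => ?_⟩
  by_contra hc
  have := (key k (by simpa using hc)).1
  omega

theorem im_chk5 : (decide (UC &&& (UC >>> 140) = 0 ∧ EC &&& (EC >>> 1) = 0) &&
    (List.range 512).all fun l => decide (ren l < 2048 ∧
      adj 8 (ren l) = ren (dmv 140 UC (dmv 1 EC l)) ∧ (l < 114 → dmv 140 UC (dmv 1 EC l) = l) ∧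
        (114 ≤ l → l < 254 → dmv 140 UC (dmv 1 EC l) = l + 140))) = true := by
  decide +kernel

/-- the literal map of the exchange of 8 and 9 -/
def p89 (l : ℕ) : ℕ := dmv 140 UC (dmv 1 EC l)

theorem sw89_bit (M l : ℕ) : (sw89 M).testBit l = M.testBit (p89 l) := by
  have h := im_chk5
  rw [Bool.and_eq_true, decide_eq_true_eq] at h
  rw [sw89, im_dsw _ _ _ _ h.1.2, im_dsw _ _ _ _ h.1.1, p89]

theorem p89_val (X : Fin 10 → Pt) (l : ℕ) (hl : l < 512) :
    cval (X ∘ Equiv.swap 8 9) l = cval X (p89 l) ∧ (l < 114 → p89 l = l) ∧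
      (114 ≤ l → l < 254 → p89 l = l + 140) := by
  have h := im_chk5
  rw [Bool.and_eq_true] at h
  have h1 := List.all_eq_true.1 h.2 l (List.mem_range.2 hl)
  rw [decide_eq_true_eq] at h1
  refine ⟨?_, h1.2.2⟩
  have h2 := (im_adj (ext X) 8 _ (by norm_num) h1.1).2
  rw [← sw_ext X 8 (by norm_num), h1.2.1] at h2
  exact h2

end AcuteCh
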