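import Pool.Agent.Lib.MP_bc94b4_co.Ch.Defs

/-! Sign rules of a circuit of an acute set. -/

set_option autoImplicit false

namespace AcuteCh

/-- an affine function sums to zero against an affine dependency -/
theorem g2_aff (Q : Fin 6 → Pt) (w : Fin 6 → ℝ) (h1 : ∑ i, w i = 0)
    (h2 : ∀ j : Fin 4, ∑ i, w i * Q i j = 0) (u : Pt) (c : ℝ) :
    ∑ i, w i * (dot u (Q i) + c) = 0 := by
  have e : ∀ i, w i * (dot u (Q i) + c)
      = u 0 * (w i * Q i 0) + u 1 * (w i * Q i 1) + u 2 * (w i * Q i 2) + u 3 * (w i * Q i 3)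
        + c * w i := by
    intro i
    simp only [dot, Fin.sum_univ_four]
    ring
  simp only [e, Finset.sum_add_distrib, ← Finset.mul_sum, h1, h2]
  ring

theorem g2_rest_nonempty (p q : Fin 6) : ((Finset.univ.erase p).erase q).Nonempty := by
  revert p q
  decide

theorem g2_split (p q : Fin 6) (hpq : p ≠ q) (f : Fin 6 → ℝ) :
    ∑ i, f i = f p + f q + ∑ i ∈ (Finset.univ.erase p).erase q, f i := by
  have hq : q ∈ Finset.univ.erase p := Finset.mem_erase.2 ⟨hpq.symm, Finset.mem_univ q⟩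
  rw [← Finset.add_sum_erase _ f (Finset.mem_univ p), ← Finset.add_sum_erase _ f hq]
  ring

/-- the difference of two entries is smaller than the total size of the other entries -/
theorem g2_key (P : ℕ → Pt) (hP : Acute P) (k : Fin 6 → ℕ) (hk : ∀ i, k i < 10)
    (hinj : Function.Injective k) (w : Fin 6 → ℝ) (hw : ∀ i, w i ≠ 0) (h1 : ∑ i, w i = 0)
    (h2 : ∀ j : Fin 4, ∑ i, w i * P (k i) j = 0) (p q : Fin 6) (hpq : p ≠ q) :
    w p - w q < ∑ i ∈ (Finset.univ.erase p).erase q, |w i| := by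
  have hne : ∀ {a b : Fin 6}, a ≠ b → k a ≠ k b := fun h e => h (hinj e)
  set D : ℝ := dot (P (k p) - P (k q)) (P (k p) - P (k q)) with hD
  have hDpos : 0 < D := hP _ (hk q) _ (hk p) _ (hk p) (hne hpq.symm) (hne hpq.symm)
  set g : Fin 6 → ℝ := fun i => 2 * dot (P (k p) - P (k q)) (P (k i) - P (k q)) - D with hg
  have hsum : ∑ i, w i * g i = 0 := by
    have := g2_aff (fun i => P (k i)) w h1 h2 (fun j => 2 * (P (k p) j - P (k q) j))
      (-(2 * dot (P (k p) - P (k q)) (P (k q))) - D)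
    rw [← this]
    refine Finset.sum_congr rfl fun i _ => ?_
    simp only [hg, dot, Fin.sum_univ_four, Pi.sub_apply]
    ring
  have hgp : g p = D := by
    simp only [hg, ← hD]
    ring
  have hgq : g q = -D := by
    simp only [hg, dot, Fin.sum_univ_four, Pi.sub_apply]
    ring
  rw [g2_split p q hpq, hgp, hgq] at hsum
  have hlt : ∑ i ∈ (Finset.univ.erase p).erase q, -(w i * g i)
      < ∑ i ∈ (Finset.univ.erase p).erase q, |w i| * D := by
    refine Finset.sum_lt_sum_of_nonempty (g2_rest_nonempty p q) fun i hi => ?_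
    have hiq : i ≠ q := (Finset.mem_erase.1 hi).1
    have hip : i ≠ p := (Finset.mem_erase.1 (Finset.mem_erase.1 hi).2).1
    have a1 := hP _ (hk q) _ (hk p) _ (hk i) (hne hpq.symm) (hne hiq.symm)
    have a2 := hP _ (hk p) _ (hk q) _ (hk i) (hne hpq) (hne hip.symm)
    have e2 : dot (P (k q) - P (k p)) (P (k i) - P (k p))
        = D - dot (P (k p) - P (k q)) (P (k i) - P (k q)) := by
      simp only [hD, dot, Fin.sum_univ_four, Pi.sub_apply]
      ring
    rw [e2] at a2
    have b1 : -D < g i := by simp only [hg]; linarith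
    have b2 : g i < D := by simp only [hg]; linarith
    rcases lt_or_gt_of_ne (hw i) with hneg | hpos
    · rw [abs_of_neg hneg]
      nlinarith
    · rw [abs_of_pos hpos]
      nlinarith
  rw [Finset.sum_neg_distrib, ← Finset.sum_mul] at hlt
  have : (w p - w q) * D < (∑ i ∈ (Finset.univ.erase p).erase q, |w i|) * D := by linarith
  exact lt_of_mul_lt_mul_right this hDpos.le

/-- abstract form: w is an affine dependency of six distinct points of an acute set, all entries nonzero -/
theorem nsp_abs (P : ℕ → Pt) (hP : Acute P) (k : Fin 6 → ℕ) (hk : ∀ i, k i < 10)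
    (hinj : Function.Injective k) (w : Fin 6 → ℝ) (hw : ∀ i, w i ≠ 0) (h1 : ∑ i, w i = 0)
    (h2 : ∀ j : Fin 4, ∑ i, w i * P (k i) j = 0) (N : Finset (Fin 6)) (hN : N.Nonempty)
    (hN' : N ≠ Finset.univ) (p q : Fin 6)
    (h : ∀ i, i ≠ p → i ≠ q → (i ∈ N → 0 < w i) ∧ (i ∉ N → w i < 0)) :
    0 < ∑ i ∈ N, w i := by
  have hc : ∑ i ∈ N, w i + ∑ i ∈ Nᶜ, w i = 0 := by rw [Finset.sum_add_sum_compl, h1]
  have mixed : ∀ a b : Fin 6, a ∈ N → b ∉ N →
      (∀ i, i ≠ a → i ≠ b → (i ∈ N → 0 < w i) ∧ (i ∉ N → w i < 0)) → 0 < ∑ i ∈ N, w i := by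
    intro a b ha hb hh
    have hab : b ≠ a := fun e => hb (e ▸ ha)
    have key := g2_key P hP k hk hinj w hw h1 h2 b a hab
    set e : Fin 6 → ℝ := fun i => if i ∈ N then w i else - w i with he
    have s1 : ∑ i, e i = ∑ i ∈ N, w i - ∑ i ∈ Nᶜ, w i := by
      rw [← Finset.sum_add_sum_compl N e, sub_eq_add_neg, ← Finset.sum_neg_distrib]
      congr 1
      · exact Finset.sum_congr rfl fun i hi => by simp only [he, if_pos hi]
      · exact Finset.sum_congr rfl fun i hi => by simp only [he, if_neg (Finset.mem_compl.1 hi)]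
    have s2 : ∑ i ∈ (Finset.univ.erase b).erase a, e i
        = ∑ i ∈ (Finset.univ.erase b).erase a, |w i| := by
      refine Finset.sum_congr rfl fun i hi => ?_
      have hia : i ≠ a := (Finset.mem_erase.1 hi).1
      have hib : i ≠ b := (Finset.mem_erase.1 (Finset.mem_erase.1 hi).2).1
      by_cases hiN : i ∈ N
      · simp only [he, if_pos hiN, abs_of_pos ((hh i hia hib).1 hiN)]
      · simp only [he, if_neg hiN, abs_of_neg ((hh i hia hib).2 hiN)]
    have s3 := g2_split b a hab e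
    have ea : e a = w a := by simp only [he, if_pos ha]
    have eb : e b = - w b := by simp only [he, if_neg hb]
    rw [s1, s2, ea, eb] at s3
    linarith
  by_cases hp : p ∈ N
  · by_cases hq : q ∈ N
    · have hne : (Nᶜ).Nonempty := by
        rw [Finset.nonempty_iff_ne_empty]
        intro e
        exact hN' ((Finset.compl_eq_empty_iff N).1 e)
      have : ∑ i ∈ Nᶜ, w i < 0 := by
        refine Finset.sum_neg (fun i hi => ?_) hne
        have hi' : i ∉ N := Finset.mem_compl.1 hi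
        exact (h i (fun e => hi' (e ▸ hp)) (fun e => hi' (e ▸ hq))).2 hi'
      linarith
    · exact mixed p q hp hq h
  · by_cases hq : q ∈ N
    · exact mixed q p hq hp fun i a b => h i b a
    · refine Finset.sum_pos (fun i hi => ?_) hN
      exact (h i (fun e => hp (e ▸ hi)) (fun e => hq (e ▸ hi))).1 hi

theorem hgt_abs (P : ℕ → Pt) (hP : Acute P) (k : Fin 6 → ℕ) (hk : ∀ i, k i < 10)
    (hinj : Function.Injective k) (w : Fin 6 → ℝ) (hw : ∀ i, w i ≠ 0) (h1 : ∑ i, w i = 0)
    (h2 : ∀ j : Fin 4, ∑ i, w i * P (k i) j = 0) (p q : Fin 6)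
    (h : ∀ i, i ≠ p → i ≠ q → 0 < w i) :
    0 < ∑ i, w i * ht P (k i) := by
  have _hw := hw
  have hne : ∀ {a b : Fin 6}, a ≠ b → k a ≠ k b := fun h e => h (hinj e)
  set c : Fin 6 → ℝ := fun i => dot (P (k p) - P (k i)) (P (k q) - P (k i)) with hc
  have hsum : ∑ i, w i * ht P (k i) = ∑ i, w i * c i := by
    have h0 := g2_aff (fun i => P (k i)) w h1 h2 (fun j => -(P (k p) j + P (k q) j))
      (dot (P (k p)) (P (k q)))
    rw [← add_zero (∑ i, w i * ht P (k i)), ← h0, ← Finset.sum_add_distrib]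
    refine Finset.sum_congr rfl fun i _ => ?_
    simp only [hc, ht, dot, Fin.sum_univ_four, Pi.sub_apply]
    ring
  have cp : c p = 0 := by simp [hc, dot]
  have cq : c q = 0 := by simp [hc, dot]
  have cpos : ∀ i, i ≠ p → i ≠ q → 0 < w i * c i := fun i hip hiq =>
    mul_pos (h i hip hiq) (hP _ (hk i) _ (hk p) _ (hk q) (hne hip) (hne hiq))
  rw [hsum]
  obtain ⟨j, hj⟩ := g2_rest_nonempty p q
  have hjq : j ≠ q := (Finset.mem_erase.1 hj).1
  have hjp : j ≠ p := (Finset.mem_erase.1 (Finset.mem_erase.1 hj).2).1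
  refine Finset.sum_pos' (fun i _ => ?_) ⟨j, Finset.mem_univ j, cpos j hjp hjq⟩
  by_cases hip : i = p
  · rw [hip, cp, mul_zero]
  · by_cases hiq : i = q
    · rw [hiq, cq, mul_zero]
    · exact (cpos i hip hiq).le

end AcuteCh
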