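import Pool.Agent.Lib.MP_bc94b4_co.Ch.Four
import Pool.Agent.Lib.MP_bc94b4_co.Ch.Nsp
import Pool.Agent.Lib.MP_bc94b4_co.Ch.GoodLem

/-! Literals of dual brackets and subset sums; the relations in terms of literals. -/

set_option autoImplicit false

namespace AcuteCh

/-- six fields of 16 bits -/
def pk6 (a b c d e f : ℕ) : ℕ :=
  a + 65536 * (b + 65536 * (c + 65536 * (d + 65536 * (e + 65536 * f))))

theorem lit_fld0 (a r : ℕ) (ha : a < 65536) : fld 16 (a + 65536 * r) 0 = a := by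
  simp only [fld, Nat.mul_zero, Nat.shiftRight_zero]
  omega

theorem lit_fldS (a r i : ℕ) (ha : a < 65536) : fld 16 (a + 65536 * r) (i + 1) = fld 16 r i := by
  simp only [fld]
  rw [show 16 * (i + 1) = 16 + 16 * i by ring, Nat.shiftRight_add]
  congr 2
  rw [Nat.shiftRight_eq_div_pow]
  omega

theorem lit_fldL (a : ℕ) (ha : a < 65536) : fld 16 a 0 = a := by
  simpa using lit_fld0 a 0 ha

theorem pk6_fld {a b c d e f : ℕ} (ha : a < 65536) (hb : b < 65536) (hc : c < 65536)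
    (hd : d < 65536) (he : e < 65536) (hf : f < 65536) :
    fld 16 (pk6 a b c d e f) 0 = a ∧ fld 16 (pk6 a b c d e f) 1 = b ∧
    fld 16 (pk6 a b c d e f) 2 = c ∧ fld 16 (pk6 a b c d e f) 3 = d ∧
    fld 16 (pk6 a b c d e f) 4 = e ∧ fld 16 (pk6 a b c d e f) 5 = f := by
  unfold pk6
  refine ⟨lit_fld0 _ _ ha, ?_, ?_, ?_, ?_, ?_⟩
  · rw [lit_fldS _ _ 0 ha, lit_fld0 _ _ hb]
  · rw [lit_fldS _ _ 1 ha, lit_fldS _ _ 0 hb, lit_fld0 _ _ hc]
  · rw [lit_fldS _ _ 2 ha, lit_fldS _ _ 1 hb, lit_fldS _ _ 0 hc, lit_fld0 _ _ hd]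
  · rw [lit_fldS _ _ 3 ha, lit_fldS _ _ 2 hb, lit_fldS _ _ 1 hc, lit_fldS _ _ 0 hd,
      lit_fld0 _ _ he]
  · rw [lit_fldS _ _ 4 ha, lit_fldS _ _ 3 hb, lit_fldS _ _ 2 hc, lit_fldS _ _ 1 hd,
      lit_fldS _ _ 0 he, lit_fldL _ hf]

theorem pk6_add (a b c d e f a' b' c' d' e' f' : ℕ) :
    pk6 a b c d e f + pk6 a' b' c' d' e' f'
      = pk6 (a + a') (b + b') (c + c') (d + d') (e + e') (f + f') := by
  unfold pk6; ring

theorem tri_pk6 (s : ℕ → ℝ) {a b c d e f : ℕ} (ha : a < 65536) (hb : b < 65536) (hc : c < 65536)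
    (hd : d < 65536) (he : e < 65536) (hf : f < 65536)
    (h : s a * s b + s c * s d + s e * s f = 0) : Tri s (pk6 a b c d e f) := by
  obtain ⟨h0, h1, h2, h3, h4, h5⟩ := pk6_fld ha hb hc hd he hf
  rw [Tri, h0, h1, h2, h3, h4, h5]
  exact h

theorem cl6_pk6 (s : ℕ → ℝ) {a b c d e f : ℕ} (ha : a < 65536) (hb : b < 65536) (hc : c < 65536)
    (hd : d < 65536) (he : e < 65536) (hf : f < 65536)
    (h : 0 < s a ∨ 0 < s b ∨ 0 < s c ∨ 0 < s d ∨ 0 < s e ∨ 0 < s f) :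
    Cl6 s (pk6 a b c d e f) := by
  obtain ⟨h0, h1, h2, h3, h4, h5⟩ := pk6_fld ha hb hc hd he hf
  rcases h with h | h | h | h | h | h
  · exact ⟨0, by norm_num, by rwa [h0]⟩
  · exact ⟨1, by norm_num, by rwa [h1]⟩
  · exact ⟨2, by norm_num, by rwa [h2]⟩
  · exact ⟨3, by norm_num, by rwa [h3]⟩
  · exact ⟨4, by norm_num, by rwa [h4]⟩
  · exact ⟨5, by norm_num, by rwa [h5]⟩

theorem sval_xor (P : ℕ → Pt) (l : ℕ) : sval P (l ^^^ 1) = - sval P l := by
  simp only [sval, gen2_xor_div, gen2_xor_mod]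
  by_cases h : l % 2 = 0 <;> simp [h]

theorem sval_zero (P : ℕ → Pt) : sval P 0 = 1 := by
  simp [sval, val, gen2_fld0]

theorem sval_one (P : ℕ → Pt) : sval P 1 = -1 := by
  have := sval_xor P 0
  rw [sval_zero] at this
  simpa using this

theorem sval_two_mul (P : ℕ → Pt) (v b : ℕ) (hb : b < 2) :
    sval P (2 * v + b) = (-1) ^ b * val P v := by
  have h1 : (2 * v + b) / 2 = v := by omega
  have h2 : (2 * v + b) % 2 = b := by omega
  rw [sval, h1, h2]
  interval_cases b <;> simp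

/-- point at position z of the 8-set of rank r -/
def kk (r : ℕ) : ℕ → ℕ := fld 4 (fld 32 E8 r)
/-- point at position i of the 6-set of rank j -/
def k6 (j : ℕ) : ℕ → ℕ := fld 4 (fld 24 E6 j)

/-- the mask M is the 5-set with these sorted points -/
def Is5 (M a b c d e : ℕ) : Prop :=
  M < 1024 ∧ fld 20 E5 M ≠ 0 ∧ fld 4 (fld 20 E5 M) 0 = a ∧ fld 4 (fld 20 E5 M) 1 = b ∧
    fld 4 (fld 20 E5 M) 2 = c ∧ fld 4 (fld 20 E5 M) 3 = d ∧ fld 4 (fld 20 E5 M) 4 = e

instance (M a b c d e : ℕ) : Decidable (Is5 M a b c d e) := by unfold Is5; infer_instance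

theorem is5_val (P : ℕ → Pt) {M a b c d e : ℕ} (h : Is5 M a b c d e) :
    val P M = br P a b c d e := by
  obtain ⟨h0, h1, e0, e1, e2, e3, e4⟩ := h
  simp only [val, if_pos h0, if_neg h1, e0, e1, e2, e3, e4]

/-- mask of the complement of three positions -/
def dbM (r c : ℕ) : ℕ :=
  2 ^ kk r (fld 3 c 0) + 2 ^ kk r (fld 3 c 1) + 2 ^ kk r (fld 3 c 2) + 2 ^ kk r (fld 3 c 3)
    + 2 ^ kk r (fld 3 c 4)

/-- literal of a dual bracket -/
def dbL (r x y z : ℕ) : ℕ := 2 * dbM r (g3c x y z) + g3c x y z / 32768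

theorem lit_tab5 : ∀ r < 45, ∀ i < 512, fld 16 C3 i ≠ 0 →
    Is5 (dbM r (fld 16 C3 i)) (kk r (fld 3 (fld 16 C3 i) 0)) (kk r (fld 3 (fld 16 C3 i) 1))
      (kk r (fld 3 (fld 16 C3 i) 2)) (kk r (fld 3 (fld 16 C3 i) 3))
      (kk r (fld 3 (fld 16 C3 i) 4)) := by decide +kernel

theorem lit_c3 : ∀ x < 8, ∀ y < 8, ∀ z < 8, (g3c x y z = 0 ↔ x = y ∨ x = z ∨ y = z) := by
  decide +kernel

theorem lit_fld_lt (w T i : ℕ) : fld w T i < 2 ^ w := Nat.mod_lt _ (by positivity)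

theorem dbL_val (P : ℕ → Pt) {r x y z : ℕ} (hr : r < 45) (hx : x < 8) (hy : y < 8) (hz : z < 8)
    (h : g3c x y z ≠ 0) : sval P (dbL r x y z) = db P (kk r) x y z := by
  have h1 := lit_tab5 r hr (x + 8 * y + 64 * z) (by omega) h
  have h2 : g3c x y z < 2 ^ 16 := lit_fld_lt _ _ _
  have h3 : g3c x y z / 32768 < 2 := by omega
  rw [dbL, sval_two_mul P _ _ h3, g3_db, if_neg h]
  change _ * val P (dbM r (fld 16 C3 (x + 8 * y + 64 * z))) = _
  rw [is5_val P h1]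
  by_cases h4 : g3c x y z / 32768 = 0
  · rw [if_pos h4, h4]; rfl
  · rw [if_neg h4, show g3c x y z / 32768 = 1 by omega, pow_one]; rfl

theorem dbL_lt {r x y z : ℕ} (hr : r < 45) (hx : x < 8) (hy : y < 8) (hz : z < 8)
    (h : g3c x y z ≠ 0) : dbL r x y z < 2048 := by
  have h1 := (lit_tab5 r hr (x + 8 * y + 64 * z) (by omega) h).1
  have h2 : g3c x y z < 2 ^ 16 := lit_fld_lt _ _ _
  change dbM r (g3c x y z) < 1024 at h1
  rw [dbL]; omega

theorem db_zero (P : ℕ → Pt) (k : ℕ → ℕ) {x y z : ℕ} (h : g3c x y z = 0) : db P k x y z = 0 := by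
  rw [g3_db, if_pos h]

theorem gen8_of_valn (P : ℕ → Pt) (hs : Valn (sval P)) {r : ℕ} (hr : r < 45) : Gen8 P (kk r) := by
  intro x hx y hy z hz h1 h2 h3
  rw [← dbL_val P hr hx hy hz (fun h => by
    rcases (lit_c3 x hx y hy z hz).1 h with h | h | h <;> contradiction)]
  exact hs.1 _

/-- offset of the literal of a subset sum with local mask m -/
def loc (m : ℕ) : ℕ := if m % 2 = 0 then m else 64 - m

/-- literal of a subset sum (m = 0: the height) -/
def svL (j m : ℕ) : ℕ := 2048 + 64 * j + loc m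

theorem lit_bt_compl : ∀ m < 64, ∀ i < 6, (63 - m).testBit i = !m.testBit i := by decide +kernel

theorem sv_compl (P : ℕ → Pt) {m : ℕ} (hm : m < 64) (a b c d e f : ℕ) :
    sv P (63 - m) a b c d e f = - sv P m a b c d e f := by
  have h : ∀ i < 6, bt (63 - m) i = 1 - bt m i := fun i hi => by
    simp only [bt, lit_bt_compl m hm i hi]
    cases m.testBit i <;> simp
  have h1 := lb_one P a b c d e f
  simp only [lb, lbv] at h1
  simp only [sv, lbv, h 0 (by norm_num), h 1 (by norm_num), h 2 (by norm_num), h 3 (by norm_num),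
    h 4 (by norm_num), h 5 (by norm_num)]
  linear_combination h1

theorem lit_val6 (P : ℕ → Pt) {j u : ℕ} (hj : j < 210) (hu : u < 32) :
    val P (1024 + 32 * j + u) =
      if u = 0 then lb P (ht P) (k6 j 0) (k6 j 1) (k6 j 2) (k6 j 3) (k6 j 4) (k6 j 5)
      else sv P (2 * u) (k6 j 0) (k6 j 1) (k6 j 2) (k6 j 3) (k6 j 4) (k6 j 5) := by
  have h1 : ¬ (1024 + 32 * j + u < 1024) := by omega
  have h2 : 1024 + 32 * j + u < 7744 := by omega
  have h3 : (1024 + 32 * j + u - 1024) / 32 = j := by omega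
  have h4 : (1024 + 32 * j + u - 1024) % 32 = u := by omega
  simp only [val, if_neg h1, if_pos h2, h3, h4, k6]
  by_cases h : u = 0
  · simp [h]
  · rw [if_neg h, if_neg (by omega)]

theorem svL_val (P : ℕ → Pt) {j m : ℕ} (hj : j < 210) (h0 : 0 < m) (h1 : m < 63) :
    sval P (svL j m) = sv P m (k6 j 0) (k6 j 1) (k6 j 2) (k6 j 3) (k6 j 4) (k6 j 5) := by
  by_cases h : m % 2 = 0
  · have e : svL j m = 2 * (1024 + 32 * j + m / 2) + 0 := by rw [svL, loc, if_pos h]; omega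
    rw [e, sval_two_mul P _ _ (by norm_num), lit_val6 P hj (by omega), if_neg (by omega),
      show 2 * (m / 2) = m by omega]
    simp
  · have e : svL j m = 2 * (1024 + 32 * j + (63 - m) / 2) + 1 := by
      rw [svL, loc, if_neg h]; omega
    rw [e, sval_two_mul P _ _ (by norm_num), lit_val6 P hj (by omega), if_neg (by omega),
      show 2 * ((63 - m) / 2) = 63 - m by omega, sv_compl P (by omega)]
    simp

theorem svL_ht (P : ℕ → Pt) {j : ℕ} (hj : j < 210) :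
    sval P (svL j 0) = lb P (ht P) (k6 j 0) (k6 j 1) (k6 j 2) (k6 j 3) (k6 j 4) (k6 j 5) := by
  have e : svL j 0 = 2 * (1024 + 32 * j + 0) + 0 := by rw [svL, loc, if_pos rfl]; omega
  rw [e, sval_two_mul P _ _ (by norm_num), lit_val6 P hj (by omega), if_pos rfl]
  simp

theorem svL_lt {j m : ℕ} (hj : j < 210) (hm : m < 64) : svL j m < 15488 := by
  rw [svL, loc]; split_ifs <;> omega

end AcuteCh
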