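import Pool.Agent.Lib.MP_bc94b4_co.Ch.Defs2

/-! The machine that replays unit propagation proofs over a class of valuations. -/

set_option autoImplicit false

namespace AcuteCh

/-- open branches: top level, inside a record (saved false mask), inside a decision -/
inductive St : Type where
  | top : St
  | rcd : ℕ → St
  | dec : ℕ → St → St

/-- the open branches and the pieces of the operation stream that are still to be read -/
structure Cx : Type where
  st : St
  L : List ℕ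

/-- stream, radix, false mask, context; the value 0 means success -/
abbrev Kt : Type := ℕ → ℕ → ℕ → Cx → ℕ

/-- if exactly one literal of D is outside F, add its negation to F -/
noncomputable def upd (D F : ℕ) : ℕ :=
  Nat.lor F (Nat.shiftRight (Nat.shiftLeft (Nat.xor D (Nat.land D F)) 1)
    (Nat.add (Nat.mod (Nat.sub (Nat.shiftLeft (Nat.xor D (Nat.land D F)) 1) 2) 6)
      (Nat.land (Nat.shiftLeft (Nat.xor D (Nat.land D F)) 1)
        (Nat.sub (Nat.shiftLeft (Nat.xor D (Nat.land D F)) 1) 2))))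

noncomputable def pop (k : Kt) (H B : ℕ) (c : Cx) : ℕ :=
  Cx.rec (motive := fun _ => ℕ) (fun st L =>
    St.rec (motive := fun _ => ℕ) (k H B 1 (Cx.mk St.top L))
      (fun F0 => Nat.rec (motive := fun _ => ℕ) 1 (fun b _ => k H b F0 (Cx.mk St.top L)) (Nat.add B 2))
      (fun F' r _ => k H B F' (Cx.mk r L)) st) c

noncomputable def opMac (tp : ℕ → ℕ → ℕ) (k : Kt) (H B F : ℕ) (c : Cx) : ℕ :=
  k (Nat.shiftRight H 2) B (tp (Nat.land H 3) F) c

noncomputable def opClose (ms : ℕ → ℕ) (k : Kt) (H B F : ℕ) (c : Cx) : ℕ :=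
  Nat.rec (motive := fun _ => ℕ) 1
    (fun m _ => Bool.rec (motive := fun _ => ℕ) 1 (pop k (Nat.div H B) B c)
      (Nat.beq (Nat.land (ms m) F) (ms m))) (Nat.mod H B)

noncomputable def opBegin (ms : ℕ → ℕ) (k : Kt) (H B F : ℕ) (c : Cx) : ℕ :=
  Cx.rec (motive := fun _ => ℕ) (fun st L =>
    St.rec (motive := fun _ => ℕ)
      (Nat.rec (motive := fun _ => ℕ) 1
        (fun b _ => k H B (Nat.lor F (ms b)) (Cx.mk (St.rcd F) L)) B)
      (fun _ => 1) (fun _ _ _ => 1) st) c

noncomputable def opDec (k : Kt) (H B F : ℕ) (c : Cx) : ℕ :=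
  Cx.rec (motive := fun _ => ℕ) (fun st L =>
    k (Nat.shiftRight H 16) B (Nat.lor F (Nat.shiftLeft 1 (Nat.land H 65535)))
      (Cx.mk (St.dec (Nat.lor F (Nat.shiftLeft 1 (Nat.xor (Nat.land H 65535) 1))) st) L)) c

noncomputable def opFill (fin : ℕ → ℕ → ℕ) (k : Kt) (_H B F : ℕ) (c : Cx) : ℕ :=
  Cx.rec (motive := fun _ => ℕ) (fun st L =>
    List.rec (motive := fun _ => ℕ)
      (St.rec (motive := fun _ => ℕ) (fin B F) (fun _ => 1) (fun _ _ _ => 1) st)
      (fun h t _ => Nat.rec (motive := fun _ => ℕ) 1 (fun f _ => k h B f (Cx.mk st t)) (Nat.succ F))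
      L) c

noncomputable def opAx (ms : ℕ → ℕ) (ax : ℕ → ℕ → ℕ → ℕ → Bool) (k : Kt) (H B F : ℕ) (c : Cx) : ℕ :=
  Cx.rec (motive := fun _ => ℕ) (fun st L =>
    St.rec (motive := fun _ => ℕ)
      (Nat.rec (motive := fun _ => ℕ) 1 (fun j _ =>
        Nat.rec (motive := fun _ => ℕ) 1 (fun b _ =>
          Bool.rec (motive := fun _ => ℕ) 1
            (Nat.rec (motive := fun _ => ℕ) 1
              (fun b' _ => k (Nat.shiftRight (Nat.div H B) 96) b' F (Cx.mk St.top L)) (Nat.add B 2))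
            (ax (ms j) F (ms b) (Nat.land (Nat.div H B) 0xffffffffffffffffffffffff))) B) (Nat.mod H B))
      (fun _ => 1) (fun _ _ _ => 1) st) c

noncomputable def opOra (cl : ℕ → ℕ → Bool) (k : Kt) (H B F : ℕ) (c : Cx) : ℕ :=
  Bool.rec (motive := fun _ => ℕ) 1 (pop k (Nat.shiftRight H 16) B c) (cl (Nat.land H 65535) F)

/-- operations: 0 table step, 1 close by a clause, 2 begin a record, 3 decide, 4 next piece,
5 checked record, 6 close by a certificate -/
noncomputable def sp (ms : ℕ → ℕ) (tp : ℕ → ℕ → ℕ) (ax : ℕ → ℕ → ℕ → ℕ → Bool) (cl : ℕ → ℕ → Bool)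
    (fin : ℕ → ℕ → ℕ) (k : Kt) (H B F : ℕ) (c : Cx) : ℕ :=
  Nat.rec (motive := fun _ => Kt) (opMac tp k)
    (fun o1 _ => Nat.rec (motive := fun _ => Kt) (opClose ms k)
      (fun o2 _ => Nat.rec (motive := fun _ => Kt) (opBegin ms k)
        (fun o3 _ => Nat.rec (motive := fun _ => Kt) (opDec k)
          (fun o4 _ => Nat.rec (motive := fun _ => Kt) (opFill fin k)
            (fun o5 _ => Nat.rec (motive := fun _ => Kt) (opAx ms ax k)
              (fun _ _ => opOra cl k) o5) o4) o3) o2) o1)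
    (Nat.land H 7) (Nat.shiftRight H 3) B F c

noncomputable def stq (ms : ℕ → ℕ) (k : Kt) (m : ℕ) (_i : Kt) (H B F : ℕ) (c : Cx) : ℕ :=
  k H B (Nat.lor F (Nat.shiftRight (Nat.shiftLeft (Nat.xor (ms m) (Nat.land (ms m) F)) 1)
    (Nat.add (Nat.mod (Nat.sub (Nat.shiftLeft (Nat.xor (ms m) (Nat.land (ms m) F)) 1) 2) 6)
      (Nat.land (Nat.shiftLeft (Nat.xor (ms m) (Nat.land (ms m) F)) 1)
        (Nat.sub (Nat.shiftLeft (Nat.xor (ms m) (Nat.land (ms m) F)) 1) 2))))) c

noncomputable def step (ms : ℕ → ℕ) (s : Kt → Kt) (k : Kt) (H B F : ℕ) (c : Cx) : ℕ :=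
  Nat.rec (motive := fun _ => Kt) (s k) (stq ms k) (Nat.mod H B) (Nat.div H B) B F c

noncomputable def run (ms : ℕ → ℕ) (s : Kt → Kt) (n : ℕ) : Kt :=
  Nat.rec (motive := fun _ => Kt) (fun _ _ _ _ => 1)
    (fun _ ih => step ms s (step ms s (step ms s (step ms s
      (step ms s (step ms s (step ms s (step ms s ih)))))))) n

/-- the final test: the radix has reached Bo and Fo is contained in the false mask -/
noncomputable def finT (Bo Fo B F : ℕ) : ℕ := Nat.add (Nat.sub Bo B) (Nat.xor Fo (Nat.land Fo F))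

/-- D is a clause of every valuation of the class -/
def Vc (S : (ℕ → ℝ) → Prop) (D : ℕ) : Prop := ∀ s, S s → ClM s D
/-- the literals of F are false in every valuation of the class -/
def Vi (S : (ℕ → ℝ) → Prop) (F : ℕ) : Prop := ∀ s, S s → Inv s F
/-- the masks with index below B - 1 are clauses -/
def Vm (S : (ℕ → ℝ) → Prop) (ms : ℕ → ℕ) (B : ℕ) : Prop := ∀ m, m + 1 < B → Vc S (ms m)

def StG (S : (ℕ → ℝ) → Prop) : St → Prop
  | St.top => True
  | St.rcd F0 => Vi S F0
  | St.dec _ r => StG S r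

def StB (s : ℕ → ℝ) (M : ℕ) : St → Prop
  | St.top => True
  | St.rcd _ => Inv s M
  | St.dec _ r => StB s M r

def StA (s : ℕ → ℝ) : St → Prop
  | St.top => False
  | St.rcd _ => False
  | St.dec F r => Inv s F ∨ StA s r

def Pre (S : (ℕ → ℝ) → Prop) (ms : ℕ → ℕ) (B F : ℕ) (st : St) : Prop :=
  0 < B ∧ Vm S ms B ∧ StG S st ∧ ∀ s, S s → StB s (ms (B - 1)) st → Inv s F ∨ StA s st

def KOk (S : (ℕ → ℝ) → Prop) (ms : ℕ → ℕ) (G : Prop) (k : Kt) : Prop :=
  ∀ H B F c, k H B F c = 0 → Pre S ms B F c.st → G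

theorem mc_or {s : ℕ → ℝ} {A B : ℕ} (hA : Inv s A) (hB : Inv s B) : Inv s (Nat.lor A B) := fun l hl => by
  have h : (A ||| B).testBit l = true := hl
  rw [Nat.testBit_or, Bool.or_eq_true] at h
  exact h.elim (hA l) (hB l)

theorem mc_bit {s : ℕ → ℝ} {l : ℕ} (h : s l < 0) : Inv s (Nat.shiftLeft 1 l) := fun j hj => by
  have h1 : (1 <<< l).testBit j = true := hj
  rw [Nat.one_shiftLeft, Nat.testBit_two_pow, decide_eq_true_eq] at h1
  exact h1 ▸ h

theorem mc_pow6 (u : ℕ) : (2 ^ (u + 1) - 2) % 6 = if u % 2 = 0 then 0 else 2 := by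
  have h : ∀ v : ℕ, 2 ^ (2 * v + 1) % 6 = 2 ∧ 2 ^ (2 * v + 2) % 6 = 4 := by
    intro v
    induction v with
    | zero => decide
    | succ v ih =>
      have e1 : 2 ^ (2 * (v + 1) + 1) = 4 * 2 ^ (2 * v + 1) := by ring
      have e2 : 2 ^ (2 * (v + 1) + 2) = 4 * 2 ^ (2 * v + 2) := by ring
      omega
  have hp : 2 ≤ 2 ^ (u + 1) := by
    calc 2 = 2 ^ 1 := rfl
      _ ≤ 2 ^ (u + 1) := Nat.pow_le_pow_right (by norm_num) (by omega)
  split_ifs with hu
  · have := (h (u / 2)).1
    rw [show 2 * (u / 2) + 1 = u + 1 by omega] at this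
    omega
  · have := (h (u / 2)).2
    rw [show 2 * (u / 2) + 2 = u + 1 by omega] at this
    omega

/-- bits above the lowest one survive the subtraction of two from an even number -/
theorem mc_low (U a b : ℕ) (ha : U.testBit a = true) (hb : U.testBit b = true) (hab : a < b) :
    (2 * U - 2).testBit (b + 1) = true := by
  have h1 : 2 ^ a ≤ U % 2 ^ b := by
    refine Nat.ge_two_pow_of_testBit ?_
    rw [Nat.testBit_mod_two_pow, ha, decide_eq_true hab]; rfl
  have h0 : 0 < 2 ^ a := Nat.two_pow_pos a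
  have hp : 0 < 2 ^ b := Nat.two_pow_pos b
  have e : 2 * U - 2 = 2 * (U - 1) := by omega
  rw [e, Nat.testBit_succ, show 2 * (U - 1) / 2 = U - 1 by omega]
  rw [Nat.testBit_eq_decide_div_mod_eq] at hb ⊢
  have h2 : (U - 1) / 2 ^ b = U / 2 ^ b := by
    have h3 := Nat.div_add_mod U (2 ^ b)
    have h4 := Nat.mod_lt U hp
    refine (Nat.div_eq_iff hp).2 ⟨?_, ?_⟩
    · rw [Nat.mul_comm]; omega
    · rw [Nat.mul_comm]; omega
  rw [h2]; exact hb

theorem mc_swap (U u j : ℕ) (hu : U.testBit u = true)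
    (hj : (Nat.shiftRight (Nat.shiftLeft U 1) (Nat.add (Nat.mod (Nat.sub (Nat.shiftLeft U 1) 2) 6)
      (Nat.land (Nat.shiftLeft U 1) (Nat.sub (Nat.shiftLeft U 1) 2)))).testBit j = true) :
    j = u ^^^ 1 := by
  have e1 : Nat.shiftLeft U 1 = 2 * U := by
    show U <<< 1 = 2 * U
    rw [Nat.shiftLeft_eq]; ring
  rw [e1] at hj
  change ((2 * U) >>> ((2 * U - 2) % 6 + ((2 * U) &&& (2 * U - 2)))).testBit j = true at hj
  rw [Nat.testBit_shiftRight] at hj
  have hX : ∀ q, (2 * U).testBit (q + 1) = U.testBit q := fun q => by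
    rw [Nat.testBit_succ, show 2 * U / 2 = U by omega]
  have hX0 : (2 * U).testBit 0 = false := by
    rw [Nat.testBit_zero, decide_eq_false (by omega)]
  by_cases hone : ∀ q, U.testBit q = true → q = u
  · have hU : U = 2 ^ u := Nat.eq_of_testBit_eq fun q => by
      rw [Nat.testBit_two_pow]
      by_cases hq : u = q
      · rw [decide_eq_true hq, ← hq, hu]
      · rw [decide_eq_false hq]
        by_contra hc
        exact hq (hone q (by simpa using hc)).symm
    have e2 : 2 * U = 2 ^ (u + 1) := by rw [hU]; ring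
    have e3 : (2 * U) &&& (2 * U - 2) = 0 := Nat.eq_of_testBit_eq fun q => by
      rw [Nat.testBit_and, e2, Nat.testBit_two_pow, Nat.zero_testBit]
      by_cases hq : u + 1 = q
      · have : 2 ^ (u + 1) - 2 < 2 ^ q := by
          rw [← hq]; have := Nat.two_pow_pos (u + 1); omega
        rw [Nat.testBit_lt_two_pow this, Bool.and_false]
      · rw [decide_eq_false hq, Bool.false_and]
    rw [e3, e2, mc_pow6, Nat.testBit_two_pow, decide_eq_true_eq] at hj
    rcases Nat.even_or_odd u with h | h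
    · rw [Nat.xor_one_of_even h]
      rw [if_pos (Nat.even_iff.mp h)] at hj; omega
    · rw [Nat.xor_one_of_odd h]
      have := Nat.odd_iff.mp h
      rw [if_neg (by omega)] at hj; omega
  · exfalso
    push Not at hone
    obtain ⟨v, hv, hvu⟩ := hone
    set p := (2 * U - 2) % 6 + ((2 * U) &&& (2 * U - 2)) + j with hp
    have hp0 : p ≠ 0 := fun h => by rw [h, hX0] at hj; exact absurd hj (by simp)
    obtain ⟨q, hq⟩ : ∃ q, p = q + 1 := ⟨p - 1, by omega⟩
    rw [hq, hX] at hj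
    have key : ∀ a b, U.testBit a = true → U.testBit b = true → a < b →
        b + 1 < (2 * U) &&& (2 * U - 2) := fun a b ha hb hab => by
      have h1 : 2 ^ (b + 1) ≤ (2 * U) &&& (2 * U - 2) := by
        refine Nat.ge_two_pow_of_testBit ?_
        rw [Nat.testBit_and, hX, hb, mc_low U a b ha hb hab]; rfl
      exact lt_of_lt_of_le Nat.lt_two_pow_self h1
    have k1 : ∀ a b, U.testBit a = true → U.testBit b = true → a < b → False := fun a b ha hb hab => by
      by_cases h : a < q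
      · have := key a q ha hj h; omega
      · have := key a b ha hb hab; omega
    rcases lt_or_gt_of_ne hvu with h | h
    · exact k1 v u hv hu h
    · exact k1 u v hu hv h

theorem upd_sound {s : ℕ → ℝ} (hs : Valn s) {D F : ℕ} (hD : ClM s D) (hF : Inv s F) :
    Inv s (upd D F) := by
  obtain ⟨u, h1, h2⟩ := hD
  refine mc_or hF fun j hj => ?_
  have hu : (Nat.xor D (Nat.land D F)).testBit u = true := by
    show (D ^^^ (D &&& F)).testBit u = true
    have : F.testBit u = false := by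
      by_contra hc
      exact absurd (hF u (by simpa using hc)) h2.not_gt
    rw [Nat.testBit_xor, Nat.testBit_and, h1, this]; rfl
  rw [mc_swap _ u j hu hj, hs.2.1]
  linarith

section
variable {S : (ℕ → ℝ) → Prop} {ms : ℕ → ℕ} {G : Prop} {k : Kt}

theorem mc_not {s : ℕ → ℝ} (hs : Valn s) {M : ℕ} (h : ¬ Inv s M) : ClM s M := by
  by_contra hc
  refine h fun l hl => ?_
  rcases lt_trichotomy (s l) 0 with h1 | h1 | h1
  · exact h1
  · exact absurd h1 (hs.1 l)
  · exact absurd ⟨l, hl, h1⟩ hc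

theorem vm_succ {B : ℕ} (h : Vm S ms B) (h1 : Vc S (ms (B - 1))) : Vm S ms (B + 1) := fun m hm => by
  by_cases h2 : m + 1 < B
  · exact h m h2
  · rw [show m = B - 1 by omega]; exact h1

theorem pop_ok (hS : ∀ s, S s → Valn s) (hk : KOk S ms G k) {H B : ℕ} {c : Cx}
    (h : pop k H B c = 0) (hB : 0 < B) (hm : Vm S ms B) (hg : StG S c.st)
    (ha : ∀ s, S s → StB s (ms (B - 1)) c.st → StA s c.st) : G := by
  obtain ⟨st, L⟩ := c
  cases st with
  | top => exact hk H B 1 ⟨St.top, L⟩ h ⟨hB, hm, trivial, fun s hs hb => (ha s hs hb).elim⟩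
  | rcd F0 =>
    exact hk H (B + 1) F0 ⟨St.top, L⟩ h ⟨Nat.succ_pos B,
      vm_succ hm fun s hs => mc_not (hS s hs) (ha s hs), trivial, fun s hs _ => Or.inl (hg s hs)⟩
  | dec F r => exact hk H B F ⟨r, L⟩ h ⟨hB, hm, hg, ha⟩

theorem opMac_ok {tp : ℕ → ℕ → ℕ} (htp : ∀ i F s, S s → Inv s F → Inv s (tp i F))
    (hk : KOk S ms G k) : KOk S ms G (opMac tp k) := fun _ _ _ c h ⟨h1, h2, h3, h4⟩ =>
  hk _ _ _ c h ⟨h1, h2, h3, fun s hs hb => (h4 s hs hb).imp_left (htp _ _ s hs)⟩

theorem mc_dig {H B m : ℕ} (hB : 0 < B) (h : Nat.mod H B = m + 1) : m + 1 < B :=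
  h ▸ Nat.mod_lt H hB

theorem opClose_ok (hS : ∀ s, S s → Valn s) (hk : KOk S ms G k) : KOk S ms G (opClose ms k) := by
  intro H B F c h ⟨h1, h2, h3, h4⟩
  unfold opClose at h
  generalize hd : Nat.mod H B = d at h
  cases d with
  | zero => exact absurd h Nat.one_ne_zero
  | succ m =>
    change (Bool.rec 1 (pop k (Nat.div H B) B c) (Nat.beq (Nat.land (ms m) F) (ms m)) : ℕ) = 0 at h
    generalize hb : Nat.beq (Nat.land (ms m) F) (ms m) = b at h
    cases b with
    | false => exact absurd h Nat.one_ne_zero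
    | true =>
      refine pop_ok hS hk h h1 h2 h3 fun s hs hq => (h4 s hs hq).resolve_left fun hF => ?_
      obtain ⟨l, hl, hp⟩ := h2 m (mc_dig h1 hd) s hs
      rw [← Nat.eq_of_beq_eq_true hb] at hl
      have hl' : (ms m &&& F).testBit l = true := hl
      rw [Nat.testBit_and, Bool.and_eq_true] at hl'
      exact absurd (hF l hl'.2) hp.not_gt

theorem opBegin_ok (hk : KOk S ms G k) : KOk S ms G (opBegin ms k) := by
  intro H B F ⟨st, L⟩ h ⟨h1, h2, _, h4⟩
  cases st with
  | top =>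
    cases B with
    | zero => exact absurd h1 (lt_irrefl 0)
    | succ b =>
      have hF : Vi S F := fun s hs => (h4 s hs trivial).resolve_right id
      exact hk H (b + 1) _ ⟨St.rcd F, L⟩ h ⟨h1, h2, hF, fun s hs hb => Or.inl (mc_or (hF s hs) hb)⟩
  | rcd _ => exact absurd h Nat.one_ne_zero
  | dec _ _ => exact absurd h Nat.one_ne_zero

theorem opDec_ok (hS : ∀ s, S s → Valn s) (hk : KOk S ms G k) : KOk S ms G (opDec k) := by
  intro H B F ⟨st, L⟩ h ⟨h1, h2, h3, h4⟩
  refine hk _ _ _ ⟨St.dec _ st, L⟩ h ⟨h1, h2, h3, fun s hs hb => ?_⟩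
  rcases h4 s hs hb with hF | hA
  · rcases lt_trichotomy (s (Nat.land H 65535)) 0 with h5 | h5 | h5
    · exact Or.inl (mc_or hF (mc_bit h5))
    · exact absurd h5 ((hS s hs).1 _)
    · refine Or.inr (Or.inl (mc_or hF (mc_bit ?_)))
      have := (hS s hs).2.1 (Nat.land H 65535)
      change s (Nat.land H 65535 ^^^ 1) < 0
      linarith
  · exact Or.inr (Or.inr hA)

theorem opFill_ok {fin : ℕ → ℕ → ℕ} (hf : ∀ B F, fin B F = 0 → Vm S ms B → Vi S F → G)
    (hk : KOk S ms G k) : KOk S ms G (opFill fin k) := by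
  intro H B F ⟨st, L⟩ h hp
  cases L with
  | cons a t => exact hk a B F ⟨st, t⟩ h hp
  | nil =>
    cases st with
    | top => exact hf B F h hp.2.1 fun s hs => (hp.2.2.2 s hs trivial).resolve_right id
    | rcd _ => exact absurd h Nat.one_ne_zero
    | dec _ _ => exact absurd h Nat.one_ne_zero

theorem opAx_ok {ax : ℕ → ℕ → ℕ → ℕ → Bool}
    (hax : ∀ R F M d, ax R F M d = true → Vc S R → Vi S F → Vc S M)
    (hk : KOk S ms G k) : KOk S ms G (opAx ms ax k) := by
  intro H B F ⟨st, L⟩ h ⟨h1, h2, _, h4⟩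
  cases st with
  | rcd _ => exact absurd h Nat.one_ne_zero
  | dec _ _ => exact absurd h Nat.one_ne_zero
  | top =>
    have hF : Vi S F := fun s hs => (h4 s hs trivial).resolve_right id
    unfold opAx at h
    generalize hd : Nat.mod H B = d at h
    cases d with
    | zero => exact absurd h Nat.one_ne_zero
    | succ j =>
      cases B with
      | zero => exact absurd h1 (lt_irrefl 0)
      | succ b =>
        change (Bool.rec 1 (k (Nat.shiftRight (Nat.div H (b + 1)) 96) (b + 1 + 1) F (Cx.mk St.top L))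
          (ax (ms j) F (ms b) (Nat.land (Nat.div H (b + 1)) 0xffffffffffffffffffffffff)) : ℕ) = 0 at h
        generalize hb : ax (ms j) F (ms b) (Nat.land (Nat.div H (b + 1)) 0xffffffffffffffffffffffff) = q at h
        cases q with
        | false => exact absurd h Nat.one_ne_zero
        | true =>
          exact hk _ (b + 1 + 1) F ⟨St.top, L⟩ h ⟨Nat.succ_pos _,
            vm_succ h2 (hax _ _ _ _ hb (h2 j (mc_dig h1 hd)) hF), trivial, fun s hs _ => Or.inl (hF s hs)⟩

theorem opOra_ok (hS : ∀ s, S s → Valn s) {cl : ℕ → ℕ → Bool}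
    (hcl : ∀ i F, cl i F = true → ∀ s, S s → ¬ Inv s F) (hk : KOk S ms G k) :
    KOk S ms G (opOra cl k) := by
  intro H B F c h ⟨h1, h2, h3, h4⟩
  unfold opOra at h
  generalize hb : cl (Nat.land H 65535) F = b at h
  cases b with
  | false => exact absurd h Nat.one_ne_zero
  | true => exact pop_ok hS hk h h1 h2 h3 fun s hs hq => (h4 s hs hq).resolve_left (hcl _ _ hb s hs)

theorem sp_ok (hS : ∀ s, S s → Valn s) {tp : ℕ → ℕ → ℕ} {ax : ℕ → ℕ → ℕ → ℕ → Bool}
    {cl : ℕ → ℕ → Bool} {fin : ℕ → ℕ → ℕ} (htp : ∀ i F s, S s → Inv s F → Inv s (tp i F))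
    (hax : ∀ R F M d, ax R F M d = true → Vc S R → Vi S F → Vc S M)
    (hcl : ∀ i F, cl i F = true → ∀ s, S s → ¬ Inv s F)
    (hf : ∀ B F, fin B F = 0 → Vm S ms B → Vi S F → G) (hk : KOk S ms G k) :
    KOk S ms G (sp ms tp ax cl fin k) := by
  intro H B F c h
  unfold sp at h
  generalize Nat.land H 7 = o at h
  rcases o with _ | _ | _ | _ | _ | _ | o
  · exact opMac_ok htp hk _ B F c h
  · exact opClose_ok hS hk _ B F c h
  · exact opBegin_ok hk _ B F c h
  · exact opDec_ok hS hk _ B F c h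
  · exact opFill_ok hf hk _ B F c h
  · exact opAx_ok hax hk _ B F c h
  · exact opOra_ok hS hcl hk _ B F c h

theorem step_ok (hS : ∀ s, S s → Valn s) {p : Kt → Kt} (hp : KOk S ms G (p k)) (hk : KOk S ms G k) :
    KOk S ms G (step ms p k) := by
  intro H B F c h hq
  unfold step at h
  generalize hd : Nat.mod H B = d at h
  cases d with
  | zero => exact hp _ B F c h hq
  | succ m =>
    obtain ⟨h1, h2, h3, h4⟩ := hq
    exact hk _ B (upd (ms m) F) c h ⟨h1, h2, h3, fun s hs hb =>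
      (h4 s hs hb).imp_left (upd_sound (hS s hs) (h2 m (mc_dig h1 hd) s hs))⟩

theorem run_ok (hS : ∀ s, S s → Valn s) {p : Kt → Kt} (hp : ∀ k, KOk S ms G k → KOk S ms G (p k))
    (n : ℕ) : KOk S ms G (run ms p n) := by
  induction n with
  | zero => exact fun _ _ _ _ h => absurd h Nat.one_ne_zero
  | succ n ih =>
    have t : ∀ k, KOk S ms G k → KOk S ms G (step ms p k) := fun k hk => step_ok hS (hp k hk) hk
    exact t _ (t _ (t _ (t _ (t _ (t _ (t _ (t _ ih)))))))

theorem finT_ok {Bo Fo B F : ℕ} (h : finT Bo Fo B F = 0) (hm : Vm S ms B) (hF : Vi S F) :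
    Vm S ms Bo ∧ Vi S Fo := by
  have h' : (Bo - B) + (Fo ^^^ (Fo &&& F)) = 0 := h
  refine ⟨fun m hb => hm m (by omega), fun s hs l hl => hF s hs l ?_⟩
  have h2 : (Fo ^^^ (Fo &&& F)).testBit l = false := by
    rw [show Fo ^^^ (Fo &&& F) = 0 by omega]; exact Nat.zero_testBit l
  rw [Nat.testBit_xor, Nat.testBit_and, hl] at h2
  simpa using h2

/-- one segment of a proof -/
theorem seg_ok (hS : ∀ s, S s → Valn s) {tp : ℕ → ℕ → ℕ} {ax : ℕ → ℕ → ℕ → ℕ → Bool}
    {cl : ℕ → ℕ → Bool} (htp : ∀ i F s, S s → Inv s F → Inv s (tp i F))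
    (hax : ∀ R F M d, ax R F M d = true → Vc S R → Vi S F → Vc S M)
    (hcl : ∀ i F, cl i F = true → ∀ s, S s → ¬ Inv s F) {n H B F Bo Fo : ℕ} {L : List ℕ}
    (h : Nat.beq (run ms (sp ms tp ax cl (finT Bo Fo)) n H B F (Cx.mk St.top L)) 0 = true)
    (hB : 0 < B) (hm : Vm S ms B ∧ Vi S F) : Vm S ms Bo ∧ Vi S Fo :=
  run_ok hS (fun _ hk => sp_ok hS htp hax hcl (fun _ _ => finT_ok) hk) n _ B F _
    (Nat.eq_of_beq_eq_true h) ⟨hB, hm.1, trivial, fun s hs _ => Or.inl (hm.2 s hs)⟩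

end

end AcuteCh
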