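import Pool.Agent.Lib.MP_bc94b4_co.Ch.Mach
import Pool.Agent.Lib.MP_bc94b4_co.Ch.GOk
import Pool.Agent.Lib.MP_bc94b4_co.Ch.GenQ
import Pool.Agent.Lib.MP_bc94b4_co.Ch.LogLP
import Pool.Agent.Lib.MP_bc94b4_co.Ch.Bat

/-! The clause masks that the machine reads. -/

set_option autoImplicit false

namespace AcuteCh

/-- a binary tree of chunks of a table; a leaf may carry two numbers that justify it -/
inductive Tre : Type where
  | lf : ℕ → Tre
  | lg : ℕ → ℕ → ℕ → Tre
  | nd : Tre → Tre → Tre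

/-- leaf number i, lowest bit first -/
noncomputable def look (t : Tre) (i : ℕ) : ℕ :=
  Tre.rec (motive := fun _ => ℕ → ℕ) (fun a _ => a) (fun a _ _ _ => a)
    (fun _ _ l r i => Nat.rec (motive := fun _ => ℕ) (l (Nat.shiftRight i 1))
      (fun _ _ => r (Nat.shiftRight i 1)) (Nat.land i 1)) t i

noncomputable def allT (q : ℕ → ℕ → ℕ → Bool) (t : Tre) : Bool :=
  Tre.rec (motive := fun _ => Bool) (fun a => q a 0 0) (fun a b c => q a b c)
    (fun _ _ l r => Bool.rec (motive := fun _ => Bool) false r l) t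

/-- entry i of width w; a chunk has 2 ^ q entries, u = 2 ^ q - 1, v = 2 ^ w - 1 -/
noncomputable def tf (T : ℕ → ℕ) (w v q u i : ℕ) : ℕ :=
  Nat.rec (motive := fun _ => ℕ) 0
    (fun k _ => Nat.land (Nat.shiftRight (T k) (Nat.mul w (Nat.land i u))) v)
    (Nat.succ (Nat.shiftRight i q))

/-- mask of the six fields of a word below 2 ^ 96 -/
noncomputable def mk6 (e : ℕ) : ℕ :=
  Nat.lor (Nat.lor (Nat.lor (Nat.lor (Nat.lor
    (Nat.shiftLeft 1 (Nat.shiftRight e 80))
    (Nat.shiftLeft 1 (Nat.land (Nat.shiftRight e 48) 65535)))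
    (Nat.shiftLeft 1 (Nat.land (Nat.shiftRight e 16) 65535)))
    (Nat.shiftLeft 1 (Nat.land (Nat.shiftRight e 64) 65535)))
    (Nat.shiftLeft 1 (Nat.land (Nat.shiftRight e 32) 65535)))
    (Nat.shiftLeft 1 (Nat.land e 65535))

/-- the sixteen sign patterns that turn a three-term relation into a clause -/
noncomputable def PA1 : ℕ := 0x100000001000000010000000100000001000000000001000100000000000100010000000100000000000100000001000000010001000000010000000000010001000000000001000000010000000100010000000000010000000100000001000000000000000000000000000000000000000000010001000000000001000100000000000000000001000100010001000100010000000000000000000100010000000000010001000100010001000100000000000100010001000100010001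
/-- the two sign patterns of a sign rule -/
noncomputable def PA2 : ℕ := 0x100010001000100010001000000000000000000000000000100010001000100010001000000000000000000000000000100010001000100010001000000000000000000000000000100010001000100010001000000000000000000000000000100010001000100010001000000000000000000000000000100010001000100010001000000000000000000000000000100010001000100010001000000000000000000000000000100010001000100010001000000000000000000000000

/-- a block of relations or of sign rules with its patterns -/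
structure Fn : Type where
  f : ℕ → ℕ
  p : ℕ

noncomputable def selB (b : ℕ) : Fn :=
  (@Bool.rec (fun _ => Fn) (@Bool.rec (fun _ => Fn) (@Bool.rec (fun _ => Fn) (@Bool.rec (fun _ => Fn) (@Bool.rec (fun _ => Fn) (@Bool.rec (fun _ => Fn) (Fn.mk H1b_0 PA1)
        (@Bool.rec (fun _ => Fn) (Fn.mk H1b_1 PA1)
         (Fn.mk H1b_2 PA1) (Nat.ble 2 b)) (Nat.ble 1 b))
       (@Bool.rec (fun _ => Fn) (Fn.mk H1b_3 PA1)
        (@Bool.rec (fun _ => Fn) (Fn.mk H1b_4 PA1)
         (Fn.mk H1b_5 PA1) (Nat.ble 5 b)) (Nat.ble 4 b)) (Nat.ble 3 b))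
      (@Bool.rec (fun _ => Fn) (@Bool.rec (fun _ => Fn) (Fn.mk H1b_6 PA1)
        (@Bool.rec (fun _ => Fn) (Fn.mk H1b_7 PA1)
         (Fn.mk H1b_8 PA1) (Nat.ble 8 b)) (Nat.ble 7 b))
       (@Bool.rec (fun _ => Fn) (Fn.mk H1b_9 PA1)
        (@Bool.rec (fun _ => Fn) (Fn.mk H1b_10 PA1)
         (Fn.mk H1b_11 PA1) (Nat.ble 11 b)) (Nat.ble 10 b)) (Nat.ble 9 b)) (Nat.ble 6 b))
     (@Bool.rec (fun _ => Fn) (@Bool.rec (fun _ => Fn) (@Bool.rec (fun _ => Fn) (Fn.mk H1b_12 PA1)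
        (@Bool.rec (fun _ => Fn) (Fn.mk H1b_13 PA1)
         (Fn.mk H1b_14 PA1) (Nat.ble 14 b)) (Nat.ble 13 b))
       (@Bool.rec (fun _ => Fn) (Fn.mk H1b_15 PA1)
        (@Bool.rec (fun _ => Fn) (Fn.mk H1b_16 PA1)
         (Fn.mk H1b_17 PA1) (Nat.ble 17 b)) (Nat.ble 16 b)) (Nat.ble 15 b))
      (@Bool.rec (fun _ => Fn) (@Bool.rec (fun _ => Fn) (Fn.mk H1b_18 PA1)
        (@Bool.rec (fun _ => Fn) (Fn.mk H1b_19 PA1)
         (Fn.mk H1b_20 PA1) (Nat.ble 20 b)) (Nat.ble 19 b))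
       (@Bool.rec (fun _ => Fn) (Fn.mk H1b_21 PA1)
        (@Bool.rec (fun _ => Fn) (Fn.mk H1b_22 PA1)
         (Fn.mk H1b_23 PA1) (Nat.ble 23 b)) (Nat.ble 22 b)) (Nat.ble 21 b)) (Nat.ble 18 b)) (Nat.ble 12 b))
    (@Bool.rec (fun _ => Fn) (@Bool.rec (fun _ => Fn) (@Bool.rec (fun _ => Fn) (@Bool.rec (fun _ => Fn) (Fn.mk H1b_24 PA1)
        (@Bool.rec (fun _ => Fn) (Fn.mk H1b_25 PA1)
         (Fn.mk H1b_26 PA1) (Nat.ble 26 b)) (Nat.ble 25 b))
       (@Bool.rec (fun _ => Fn) (Fn.mk H1b_27 PA1)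
        (@Bool.rec (fun _ => Fn) (Fn.mk H1b_28 PA1)
         (Fn.mk H1b_29 PA1) (Nat.ble 29 b)) (Nat.ble 28 b)) (Nat.ble 27 b))
      (@Bool.rec (fun _ => Fn) (@Bool.rec (fun _ => Fn) (Fn.mk H1b_30 PA1)
        (@Bool.rec (fun _ => Fn) (Fn.mk H1b_31 PA1)
         (Fn.mk H1b_32 PA1) (Nat.ble 32 b)) (Nat.ble 31 b))
       (@Bool.rec (fun _ => Fn) (Fn.mk H1b_33 PA1)
        (@Bool.rec (fun _ => Fn) (Fn.mk H1b_34 PA1)
         (Fn.mk H1b_35 PA1) (Nat.ble 35 b)) (Nat.ble 34 b)) (Nat.ble 33 b)) (Nat.ble 30 b))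
     (@Bool.rec (fun _ => Fn) (@Bool.rec (fun _ => Fn) (@Bool.rec (fun _ => Fn) (Fn.mk H1b_36 PA1)
        (@Bool.rec (fun _ => Fn) (Fn.mk H1b_37 PA1)
         (Fn.mk H1b_38 PA1) (Nat.ble 38 b)) (Nat.ble 37 b))
       (@Bool.rec (fun _ => Fn) (Fn.mk H1b_39 PA1)
        (@Bool.rec (fun _ => Fn) (Fn.mk H1b_40 PA1)
         (Fn.mk H1b_41 PA1) (Nat.ble 41 b)) (Nat.ble 40 b)) (Nat.ble 39 b))
      (@Bool.rec (fun _ => Fn) (@Bool.rec (fun _ => Fn) (Fn.mk H1b_42 PA1)
        (@Bool.rec (fun _ => Fn) (Fn.mk H1b_43 PA1)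
         (Fn.mk H1b_44 PA1) (Nat.ble 44 b)) (Nat.ble 43 b))
       (@Bool.rec (fun _ => Fn) (Fn.mk H1b_45 PA1)
        (@Bool.rec (fun _ => Fn) (Fn.mk H1b_46 PA1)
         (Fn.mk H1b_47 PA1) (Nat.ble 47 b)) (Nat.ble 46 b)) (Nat.ble 45 b)) (Nat.ble 42 b)) (Nat.ble 36 b)) (Nat.ble 24 b))
   (@Bool.rec (fun _ => Fn) (@Bool.rec (fun _ => Fn) (@Bool.rec (fun _ => Fn) (@Bool.rec (fun _ => Fn) (@Bool.rec (fun _ => Fn) (Fn.mk H1b_48 PA1)
        (@Bool.rec (fun _ => Fn) (Fn.mk H1b_49 PA1)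
         (Fn.mk H1b_50 PA1) (Nat.ble 50 b)) (Nat.ble 49 b))
       (@Bool.rec (fun _ => Fn) (Fn.mk H1b_51 PA1)
        (@Bool.rec (fun _ => Fn) (Fn.mk H1b_52 PA1)
         (Fn.mk H1b_53 PA1) (Nat.ble 53 b)) (Nat.ble 52 b)) (Nat.ble 51 b))
      (@Bool.rec (fun _ => Fn) (@Bool.rec (fun _ => Fn) (Fn.mk H1b_54 PA1)
        (@Bool.rec (fun _ => Fn) (Fn.mk H1b_55 PA1)
         (Fn.mk H1b_56 PA1) (Nat.ble 56 b)) (Nat.ble 55 b))
       (@Bool.rec (fun _ => Fn) (Fn.mk H1b_57 PA1)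
        (@Bool.rec (fun _ => Fn) (Fn.mk H1b_58 PA1)
         (Fn.mk H1b_59 PA1) (Nat.ble 59 b)) (Nat.ble 58 b)) (Nat.ble 57 b)) (Nat.ble 54 b))
     (@Bool.rec (fun _ => Fn) (@Bool.rec (fun _ => Fn) (@Bool.rec (fun _ => Fn) (Fn.mk H1b_60 PA1)
        (@Bool.rec (fun _ => Fn) (Fn.mk H1b_61 PA1)
         (Fn.mk H1b_62 PA1) (Nat.ble 62 b)) (Nat.ble 61 b))
       (@Bool.rec (fun _ => Fn) (Fn.mk H1b_63 PA1)
        (@Bool.rec (fun _ => Fn) (Fn.mk H1b_64 PA1)
         (Fn.mk H1b_65 PA1) (Nat.ble 65 b)) (Nat.ble 64 b)) (Nat.ble 63 b))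
      (@Bool.rec (fun _ => Fn) (@Bool.rec (fun _ => Fn) (Fn.mk H1b_66 PA1)
        (@Bool.rec (fun _ => Fn) (Fn.mk H2b_0 PA2)
         (Fn.mk H2b_1 PA2) (Nat.ble 68 b)) (Nat.ble 67 b))
       (@Bool.rec (fun _ => Fn) (Fn.mk H2b_2 PA2)
        (@Bool.rec (fun _ => Fn) (Fn.mk H2b_3 PA2)
         (Fn.mk H2b_4 PA2) (Nat.ble 71 b)) (Nat.ble 70 b)) (Nat.ble 69 b)) (Nat.ble 66 b)) (Nat.ble 60 b))
    (@Bool.rec (fun _ => Fn) (@Bool.rec (fun _ => Fn) (@Bool.rec (fun _ => Fn) (@Bool.rec (fun _ => Fn) (Fn.mk H2b_5 PA2)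
        (@Bool.rec (fun _ => Fn) (Fn.mk H2b_6 PA2)
         (Fn.mk H2b_7 PA2) (Nat.ble 74 b)) (Nat.ble 73 b))
       (@Bool.rec (fun _ => Fn) (Fn.mk H2b_8 PA2)
        (@Bool.rec (fun _ => Fn) (Fn.mk H2b_9 PA2)
         (Fn.mk H2b_10 PA2) (Nat.ble 77 b)) (Nat.ble 76 b)) (Nat.ble 75 b))
      (@Bool.rec (fun _ => Fn) (@Bool.rec (fun _ => Fn) (Fn.mk H2b_11 PA2)
        (@Bool.rec (fun _ => Fn) (Fn.mk H2b_12 PA2)
         (Fn.mk H2b_13 PA2) (Nat.ble 80 b)) (Nat.ble 79 b))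
       (@Bool.rec (fun _ => Fn) (Fn.mk H2b_14 PA2)
        (@Bool.rec (fun _ => Fn) (Fn.mk H2b_15 PA2)
         (Fn.mk H2b_16 PA2) (Nat.ble 83 b)) (Nat.ble 82 b)) (Nat.ble 81 b)) (Nat.ble 78 b))
     (@Bool.rec (fun _ => Fn) (@Bool.rec (fun _ => Fn) (@Bool.rec (fun _ => Fn) (Fn.mk H2b_17 PA2)
        (@Bool.rec (fun _ => Fn) (Fn.mk H2b_18 PA2)
         (Fn.mk H2b_19 PA2) (Nat.ble 86 b)) (Nat.ble 85 b))
       (@Bool.rec (fun _ => Fn) (Fn.mk H2b_20 PA2)
        (@Bool.rec (fun _ => Fn) (Fn.mk H2b_21 PA2)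
         (Fn.mk H2b_22 PA2) (Nat.ble 89 b)) (Nat.ble 88 b)) (Nat.ble 87 b))
      (@Bool.rec (fun _ => Fn) (@Bool.rec (fun _ => Fn) (Fn.mk H2b_23 PA2)
        (@Bool.rec (fun _ => Fn) (Fn.mk H2b_24 PA2)
         (Fn.mk H2b_25 PA2) (Nat.ble 92 b)) (Nat.ble 91 b))
       (@Bool.rec (fun _ => Fn) (@Bool.rec (fun _ => Fn) (Fn.mk H2b_26 PA2)
         (Fn.mk H2b_27 PA2) (Nat.ble 94 b))
        (@Bool.rec (fun _ => Fn) (Fn.mk H2b_28 PA2)
         (Fn.mk H2b_29 PA2) (Nat.ble 96 b)) (Nat.ble 95 b)) (Nat.ble 93 b)) (Nat.ble 90 b)) (Nat.ble 84 b)) (Nat.ble 72 b)) (Nat.ble 48 b))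

noncomputable def gch (k : ℕ) : ℕ :=
  Nat.rec (motive := fun _ => ℕ) 0
    (fun b _ => Fn.rec (motive := fun _ => ℕ) (fun f _ => f (Nat.land k 15)) (selB b))
    (Nat.succ (Nat.mod (Nat.shiftRight k 4) 97))
noncomputable def gpt (k : ℕ) : ℕ :=
  Nat.rec (motive := fun _ => ℕ) 0
    (fun b _ => Fn.rec (motive := fun _ => ℕ) (fun _ p => p) (selB b))
    (Nat.succ (Nat.mod (Nat.shiftRight k 4) 97))

noncomputable def gm2 (c k _i : ℕ) : ℕ :=
  mk6 (Nat.land (Nat.xor (Nat.shiftRight (gch k) (Nat.mul (Nat.land c 4080) 6))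
    (Nat.shiftRight (gpt k) (Nat.mul (Nat.land c 15) 96))) 0xffffffffffffffffffffffff)

/-- clause with code 4096 k + 16 i + p: chunk k, entry i, pattern p -/
noncomputable def gm (c : ℕ) : ℕ :=
  Nat.rec (motive := fun _ => ℕ) 1 (gm2 c) (Nat.succ (Nat.shiftRight c 12))

noncomputable def qm2 (e : ℕ) : ℕ :=
  Nat.lor (mk6 (Nat.land e 0xffffffffffffffffffffffff))
    (mk6 (Nat.land (Nat.shiftRight e 96) 0xffffffffffffffffffffffff))

/-- kind 0: both literals of a variable, kind 1: definition of an orientation, else four lines -/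
noncomputable def qm (e : ℕ) : ℕ :=
  Nat.rec (motive := fun _ => ℕ) (Nat.shiftLeft 3 (Nat.mul 2 (Nat.shiftRight e 2)))
    (fun k _ => Nat.rec (motive := fun _ => ℕ)
      (mk6 (Nat.land (Nat.xor (odefE (Nat.shiftRight e 6))
        (Nat.shiftRight PA1 (Nat.mul (Nat.land (Nat.shiftRight e 2) 15) 96))) 0xffffffffffffffffffffffff))
      (fun _ _ => qm2 (Nat.xor (Nat.xor (quadE (Nat.shiftRight e 11)) (qpol (Nat.shiftRight e 2)))
        0x000100010001000100010001000100010001000100010001)) k)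
    (Nat.land e 3)

/-- below 6356992 relations and sign rules, below a listed clauses, below b coded clauses, below c
rows, then records of width w moved up by off -/
noncomputable def msk (ET QT RT row : ℕ → ℕ) (a b c w v off m : ℕ) : ℕ :=
  Bool.rec (motive := fun _ => ℕ) (gm m)
    (Bool.rec (motive := fun _ => ℕ)
      (mk6 (tf ET 96 0xffffffffffffffffffffffff 6 63 (Nat.sub m 6356992)))
      (Bool.rec (motive := fun _ => ℕ) (qm (tf QT 48 0xffffffffffff 6 63 (Nat.sub m a)))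
        (Bool.rec (motive := fun _ => ℕ) (row (Nat.sub m b))
          (Nat.shiftLeft (tf RT w v 4 15 (Nat.sub m c)) off) (Nat.ble c m)) (Nat.ble b m))
      (Nat.ble a m))
    (Nat.ble 6356992 m)

/-- as msk, with an arbitrary table of records -/
noncomputable def mskG (ET QT row rc : ℕ → ℕ) (a b c m : ℕ) : ℕ :=
  Bool.rec (motive := fun _ => ℕ) (gm m)
    (Bool.rec (motive := fun _ => ℕ)
      (mk6 (tf ET 96 0xffffffffffffffffffffffff 6 63 (Nat.sub m 6356992)))
      (Bool.rec (motive := fun _ => ℕ) (qm (tf QT 48 0xffffffffffff 6 63 (Nat.sub m a)))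
        (Bool.rec (motive := fun _ => ℕ) (row (Nat.sub m b)) (rc (Nat.sub m c)) (Nat.ble c m))
        (Nat.ble b m))
      (Nat.ble a m))
    (Nat.ble 6356992 m)

def rcS1 (off e : ℕ) : ℕ := Nat.shiftLeft (Nat.shiftRight e 192) off

/-- records with twelve listed literals in the low 192 bits and a mask above -/
noncomputable def rcS (RT : ℕ → ℕ) (w v off i : ℕ) : ℕ :=
  Nat.lor (rcS1 off (tf RT w v 4 15 i)) (qm2 (tf RT w v 4 15 i))

/-- the entries of the chunk a that are not zero are covered by the groups in b -/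
noncomputable def elQ (T8 Q8 x BT : ℕ) (PP TT QQ : ℕ → ℕ) (F a b c : ℕ) : Bool :=
  Nat.beq (Nat.shiftRight a (Nat.mul 96 (elCov T8 Q8 x BT PP TT QQ F a b c))) 0

/-- valuations of the tuples in H -/
def cls (H : (Fin 10 → Pt) → Prop) (s : ℕ → ℝ) : Prop := ∃ X, H X ∧ s = cval X

theorem look_all {q : ℕ → ℕ → ℕ → Bool} {p : ℕ → Prop} (hq : ∀ a b c, q a b c = true → p a) (t : Tre)
    (h : allT q t = true) (i : ℕ) : p (look t i) := by
  induction t generalizing i with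
  | lf a => exact hq a 0 0 h
  | lg a b c => exact hq a b c h
  | nd l r il ir =>
    have e : allT q (Tre.nd l r) = Bool.rec false (allT q r) (allT q l) := rfl
    have e2 : look (Tre.nd l r) i = Nat.rec (look l (Nat.shiftRight i 1))
      (fun _ _ => look r (Nat.shiftRight i 1)) (Nat.land i 1) := rfl
    rw [e] at h
    rw [e2]
    generalize hb : allT q l = b at h
    cases b with
    | false => exact absurd h (by simp)
    | true =>
      generalize Nat.land i 1 = u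
      cases u with
      | zero => exact il hb _
      | succ _ => exact ir h _

theorem ms_f16 (e k : ℕ) : Nat.land (Nat.shiftRight e (16 * k)) 65535 = fld 16 e k :=
  Nat.and_two_pow_sub_one_eq_mod (e >>> (16 * k)) 16

theorem ms_f96 (e : ℕ) : Nat.land e 0xffffffffffffffffffffffff = e % 2 ^ 96 :=
  Nat.and_two_pow_sub_one_eq_mod e 96

theorem ms_one (l : ℕ) : (Nat.shiftLeft 1 l).testBit l = true := by
  show (1 <<< l).testBit l = true
  rw [Nat.one_shiftLeft, Nat.testBit_two_pow_self]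

theorem ms_fld (e i : ℕ) (hi : i < 6) : fld 16 (e % 2 ^ 96) i = fld 16 e i :=
  Nat.eq_of_testBit_eq fun q => by
    unfold fld
    simp only [Nat.testBit_mod_two_pow, Nat.testBit_shiftRight]
    by_cases hq : q < 16
    · rw [decide_eq_true (by omega : 16 * i + q < 96), Bool.true_and]
    · rw [decide_eq_false hq, Bool.false_and, Bool.false_and]

theorem mk6_bit (e i : ℕ) (hi : i < 6) :
    (mk6 (Nat.land e 0xffffffffffffffffffffffff)).testBit (fld 16 e i) = true := by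
  rw [ms_f96, ← ms_fld e i hi]
  have he : e % 2 ^ 96 < 2 ^ 96 := Nat.mod_lt _ (by norm_num)
  generalize e % 2 ^ 96 = u at he
  have e5 : Nat.shiftRight u 80 = fld 16 u 5 := by
    show u >>> 80 = (u >>> 80) % 2 ^ 16
    rw [Nat.mod_eq_of_lt]
    rw [Nat.shiftRight_eq_div_pow]; omega
  have e0 : Nat.land u 65535 = fld 16 u 0 := ms_f16 u 0
  unfold mk6
  rw [e5, e0, ms_f16 u 1, ms_f16 u 2, ms_f16 u 3, ms_f16 u 4]
  simp only [Nat.lor_eq, Nat.testBit_or, Bool.or_eq_true]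
  interval_cases i <;> simp only [ms_one, true_or, or_true]

theorem mk6_ok {s : ℕ → ℝ} {e : ℕ} (h : Cl6 s e) :
    ClM s (mk6 (Nat.land e 0xffffffffffffffffffffffff)) := by
  obtain ⟨i, hi, hp⟩ := h
  exact ⟨_, mk6_bit e i hi, hp⟩

theorem ms_cl6 {s : ℕ → ℝ} {e : ℕ} (h : Cl6 s (e % 2 ^ 96)) : Cl6 s e := by
  obtain ⟨i, hi, hp⟩ := h
  exact ⟨i, hi, by rwa [ms_fld e i hi] at hp⟩

theorem ms_pat {s : ℕ → ℝ} (hs : Valn s) {e p : ℕ} (hp : p < 16) (h : Tri s e) :
    Cl6 s (e ^^^ fld 96 PA1 p) := by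
  have e1 : ∀ p < 16, fld 96 PA1 p = polW (p.testBit 0) (p.testBit 1) (p.testBit 2) (p.testBit 3)
      ^^^ 0x000100010001000100010001 := by decide +kernel
  rw [e1 p hp, ← Nat.xor_assoc]
  exact tri_cl6 hs (tri_pol hs h _ _ _ _)

theorem ms_l15 (c : ℕ) : Nat.land c 15 < 16 :=
  lt_of_le_of_lt (Nat.and_le_right (n := c) (m := 15)) (by norm_num)

theorem selB_1 (b : ℕ) (hb : b < 67) (u : ℕ) : (selB b).f u = H1t b u ∧ (selB b).p = PA1 := by
  interval_cases b <;> exact ⟨rfl, rfl⟩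

theorem selB_2 (a : ℕ) (ha : a < 30) (u : ℕ) :
    (selB (67 + a)).f u = H2t a u ∧ (selB (67 + a)).p = PA2 := by
  interval_cases a <;> exact ⟨rfl, rfl⟩

theorem gm_ok {X : Fin 10 → Pt} (hX : Good X) (c : ℕ) : ClM (cval X) (gm c) := by
  have h1 : c &&& 4080 ≤ 4080 := Nat.and_le_right
  have h2 : (c &&& 4080) % 2 ^ 4 = 0 := by rw [Nat.and_mod_two_pow]; exact Nat.and_zero _
  have h3 : Nat.mul (Nat.land c 4080) 6 = 96 * ((c &&& 4080) / 16) := by
    show (c &&& 4080) * 6 = _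
    omega
  have h4 : (c &&& 4080) / 16 < 256 := by omega
  have h5 := ms_l15 c
  show ClM (cval X) (mk6 (Nat.land (Nat.xor (Nat.shiftRight (gch (Nat.shiftRight c 12))
    (Nat.mul (Nat.land c 4080) 6)) (Nat.shiftRight (gpt (Nat.shiftRight c 12))
      (Nat.mul (Nat.land c 15) 96))) 0xffffffffffffffffffffffff))
  rw [h3, show Nat.mul (Nat.land c 15) 96 = 96 * Nat.land c 15 from Nat.mul_comm _ _]
  generalize (c &&& 4080) / 16 = i at h4
  generalize Nat.land c 15 = p at h5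
  generalize Nat.shiftRight c 12 = k
  refine mk6_ok (ms_cl6 ?_)
  rw [Nat.xor_eq, Nat.xor_mod_two_pow]
  change Cl6 (cval X) (fld 96 (gch k) i ^^^ fld 96 (gpt k) p)
  have hb : Nat.mod (Nat.shiftRight k 4) 97 < 97 := Nat.mod_lt _ (by norm_num)
  have hc := ms_l15 k
  change Cl6 (cval X) (fld 96 ((selB (Nat.mod (Nat.shiftRight k 4) 97)).f (Nat.land k 15)) i ^^^
    fld 96 (selB (Nat.mod (Nat.shiftRight k 4) 97)).p p)
  generalize Nat.mod (Nat.shiftRight k 4) 97 = b at hb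
  generalize Nat.land k 15 = u at hc
  by_cases h67 : b < 67
  · rw [(selB_1 b h67 u).1, (selB_1 b h67 u).2]
    exact ms_pat (good_vc X hX) h5 (H1t_ok hX b u hc i h4)
  · obtain ⟨a, rfl⟩ : ∃ a, b = 67 + a := ⟨b - 67, by omega⟩
    have e1 : ∀ p < 16, fld 96 PA2 p = 0 ∨ fld 96 PA2 p = all6 := by decide +kernel
    rw [(selB_2 a (by omega) u).1, (selB_2 a (by omega) u).2]
    rcases e1 p h5 with h | h <;> rw [h]
    · rw [Nat.xor_zero]; exact (H2t_ok hX a u hc i h4).1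
    · exact (H2t_ok hX a u hc i h4).2

theorem qm2_ok {s : ℕ → ℝ} (hs : Valn s) {e : ℕ} (h : Quad s e) :
    ClM s (qm2 (Nat.xor e 0x000100010001000100010001000100010001000100010001)) := by
  by_contra hM
  have p : ∀ k < 12, 0 < s (fld 16 e k) := fun k hk => by
    refine lp_pos hs hM ?_
    have h1 : fld 16 0x000100010001000100010001000100010001000100010001 k = 1 := by
      interval_cases k <;> decide
    rw [← h1, ← lp_fld_xor]
    unfold qm2
    rw [Nat.lor_eq, Nat.testBit_or, Bool.or_eq_true, Nat.xor_eq]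
    generalize e ^^^ 0x000100010001000100010001000100010001000100010001 = u
    by_cases h6 : k < 6
    · exact Or.inl (mk6_bit u k h6)
    · have e2 : fld 16 u k = fld 16 (Nat.shiftRight u 96) (k - 6) := by
        unfold fld
        rw [Nat.shiftRight_eq, ← Nat.shiftRight_add, show 96 + 16 * (k - 6) = 16 * k by omega]
      rw [e2]
      exact Or.inr (mk6_bit _ _ (by omega))
  have h1 := mul_pos (mul_pos (p 0 (by norm_num)) (p 1 (by norm_num))) (p 2 (by norm_num))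
  have h2 := mul_pos (mul_pos (p 3 (by norm_num)) (p 4 (by norm_num))) (p 5 (by norm_num))
  have h3 := mul_pos (mul_pos (p 6 (by norm_num)) (p 7 (by norm_num))) (p 8 (by norm_num))
  have h4 := mul_pos (mul_pos (p 9 (by norm_num)) (p 10 (by norm_num))) (p 11 (by norm_num))
  unfold Quad at h
  linarith

theorem qm_ok {X : Fin 10 → Pt} (hX : Good X) (e : ℕ) : ClM (cval X) (qm e) := by
  have hs := good_vc X hX
  unfold qm
  generalize Nat.land e 3 = k
  rcases k with _ | _ | k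
  · change ClM (cval X) (3 <<< (2 * (e >>> 2)))
    generalize e >>> 2 = v
    rcases lt_trichotomy (cval X (2 * v)) 0 with h | h | h
    · refine ⟨2 * v + 1, ?_, ?_⟩
      · rw [Nat.testBit_shiftLeft, decide_eq_true (by omega), show 2 * v + 1 - 2 * v = 1 by omega]; rfl
      · rw [← Nat.xor_one_of_even (even_two_mul v), hs.2.1]; linarith
    · exact absurd h (hs.1 _)
    · refine ⟨2 * v, ?_, h⟩
      rw [Nat.testBit_shiftLeft, decide_eq_true (by omega), Nat.sub_self]; rfl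
  · change ClM (cval X) (mk6 (Nat.land (Nat.xor (odefE (Nat.shiftRight e 6))
      (Nat.shiftRight PA1 (Nat.mul (Nat.land (Nat.shiftRight e 2) 15) 96))) 0xffffffffffffffffffffffff))
    have h5 := ms_l15 (Nat.shiftRight e 2)
    rw [show Nat.mul (Nat.land (Nat.shiftRight e 2) 15) 96 = 96 * Nat.land (Nat.shiftRight e 2) 15 from
      Nat.mul_comm _ _]
    generalize Nat.land (Nat.shiftRight e 2) 15 = p at h5
    have h := ms_pat hs h5 (odefE_tri hX (Nat.shiftRight e 6))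
    refine mk6_ok (ms_cl6 ?_)
    obtain ⟨i, hi, hp⟩ := h
    refine ⟨i, hi, ?_⟩
    rw [ms_fld _ i hi, Nat.xor_eq, lp_fld_xor]
    rw [lp_fld_xor] at hp
    unfold fld at hp
    rw [← fld.eq_1 16 (PA1 >>> (96 * p) % 2 ^ 96) i, ms_fld _ i hi] at hp
    exact hp
  · exact qm2_ok hs (quad_pol hs (quadE_quad hX _) _)

theorem elQ_ok {T8 Q8 x BT : ℕ} {PP TT QQ : ℕ → ℕ} {F a b c : ℕ} {X : Fin 10 → Pt} (hX : Good X)
    (hA : AxC X T8 Q8 x BT PP TT QQ) (hF : Inv (cval X) F)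
    (h : elQ T8 Q8 x BT PP TT QQ F a b c = true) (i : ℕ) : Cl6 (cval X) (fld 96 a i) := by
  have h1 := elCov_sound T8 Q8 x BT PP TT QQ F a b c X hX hA hF
  have h2 : a >>> (96 * elCov T8 Q8 x BT PP TT QQ F a b c) = 0 := Nat.eq_of_beq_eq_true h
  generalize elCov T8 Q8 x BT PP TT QQ F a b c = n at h1 h2
  by_cases hi : i < n
  · exact h1 i hi
  · have e : fld 96 a i = 0 := by
      unfold fld
      rw [show 96 * i = 96 * n + 96 * (i - n) by omega, Nat.shiftRight_add, h2, Nat.zero_shiftRight,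
        Nat.zero_mod]
    rw [e]
    refine ⟨0, by norm_num, ?_⟩
    rw [show fld 16 0 0 = 0 from rfl, (good_vc X hX).2.2]
    exact one_pos

/-- a table of listed clauses -/
def ElOk (H : (Fin 10 → Pt) → Prop) (ET : ℕ → ℕ) : Prop :=
  ∀ X, H X → ∀ k i, Cl6 (cval X) (fld 96 (ET k) i)

theorem el_ok {H : (Fin 10 → Pt) → Prop} {T8 Q8 x BT : ℕ} {PP TT QQ : ℕ → ℕ} {F : ℕ} {t : Tre}
    (hH : ∀ X, H X → Good X ∧ AxC X T8 Q8 x BT PP TT QQ ∧ Inv (cval X) F)
    (h : allT (elQ T8 Q8 x BT PP TT QQ F) t = true) : ElOk H (look t) := fun X hX k =>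
  look_all (p := fun a => ∀ i, Cl6 (cval X) (fld 96 a i))
    (fun _ _ _ hq => elQ_ok (hH X hX).1 (hH X hX).2.1 (hH X hX).2.2 hq) t h k

theorem el_zero {H : (Fin 10 → Pt) → Prop} (hH : ∀ X, H X → Good X) : ElOk H (look (Tre.lf 0)) :=
  fun X hX _ i => ⟨0, by norm_num, by
    rw [show look (Tre.lf 0) _ = 0 from rfl, show fld 96 0 i = 0 by simp [fld],
      show fld 16 0 0 = 0 from rfl, (good_vc X (hH X hX)).2.2]
    exact one_pos⟩

theorem cls_valn {H : (Fin 10 → Pt) → Prop} (hH : ∀ X, H X → Good X) (s : ℕ → ℝ) (h : cls H s) :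
    Valn s := by
  obtain ⟨X, hX, rfl⟩ := h
  exact good_vc X (hH X hX)

/-- all masks before the records are clauses -/
theorem msk_ok {H : (Fin 10 → Pt) → Prop} (hH : ∀ X, H X → Good X) {ET QT RT row : ℕ → ℕ}
    {a b c w v off : ℕ} (hE : ElOk H ET) (hR : ∀ X, H X → ∀ j, b + j < c → ClM (cval X) (row j)) :
    Vm (cls H) (msk ET QT RT row a b c w v off) (c + 1) := by
  rintro m hm s ⟨X, hX, rfl⟩
  unfold msk
  generalize Nat.ble 6356992 m = b1
  cases b1 with
  | false => exact gm_ok (hH X hX) m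
  | true =>
    generalize Nat.ble a m = b2
    cases b2 with
    | false =>
      have e : ∀ i, tf ET 96 0xffffffffffffffffffffffff 6 63 i = Nat.land (Nat.shiftRight
        (ET (Nat.shiftRight i 6)) (96 * Nat.land i 63)) 0xffffffffffffffffffffffff := fun _ => rfl
      change ClM (cval X) (mk6 (tf ET 96 0xffffffffffffffffffffffff 6 63 (Nat.sub m 6356992)))
      generalize Nat.sub m 6356992 = i
      rw [e]
      exact mk6_ok (ms_cl6 (hE X hX _ _))
    | true =>
      generalize h3 : Nat.ble b m = b3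
      cases b3 with
      | false => exact qm_ok (hH X hX) _
      | true =>
        have h4 : b ≤ m := Nat.le_of_ble_eq_true h3
        generalize h5 : Nat.ble c m = b4
        cases b4 with
        | false => exact hR X hX (m - b) (by omega)
        | true => exact absurd (Nat.le_of_ble_eq_true h5) (by omega)

/-- all masks before the records are clauses -/
theorem mskG_ok {H : (Fin 10 → Pt) → Prop} (hH : ∀ X, H X → Good X) {ET QT row rc : ℕ → ℕ}
    {a b c : ℕ} (hE : ElOk H ET) (hR : ∀ X, H X → ∀ j, b + j < c → ClM (cval X) (row j)) :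
    Vm (cls H) (mskG ET QT row rc a b c) (c + 1) := by
  rintro m hm s ⟨X, hX, rfl⟩
  unfold mskG
  generalize Nat.ble 6356992 m = b1
  cases b1 with
  | false => exact gm_ok (hH X hX) m
  | true =>
    generalize Nat.ble a m = b2
    cases b2 with
    | false =>
      have e : ∀ i, tf ET 96 0xffffffffffffffffffffffff 6 63 i = Nat.land (Nat.shiftRight
        (ET (Nat.shiftRight i 6)) (96 * Nat.land i 63)) 0xffffffffffffffffffffffff := fun _ => rfl
      change ClM (cval X) (mk6 (tf ET 96 0xffffffffffffffffffffffff 6 63 (Nat.sub m 6356992)))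
      generalize Nat.sub m 6356992 = i
      rw [e]
      exact mk6_ok (ms_cl6 (hE X hX _ _))
    | true =>
      generalize h3 : Nat.ble b m = b3
      cases b3 with
      | false => exact qm_ok (hH X hX) _
      | true =>
        have h4 : b ≤ m := Nat.le_of_ble_eq_true h3
        generalize h5 : Nat.ble c m = b4
        cases b4 with
        | false => exact hR X hX (m - b) (by omega)
        | true => exact absurd (Nat.le_of_ble_eq_true h5) (by omega)

/-- if literal 0 is false in the class, the class is empty -/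
theorem cls_empty {H : (Fin 10 → Pt) → Prop} (hH : ∀ X, H X → Good X) (h : Vi (cls H) 1) (X : Fin 10 → Pt) :
    ¬ H X := fun hX => by
  have h1 := h _ ⟨X, hX, rfl⟩ 0 rfl
  rw [(good_vc X (hH X hX)).2.2] at h1
  linarith

/-- a row of a table without a false row is a clause -/
theorem row_cl {s : ℕ → ℝ} (hs : Valn s) {R w off n j : ℕ} (h : ¬ Lane s R w off 0 n) (hj : j < n) :
    ClM s (Nat.shiftLeft (fdf w R j) off) :=
  mc_not hs fun hI => h ⟨j, Nat.zero_le j, hj, hI⟩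

end AcuteCh
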