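import Pool.Agent.Lib.MP_bc94b4_co.Ch.Top

/-! Nine points of 4-space with acute angles only; a 4-polytope with ten vertices, any two of which
are 0-antipodal. -/

set_option autoImplicit false

namespace AcuteCh

def nineZ : Fin 9 → Fin 4 → ℤ :=
  ![![85, 59, 15, 12], ![14, 41, 54, 90], ![100, 58, 61, 53], ![43, 104, 24, 67], ![60, 0, 0, 45],
    ![25, 55, 50, 0], ![47, 25, 93, 33], ![75, 25, 29, 96], ![0, 32, 13, 45]]

theorem nineZ_pos : ∀ i j k : Fin 9, i ≠ j → k ≠ j →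
    0 < ∑ t, (nineZ k t - nineZ j t) * (nineZ i t - nineZ j t) := by
  simp only [Fin.sum_univ_four]
  decide +kernel

theorem own_nine : ∃ S : Finset (EuclideanSpace ℝ (Fin 4)), S.card = 9 ∧
    ∀ a ∈ S, ∀ b ∈ S, ∀ c ∈ S, a ≠ b → b ≠ c → a ≠ c →
      EuclideanGeometry.angle a b c < Real.pi / 2 := by
  classical
  let Y : Fin 9 → EuclideanSpace ℝ (Fin 4) := fun i => WithLp.toLp 2 fun t => (nineZ i t : ℝ)
  have h : ∀ i j k, i ≠ j → k ≠ j → 0 < inner ℝ (Y i - Y j) (Y k - Y j) := fun i j k h1 h2 => by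
    have h3 : (0 : ℝ) < ((∑ t, (nineZ k t - nineZ j t) * (nineZ i t - nineZ j t) : ℤ) : ℝ) := by
      exact_mod_cast nineZ_pos i j k h1 h2
    simpa [Y, PiLp.inner_apply] using h3
  have hY : Function.Injective Y := fun i j e => by
    by_contra hij
    simpa [e] using h i j i hij hij
  refine ⟨Finset.univ.image Y, by rw [Finset.card_image_of_injective _ hY]; simp, ?_⟩
  intro a ha b hb c hc hab hbc _
  obtain ⟨i, -, rfl⟩ := Finset.mem_image.1 ha
  obtain ⟨j, -, rfl⟩ := Finset.mem_image.1 hb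
  obtain ⟨k, -, rfl⟩ := Finset.mem_image.1 hc
  rw [EuclideanGeometry.angle, InnerProductGeometry.angle, Real.arccos_lt_pi_div_two]
  exact div_pos (h i j k (fun e => hab (congrArg Y e)) fun e => hbc (congrArg Y e).symm)
    (mul_pos (norm_pos_iff.2 (sub_ne_zero.2 hab)) (norm_pos_iff.2 (sub_ne_zero.2 hbc.symm)))

theorem own_span (S : Finset (EuclideanSpace ℝ (Fin 4))) (h8 : 8 ≤ S.card)
    (hA : ∀ x ∈ S, ∀ y ∈ S, x ≠ y → ∃ u : EuclideanSpace ℝ (Fin 4), ∀ z ∈ S,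
      (z ≠ x → inner ℝ u z < inner ℝ u x) ∧ (z ≠ y → inner ℝ u y < inner ℝ u z)) :
    affineSpan ℝ (S : Set (EuclideanSpace ℝ (Fin 4))) = ⊤ := by
  classical
  obtain ⟨x0, h0⟩ : S.Nonempty := Finset.card_pos.1 (by omega)
  rw [AffineSubspace.affineSpan_eq_top_iff_vectorSpan_eq_top_of_nonempty ℝ _ _ ⟨x0, h0⟩]
  by_contra hne
  obtain ⟨f, hf, hle⟩ := Submodule.exists_le_ker_of_lt_top _ (lt_top_iff_ne_top.2 hne)
  have hr : Module.finrank ℝ (LinearMap.ker f) = 3 := by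
    have h1 := Module.Dual.finrank_ker_add_one_of_ne_zero hf
    rw [finrank_euclideanSpace_fin] at h1
    omega
  obtain ⟨g, hg⟩ := (LinearMap.ker f).subtype.exists_leftInverse_of_injective
    (Submodule.ker_subtype _)
  have hv : ∀ z ∈ S, ((g (z - x0) : LinearMap.ker f) : EuclideanSpace ℝ (Fin 4)) = z - x0 :=
    fun z hz => congrArg Subtype.val
      (LinearMap.congr_fun hg ⟨z - x0, hle (vsub_mem_vectorSpan ℝ hz h0)⟩)
  have hi : Set.InjOn (fun z => g (z - x0)) S := fun a ha b hb e => by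
    have h1 := congrArg Subtype.val e
    simp only at h1
    rw [hv a ha, hv b hb] at h1
    exact sub_left_injective h1
  have hb := Pool.Agent.Bc94b4.Up.upper hr (by norm_num) (S.image fun z => g (z - x0)) ?_
  · rw [Finset.card_image_of_injOn hi] at hb
    have hp : (0 : ℝ) < 1 / (10 ^ 10 * (((3 : ℕ) : ℝ) + 2) ^ 30) := by positivity
    have h9 : ((8 : ℕ) : ℝ) ≤ S.card := by exact_mod_cast h8
    push_cast at h9
    linarith
  intro a ha b hb hab
  obtain ⟨x, hx, rfl⟩ := Finset.mem_image.1 ha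
  obtain ⟨y, hy, rfl⟩ := Finset.mem_image.1 hb
  obtain ⟨u, hu⟩ := hA x hx y hy fun e => hab (by rw [e])
  refine ⟨(innerₛₗ ℝ u).comp (LinearMap.ker f).subtype, fun c hc => ?_⟩
  obtain ⟨z, hz, rfl⟩ := Finset.mem_image.1 hc
  simp only [LinearMap.comp_apply, Submodule.subtype_apply, hv z hz, hv x hx, hv y hy,
    innerₛₗ_apply_apply, inner_sub_right, sub_lt_sub_iff_right]
  exact ⟨fun e => (hu z hz).1 fun e' => e (by rw [e']), fun e => (hu z hz).2 fun e' => e (by rw [e'])⟩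

theorem own_hull {E : Type} [AddCommGroup E] [Module ℝ E] (S : Set E) (u : E →ₗ[ℝ] ℝ) (x : E)
    (h : ∀ z ∈ S, z ≠ x → u z < u x) : ∀ z ∈ convexHull ℝ S, z ≠ x → u z < u x := by
  refine convexHull_min (t := {z | z ≠ x → u z < u x}) h ?_
  intro a ha b hb s t hs ht hst hne
  have ha' : u a ≤ u x := by
    by_cases e : a = x
    · rw [e]
    · exact (ha e).le
  have hb' : u b ≤ u x := by
    by_cases e : b = x
    · rw [e]
    · exact (hb e).le
  have hx : u x = s * u x + t * u x := by rw [← add_mul, hst, one_mul]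
  rw [map_add, map_smul, map_smul, smul_eq_mul, smul_eq_mul, hx]
  rcases hs.eq_or_lt with rfl | hs'
  · obtain rfl : t = 1 := by linarith
    have := hb fun e => hne (by simp [e])
    linarith
  rcases ht.eq_or_lt with rfl | ht'
  · obtain rfl : s = 1 := by linarith
    have := ha fun e => hne (by simp [e])
    linarith
  by_cases e : a = x
  · have h1 : b ≠ x := fun e' => hne (by rw [e, e', ← add_smul, hst, one_smul])
    exact add_lt_add_of_le_of_lt (mul_le_mul_of_nonneg_left ha' hs) (mul_lt_mul_of_pos_left (hb h1) ht')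
  · exact add_lt_add_of_lt_of_le (mul_lt_mul_of_pos_left (ha e) hs') (mul_le_mul_of_nonneg_left hb' ht)

theorem own_ten : ∃ S : Finset (EuclideanSpace ℝ (Fin 4)), S.card = 10 ∧
    affineSpan ℝ (S : Set (EuclideanSpace ℝ (Fin 4))) = ⊤ ∧
    (convexHull ℝ (S : Set (EuclideanSpace ℝ (Fin 4)))).extremePoints ℝ = S ∧
    ∀ x ∈ S, ∀ y ∈ S, x ≠ y → ∃ u : EuclideanSpace ℝ (Fin 4),
      ∀ z ∈ convexHull ℝ (S : Set (EuclideanSpace ℝ (Fin 4))),
        (z ≠ x → inner ℝ u z < inner ℝ u x) ∧ (z ≠ y → inner ℝ u y < inner ℝ u z) := by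
  obtain ⟨Q, hQ⟩ := Pool.Agent.Bc94b4.exists_family (κ := Fin 1)
  obtain ⟨S, hS, hA⟩ := Pool.Agent.Bc94b4.transfer (d := 4)
    (Fintype.equivFinOfCardEq (by simp)) Q hQ
  have h10 : S.card = 10 := by rw [hS]; simp
  have hH : ∀ x ∈ S, ∀ y ∈ S, x ≠ y → ∃ u : EuclideanSpace ℝ (Fin 4),
      ∀ z ∈ convexHull ℝ (S : Set (EuclideanSpace ℝ (Fin 4))),
        (z ≠ x → inner ℝ u z < inner ℝ u x) ∧ (z ≠ y → inner ℝ u y < inner ℝ u z) := by
    intro x hx y hy hxy
    obtain ⟨u, hu⟩ := hA x hx y hy hxy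
    refine ⟨u, fun z hz => ⟨own_hull _ (innerₛₗ ℝ u) x (fun w hw => (hu w hw).1) z hz, fun e => ?_⟩⟩
    have h1 := own_hull _ (-innerₛₗ ℝ u) y (fun w hw e' => neg_lt_neg ((hu w hw).2 e')) z hz e
    exact neg_lt_neg_iff.1 h1
  refine ⟨S, h10, own_span S (by omega) hA, ?_, hH⟩
  refine Set.Subset.antisymm extremePoints_convexHull_subset fun x hx => ?_
  obtain ⟨y, hy, hyx⟩ := Finset.exists_mem_ne (s := S) (by omega) x
  obtain ⟨u, hu⟩ := hH x hx y hy hyx.symm
  refine exposedPoints_subset_extremePoints ⟨subset_convexHull ℝ _ hx, innerSL ℝ u, fun z hz => ?_⟩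
  by_cases e : z = x
  · exact ⟨by rw [e], fun _ => e⟩
  · exact ⟨((hu z hz).1 e).le, fun h => absurd ((hu z hz).1 e) (not_lt.2 h)⟩

theorem own_max (h : ∀ X : Fin 10 → Pt, ¬ Acute (ext X)) :
    IsGreatest {n : ℕ | ∃ S : Finset (EuclideanSpace ℝ (Fin 4)), S.card = n ∧
      ∀ a ∈ S, ∀ b ∈ S, ∀ c ∈ S, a ≠ b → b ≠ c → a ≠ c →
        EuclideanGeometry.angle a b c < Real.pi / 2} 9 :=
  ⟨own_nine, by rintro n ⟨S, rfl, hS⟩; exact top_card h S hS⟩

end AcuteCh
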