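import Pool.Agent.Lib.MP_bc94b4_co.Ch.Lit

/-! The relations between literal values. -/

set_option autoImplicit false

namespace AcuteCh

/-- position of the point a in the 8-set of rank r -/
def posn (r a : ℕ) : ℕ := ((List.range 8).filter (fun z => kk r z < a)).length

theorem rel_posn : ∀ r < 45, ∀ z < 8, posn r (kk r z) = z := by decide +kernel

/-- the 6-set of rank j is the 8-set of rank r without the positions x < y -/
def Is6 (j r x y : ℕ) : Prop := j < 210 ∧ x < y ∧ y < 8 ∧ ∀ i < 6, k6 j i = kk r (rest2 x y i)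

instance (j r x y : ℕ) : Decidable (Is6 j r x y) := by unfold Is6; infer_instance

/-- m is the restriction of the position mask h to the positions other than x, y -/
def IsRes (m h x y : ℕ) : Prop :=
  m < 63 ∧ (m = 0 ↔ h = 0) ∧ ∀ i < 6, m.testBit i = h.testBit (rest2 x y i)

instance (m h x y : ℕ) : Decidable (IsRes m h x y) := by unfold IsRes; infer_instance

theorem rel_rest : ∀ y < 8, ∀ x < y, ∀ i < 6, rest2 x y i < 8 := by decide +kernel

/-- heights attached to a position mask (the paraboloid for the empty mask) -/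
noncomputable def gh (P : ℕ → Pt) (r h : ℕ) : ℕ → ℝ :=
  if h = 0 then ht P else fun a => bt h (posn r a)

theorem dl_val (P : ℕ → Pt) {j r x y m h : ℕ} (hr : r < 45) (h6 : Is6 j r x y)
    (hm : IsRes m h x y) :
    dl P (gh P r h) (kk r) x y = (-1) ^ (x + y + 1) * sval P (svL j m) := by
  obtain ⟨hj, hxy, hy, hk⟩ := h6
  obtain ⟨hm, h0, hb⟩ := hm
  rw [dl_eq P _ _ x y hxy hy, ← hk 0 (by norm_num), ← hk 1 (by norm_num), ← hk 2 (by norm_num),
    ← hk 3 (by norm_num), ← hk 4 (by norm_num), ← hk 5 (by norm_num)]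
  by_cases hh : h = 0
  · rw [h0.2 hh, svL_ht P hj, gh, if_pos hh]
  · have e : ∀ i < 6, gh P r h (k6 j i) = bt m i := fun i hi => by
      rw [gh, if_neg hh, hk i hi]
      simp only [rel_posn r hr _ (rel_rest y hy x hxy i hi), bt, hb i hi]
    rw [svL_val P hj (Nat.pos_of_ne_zero fun h => hh (h0.1 h)) hm, lb, sv, e 0 (by norm_num),
      e 1 (by norm_num), e 2 (by norm_num), e 3 (by norm_num), e 4 (by norm_num),
      e 5 (by norm_num)]

theorem rel_gp (P : ℕ → Pt) (k : ℕ → ℕ) (hk : Gen8 P k) {w p q t u : ℕ} (hw : w < 8) (hp : p < 8)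
    (hq : q < 8) (ht : t < 8) (hu : u < 8) :
    db P k w p q * db P k w t u - db P k w p t * db P k w q u + db P k w p u * db P k w q t = 0 := by
  obtain ⟨c, a, b, d, h⟩ := g3_det P k hk
  rw [h w hw p hp q hq, h w hw t ht u hu, h w hw p hp t ht, h w hw q hq u hu, h w hw p hp u hu,
    h w hw q hq t ht]
  ring

theorem rel_b (P : ℕ → Pt) (g : ℕ → ℝ) (k : ℕ → ℕ) (hk : Gen8 P k) {w p q t : ℕ} (hw : w < 8)
    (hp : p < 8) (hq : q < 8) (ht : t < 8) :
    dl P g k w p * db P k w q t - dl P g k w q * db P k w p t + dl P g k w t * db P k w p q = 0 := by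
  simp only [dl, Finset.sum_mul, ← Finset.sum_sub_distrib, ← Finset.sum_add_distrib]
  refine Finset.sum_eq_zero fun z hz => ?_
  have hz := Finset.mem_range.1 hz
  have h := rel_gp P k hk hw hp hq ht hz
  rw [g3_sw12 P k hw hz hq, g3_sw12 P k hw hz ht] at *
  linear_combination g (k z) * h

theorem rel_dl_swap (P : ℕ → Pt) (g : ℕ → ℝ) (k : ℕ → ℕ) {x y : ℕ} (hx : x < 8) (hy : y < 8) :
    dl P g k y x = - dl P g k x y := by
  simp only [dl, ← Finset.sum_neg_distrib]
  exact Finset.sum_congr rfl fun z hz => by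
    rw [g3_sw01 P k hx hy (Finset.mem_range.1 hz)]; ring

/-- three local masks that partition the six positions -/
def Part3 (a b c : ℕ) : Prop :=
  0 < a ∧ 0 < b ∧ 0 < c ∧ a + b + c = 63 ∧
    ∀ i < 6, (a.testBit i).toNat + (b.testBit i).toNat + (c.testBit i).toNat = 1

instance (a b c : ℕ) : Decidable (Part3 a b c) := by unfold Part3; infer_instance

theorem rel_add (P : ℕ → Pt) {j a b c : ℕ} (hj : j < 210) (h : Part3 a b c) :
    sval P (svL j a) + sval P (svL j b) + sval P (svL j c) = 0 := by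
  obtain ⟨ha, hb, hc, hs, hi⟩ := h
  have e : ∀ i < 6, bt c i = 1 - bt a i - bt b i := fun i h6 => by
    have := hi i h6
    simp only [bt]
    revert this
    cases a.testBit i <;> cases b.testBit i <;> cases c.testBit i <;> simp
  rw [svL_val P hj ha (by omega), svL_val P hj hb (by omega), svL_val P hj hc (by omega)]
  have h1 := lb_one P (k6 j 0) (k6 j 1) (k6 j 2) (k6 j 3) (k6 j 4) (k6 j 5)
  simp only [lb, lbv] at h1
  simp only [sv, lbv, e 0 (by norm_num), e 1 (by norm_num), e 2 (by norm_num), e 3 (by norm_num),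
    e 4 (by norm_num), e 5 (by norm_num)]
  linear_combination h1

/-- literal of the coefficient at position i of the circuit on the 6-set of rank j -/
def lamL (j i : ℕ) : ℕ :=
  2 * (2 ^ k6 j 0 + 2 ^ k6 j 1 + 2 ^ k6 j 2 + 2 ^ k6 j 3 + 2 ^ k6 j 4 + 2 ^ k6 j 5 - 2 ^ k6 j i)
    + (i + 1) % 2

theorem rel_tab6 : ∀ j < 210,
    Is5 (lamL j 0 / 2) (k6 j 1) (k6 j 2) (k6 j 3) (k6 j 4) (k6 j 5) ∧
    Is5 (lamL j 1 / 2) (k6 j 0) (k6 j 2) (k6 j 3) (k6 j 4) (k6 j 5) ∧
    Is5 (lamL j 2 / 2) (k6 j 0) (k6 j 1) (k6 j 3) (k6 j 4) (k6 j 5) ∧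
    Is5 (lamL j 3 / 2) (k6 j 0) (k6 j 1) (k6 j 2) (k6 j 4) (k6 j 5) ∧
    Is5 (lamL j 4 / 2) (k6 j 0) (k6 j 1) (k6 j 2) (k6 j 3) (k6 j 5) ∧
    Is5 (lamL j 5 / 2) (k6 j 0) (k6 j 1) (k6 j 2) (k6 j 3) (k6 j 4) ∧
    (∀ i < 6, k6 j i < 10) ∧ ∀ b < 6, ∀ a < b, k6 j a < k6 j b := by decide +kernel

theorem lamL_lt {j i : ℕ} (hj : j < 210) (hi : i < 6) : lamL j i < 2048 := by
  obtain ⟨h0, h1, h2, h3, h4, h5, -⟩ := rel_tab6 j hj
  have := h0.1; have := h1.1; have := h2.1; have := h3.1; have := h4.1; have := h5.1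
  interval_cases i <;> omega

theorem rel_lam (P : ℕ → Pt) (j i : ℕ) :
    sval P (lamL j i) = (-1) ^ ((i + 1) % 2) * val P (lamL j i / 2) := by
  have h : (i + 1) % 2 < 2 := Nat.mod_lt _ (by norm_num)
  conv_lhs => rw [show lamL j i = 2 * (lamL j i / 2) + (i + 1) % 2 by rw [lamL]; omega]
  exact sval_two_mul P _ _ h

theorem rel_lbv (P : ℕ → Pt) {j : ℕ} (hj : j < 210) (x : ℕ → ℝ) :
    lbv P (x 0) (x 1) (x 2) (x 3) (x 4) (x 5) (k6 j 0) (k6 j 1) (k6 j 2) (k6 j 3) (k6 j 4) (k6 j 5)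
      = ∑ i : Fin 6, sval P (lamL j i) * x i := by
  obtain ⟨h0, h1, h2, h3, h4, h5, -⟩ := rel_tab6 j hj
  rw [Fin.sum_univ_six]
  simp only [rel_lam]
  change _ = (-1) ^ ((0 + 1) % 2) * val P (lamL j 0 / 2) * x 0
    + (-1) ^ ((1 + 1) % 2) * val P (lamL j 1 / 2) * x 1
    + (-1) ^ ((2 + 1) % 2) * val P (lamL j 2 / 2) * x 2
    + (-1) ^ ((3 + 1) % 2) * val P (lamL j 3 / 2) * x 3
    + (-1) ^ ((4 + 1) % 2) * val P (lamL j 4 / 2) * x 4
    + (-1) ^ ((5 + 1) % 2) * val P (lamL j 5 / 2) * x 5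
  rw [is5_val P h0, is5_val P h1, is5_val P h2, is5_val P h3, is5_val P h4, is5_val P h5, lbv]
  norm_num
  ring

/-- a subset sum over one position is the coefficient -/
theorem rel_single (P : ℕ → Pt) {j i : ℕ} (hj : j < 210) (hi : i < 6) :
    sval P (svL j (2 ^ i)) = sval P (lamL j i) := by
  rw [svL_val P hj (by positivity) (by interval_cases i <;> norm_num), sv,
    rel_lbv P hj (bt (2 ^ i)), Finset.sum_eq_single ⟨i, hi⟩]
  · simp [bt]
  · intro b _ hb
    have : i ≠ b := fun h => hb (Fin.ext h.symm)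
    simp [bt, this]
  · simp

theorem rel_circ (P : ℕ → Pt) {j : ℕ} (hj : j < 210) :
    (∀ i : Fin 6, k6 j i < 10) ∧ Function.Injective (fun i : Fin 6 => k6 j i) ∧
    ∑ i : Fin 6, sval P (lamL j i) = 0 ∧
    ∀ c : Fin 4, ∑ i : Fin 6, sval P (lamL j i) * P (k6 j i) c = 0 := by
  obtain ⟨-, -, -, -, -, -, h6, h7⟩ := rel_tab6 j hj
  refine ⟨fun i => h6 i i.2, fun a b hab => ?_, ?_, fun c => ?_⟩
  · rcases lt_trichotomy (a : ℕ) b with h | h | h
    · exact absurd hab (h7 b b.2 a h).ne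
    · exact Fin.ext h
    · exact absurd hab (h7 a a.2 b h).ne'
  · have h := rel_lbv P hj (fun _ => 1)
    simp only [mul_one] at h
    rw [← h]
    exact lb_one P _ _ _ _ _ _
  · rw [← rel_lbv P hj (fun i => P (k6 j i) c)]
    exact lb_coord P c _ _ _ _ _ _

/-- sign rule of a subset sum: four prescribed coefficients decide the sign -/
theorem rel_nsp (P : ℕ → Pt) (hP : Acute P) (hs : Valn (sval P)) {j m : ℕ} (hj : j < 210)
    (h0 : 0 < m) (h1 : m < 63) (p q : ℕ)
    (h : ∀ i < 6, i ≠ p → i ≠ q → sval P (lamL j i ^^^ (m.testBit i).toNat) < 0) (hp : p < 6)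
    (hq : q < 6) : 0 < sval P (svL j m) := by
  obtain ⟨c1, c2, c3, c4⟩ := rel_circ P hj
  have hN : (Finset.univ.filter fun i : Fin 6 => m.testBit i = true).Nonempty := by
    have : ∀ m < 63, 0 < m → ∃ i : Fin 6, m.testBit i = true := by decide +kernel
    obtain ⟨i, hi⟩ := this m h1 h0
    exact ⟨i, by simpa using hi⟩
  have hN' : (Finset.univ.filter fun i : Fin 6 => m.testBit i = true) ≠ Finset.univ := by
    have : ∀ m < 63, ∃ i : Fin 6, m.testBit i = false := by decide +kernel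
    obtain ⟨i, hi⟩ := this m h1
    intro e
    have h2 : i ∈ (Finset.univ.filter fun i : Fin 6 => m.testBit i = true) := by
      rw [e]; exact Finset.mem_univ _
    simp [hi] at h2
  have key := nsp_abs P hP (fun i => k6 j i) c1 c2 (fun i => sval P (lamL j i))
    (fun i => hs.1 _) c3 c4 _ hN hN' ⟨p, hp⟩ ⟨q, hq⟩ (fun i a b => by
      have h2 := h i i.2 (fun e => a (Fin.ext e)) (fun e => b (Fin.ext e))
      constructor
      · intro hi
        have hi : m.testBit i = true := by simpa using hi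
        rw [hi, Bool.toNat_true, sval_xor] at h2
        linarith
      · intro hi
        have hi : m.testBit i = false := by simpa using hi
        rw [hi, Bool.toNat_false, Nat.xor_zero] at h2
        exact h2)
  rw [svL_val P hj h0 h1, sv, rel_lbv P hj (bt m)]
  rw [Finset.sum_filter] at key
  refine key.trans_eq (Finset.sum_congr rfl fun i _ => ?_)
  simp only [bt]
  split_ifs <;> simp

/-- sign rule of the height: b = 0 four positive coefficients, b = 1 four negative ones -/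
theorem rel_hgt (P : ℕ → Pt) (hP : Acute P) (hs : Valn (sval P)) {j : ℕ} (hj : j < 210)
    (p q b : ℕ) (hb : b < 2)
    (h : ∀ i < 6, i ≠ p → i ≠ q → sval P (lamL j i ^^^ (1 - b)) < 0) (hp : p < 6)
    (hq : q < 6) : 0 < sval P (svL j 0 ^^^ b) := by
  obtain ⟨c1, c2, c3, c4⟩ := rel_circ P hj
  have e : sval P (svL j 0) = ∑ i : Fin 6, sval P (lamL j i) * ht P (k6 j i) := by
    rw [svL_ht P hj, lb, ← rel_lbv P hj (fun i => ht P (k6 j i))]
  interval_cases b
  · rw [Nat.xor_zero, e]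
    exact hgt_abs P hP (fun i => k6 j i) c1 c2 (fun i => sval P (lamL j i)) (fun i => hs.1 _)
      c3 c4 ⟨p, hp⟩ ⟨q, hq⟩ (fun i a b => by
        have h2 := h i i.2 (fun e => a (Fin.ext e)) (fun e => b (Fin.ext e))
        rw [Nat.sub_zero, sval_xor] at h2
        linarith)
  · have key := hgt_abs P hP (fun i => k6 j i) c1 c2 (fun i => - sval P (lamL j i))
      (fun i => neg_ne_zero.2 (hs.1 _)) (by rw [Finset.sum_neg_distrib, c3, neg_zero])
      (fun c => by simp only [neg_mul]; rw [Finset.sum_neg_distrib, c4 c, neg_zero])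
      ⟨p, hp⟩ ⟨q, hq⟩ (fun i a b => by
        have h2 := h i i.2 (fun e => a (Fin.ext e)) (fun e => b (Fin.ext e))
        rw [Nat.sub_self, Nat.xor_zero] at h2
        linarith)
    rw [sval_xor, e, ← Finset.sum_neg_distrib]
    simpa only [neg_mul] using key

/-- literal of the orientation variable number o of the 8-set of rank r -/
def ovL (r o : ℕ) : ℕ := 16384 + 840 * r + 2 * o

/-- position number i of the triple of pairs number o -/
def ot (o : ℕ) : ℕ → ℕ := fld 3 (fld 18 OT o)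

theorem ovL_val (P : ℕ → Pt) {r o : ℕ} (hr : r < 45) (ho : o < 420) :
    sval P (ovL r o) = ov P (kk r) (ot o 0) (ot o 1) (ot o 2) (ot o 3) (ot o 4) (ot o 5) := by
  have e : ovL r o = 2 * (8192 + 420 * r + o) + 0 := by rw [ovL]; omega
  have h1 : ¬ (8192 + 420 * r + o < 1024) := by omega
  have h2 : ¬ (8192 + 420 * r + o < 7744) := by omega
  have h3 : ¬ (8192 + 420 * r + o < 8192) := by omega
  have h4 : 8192 + 420 * r + o < 27092 := by omega
  have h5 : (8192 + 420 * r + o - 8192) / 420 = r := by omega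
  have h6 : (8192 + 420 * r + o - 8192) % 420 = o := by omega
  rw [e, sval_two_mul P _ _ (by norm_num)]
  simp only [val, if_neg h1, if_neg h2, if_neg h3, if_pos h4, h5, h6, pow_zero, one_mul]
  rfl

theorem ovL_lt {r o : ℕ} (hr : r < 45) (ho : o < 420) : ovL r o < 54184 := by
  rw [ovL]; omega

end AcuteCh
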