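import Pool.Agent.Lib.MP_bc94b4_co.Ch.Img

/-! Clauses accepted against tables of rows, images of excluded masks, and loops over tables. -/

set_option autoImplicit false

namespace AcuteCh

/-- the lowest bit of each of k rows of width w -/
def rep (w k : ℕ) : ℕ := Nat.div (Nat.sub (Nat.pow 2 (Nat.mul w k)) 1) (Nat.sub (Nat.pow 2 w) 1)

/-- the rows lo .. n - 1 of R with all literals negated -/
def prep (R w lo n : ℕ) : ℕ :=
  (fun T E => Nat.lor (Nat.shiftLeft (Nat.land T E) 1) (Nat.land (Nat.shiftRight T 1) E))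
    (Nat.shiftRight R (Nat.mul w lo)) (rep 2 (Nat.div (Nat.mul w (Nat.sub n lo)) 2))

/-- C meets every row of T marked in Q -/
def eChk (w T Q C : ℕ) : Bool :=
  (fun H => Nat.beq (Nat.land (Nat.add (Nat.land T (Nat.mul C Q)) (Nat.sub H Q)) H) H)
    (Nat.shiftLeft Q (Nat.sub w 1))

/-- accepted masks, moved up by off, contain a true literal -/
def PTb (s : ℕ → ℝ) (w off T Q : ℕ) : Prop :=
  ∀ C, C < 2 ^ (w - 1) → eChk w T Q C = true → ∃ q, C.testBit q = true ∧ 0 < s (q + off)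

/-- A is contained in B -/
def sub (A B : ℕ) : Bool := Nat.beq (Nat.land A B) A

/-- mask of the six fields -/
def fm (e : ℕ) : ℕ :=
  Nat.lor (Nat.lor (Nat.lor (Nat.shiftLeft 1 (Nat.land e 65535))
    (Nat.shiftLeft 1 (Nat.land (Nat.shiftRight e 16) 65535)))
    (Nat.lor (Nat.shiftLeft 1 (Nat.land (Nat.shiftRight e 32) 65535))
    (Nat.shiftLeft 1 (Nat.land (Nat.shiftRight e 48) 65535))))
    (Nat.lor (Nat.shiftLeft 1 (Nat.land (Nat.shiftRight e 64) 65535))
    (Nat.shiftLeft 1 (Nat.land (Nat.shiftRight e 80) 65535)))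

/-- E clause on the window that starts at off -/
def eCl (w off T Q F M : ℕ) : Bool :=
  eChk w T Q (Nat.mod (Nat.shiftRight (Nat.lor F M) off) (Nat.pow 2 (Nat.sub w 1)))

/-- T clause: pulled back along v, the false literals contain P and meet every row -/
def tCl (P T Q F v M : ℕ) : Bool :=
  (fun Y => Bool.rec false (eChk 72 T Q (Nat.shiftRight Y 44)) (sub P Y)) (pull v (Nat.lor F M))

/-- M clause: pulled back along v, the false literals contain B -/
def mCl (B F v M : ℕ) : Bool := sub B (pull v (Nat.lor F M))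

/-- W clause: after exchanging 8 and 9 the false literals contain the record R -/
def wCl (R F M : ℕ) : Bool := sub R (sw89 (Nat.lor F M))

/-- fast form of fld -/
def fdf (w T i : ℕ) : ℕ := Nat.mod (Nat.shiftRight T (Nat.mul w i)) (Nat.pow 2 w)

/-- d % 8 is the kind: 0 window of point 8, 1 window of point 9, 2 + c table c (word d / 8),
6 excluded mask number d / 2 ^ 72 below x (word d / 8 % 2 ^ 69) -/
def axCl (T8 Q8 x BT : ℕ) (PP TT QQ : ℕ → ℕ) (F M d : ℕ) : Bool :=
  Nat.rec (eCl 144 114 T8 Q8 F M) (fun k _ => Nat.rec (eCl 144 254 T8 Q8 F M) (fun c _ =>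
    Bool.rec (tCl (PP c) (TT c) (QQ c) F (Nat.shiftRight d 3) M)
      (Bool.rec false (mCl (fdf 128 BT (Nat.shiftRight d 72)) F
        (Nat.land (Nat.shiftRight d 3) 0x1fffffffffffffffff) M) (Nat.blt (Nat.shiftRight d 72) x))
      (Nat.beq c 4)) k) (Nat.land d 7)

/-- what the tables used by axCl mean -/
def AxC (X : Fin 10 → Pt) (T8 Q8 x BT : ℕ) (PP TT QQ : ℕ → ℕ) : Prop :=
  PTb (cval X) 144 114 T8 Q8 ∧ PTb (cval X) 144 254 T8 Q8 ∧
    (∀ c Y, Good Y → Inv (cval Y) (PP c) → PTb (cval Y) 72 44 (TT c) (QQ c)) ∧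
    ∀ y < x, NG (fld 128 BT y)

def sel4 (a b c d k : ℕ) : ℕ :=
  Nat.rec a (fun k _ => Nat.rec b (fun k _ => Nat.rec c (fun _ _ => d) k) k) k

def allI (wa wb : ℕ) (p : ℕ → ℕ → Bool) (A B k : ℕ) : Bool :=
  Nat.rec true (fun i acc => Bool.rec false acc (p (fdf wa A i) (fdf wb B i))) k

/-- p holds for the first n pairs of entries of two packed tables -/
def all2 (wa wb : ℕ) (p : ℕ → ℕ → Bool) (A B n : ℕ) : Bool :=
  Nat.rec true (fun c acc => Bool.rec false acc
    (allI wa wb p (fdf (Nat.mul 32 wa) A c) (fdf (Nat.mul 32 wb) B c)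
      (Bool.rec (Nat.sub n (Nat.mul 32 c)) 32 (Nat.ble (Nat.add (Nat.mul 32 c) 32) n))))
    (Nat.div (Nat.add n 31) 32)

/-- the table T of n clauses, with one justification word of 96 bits per entry in D -/
def elChk (T8 Q8 x BT : ℕ) (PP TT QQ : ℕ → ℕ) (F T D n : ℕ) : Bool :=
  all2 96 96 (fun e d => axCl T8 Q8 x BT PP TT QQ F (fm e) d) T D n

/-- entry j of D: word in the low 72 bits, above it the number of the mask that excludes row j;
the numbers increase -/
def lxChk (w off BT P R D n : ℕ) : Bool :=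
  all2 w 96 (fun r d => mCl (fdf 128 BT (Nat.shiftRight d 72)) P
    (Nat.land d 0xffffffffffffffffff) (Nat.shiftLeft r off)) R D n &&
  all2 96 96 (fun a b => Nat.ble (Nat.shiftRight a 72) (Nat.shiftRight b 72)) D (Nat.shiftRight D 96)
    (Nat.sub n 1)

def LX (w off BT P R D n : ℕ) : Prop :=
  (∀ j < n, NG (fld 128 BT (fld 96 D j >>> 72)) → NG (P ||| (fld w R j <<< off))) ∧
    ∀ j, j + 1 < n → fld 96 D j >>> 72 ≤ fld 96 D (j + 1) >>> 72

theorem rw_rep_succ (w k : ℕ) (hw : 0 < w) : rep w 0 = 0 ∧ rep w (k + 1) = 1 + 2 ^ w * rep w k := by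
  have h1 : 1 < 2 ^ w := Nat.one_lt_two_pow (by omega)
  have h : ∀ k, ∃ r, 2 ^ (w * k) - 1 = r * (2 ^ w - 1) := fun k => by
    rw [pow_mul]
    obtain ⟨r, hr⟩ := Nat.sub_one_dvd_pow_sub_one (2 ^ w) k
    exact ⟨r, by rw [hr, mul_comm]⟩
  refine ⟨by show (2 ^ (w * 0) - 1) / _ = 0; simp, ?_⟩
  show (2 ^ (w * (k + 1)) - 1) / (2 ^ w - 1) = 1 + 2 ^ w * ((2 ^ (w * k) - 1) / (2 ^ w - 1))
  obtain ⟨r, hr⟩ := h k
  rw [hr, Nat.mul_div_cancel _ (by omega)]
  refine Nat.div_eq_of_eq_mul_left (by omega) ?_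
  have h2 : 2 ^ (w * k) = r * (2 ^ w - 1) + 1 := by
    have := Nat.two_pow_pos (w * k)
    omega
  rw [mul_add, mul_one, pow_add, h2]
  obtain ⟨a, ha⟩ : ∃ a, 2 ^ w = a + 1 := ⟨2 ^ w - 1, by omega⟩
  rw [ha, Nat.add_sub_cancel]
  exact Nat.sub_eq_of_eq_add (by ring)

theorem rw_even (k p : ℕ) (h : (rep 2 k).testBit p = true) : p % 2 = 0 := by
  induction k generalizing p with
  | zero => rw [(rw_rep_succ 2 0 (by norm_num)).1] at h; simp at h
  | succ k ih =>
    rw [(rw_rep_succ 2 k (by norm_num)).2, add_comm, Nat.testBit_two_pow_mul_add _ (by norm_num)] at h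
    split_ifs at h with hp
    · interval_cases p
      · rfl
      · exact absurd h (by decide)
    · have := ih _ h
      omega

theorem rw_fld_succ (w T j : ℕ) : fld w T (j + 1) = fld w (T / 2 ^ w) j := by
  unfold fld
  rw [← Nat.shiftRight_eq_div_pow, ← Nat.shiftRight_add, mul_add, mul_one, add_comm]

theorem rw_rows (w C : ℕ) (hw : 0 < w) (hC : C < 2 ^ (w - 1)) (k T : ℕ)
    (h : eChk w T (rep w k) C = true) : ∀ j < k, fld w T j &&& C ≠ 0 := by
  have e : ∀ T Q, eChk w T Q C = true ↔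
      ((T &&& (C * Q)) + (2 ^ (w - 1) - 1) * Q) &&& (2 ^ (w - 1) * Q) = 2 ^ (w - 1) * Q := fun T Q => by
    show Nat.beq (((T &&& (C * Q)) + (Q <<< (w - 1) - Q)) &&& (Q <<< (w - 1))) (Q <<< (w - 1)) = true ↔ _
    rw [Nat.beq_eq, Nat.shiftLeft_eq, mul_comm Q, Nat.sub_one_mul]
  have hW : 2 ^ w = 2 * 2 ^ (w - 1) := by
    rw [← pow_succ', Nat.sub_add_cancel hw]
  have ha := Nat.two_pow_pos (w - 1)
  induction k generalizing T with
  | zero => intro j hj; omega
  | succ k ih =>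
    rw [e, (rw_rep_succ w k hw).2] at h
    generalize hr : rep w k = r at h
    have m1 : ∀ c q : ℕ, c < 2 ^ w → (c * (1 + 2 ^ w * q)) % 2 ^ w = c ∧
        (c * (1 + 2 ^ w * q)) / 2 ^ w = c * q := fun c q hc => by
      rw [show c * (1 + 2 ^ w * q) = c + 2 ^ w * (c * q) by ring, Nat.add_mul_mod_self_left,
        Nat.add_mul_div_left _ _ (Nat.two_pow_pos w), Nat.mod_eq_of_lt hc, Nat.div_eq_of_lt hc]
      simp
    obtain ⟨y1, y2⟩ : (T &&& (C * (1 + 2 ^ w * r))) % 2 ^ w = T % 2 ^ w &&& C ∧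
        (T &&& (C * (1 + 2 ^ w * r))) / 2 ^ w = T / 2 ^ w &&& (C * r) := by
      rw [Nat.and_mod_two_pow, Nat.and_div_two_pow, (m1 C r (by omega)).1, (m1 C r (by omega)).2]
      exact ⟨rfl, rfl⟩
    have y3 : T % 2 ^ w &&& C ≤ C := Nat.and_le_right
    have y4 := Nat.div_add_mod (T &&& (C * (1 + 2 ^ w * r))) (2 ^ w)
    rw [y1, y2] at y4
    have z : (T &&& (C * (1 + 2 ^ w * r))) + (2 ^ (w - 1) - 1) * (1 + 2 ^ w * r)
        = ((T % 2 ^ w &&& C) + (2 ^ (w - 1) - 1))
          + 2 ^ w * ((T / 2 ^ w &&& (C * r)) + (2 ^ (w - 1) - 1) * r) := by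
      rw [← y4]
      ring
    have z0 : (T % 2 ^ w &&& C) + (2 ^ (w - 1) - 1) < 2 ^ w := by omega
    have h1 := congrArg (· % 2 ^ w) h
    have h2 := congrArg (· / 2 ^ w) h
    simp only [Nat.and_mod_two_pow, Nat.and_div_two_pow] at h1 h2
    rw [z, (m1 _ r (by omega)).1, Nat.add_mul_mod_self_left, Nat.mod_eq_of_lt z0] at h1
    rw [z, (m1 _ r (by omega)).2, Nat.add_mul_div_left _ _ (Nat.two_pow_pos w), Nat.div_eq_of_lt z0,
      Nat.zero_add] at h2
    intro j hj
    rcases j with _ | j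
    · show (T >>> (w * 0)) % 2 ^ w &&& C ≠ 0
      rw [mul_zero, Nat.shiftRight_zero]
      intro h0
      have := congrArg (·.testBit (w - 1)) h1
      simp [h0] at this
    · rw [rw_fld_succ]
      exact ih _ (by rw [e, hr]; exact h2) j (by omega)

theorem rw_fld_bit (w T j q : ℕ) :
    (fld w T j).testBit q = (decide (q < w) && T.testBit (w * j + q)) := by
  unfold fld
  rw [Nat.testBit_mod_two_pow, Nat.testBit_shiftRight]

theorem rw_x1 (a b : ℕ) (ha : a % 2 = 0) : (a + b) ^^^ 1 = a + (b ^^^ 1) := by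
  rw [im_x1, im_x1]
  split_ifs <;> omega

theorem lane_pt {s : ℕ → ℝ} (hs : Valn s) {R w off lo n : ℕ} (hw : 0 < w) (hw2 : w % 2 = 0)
    (hoff : off % 2 = 0) (h : Lane s R w off lo n) : PTb s w off (prep R w lo n) (rep w (n - lo)) := by
  intro C hC hk
  obtain ⟨j, h1, h2, h3⟩ := h
  obtain ⟨q, hq⟩ := Nat.exists_testBit_of_ne_zero (rw_rows w C hw hC _ _ hk (j - lo) (by omega))
  rw [Nat.testBit_and, rw_fld_bit, Bool.and_eq_true, Bool.and_eq_true, decide_eq_true_eq] at hq
  obtain ⟨⟨q1, q2⟩, q3⟩ := hq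
  refine ⟨q, q3, ?_⟩
  have a : ∀ p, (prep R w lo n).testBit p = true → R.testBit (w * lo + (p ^^^ 1)) = true := fun p hp => by
    have hp' : ((((R >>> (w * lo)) &&& rep 2 (w * (n - lo) / 2)) <<< 1) |||
        (((R >>> (w * lo)) >>> 1) &&& rep 2 (w * (n - lo) / 2))).testBit p = true := hp
    simp only [Nat.testBit_or, Nat.testBit_and, Nat.testBit_shiftLeft, Nat.testBit_shiftRight,
      ge_iff_le, Bool.or_eq_true, Bool.and_eq_true, decide_eq_true_eq] at hp'
    rcases hp' with ⟨b1, b2, b3⟩ | ⟨b2, b3⟩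
    · have := rw_even _ _ b3
      rwa [im_x1, if_neg (by omega)]
    · have := rw_even _ _ b3
      rwa [im_x1, if_pos this, add_comm p]
  have hm : (w * (j - lo)) % 2 = 0 := by rw [Nat.mul_mod, hw2]; simp
  have b := a _ q2
  rw [rw_x1 _ _ hm, ← add_assoc, ← mul_add, show lo + (j - lo) = j by omega] at b
  have c := h3 ((q ^^^ 1) + off) (by
    rw [Nat.testBit_shiftLeft, Nat.add_sub_cancel, rw_fld_bit, b, decide_eq_true (Nat.le_add_left _ _),
      decide_eq_true (by rw [im_x1]; split_ifs <;> omega)]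
    rfl)
  rw [add_comm, ← rw_x1 _ _ hoff, hs.2.1, add_comm] at c
  linarith

/-- the empty table accepts nothing -/
theorem pt_zero (s : ℕ → ℝ) (w off : ℕ) (hw : 0 < w) : PTb s w off 0 (rep w 1) := fun C hC h =>
  absurd (by simp [fld]) (rw_rows w C hw hC 1 0 h 0 (by norm_num))

theorem sub_bit {A B l : ℕ} (h : sub A B = true) (hl : A.testBit l = true) : B.testBit l = true := by
  have h1 : A &&& B = A := Nat.eq_of_beq_eq_true h
  rw [← h1, Nat.testBit_and, Bool.and_eq_true] at hl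
  exact hl.2

theorem inv_sub {s : ℕ → ℝ} {A B : ℕ} (h : sub A B = true) (hB : Inv s B) : Inv s A :=
  fun l hl => hB l (sub_bit h hl)

theorem inv_or {s : ℕ → ℝ} {A B : ℕ} (hA : Inv s A) (hB : Inv s B) : Inv s (A ||| B) := fun l hl => by
  rw [Nat.testBit_or, Bool.or_eq_true] at hl
  exact hl.elim (hA l) (hB l)

theorem inv_of_not {s : ℕ → ℝ} (hs : Valn s) {M : ℕ} (h : ¬ ClM s M) : Inv s M := fun l hl =>
  lt_of_le_of_ne (not_lt.1 fun h' => h ⟨l, hl, h'⟩) (hs.1 l)

theorem fm_cl6 {s : ℕ → ℝ} {e : ℕ} (h : ClM s (fm e)) : Cl6 s e := by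
  obtain ⟨l, h1, h2⟩ := h
  have a : ∀ k, Nat.shiftLeft 1 (Nat.land (Nat.shiftRight e k) 65535) = 2 ^ ((e >>> k) % 2 ^ 16) :=
    fun k => by
      show 1 <<< ((e >>> k) &&& (2 ^ 16 - 1)) = _
      rw [Nat.one_shiftLeft, Nat.and_two_pow_sub_one_eq_mod]
  have b : fm e = ((2 ^ fld 16 e 0 ||| 2 ^ fld 16 e 1) ||| (2 ^ fld 16 e 2 ||| 2 ^ fld 16 e 3)) |||
      (2 ^ fld 16 e 4 ||| 2 ^ fld 16 e 5) := by
    unfold fm
    rw [a 16, a 32, a 48, a 64, a 80, show Nat.land e 65535 = Nat.land (Nat.shiftRight e 0) 65535 from rfl,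
      a 0]
    rfl
  rw [b] at h1
  simp only [Nat.testBit_or, Nat.testBit_two_pow, Bool.or_eq_true, decide_eq_true_eq] at h1
  rcases h1 with ((h | h) | (h | h)) | (h | h) <;> exact ⟨_, by norm_num, h ▸ h2⟩

theorem eCl_sound {s : ℕ → ℝ} (hs : Valn s) {w off T Q F M : ℕ} (hT : PTb s w off T Q) (hF : Inv s F)
    (h : eCl w off T Q F M = true) : ClM s M := by
  by_contra hM
  obtain ⟨q, h1, h2⟩ := hT (((F ||| M) >>> off) % 2 ^ (w - 1)) (Nat.mod_lt _ (Nat.two_pow_pos _)) h
  rw [Nat.testBit_mod_two_pow, Nat.testBit_shiftRight, Bool.and_eq_true, add_comm] at h1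
  exact absurd h2 (inv_or hF (inv_of_not hs hM) _ h1.2).not_gt

theorem tCl_sound {P T Q F v M : ℕ}
    (hT : ∀ Y, Good Y → Inv (cval Y) P → PTb (cval Y) 72 44 T Q) (h : tCl P T Q F v M = true)
    (X : Fin 10 → Pt) (hX : Good X) (hF : Inv (cval X) F) : ClM (cval X) M := by
  by_contra hM
  obtain ⟨Y, h1, h2, h3⟩ := pull_sound v _ X hX (inv_or hF (inv_of_not (good_vc X hX) hM))
  have h' : (Bool.rec false (eChk 72 T Q (pull v (F ||| M) >>> 44)) (sub P (pull v (F ||| M))) : Bool)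
    = true := h
  cases h4 : sub P (pull v (F ||| M)) with
  | false => rw [h4] at h'; exact absurd h' (by simp)
  | true =>
    rw [h4] at h'
    obtain ⟨q, h5, h6⟩ := hT Y h1 (inv_sub h4 h2) _ (by
      rw [Nat.shiftRight_eq_div_pow]
      exact Nat.div_lt_of_lt_mul (h3.trans (by norm_num))) h'
    rw [Nat.testBit_shiftRight, add_comm] at h5
    exact absurd h6 (h2 _ h5).not_gt

theorem mCl_ng {B F v M : ℕ} (hB : NG B) (h : mCl B F v M = true) : NG (F ||| M) := fun X hX hI => by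
  obtain ⟨Y, h1, h2, -⟩ := pull_sound v _ X hX hI
  exact hB Y h1 (inv_sub h h2)

theorem mCl_sound {B F v M : ℕ} (hB : NG B) (h : mCl B F v M = true)
    (X : Fin 10 → Pt) (hX : Good X) (hF : Inv (cval X) F) : ClM (cval X) M := by
  by_contra hM
  exact mCl_ng hB h X hX (inv_or hF (inv_of_not (good_vc X hX) hM))

theorem wCl_sound {R F M : ℕ} (hR : R < 2 ^ 512) (h : wCl R F M = true) (X : Fin 10 → Pt)
    (hX : Good X) (hF : Inv (cval X) F) (hj : ClM (cval (X ∘ Equiv.swap 8 9)) R) :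
    ClM (cval X) M := by
  by_contra hM
  obtain ⟨l, h1, h2⟩ := hj
  have h3 := sub_bit h h1
  rw [sw89_bit] at h3
  rw [(p89_val X l (im_lt hR h1)).1] at h2
  exact absurd h2 (inv_or hF (inv_of_not (good_vc X hX) hM) _ h3).not_gt

/-- a mask on the first eight points stays false -/
theorem inv_swap {B : ℕ} (hB : B < 2 ^ 114) (X : Fin 10 → Pt) (h : Inv (cval X) B) :
    Inv (cval (X ∘ Equiv.swap 8 9)) B := fun l hl => by
  have h1 := im_lt hB hl
  obtain ⟨h2, h3, -⟩ := p89_val X l (by omega)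
  rw [h2, h3 h1]
  exact h l hl

/-- general form: the exchanged mask is false at the exchanged tuple -/
theorem inv_sw89 {A B : ℕ} (hB : B < 2 ^ 512) (h : sub B (sw89 A) = true) (X : Fin 10 → Pt)
    (hA : Inv (cval X) A) : Inv (cval (X ∘ Equiv.swap 8 9)) B := fun l hl => by
  have h3 := sub_bit h hl
  rw [sw89_bit] at h3
  rw [(p89_val X l (im_lt hB hl)).1]
  exact hA _ h3

theorem allI_sound {wa wb : ℕ} {p : ℕ → ℕ → Bool} {A B k : ℕ} (h : allI wa wb p A B k = true) :
    ∀ i < k, p (fld wa A i) (fld wb B i) = true := by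
  induction k with
  | zero => intro i hi; omega
  | succ k ih =>
    have h' : (Bool.rec false (allI wa wb p A B k) (p (fld wa A k) (fld wb B k)) : Bool) = true := h
    cases h1 : p (fld wa A k) (fld wb B k) with
    | false => rw [h1] at h'; exact absurd h' (by simp)
    | true =>
      rw [h1] at h'
      intro i hi
      rcases Nat.lt_succ_iff_lt_or_eq.1 hi with h2 | rfl
      · exact ih h' i h2
      · exact h1

theorem rw_fld_fld (w A c i : ℕ) (hi : i < 32) : fld w (fld (32 * w) A c) i = fld w A (32 * c + i) :=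
  Nat.eq_of_testBit_eq fun q => by
    rw [rw_fld_bit, rw_fld_bit, rw_fld_bit]
    by_cases hq : q < w
    · have : w * i + q < 32 * w := by nlinarith
      rw [decide_eq_true this, show 32 * w * c + (w * i + q) = w * (32 * c + i) + q by ring]
      rfl
    · simp [hq]

theorem all2_sound {wa wb : ℕ} {p : ℕ → ℕ → Bool} {A B n : ℕ} (h : all2 wa wb p A B n = true) :
    ∀ i < n, p (fld wa A i) (fld wb B i) = true := by
  have key : ∀ m, (Nat.rec true (fun c acc => Bool.rec false acc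
      (allI wa wb p (fld (32 * wa) A c) (fld (32 * wb) B c)
        (Bool.rec (n - 32 * c) 32 (Nat.ble (32 * c + 32) n)))) m : Bool) = true →
      ∀ i < n, i < 32 * m → p (fld wa A i) (fld wb B i) = true := by
    intro m
    induction m with
    | zero => intro _ i _ hi; omega
    | succ m ih =>
      intro h' i h1 h2
      cases h3 : allI wa wb p (fld (32 * wa) A m) (fld (32 * wb) B m)
        (Bool.rec (n - 32 * m) 32 (Nat.ble (32 * m + 32) n)) with
      | false => simp [h3] at h'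
      | true =>
        simp only [h3] at h'
        by_cases h4 : i < 32 * m
        · exact ih h' i h1 h4
        · have h5 := allI_sound h3 (i - 32 * m) (by
            cases Nat.ble (32 * m + 32) n
            · show _ < n - 32 * m
              omega
            · show _ < 32
              omega)
          rwa [rw_fld_fld _ _ _ _ (by omega), rw_fld_fld _ _ _ _ (by omega),
            show 32 * m + (i - 32 * m) = i by omega] at h5
  exact fun i hi => key ((n + 31) / 32) h i hi (by omega)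

/-- rows of at most 140 bits: a row for point 8 of the exchanged tuple is a row for point 9 -/
theorem lane89 {R lo n : ℕ} (hR : all2 144 1 (fun r _ => Nat.blt r (Nat.pow 2 140)) R 0 n = true)
    (X : Fin 10 → Pt) (h : Lane (cval (X ∘ Equiv.swap 8 9)) R 144 114 lo n) :
    Lane (cval X) R 144 254 lo n := by
  obtain ⟨j, h1, h2, h3⟩ := h
  refine ⟨j, h1, h2, fun l hl => ?_⟩
  have h4 : fld 144 R j < 2 ^ 140 := by simpa using all2_sound hR j h2
  rw [Nat.testBit_shiftLeft, Bool.and_eq_true, decide_eq_true_eq] at hl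
  have h5 := im_lt h4 hl.2
  have h6 := h3 (l - 140) (by
    rw [Nat.testBit_shiftLeft, show l - 140 - 114 = l - 254 by omega, hl.2, decide_eq_true (by omega)]
    rfl)
  obtain ⟨h7, -, h8⟩ := p89_val X (l - 140) (by omega)
  rwa [h7, h8 (by omega) (by omega), show l - 140 + 140 = l by omega] at h6

theorem axCl_sound {T8 Q8 x BT : ℕ} {PP TT QQ : ℕ → ℕ} {F M d : ℕ} (X : Fin 10 → Pt) (hX : Good X)
    (hA : AxC X T8 Q8 x BT PP TT QQ) (hF : Inv (cval X) F)
    (h : axCl T8 Q8 x BT PP TT QQ F M d = true) : ClM (cval X) M := by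
  unfold axCl at h
  generalize Nat.land d 7 = k at h
  rcases k with _ | _ | c
  · exact eCl_sound (good_vc X hX) hA.1 hF h
  · exact eCl_sound (good_vc X hX) hA.2.1 hF h
  · simp only [] at h
    cases h1 : Nat.beq c 4 with
    | false =>
      rw [h1] at h
      exact tCl_sound (hA.2.2.1 c) h X hX hF
    | true =>
      rw [h1] at h
      cases h2 : Nat.blt (Nat.shiftRight d 72) x with
      | false => rw [h2] at h; exact absurd h (by simp)
      | true =>
        rw [h2] at h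
        exact mCl_sound (hA.2.2.2 _ (by simpa using h2)) h X hX hF

theorem elChk_sound {T8 Q8 x BT : ℕ} {PP TT QQ : ℕ → ℕ} {F T D n : ℕ}
    (h : elChk T8 Q8 x BT PP TT QQ F T D n = true) (X : Fin 10 → Pt) (hX : Good X)
    (hA : AxC X T8 Q8 x BT PP TT QQ) (hF : Inv (cval X) F) : ClT (cval X) T n :=
  fun i hi => fm_cl6 (axCl_sound X hX hA hF (all2_sound h i hi))

theorem lxChk_sound {w off BT P R D n : ℕ} (h : lxChk w off BT P R D n = true) :
    LX w off BT P R D n := by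
  rw [lxChk, Bool.and_eq_true] at h
  refine ⟨fun j hj hB => mCl_ng hB (all2_sound h.1 j hj), fun j hj => ?_⟩
  have h1 := Nat.le_of_ble_eq_true (all2_sound h.2 j (by show j < n - 1; omega))
  rw [rw_fld_succ, ← Nat.shiftRight_eq_div_pow]
  exact h1

/-- the rows before lo are excluded once the masks below x are -/
theorem ttx {w off BT P R D n x lo : ℕ} (hL : LX w off BT P R D n)
    (hT : ∀ X, Good X → Inv (cval X) P → Lane (cval X) R w off 0 n)
    (hx : ∀ y < x, NG (fld 128 BT y)) (h1 : lo ≤ n) (h2 : lo = 0 ∨ fld 96 D (lo - 1) >>> 72 < x)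
    (X : Fin 10 → Pt) (hX : Good X) (hP : Inv (cval X) P) : Lane (cval X) R w off lo n := by
  obtain ⟨j, -, h3, h4⟩ := hT X hX hP
  refine ⟨j, ?_, h3, h4⟩
  by_contra h5
  have mono : ∀ k, j + k < n → fld 96 D j >>> 72 ≤ fld 96 D (j + k) >>> 72 := fun k => by
    induction k with
    | zero => exact fun _ => le_rfl
    | succ k ih => exact fun hk => (ih (by omega)).trans (hL.2 (j + k) hk)
  have h6 := mono (lo - 1 - j) (by omega)
  rw [show j + (lo - 1 - j) = lo - 1 by omega] at h6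
  exact hL.1 j h3 (hx _ (by omega)) X hX (inv_or hP h4)

theorem ttx_pt {BT P R D n x lo : ℕ} (hL : LX 72 44 BT P R D n)
    (hT : ∀ X, Good X → Inv (cval X) P → Lane (cval X) R 72 44 0 n)
    (hx : ∀ y < x, NG (fld 128 BT y)) (h1 : lo ≤ n) (h2 : lo = 0 ∨ fld 96 D (lo - 1) >>> 72 < x)
    (X : Fin 10 → Pt) (hX : Good X) (hP : Inv (cval X) P) :
    PTb (cval X) 72 44 (prep R 72 lo n) (rep 72 (n - lo)) :=
  lane_pt (good_vc X hX) (by norm_num) rfl rfl (ttx hL hT hx h1 h2 X hX hP)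

/-- with all rows excluded the mask P is excluded -/
theorem ttx_ng {w off BT P R D n x : ℕ} (hL : LX w off BT P R D n)
    (hT : ∀ X, Good X → Inv (cval X) P → Lane (cval X) R w off 0 n)
    (hx : ∀ y < x, NG (fld 128 BT y)) (h2 : n = 0 ∨ fld 96 D (n - 1) >>> 72 < x) : NG P :=
  fun X hX hP => by
    obtain ⟨j, h3, h4, -⟩ := ttx hL hT hx le_rfl h2 X hX hP
    omega

theorem sel4_all {p : ℕ → ℕ → ℕ → Prop} {a0 a1 a2 a3 b0 b1 b2 b3 c0 c1 c2 c3 : ℕ}
    (h0 : p a0 b0 c0) (h1 : p a1 b1 c1) (h2 : p a2 b2 c2) (h3 : p a3 b3 c3) (k : ℕ) :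
    p (sel4 a0 a1 a2 a3 k) (sel4 b0 b1 b2 b3 k) (sel4 c0 c1 c2 c3 k) := by
  rcases k with _ | _ | _ | k
  exacts [h0, h1, h2, h3]

end AcuteCh
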