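import Pool.Agent.Lib.MP_bc94b4_co.Ch.Rows

/-! Propagation through a table of rows: the literals that are false in every row still possible. -/

set_option autoImplicit false

namespace AcuteCh

def an (Y s : ℕ) : ℕ := Nat.land Y (Nat.shiftRight Y s)

/-- a bit of fd Y below w is set in each of the first n rows of Y -/
def FoldOK (w n : ℕ) (fd : ℕ → ℕ) : Prop :=
  ∀ Y j q, j < n → q < w → (fd Y).testBit q = true → Y.testBit (w * j + q) = true

theorem fold_id (w : ℕ) : FoldOK w 1 (fun Y => Y) := fun Y j q hj _ h => by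
  rw [show j = 0 by omega]; simpa using h

theorem fold_step {w n m s : ℕ} {fd : ℕ → ℕ} (h : ℕ) (hs : s = w * h ∧ n ≤ m + h ∧ h ≤ m)
    (H : FoldOK w m fd) : FoldOK w n (fun Y => fd (an Y s)) := fun Y j q hj hq hb => by
  obtain ⟨rfl, h1, h2⟩ := hs
  have e : ∀ p, (an Y (w * h)).testBit p = (Y.testBit p && Y.testBit (w * h + p)) := fun p => by
    change (Y &&& (Y >>> (w * h))).testBit p = _
    rw [Nat.testBit_and, Nat.testBit_shiftRight]
  by_cases c : j < m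
  · have := H _ j q c hq hb
    rw [e, Bool.and_eq_true] at this
    exact this.1
  · have := H _ (j - h) q (by omega) hq hb
    rw [e, Bool.and_eq_true] at this
    rw [show w * j + q = w * h + (w * (j - h) + q) by
      rw [← Nat.add_assoc, ← Nat.mul_add, show h + (j - h) = j by omega]]
    exact this.2

def nn (n : ℕ) : ℕ := Nat.sub n (Nat.div n 2)

theorem fold_half {w n k : ℕ} {fd : ℕ → ℕ → ℕ → ℕ}
    (H : ∀ m, m ≤ 2 ^ k → FoldOK w m (fd w m)) (hn : n ≤ 2 ^ (k + 1)) :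
    FoldOK w n (fun Y => fd w (nn n) (an Y (Nat.mul w (Nat.div n 2)))) := by
  have e : nn n = n - n / 2 := rfl
  rw [pow_succ] at hn
  exact fold_step (m := nn n) (n / 2) ⟨rfl, by omega, by omega⟩ (H _ (by omega))

/-- fold of n rows of w bits, n at most 2 ^ k for fo k -/
def fo0 (_w _n Y : ℕ) : ℕ := Y
def fo1 (w n Y : ℕ) : ℕ := fo0 w (nn n) (an Y (Nat.mul w (Nat.div n 2)))
def fo2 (w n Y : ℕ) : ℕ := fo1 w (nn n) (an Y (Nat.mul w (Nat.div n 2)))
def fo3 (w n Y : ℕ) : ℕ := fo2 w (nn n) (an Y (Nat.mul w (Nat.div n 2)))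
def fo4 (w n Y : ℕ) : ℕ := fo3 w (nn n) (an Y (Nat.mul w (Nat.div n 2)))
def fo5 (w n Y : ℕ) : ℕ := fo4 w (nn n) (an Y (Nat.mul w (Nat.div n 2)))
def fo6 (w n Y : ℕ) : ℕ := fo5 w (nn n) (an Y (Nat.mul w (Nat.div n 2)))
def fo7 (w n Y : ℕ) : ℕ := fo6 w (nn n) (an Y (Nat.mul w (Nat.div n 2)))
def fo8 (w n Y : ℕ) : ℕ := fo7 w (nn n) (an Y (Nat.mul w (Nat.div n 2)))
def fo9 (w n Y : ℕ) : ℕ := fo8 w (nn n) (an Y (Nat.mul w (Nat.div n 2)))
def fo10 (w n Y : ℕ) : ℕ := fo9 w (nn n) (an Y (Nat.mul w (Nat.div n 2)))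
def fo11 (w n Y : ℕ) : ℕ := fo10 w (nn n) (an Y (Nat.mul w (Nat.div n 2)))
def fo12 (w n Y : ℕ) : ℕ := fo11 w (nn n) (an Y (Nat.mul w (Nat.div n 2)))
def fo13 (w n Y : ℕ) : ℕ := fo12 w (nn n) (an Y (Nat.mul w (Nat.div n 2)))
def fo14 (w n Y : ℕ) : ℕ := fo13 w (nn n) (an Y (Nat.mul w (Nat.div n 2)))
def fo15 (w n Y : ℕ) : ℕ := fo14 w (nn n) (an Y (Nat.mul w (Nat.div n 2)))

theorem fo0_ok (w n : ℕ) (hn : n ≤ 2 ^ 0) : FoldOK w n (fo0 w n) := fun Y j q hj hq h =>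
  fold_id w Y j q (by omega) hq h
theorem fo1_ok (w n : ℕ) (hn : n ≤ 2 ^ 1) : FoldOK w n (fo1 w n) :=
  fold_half (fo0_ok w) hn
theorem fo2_ok (w n : ℕ) (hn : n ≤ 2 ^ 2) : FoldOK w n (fo2 w n) :=
  fold_half (fo1_ok w) hn
theorem fo3_ok (w n : ℕ) (hn : n ≤ 2 ^ 3) : FoldOK w n (fo3 w n) :=
  fold_half (fo2_ok w) hn
theorem fo4_ok (w n : ℕ) (hn : n ≤ 2 ^ 4) : FoldOK w n (fo4 w n) :=
  fold_half (fo3_ok w) hn
theorem fo5_ok (w n : ℕ) (hn : n ≤ 2 ^ 5) : FoldOK w n (fo5 w n) :=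
  fold_half (fo4_ok w) hn
theorem fo6_ok (w n : ℕ) (hn : n ≤ 2 ^ 6) : FoldOK w n (fo6 w n) :=
  fold_half (fo5_ok w) hn
theorem fo7_ok (w n : ℕ) (hn : n ≤ 2 ^ 7) : FoldOK w n (fo7 w n) :=
  fold_half (fo6_ok w) hn
theorem fo8_ok (w n : ℕ) (hn : n ≤ 2 ^ 8) : FoldOK w n (fo8 w n) :=
  fold_half (fo7_ok w) hn
theorem fo9_ok (w n : ℕ) (hn : n ≤ 2 ^ 9) : FoldOK w n (fo9 w n) :=
  fold_half (fo8_ok w) hn
theorem fo10_ok (w n : ℕ) (hn : n ≤ 2 ^ 10) : FoldOK w n (fo10 w n) :=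
  fold_half (fo9_ok w) hn
theorem fo11_ok (w n : ℕ) (hn : n ≤ 2 ^ 11) : FoldOK w n (fo11 w n) :=
  fold_half (fo10_ok w) hn
theorem fo12_ok (w n : ℕ) (hn : n ≤ 2 ^ 12) : FoldOK w n (fo12 w n) :=
  fold_half (fo11_ok w) hn
theorem fo13_ok (w n : ℕ) (hn : n ≤ 2 ^ 13) : FoldOK w n (fo13 w n) :=
  fold_half (fo12_ok w) hn
theorem fo14_ok (w n : ℕ) (hn : n ≤ 2 ^ 14) : FoldOK w n (fo14 w n) :=
  fold_half (fo13_ok w) hn
theorem fo15_ok (w n : ℕ) (hn : n ≤ 2 ^ 15) : FoldOK w n (fo15 w n) :=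
  fold_half (fo14_ok w) hn

/-- the mask W in every row of T that meets C -/
def dead (w1 W T Q C : ℕ) : ℕ :=
  Nat.mul (Nat.land (Nat.shiftRight (Nat.add (Nat.land T (Nat.mul C Q))
    (Nat.sub (Nat.shiftLeft Q w1) Q)) w1) Q) W

/-- F with the literals that are false in all rows of R that F does not exclude; rows of w1 + 1 bits,
W = mask of the window, T = negated rows, Q = lowest bits of the rows -/
def tprop (w1 W R T Q : ℕ) (fd : ℕ → ℕ) (off F : ℕ) : ℕ :=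
  Nat.lor F (Nat.shiftLeft (Nat.land (fd (Nat.lor R
    (dead w1 W T Q (Nat.land (Nat.shiftRight F off) W)))) W) off)

theorem tp_dead (v W C : ℕ) (hC : C < 2 ^ v) (hW : W < 2 ^ (v + 1)) (k T j : ℕ) (hj : j < k)
    (h : fld (v + 1) T j &&& C = 0) : fld (v + 1) (dead v W T (rep (v + 1) k) C) j = 0 := by
  have e : ∀ T Q, dead v W T Q C = ((((T &&& (C * Q)) + (2 ^ v - 1) * Q) / 2 ^ v) &&& Q) * W :=
    fun T Q => by
      show ((((T &&& (C * Q)) + (Q <<< v - Q)) >>> v) &&& Q) * W = _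
      rw [Nat.shiftLeft_eq, mul_comm Q, Nat.sub_one_mul, Nat.shiftRight_eq_div_pow]
  have hw : 2 ^ (v + 1) = 2 * 2 ^ v := pow_succ' 2 v
  have ha := Nat.two_pow_pos v
  induction k generalizing T j with
  | zero => omega
  | succ k ih =>
    rw [e, (rw_rep_succ (v + 1) k (by omega)).2]
    generalize hr : rep (v + 1) k = r
    have m1 : ∀ c q : ℕ, c < 2 ^ (v + 1) → (c + 2 ^ (v + 1) * q) % 2 ^ (v + 1) = c ∧
        (c + 2 ^ (v + 1) * q) / 2 ^ (v + 1) = q := fun c q hc => by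
      rw [Nat.add_mul_mod_self_left, Nat.add_mul_div_left _ _ (Nat.two_pow_pos _),
        Nat.mod_eq_of_lt hc, Nat.div_eq_of_lt hc]
      simp
    have c1 : C * (1 + 2 ^ (v + 1) * r) = C + 2 ^ (v + 1) * (C * r) := by ring
    obtain ⟨y1, y2⟩ : (T &&& (C * (1 + 2 ^ (v + 1) * r))) % 2 ^ (v + 1) = T % 2 ^ (v + 1) &&& C ∧
        (T &&& (C * (1 + 2 ^ (v + 1) * r))) / 2 ^ (v + 1) = T / 2 ^ (v + 1) &&& (C * r) := by
      rw [Nat.and_mod_two_pow, Nat.and_div_two_pow, c1, (m1 C _ (by omega)).1,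
        (m1 C _ (by omega)).2]
      exact ⟨rfl, rfl⟩
    have y3 : T % 2 ^ (v + 1) &&& C ≤ C := Nat.and_le_right
    have y4 := Nat.div_add_mod (T &&& (C * (1 + 2 ^ (v + 1) * r))) (2 ^ (v + 1))
    rw [y1, y2] at y4
    have z : (T &&& (C * (1 + 2 ^ (v + 1) * r))) + (2 ^ v - 1) * (1 + 2 ^ (v + 1) * r)
        = ((T % 2 ^ (v + 1) &&& C) + (2 ^ v - 1))
          + 2 ^ (v + 1) * ((T / 2 ^ (v + 1) &&& (C * r)) + (2 ^ v - 1) * r) := by
      rw [← y4]
      ring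
    have z0 : (T % 2 ^ (v + 1) &&& C) + (2 ^ v - 1) < 2 ^ (v + 1) := by omega
    rw [z]
    generalize hx : T % 2 ^ (v + 1) &&& C = x at z0 ⊢
    generalize hZ : (T / 2 ^ (v + 1) &&& (C * r)) + (2 ^ v - 1) * r = Z
    generalize hV : (x + (2 ^ v - 1) + 2 ^ (v + 1) * Z) / 2 ^ v = V
    have g1 : (V &&& (1 + 2 ^ (v + 1) * r)) % 2 ^ (v + 1) = V % 2 := by
      rw [Nat.and_mod_two_pow, (m1 1 r (by omega)).1, Nat.and_one_is_mod,
        Nat.mod_mod_of_dvd _ (Dvd.intro _ hw.symm)]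
    have g2 : (V &&& (1 + 2 ^ (v + 1) * r)) / 2 ^ (v + 1) = Z / 2 ^ v &&& r := by
      rw [Nat.and_div_two_pow, (m1 1 r (by omega)).2, ← hV, Nat.div_div_eq_div_mul, mul_comm (2 ^ v),
        ← Nat.div_div_eq_div_mul, (m1 _ Z z0).2]
    have g3 := Nat.div_add_mod (V &&& (1 + 2 ^ (v + 1) * r)) (2 ^ (v + 1))
    rw [g1, g2] at g3
    have g4 : (V &&& (1 + 2 ^ (v + 1) * r)) * W
        = V % 2 * W + 2 ^ (v + 1) * ((Z / 2 ^ v &&& r) * W) := by
      rw [← g3]; ring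
    have g5 : V % 2 * W < 2 ^ (v + 1) := by
      rcases Nat.mod_two_eq_zero_or_one V with h | h <;> rw [h] <;> omega
    rw [g4]
    rcases j with _ | j
    · have h0 : x = 0 := by
        rw [← hx]
        simpa [fld] using h
      have : V % 2 = 0 := by
        rw [← hV, h0, hw, show 0 + (2 ^ v - 1) + 2 * 2 ^ v * Z = (2 ^ v - 1) + 2 ^ v * (2 * Z) by ring,
          Nat.add_mul_div_left _ _ ha, Nat.div_eq_of_lt (by omega)]
        omega
      show (_ >>> ((v + 1) * 0)) % 2 ^ (v + 1) = 0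
      rw [mul_zero, Nat.shiftRight_zero, (m1 _ _ g5).1, this, zero_mul]
    · rw [rw_fld_succ] at h ⊢
      rw [(m1 _ _ g5).2, ← hZ, ← hr, ← e]
      exact ih _ j (by omega) h

theorem tp_prep (R w n p : ℕ) (hp : (prep R w 0 n).testBit p = true) :
    R.testBit (p ^^^ 1) = true := by
  have hp' : ((((R >>> (w * 0)) &&& rep 2 (w * (n - 0) / 2)) <<< 1) |||
      (((R >>> (w * 0)) >>> 1) &&& rep 2 (w * (n - 0) / 2))).testBit p = true := hp
  simp only [Nat.testBit_or, Nat.testBit_and, Nat.testBit_shiftLeft, Nat.testBit_shiftRight,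
    ge_iff_le, Bool.or_eq_true, Bool.and_eq_true, decide_eq_true_eq, mul_zero, zero_add] at hp'
  rcases hp' with ⟨b1, b2, b3⟩ | ⟨b2, b3⟩
  · have := rw_even _ _ b3
    rwa [im_x1, if_neg (by omega)]
  · have := rw_even _ _ b3
    rwa [im_x1, if_pos this, add_comm p]

theorem tprop_sound {s : ℕ → ℝ} (hs : Valn s) {v W R off n F : ℕ} {fd : ℕ → ℕ}
    (hv : v % 2 = 1) (hoff : off % 2 = 0) (hW : W < 2 ^ v) (hfd : FoldOK (v + 1) n fd)
    (h : Lane s R (v + 1) off 0 n) (hF : Inv s F) :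
    Inv s (tprop v W R (prep R (v + 1) 0 n) (rep (v + 1) n) fd off F) := by
  obtain ⟨j, h1, h2, h3⟩ := h
  have hC : (F >>> off) &&& W < 2 ^ v := lt_of_le_of_lt Nat.and_le_right hW
  have hz : fld (v + 1) (prep R (v + 1) 0 n) j &&& ((F >>> off) &&& W) = 0 := by
    by_contra hne
    obtain ⟨q, hq⟩ := Nat.exists_testBit_of_ne_zero hne
    rw [Nat.testBit_and, Nat.testBit_and, rw_fld_bit, Nat.testBit_shiftRight] at hq
    simp only [Bool.and_eq_true, decide_eq_true_eq] at hq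
    obtain ⟨⟨q1, q2⟩, q3, -⟩ := hq
    have a := tp_prep R (v + 1) n _ q2
    rw [rw_x1 _ _ (by rw [Nat.mul_mod]; simp [show (v + 1) % 2 = 0 by omega])] at a
    have hq1 : q ^^^ 1 < v + 1 := by
      rw [im_x1]; split_ifs <;> omega
    have b := h3 (off + (q ^^^ 1)) (by
      rw [Nat.testBit_shiftLeft, rw_fld_bit]
      simp [hq1, a])
    rw [← rw_x1 _ _ hoff, hs.2.1] at b
    have := hF _ q3
    linarith
  have hd := tp_dead v W _ hC (by omega) n _ j h2 hz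
  intro l hl
  change (F ||| ((fd (R ||| dead v W (prep R (v + 1) 0 n) (rep (v + 1) n) ((F >>> off) &&& W))
    &&& W) <<< off)).testBit l = true at hl
  rw [Nat.testBit_or, Bool.or_eq_true] at hl
  rcases hl with hl | hl
  · exact hF l hl
  rw [Nat.testBit_shiftLeft, Nat.testBit_and] at hl
  simp only [Bool.and_eq_true, decide_eq_true_eq] at hl
  obtain ⟨l1, l2, l3⟩ := hl
  have hq : l - off < v + 1 := by
    by_contra hc
    rw [Nat.testBit_lt_two_pow (lt_of_lt_of_le hW (Nat.pow_le_pow_right (by norm_num) (by omega)))]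
      at l3
    exact Bool.false_ne_true l3
  have b := hfd _ j _ h2 hq l2
  rw [Nat.testBit_or] at b
  have b2 : (dead v W (prep R (v + 1) 0 n) (rep (v + 1) n) ((F >>> off) &&& W)).testBit
      ((v + 1) * j + (l - off)) = false := by
    have := congrArg (·.testBit (l - off)) hd
    simpa [rw_fld_bit, hq] using this
  rw [b2, Bool.or_false] at b
  exact h3 l (by
    rw [Nat.testBit_shiftLeft, rw_fld_bit]
    simp [l1, hq, b])

end AcuteCh
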