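import Pool.Agent.Lib.MP_bc94b4_co.Ch.Mach
import Pool.Agent.Lib.MP_bc94b4_co.Ch.TProp

/-! The valuations of a class of tuples; the parameters of the machine; chains of segments. -/

set_option autoImplicit false

namespace AcuteCh

/-- the valuations of the tuples in H -/
def SH (H : (Fin 10 → Pt) → Prop) (s : ℕ → ℝ) : Prop := ∃ X, H X ∧ s = cval X

theorem sh_mk {H : (Fin 10 → Pt) → Prop} {X : Fin 10 → Pt} (h : H X) : SH H (cval X) := ⟨X, h, rfl⟩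

theorem sh_valn {H : (Fin 10 → Pt) → Prop} (h : ∀ X, H X → Good X) (s : ℕ → ℝ) (hs : SH H s) :
    Valn s := by
  obtain ⟨X, hX, rfl⟩ := hs
  exact good_vc X (h X hX)

theorem vc_sh {H : (Fin 10 → Pt) → Prop} {D : ℕ} : Vc (SH H) D ↔ ∀ X, H X → ClM (cval X) D :=
  ⟨fun h _ hX => h _ (sh_mk hX), fun h _ ⟨X, hX, e⟩ => e ▸ h X hX⟩

theorem vi_sh {H : (Fin 10 → Pt) → Prop} {F : ℕ} : Vi (SH H) F ↔ ∀ X, H X → Inv (cval X) F :=
  ⟨fun h _ hX => h _ (sh_mk hX), fun h _ ⟨X, hX, e⟩ => e ▸ h X hX⟩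

/-- table step for point 8 (i = 0) or point 9 -/
def tpR (R n : ℕ) (fd : ℕ → ℕ) (i F : ℕ) : ℕ :=
  Nat.rec (tprop 143 0xfffffffffffffffffffffffffffffffffff R (prep R 144 0 n) (rep 144 n) fd 114 F)
    (fun _ _ => tprop 143 0xfffffffffffffffffffffffffffffffffff R (prep R 144 0 n) (rep 144 n) fd 254 F) i

/-- no table step -/
def tp0 (_i F : ℕ) : ℕ := F

def TpOk (S : (ℕ → ℝ) → Prop) (tp : ℕ → ℕ → ℕ) : Prop := ∀ i F s, S s → Inv s F → Inv s (tp i F)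
def AxOk (S : (ℕ → ℝ) → Prop) (ax : ℕ → ℕ → ℕ → ℕ → Bool) : Prop :=
  ∀ R F M d, ax R F M d = true → Vc S R → Vi S F → Vc S M
def ClOk (S : (ℕ → ℝ) → Prop) (cl : ℕ → ℕ → Bool) : Prop :=
  ∀ i F, cl i F = true → ∀ s, S s → ¬ Inv s F

theorem tp0_ok (S : (ℕ → ℝ) → Prop) : TpOk S tp0 := fun _ _ _ _ h => h

theorem tpR_ok {H : (Fin 10 → Pt) → Prop} {R n : ℕ} {fd : ℕ → ℕ} (hf : FoldOK 144 n fd)
    (h : ∀ X, H X → Good X ∧ Lane (cval X) R 144 114 0 n ∧ Lane (cval X) R 144 254 0 n) :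
    TpOk (SH H) (tpR R n fd) := by
  rintro i F s ⟨X, hX, rfl⟩ hF
  obtain ⟨h1, h2, h3⟩ := h X hX
  cases i with
  | zero => exact tprop_sound (v := 143) (good_vc X h1) rfl rfl (by norm_num) hf h2 hF
  | succ i => exact tprop_sound (v := 143) (good_vc X h1) rfl rfl (by norm_num) hf h3 hF

/-- the parameters of the machine are sound for the class S -/
def Env (S : (ℕ → ℝ) → Prop) (tp : ℕ → ℕ → ℕ) (ax : ℕ → ℕ → ℕ → ℕ → Bool) (cl : ℕ → ℕ → Bool) : Prop :=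
  (∀ s, S s → Valn s) ∧ TpOk S tp ∧ AxOk S ax ∧ ClOk S cl

/-- a segment that leads from radix B and false mask F to Bo and Fo -/
noncomputable def sg (ms : ℕ → ℕ) (tp : ℕ → ℕ → ℕ) (ax : ℕ → ℕ → ℕ → ℕ → Bool) (cl : ℕ → ℕ → Bool)
    (n H : ℕ) (L : List ℕ) (B F Bo Fo : ℕ) : Bool :=
  Nat.blt 0 B && Nat.beq (run ms (sp ms tp ax cl (finT Bo Fo)) n H B F (Cx.mk St.top L)) 0

/-- state between two segments -/
def Vs (S : (ℕ → ℝ) → Prop) (ms : ℕ → ℕ) (B F : ℕ) : Prop := Vm S ms B ∧ Vi S F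

theorem sg_ok {S : (ℕ → ℝ) → Prop} {ms : ℕ → ℕ} {tp : ℕ → ℕ → ℕ} {ax : ℕ → ℕ → ℕ → ℕ → Bool}
    {cl : ℕ → ℕ → Bool} (E : Env S tp ax cl) {n H B F Bo Fo : ℕ} {L : List ℕ}
    (h : sg ms tp ax cl n H L B F Bo Fo = true) (hm : Vs S ms B F) : Vs S ms Bo Fo := by
  rw [sg, Bool.and_eq_true, Nat.blt_eq] at h
  exact seg_ok E.1 E.2.1 E.2.2.1 E.2.2.2 h.2 h.1 hm

/-- the constant literal is false: the class is empty -/
theorem vs_end {H : (Fin 10 → Pt) → Prop} {ms : ℕ → ℕ} {tp : ℕ → ℕ → ℕ}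
    {ax : ℕ → ℕ → ℕ → ℕ → Bool} {cl : ℕ → ℕ → Bool} (E : Env (SH H) tp ax cl) {B : ℕ}
    (h : Vs (SH H) ms B 1) (X : Fin 10 → Pt) : ¬ H X := fun hX => by
  have h1 := h.2 _ (sh_mk hX) 0 rfl
  rw [(E.1 _ (sh_mk hX)).2.2] at h1
  linarith

/-- the literal 1 is false -/
theorem inv_two {s : ℕ → ℝ} (hs : Valn s) {B : ℕ} (h : Inv s B) : Inv s (Nat.lor B 2) :=
  inv_or h fun l hl => by
    rw [show (2 : ℕ) = 2 ^ 1 from rfl, Nat.testBit_two_pow, decide_eq_true_eq] at hl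
    have h1 := hs.2.1 0
    rw [hs.2.2] at h1
    rw [← hl, show (1 : ℕ) = 0 ^^^ 1 from rfl, h1]
    norm_num

end AcuteCh
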