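import Pool.Agent.Lib.MP_bc94b4_co.Ch.Rel
import Pool.Agent.Lib.MP_bc94b4_co.Ch.Defs2
import Pool.Agent.Lib.MP_bc94b4_co.Ch.TabD

/-! Tables of compact literals and their meaning. -/

set_option autoImplicit false

namespace AcuteCh

theorem f3_eq (T i : ℕ) : f3 T i = fld 3 T i := Nat.and_two_pow_sub_one_eq_mod _ 3
theorem f4_eq (T i : ℕ) : f4 T i = fld 4 T i := Nat.and_two_pow_sub_one_eq_mod _ 4
theorem f6_eq (T i : ℕ) : f6 T i = fld 6 T i := Nat.and_two_pow_sub_one_eq_mod _ 6
theorem f8_eq (T i : ℕ) : f8 T i = fld 8 T i := Nat.and_two_pow_sub_one_eq_mod _ 8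
theorem f16_eq (T i : ℕ) : f16 T i = fld 16 T i := Nat.and_two_pow_sub_one_eq_mod _ 16
theorem f24_eq (T i : ℕ) : f24 T i = fld 24 T i := Nat.and_two_pow_sub_one_eq_mod _ 24
theorem f96_eq (T i : ℕ) : f96 T i = fld 96 T i := Nat.and_two_pow_sub_one_eq_mod _ 96
theorem fR_eq (w T i : ℕ) : fR w T i = fld w T i := rfl

theorem f3_lt (T i : ℕ) : f3 T i < 8 := by rw [f3_eq]; exact lit_fld_lt 3 _ _
theorem f6_lt (T i : ℕ) : f6 T i < 64 := by rw [f6_eq]; exact lit_fld_lt 6 _ _
theorem f8_lt (T i : ℕ) : f8 T i < 256 := by rw [f8_eq]; exact lit_fld_lt 8 _ _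
theorem f16_lt (T i : ℕ) : f16 T i < 65536 := by rw [f16_eq]; exact lit_fld_lt 16 _ _

theorem allB_spec {n : ℕ} {p : ℕ → Bool} (h : allB n p = true) : ∀ i < n, p i = true := by
  induction n with
  | zero => intro i hi; omega
  | succ n ih =>
    intro i hi
    have h2 : (p n && allB n p) = true := h
    rw [Bool.and_eq_true] at h2
    by_cases e : i = n
    · rw [e]; exact h2.1
    · exact ih h2.2 i (by omega)

theorem fld_fld (w k T c n : ℕ) (hn : n < k) : fld w (fld (w * k) T c) n = fld w T (k * c + n) := by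
  apply Nat.eq_of_testBit_eq
  intro i
  simp only [fld, Nat.testBit_mod_two_pow, Nat.testBit_shiftRight]
  by_cases hi : i < w
  · have h1 : w * n + i < w * k := by nlinarith
    simp only [hi, h1, decide_true, Bool.true_and]
    congr 1
    ring
  · simp [hi]

theorem cval_xor (X : Fin 10 → Pt) (l : ℕ) : cval X (l ^^^ 1) = - cval X l := by
  unfold cval; rw [ren_xor, sval_xor]

theorem cval_zero (X : Fin 10 → Pt) : cval X 0 = 1 := sval_zero _

theorem xor_lt16 {a b : ℕ} (ha : a < 65536) (hb : b < 65536) : a ^^^ b < 65536 :=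
  Nat.xor_lt_two_pow (n := 16) ha hb

def dbOK (r row i : ℕ) : Bool :=
  if f16 C3 i = 0 then f16 row i == 0
  else ren (f16 row i) == 2 * dbM r (f16 C3 i) + f16 C3 i / 32768 && f16 row i != 0

theorem tab_db : allB 45 (fun r => allB 8 fun u => allB 64 fun v => dbOK r (dbR r) (v + 64 * u))
    = true := by decide +kernel

theorem dbC_spec (X : Fin 10 → Pt) {r x y z : ℕ} (hr : r < 45) (hx : x < 8) (hy : y < 8)
    (hz : z < 8) : (f16 (dbR r) (x + 8 * y + 64 * z) = 0 ↔ g3c x y z = 0) ∧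
    (g3c x y z ≠ 0 → cval X (f16 (dbR r) (x + 8 * y + 64 * z)) = db (ext X) (kk r) x y z) := by
  have h := allB_spec (allB_spec (allB_spec tab_db r hr) z hz) (x + 8 * y) (by omega)
  have e : f16 C3 (x + 8 * y + 64 * z) = g3c x y z := f16_eq _ _
  simp only [dbOK, e] at h
  by_cases h0 : g3c x y z = 0
  · rw [if_pos h0] at h
    exact ⟨⟨fun _ => h0, fun _ => by simpa using h⟩, fun h => absurd h0 h⟩
  · rw [if_neg h0, Bool.and_eq_true, beq_iff_eq, bne_iff_ne] at h
    refine ⟨⟨fun h1 => absurd h1 h.2, fun h1 => absurd h1 h0⟩, fun _ => ?_⟩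
    rw [cval, h.1]
    exact dbL_val _ hr hx hy hz h0

theorem dbC_val (X : Fin 10 → Pt) {r x y z : ℕ} (hr : r < 45) (hx : x < 8) (hy : y < 8)
    (hz : z < 8) (h1 : x ≠ y) (h2 : x ≠ z) (h3 : y ≠ z) :
    cval X (f16 (dbR r) (x + 8 * y + 64 * z)) = db (ext X) (kk r) x y z :=
  (dbC_spec X hr hx hy hz).2 fun h => by
    rcases (lit_c3 x hx y hy z hz).1 h with h | h | h <;> contradiction

theorem tab_j8 : ∀ r < 45, ∀ b < 8, ∀ a < b, Is6 (f8 J8 (64 * r + (a + 8 * b))) r a b ∧
    f8 J8 (64 * r + (b + 8 * a)) = f8 J8 (64 * r + (a + 8 * b)) := by decide +kernel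

/-- delete bit c -/
def del (c h : ℕ) : ℕ := h % 2 ^ c + h / 2 ^ (c + 1) * 2 ^ c

theorem del_testBit (c h i : ℕ) :
    (del c h).testBit i = h.testBit (if i < c then i else i + 1) := by
  rw [del, Nat.add_comm, Nat.mul_comm, Nat.testBit_two_pow_mul_add _ (Nat.mod_lt _ (by positivity))]
  split_ifs with hi
  · simp [Nat.testBit_mod_two_pow, hi]
  · rw [Nat.testBit_div_two_pow]
    congr 1
    omega

theorem tab_rest : ∀ y < 8, ∀ x < y, ∀ i < 6, rest2 x y i =
    if (if i < x then i else i + 1) < y then (if i < x then i else i + 1)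
    else (if i < x then i else i + 1) + 1 := by decide +kernel

theorem isRes_del {x y h : ℕ} (hxy : x < y) (hy : y < 8) (h1 : del x (del y h) < 63)
    (h2 : del x (del y h) = 0 ↔ h = 0) : IsRes (del x (del y h)) h x y :=
  ⟨h1, h2, fun i hi => by rw [del_testBit, del_testBit, tab_rest y hy x hxy i hi]⟩

def RsOK1 (m h x s : ℕ) : Prop := m < 63 ∧ (m = 0 ↔ h = 0) ∧ x = 64 + (loc m ^^^ s)

instance (m h x s : ℕ) : Decidable (RsOK1 m h x s) := by unfold RsOK1; infer_instance

def RsOK (a b h x : ℕ) : Prop :=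
  x ≠ 0 → a ≠ b ∧
    if x < 128 then
      RsOK1 (del (min a b) (del (max a b) h)) h x ((a + b + 1 + if a < b then 0 else 1) % 2)
    else h ≠ 0 ∧ (x - 128) / 128 < 8 ∧ (x - 128) / 2 = a + 8 * b + 64 * ((x - 128) / 128) ∧
      (x - 128) / 128 ≠ a ∧ (x - 128) / 128 ≠ b ∧
      ∀ y < 8, y ≠ a → y ≠ b → h.testBit y = (decide (y = (x - 128) / 128) ^^ decide (x % 2 = 1))

instance (a b h x : ℕ) : Decidable (RsOK a b h x) := by unfold RsOK; infer_instance

theorem tab_rs : allB 8 (fun a => allB 8 fun b => allB 16 fun u => allB 16 fun v =>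
    decide (RsOK a b (16 * u + v) (f16 (fR 4096 RS (a + 8 * b)) (16 * u + v)))) = true := by
  decide +kernel

theorem gen_add_xor (A l b : ℕ) (hb : b < 2) : 2 * A + (l ^^^ b) = (2 * A + l) ^^^ b := by
  interval_cases b
  · simp
  · rcases Nat.even_or_odd l with h | h
    · rw [Nat.xor_one_of_even h, Nat.xor_one_of_even (by
        rw [Nat.even_iff] at h ⊢; omega)]
      omega
    · rw [Nat.xor_one_of_odd h, Nat.xor_one_of_odd (by
        rw [Nat.odd_iff] at h ⊢; omega)]
      have := Nat.odd_iff.1 h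
      omega

theorem sval_xor_b (P : ℕ → Pt) (l b : ℕ) : sval P (l ^^^ (b % 2)) = (-1) ^ b * sval P l := by
  rcases Nat.even_or_odd b with h | h
  · rw [Nat.even_iff.1 h, h.neg_one_pow]; simp
  · rw [Nat.odd_iff.1 h, h.neg_one_pow, sval_xor]; simp

theorem loc_lt {m : ℕ} (hm : m < 64) : loc m < 64 := by
  rw [loc]; split_ifs <;> omega

theorem dlC_val (X : Fin 10 → Pt) {r a b h : ℕ} (hr : r < 45) (ha : a < 8) (hb : b < 8)
    (hh : h < 256) (hx : f16 (fR 4096 RS (a + 8 * b)) h ≠ 0) :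
    a ≠ b ∧ dlC (dbR r) (f8 J8 (64 * r + (a + 8 * b))) (f16 (fR 4096 RS (a + 8 * b)) h) < 65536 ∧
    cval X (dlC (dbR r) (f8 J8 (64 * r + (a + 8 * b))) (f16 (fR 4096 RS (a + 8 * b)) h))
      = dl (ext X) (gh (ext X) r h) (kk r) a b := by
  have h1 := allB_spec (allB_spec (allB_spec (allB_spec tab_rs a ha) b hb) (h / 16) (by omega))
    (h % 16) (by omega)
  rw [show 16 * (h / 16) + h % 16 = h by omega, decide_eq_true_eq] at h1
  generalize f16 (fR 4096 RS (a + 8 * b)) h = x at h1 hx ⊢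
  obtain ⟨hab, h2⟩ := h1 hx
  have hj := f8_lt J8 (64 * r + (a + 8 * b))
  refine ⟨hab, ?_⟩
  by_cases hlt : x < 128
  · rw [if_pos hlt] at h2
    obtain ⟨h31, h32, h4⟩ := h2
    have h3 := isRes_del (min_lt_max.2 hab) (max_lt ha hb) h31 h32
    have e : dlC (dbR r) (f8 J8 (64 * r + (a + 8 * b))) x
        = 448 + 64 * f8 J8 (64 * r + (a + 8 * b)) + x := by
      have : Nat.blt x 128 = true := by rw [Nat.blt_eq]; exact hlt
      rw [dlC, this]; rfl
    rw [e]
    refine ⟨by omega, ?_⟩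
    have e2 : ren (448 + 64 * f8 J8 (64 * r + (a + 8 * b)) + x)
        = svL (f8 J8 (64 * r + (a + 8 * b))) (del (min a b) (del (max a b) h))
          ^^^ ((a + b + 1 + if a < b then 0 else 1) % 2) := by
      rw [ren, if_neg (by omega), svL, show 2048 + 64 * f8 J8 (64 * r + (a + 8 * b))
        = 2 * (1024 + 32 * f8 J8 (64 * r + (a + 8 * b))) by ring,
        ← gen_add_xor _ _ _ (Nat.mod_lt _ (by norm_num))]
      omega
    rw [cval, e2, sval_xor_b]
    rcases lt_or_gt_of_ne hab with hlt | hgt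
    · rw [min_eq_left hlt.le, max_eq_right hlt.le] at h3 ⊢
      rw [dl_val _ hr (tab_j8 r hr b hb a hlt).1 h3, if_pos hlt]
    · rw [min_eq_right hgt.le, max_eq_left hgt.le] at h3 ⊢
      rw [rel_dl_swap _ _ _ hb ha, (tab_j8 r hr a ha b hgt).2,
        dl_val _ hr (tab_j8 r hr a ha b hgt).1 h3, if_neg (by omega), Nat.add_comm b a, pow_succ]
      ring
  · rw [if_neg hlt] at h2
    obtain ⟨h0, hz, h3, hza, hzb, h4⟩ := h2
    have e : dlC (dbR r) (f8 J8 (64 * r + (a + 8 * b))) x
        = f16 (dbR r) ((x - 128) / 2) ^^^ (x % 2) := by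
      have : Nat.blt x 128 = false := by
        cases hc : Nat.blt x 128
        · rfl
        · rw [Nat.blt_eq] at hc; exact absurd hc hlt
      rw [dlC, this]; rfl
    rw [e]
    refine ⟨xor_lt16 (f16_lt _ _) (by omega), ?_⟩
    generalize (x - 128) / 128 = z at hz h3 hza hzb h4
    have e2 : cval X (f16 (dbR r) ((x - 128) / 2) ^^^ (x % 2))
        = (-1) ^ x * db (ext X) (kk r) a b z := by
      rw [← dbC_val X hr ha hb hz hab hza.symm hzb.symm, ← h3]
      rcases Nat.even_or_odd x with h | h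
      · rw [Nat.even_iff.1 h, h.neg_one_pow]; simp
      · rw [Nat.odd_iff.1 h, h.neg_one_pow, cval_xor]; simp
    have hsum : ∑ y ∈ Finset.range 8, db (ext X) (kk r) a b y = 0 := by
      simpa using g3_dep (ext X) (kk r) ha hb 0
    have hone : ∑ y ∈ Finset.range 8, (if y = z then 1 else 0) * db (ext X) (kk r) a b y
        = db (ext X) (kk r) a b z := by
      simp [Finset.mem_range.2 hz]
    have hterm : ∀ y ∈ Finset.range 8, gh (ext X) r h (kk r y) * db (ext X) (kk r) a b y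
        = (if x % 2 = 1 then 1 - (if y = z then 1 else 0) else (if y = z then 1 else 0))
          * db (ext X) (kk r) a b y := fun y hy => by
      have hy := Finset.mem_range.1 hy
      by_cases ya : y = a
      · rw [ya, g3_z02 _ _ ha hb]; simp
      by_cases yb : y = b
      · rw [yb, g3_z12 _ _ ha hb]; simp
      rw [gh, if_neg h0]
      simp only [rel_posn r hr y hy, bt, h4 y hy ya yb]
      by_cases c1 : y = z <;> by_cases c2 : x % 2 = 1 <;> simp [c1, c2]
    rw [e2, dl, Finset.sum_congr rfl hterm]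
    rcases Nat.even_or_odd x with h | h
    · have : ¬ x % 2 = 1 := by rw [Nat.even_iff] at h; omega
      simp only [if_neg this]
      rw [hone, h.neg_one_pow, one_mul]
    · simp only [if_pos (Nat.odd_iff.1 h), sub_mul, one_mul, Finset.sum_sub_distrib]
      rw [hone, hsum, h.neg_one_pow]; ring

theorem tab_lr : ∀ j < 210, ∀ i < 6, ren (f16 (f96 LR j) i) = lamL j i := by decide +kernel

theorem tab_sg : ∀ m < 64, f4 SG m ≠ 0 → f4 SG m / 2 - 1 < 6 ∧
    m = if f4 SG m % 2 = 0 then 2 ^ (f4 SG m / 2 - 1) else 63 - 2 ^ (f4 SG m / 2 - 1) := by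
  decide +kernel

/-- compact literal of a subset sum; a bracket literal for one position or all but one -/
noncomputable def csL (j m : ℕ) : ℕ :=
  if f4 SG m = 0 then 512 + 64 * j + loc m else f16 (f96 LR j) (f4 SG m / 2 - 1) ^^^ (f4 SG m % 2)

theorem csL_lt {j m : ℕ} (hj : j < 210) (hm : m < 64) : csL j m < 65536 := by
  have := loc_lt hm
  rw [csL]
  split_ifs
  · omega
  · exact xor_lt16 (f16_lt _ _) (by omega)

theorem csL_val (X : Fin 10 → Pt) {j m : ℕ} (hj : j < 210) (hm : m < 64) :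
    cval X (csL j m) = sval (ext X) (svL j m) := by
  rw [csL]
  split_ifs with h
  · rw [cval, ren, if_neg (by omega), svL]
    congr 1
    omega
  · obtain ⟨h1, h2⟩ := tab_sg m hm h
    generalize f4 SG m / 2 - 1 = i at h1 h2
    by_cases h3 : f4 SG m % 2 = 0
    · rw [if_pos h3] at h2
      rw [h3, Nat.xor_zero, cval, tab_lr j hj i h1, h2, rel_single _ hj h1]
    · rw [if_neg h3] at h2
      have h4 : 0 < 2 ^ i ∧ 2 ^ i < 63 := by interval_cases i <;> norm_num
      rw [show f4 SG m % 2 = 1 by omega, cval_xor, cval, tab_lr j hj i h1, h2,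
        ← rel_single _ hj h1, svL_val _ hj h4.1 h4.2, svL_val _ hj (by omega) (by omega),
        sv_compl _ (by omega)]

end AcuteCh
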