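import Pool.Agent.Lib.MP_bc94b4_co.Ch.Defs
import Pool.Agent.Lib.MP_bc94b4_co.Main
import Pool.Agent.Lib.MP_bc94b4_co.Up.Final

/-! If no ten points of 4-space are acute, the two maxima differ in dimension four. -/

set_option autoImplicit false

namespace AcuteCh

theorem top_card (h : ∀ X : Fin 10 → Pt, ¬ Acute (ext X))
    (S : Finset (EuclideanSpace ℝ (Fin 4)))
    (hS : ∀ a ∈ S, ∀ b ∈ S, ∀ c ∈ S, a ≠ b → b ≠ c → a ≠ c →
      EuclideanGeometry.angle a b c < Real.pi / 2) : S.card ≤ 9 := by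
  by_contra hc
  have hc' : Fintype.card (Fin 10) ≤ Fintype.card S := by
    rw [Fintype.card_fin, Fintype.card_coe]
    omega
  obtain ⟨f⟩ := Function.Embedding.nonempty_of_card_le hc'
  let Y : Fin 10 → EuclideanSpace ℝ (Fin 4) := fun i => (f i : EuclideanSpace ℝ (Fin 4))
  have hY : Function.Injective Y := Subtype.val_injective.comp f.injective
  have hdot : ∀ u v : EuclideanSpace ℝ (Fin 4), dot u.ofLp v.ofLp = inner ℝ u v := by
    intro u v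
    simp [dot, PiLp.inner_apply, mul_comm]
  refine h (fun i => (Y i).ofLp) fun a ha b hb c hc hab hac => ?_
  simp only [ext, dif_pos ha, dif_pos hb, dif_pos hc]
  rw [← WithLp.ofLp_sub, ← WithLp.ofLp_sub, hdot]
  have hab' : Y ⟨b, hb⟩ ≠ Y ⟨a, ha⟩ := fun e => hab (congrArg Fin.val (hY e)).symm
  have hac' : Y ⟨a, ha⟩ ≠ Y ⟨c, hc⟩ := fun e => hac (congrArg Fin.val (hY e))
  by_cases hbc : Y ⟨b, hb⟩ = Y ⟨c, hc⟩
  · rw [← hbc]
    exact real_inner_self_pos.2 (sub_ne_zero.2 hab')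
  · have := hS _ (f ⟨b, hb⟩).2 _ (f ⟨a, ha⟩).2 _ (f ⟨c, hc⟩).2 hab' hac' hbc
    have h2 := Real.arccos_lt_pi_div_two.1 this
    exact (div_pos_iff_of_pos_right (mul_pos (norm_pos_iff.2 (sub_ne_zero.2 hab'))
      (norm_pos_iff.2 (sub_ne_zero.2 hac'.symm)))).1 h2

theorem top (h : ∀ X : Fin 10 → Pt, ¬ Acute (ext X)) :
    ¬ (∀ d : ℕ, 4 ≤ d →
      sSup {n : ℕ | ∃ S : Finset (EuclideanSpace ℝ (Fin d)), S.card = n ∧
        ∀ a ∈ S, ∀ b ∈ S, ∀ c ∈ S, a ≠ b → b ≠ c → a ≠ c →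
          EuclideanGeometry.angle a b c < Real.pi / 2}
      =
      sSup {n : ℕ | ∃ S : Finset (EuclideanSpace ℝ (Fin d)), S.card = n ∧
        ∀ x ∈ S, ∀ y ∈ S, x ≠ y →
          ∃ u : EuclideanSpace ℝ (Fin d), ∀ z ∈ S,
            (z ≠ x → inner ℝ u z < inner ℝ u x) ∧
            (z ≠ y → inner ℝ u y < inner ℝ u z)}) := by
  intro H
  have H4 := H 4 le_rfl
  have h9 : sSup {n : ℕ | ∃ S : Finset (EuclideanSpace ℝ (Fin 4)), S.card = n ∧
      ∀ a ∈ S, ∀ b ∈ S, ∀ c ∈ S, a ≠ b → b ≠ c → a ≠ c →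
        EuclideanGeometry.angle a b c < Real.pi / 2} ≤ 9 := by
    refine csSup_le' ?_
    rintro n ⟨S, rfl, hS⟩
    exact top_card h S hS
  rw [H4] at h9
  obtain ⟨Q, hQ⟩ := Pool.Agent.Bc94b4.exists_family (κ := Fin 1)
  obtain ⟨S, hS, hA⟩ := Pool.Agent.Bc94b4.transfer (d := 4)
    (Fintype.equivFinOfCardEq (by simp)) Q hQ
  have h10 : S.card = 10 := by rw [hS]; simp
  refine absurd (le_trans (a := 10) (le_csSup ?_ ?_) h9) (by norm_num)
  swap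
  · exact ⟨S, h10, hA⟩
  refine ⟨16, ?_⟩
  rintro n ⟨T, rfl, hT⟩
  have hb : (T.card : ℝ) ≤ (1 - 1 / (10 ^ 10 * (((4 : ℕ) : ℝ) + 2) ^ 30)) * 2 ^ 4 := by
    refine Pool.Agent.Bc94b4.Up.upper finrank_euclideanSpace_fin (by norm_num) T
      fun x hx y hy hxy => ?_
    obtain ⟨u, hu⟩ := hT x hx y hy hxy
    exact ⟨innerₛₗ ℝ u, hu⟩
  have hp : (0 : ℝ) < 1 / (10 ^ 10 * (((4 : ℕ) : ℝ) + 2) ^ 30) := by positivity
  have : (T.card : ℝ) ≤ ((16 : ℕ) : ℝ) := by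
    push_cast
    linarith
  exact_mod_cast this

end AcuteCh
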